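import Pool.Agent.W_MP_4b1b5d_an.AbsDefs

set_option autoImplicit false

/-!
# A2: pure algebra identity

Let `Φ = ∑ K_ab e^{(m-a-b)/2} p^a y^b`.  From `y² + p² = 1 - 2eU`, `𝒯 p = 𝒟 y`, `𝒟 e = 𝒯 e = 0`:
`p 𝒟p + y 𝒯p = p 𝒟p + y 𝒟y = ½ 𝒟(p²+y²) = - e 𝒟U`,
`p 𝒟y + y 𝒯y = p 𝒯p + y 𝒯y = ½ 𝒯(p²+y²) = - e 𝒯U`.  Hence
`p 𝒟Φ + y 𝒯Φ = ∑ (p 𝒟K_ab + y 𝒯K_ab) e^{(m-a-b)/2} p^a y^b
   - ∑ K_ab e^{(m-a-b)/2+1} (a p^{a-1} y^b 𝒟U + b p^a y^{b-1} 𝒯U)`,
and this vanishes: multiply `pde a b` by `e^{(m+1-a-b)/2} p^a y^b` and sum over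
`a, b ≤ m + 1` (`(m+1-a-b)/2 = (m-(a+1)-b)/2 + 1` whenever `a+1+b ≤ m` and `m-(a+1+b)` is even;
all other `K (a+1) b` vanish; similarly for the other terms).
-/

namespace Pool.Agent.W_MP_4b1b5d_an

theorem AbsAlg_half {R : Type} [CommRing R] [Algebra ℝ R] {a b : R} (h : 2 * a = 2 * b) : a = b := by
  have h1 : ((2 : ℝ)⁻¹) • (2 * a) = ((2 : ℝ)⁻¹) • (2 * b) := by rw [h]
  have h2 : ∀ c : R, ((2 : ℝ)⁻¹) • (2 * c) = c := by
    intro c
    have h3 : (2 : R) * c = (2 : ℝ) • c := by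
      rw [Algebra.smul_def, map_ofNat]
    rw [h3, smul_smul, inv_mul_cancel₀ (by norm_num), one_smul]
  rwa [h2, h2] at h1

theorem AbsAlg_A {R : Type} [CommRing R] [Algebra ℝ R] (D : Derivation ℝ R R)
    (p y e : R) (m : ℕ) (K : ℕ → ℕ → R)
    (hK : ∀ a b, ¬ (a + b ≤ m ∧ Even (m - (a + b))) → K a b = 0) :
    ∑ a ∈ Finset.range (m + 2), ∑ b ∈ Finset.range (m + 2),
        D (sh0 K a b) * e ^ ((m + 1 - (a + b)) / 2) * p ^ a * y ^ b
      = ∑ a ∈ Finset.range (m + 1), ∑ b ∈ Finset.range (m + 1),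
        p * D (K a b) * e ^ ((m - (a + b)) / 2) * p ^ a * y ^ b := by
  rw [Finset.sum_range_succ']
  have h0 : ∑ b ∈ Finset.range (m + 2),
      D (sh0 K 0 b) * e ^ ((m + 1 - (0 + b)) / 2) * p ^ 0 * y ^ b = 0 := by
    refine Finset.sum_eq_zero fun b _ => ?_
    simp [sh0]
  rw [h0, add_zero]
  refine Finset.sum_congr rfl fun a _ => ?_
  rw [Finset.sum_range_succ]
  have h1 : D (sh0 K (a + 1) (m + 1)) = 0 := by
    show D (K a (m + 1)) = 0
    rw [hK a (m + 1) (by omega), map_zero]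
  rw [h1, zero_mul, zero_mul, zero_mul, add_zero]
  refine Finset.sum_congr rfl fun b _ => ?_
  have h2 : m + 1 - (a + 1 + b) = m - (a + b) := by omega
  rw [h2]
  show D (K a b) * e ^ ((m - (a + b)) / 2) * p ^ (a + 1) * y ^ b = _
  rw [pow_succ]
  ring

theorem AbsAlg_B {R : Type} [CommRing R] [Algebra ℝ R] (D : Derivation ℝ R R)
    (p y e : R) (m : ℕ) (K : ℕ → ℕ → R)
    (hK : ∀ a b, ¬ (a + b ≤ m ∧ Even (m - (a + b))) → K a b = 0) :
    ∑ a ∈ Finset.range (m + 2), ∑ b ∈ Finset.range (m + 2),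
        D (sh1 K a b) * e ^ ((m + 1 - (a + b)) / 2) * p ^ a * y ^ b
      = ∑ a ∈ Finset.range (m + 1), ∑ b ∈ Finset.range (m + 1),
        y * D (K a b) * e ^ ((m - (a + b)) / 2) * p ^ a * y ^ b := by
  rw [Finset.sum_range_succ]
  have h0 : ∑ b ∈ Finset.range (m + 2),
      D (sh1 K (m + 1) b) * e ^ ((m + 1 - (m + 1 + b)) / 2) * p ^ (m + 1) * y ^ b = 0 := by
    refine Finset.sum_eq_zero fun b _ => ?_
    cases b with
    | zero => simp [sh1]
    | succ b =>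
      have h3 : sh1 K (m + 1) (b + 1) = 0 := hK (m + 1) b (by omega)
      rw [h3, map_zero]
      ring
  rw [h0, add_zero]
  refine Finset.sum_congr rfl fun a _ => ?_
  rw [Finset.sum_range_succ']
  have h1 : D (sh1 K a 0) = 0 := by simp [sh1]
  rw [h1, zero_mul, zero_mul, zero_mul, add_zero]
  refine Finset.sum_congr rfl fun b _ => ?_
  have h2 : m + 1 - (a + (b + 1)) = m - (a + b) := by omega
  rw [h2]
  show D (K a b) * e ^ ((m - (a + b)) / 2) * p ^ a * y ^ (b + 1) = _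
  rw [pow_succ]
  ring

theorem AbsAlg_C {R : Type} [CommRing R] [Algebra ℝ R] (u : R)
    (p y e : R) (m : ℕ) (K : ℕ → ℕ → R)
    (hK : ∀ a b, ¬ (a + b ≤ m ∧ Even (m - (a + b))) → K a b = 0) :
    ∑ a ∈ Finset.range (m + 2), ∑ b ∈ Finset.range (m + 2),
        ((a : ℝ) + 1) • (u * K (a + 1) b) * e ^ ((m + 1 - (a + b)) / 2) * p ^ a * y ^ b
      = ∑ a ∈ Finset.range (m + 1), ∑ b ∈ Finset.range (m + 1),
        K a b * e ^ ((m - (a + b)) / 2) * ((a : R) * p ^ (a - 1) * y ^ b) * (e * u) := by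
  rw [Finset.sum_range_succ, Finset.sum_range_succ]
  have h0 : ∀ a : ℕ, m ≤ a → ∑ b ∈ Finset.range (m + 2),
      ((a : ℝ) + 1) • (u * K (a + 1) b) * e ^ ((m + 1 - (a + b)) / 2) * p ^ a * y ^ b = 0 := by
    intro a ha
    refine Finset.sum_eq_zero fun b _ => ?_
    rw [hK (a + 1) b (by omega)]
    simp
  rw [h0 m le_rfl]
  have h0' := h0 (m + 1) (by omega)
  rw [h0', add_zero, add_zero, Finset.sum_range_succ' _ m]
  have h3 : ∑ b ∈ Finset.range (m + 1),
      K 0 b * e ^ ((m - (0 + b)) / 2) * (((0 : ℕ) : R) * p ^ (0 - 1) * y ^ b) * (e * u) = 0 := by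
    refine Finset.sum_eq_zero fun b _ => ?_
    rw [Nat.cast_zero]
    ring
  rw [h3, add_zero]
  refine Finset.sum_congr rfl fun a _ => ?_
  rw [Finset.sum_range_succ]
  have h4 : K (a + 1) (m + 1) = 0 := hK _ _ (by omega)
  rw [h4, mul_zero, smul_zero, zero_mul, zero_mul, zero_mul, add_zero]
  refine Finset.sum_congr rfl fun b _ => ?_
  by_cases h5 : a + 1 + b ≤ m ∧ Even (m - (a + 1 + b))
  · obtain ⟨h6, c, hc⟩ := h5
    have h7 : (m + 1 - (a + b)) / 2 = (m - (a + 1 + b)) / 2 + 1 := by omega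
    rw [h7, pow_succ, Nat.add_sub_cancel, Algebra.smul_def, map_add, map_one, map_natCast]
    push_cast
    ring
  · rw [hK _ _ h5]
    simp

theorem AbsAlg_D {R : Type} [CommRing R] [Algebra ℝ R] (u : R)
    (p y e : R) (m : ℕ) (K : ℕ → ℕ → R)
    (hK : ∀ a b, ¬ (a + b ≤ m ∧ Even (m - (a + b))) → K a b = 0) :
    ∑ a ∈ Finset.range (m + 2), ∑ b ∈ Finset.range (m + 2),
        ((b : ℝ) + 1) • (u * K a (b + 1)) * e ^ ((m + 1 - (a + b)) / 2) * p ^ a * y ^ b
      = ∑ a ∈ Finset.range (m + 1), ∑ b ∈ Finset.range (m + 1),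
        K a b * e ^ ((m - (a + b)) / 2) * ((b : R) * p ^ a * y ^ (b - 1)) * (e * u) := by
  rw [Finset.sum_range_succ]
  have h0 : ∑ b ∈ Finset.range (m + 2),
      ((b : ℝ) + 1) • (u * K (m + 1) (b + 1)) * e ^ ((m + 1 - (m + 1 + b)) / 2) * p ^ (m + 1)
        * y ^ b = 0 := by
    refine Finset.sum_eq_zero fun b _ => ?_
    rw [hK (m + 1) (b + 1) (by omega)]
    simp
  rw [h0, add_zero]
  refine Finset.sum_congr rfl fun a _ => ?_
  rw [Finset.sum_range_succ, Finset.sum_range_succ, Finset.sum_range_succ' _ m]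
  rw [hK a (m + 1) (by omega), hK a (m + 1 + 1) (by omega)]
  rw [mul_zero, smul_zero, zero_mul, zero_mul, zero_mul, smul_zero, zero_mul, zero_mul,
    zero_mul, add_zero, add_zero, Nat.cast_zero]
  rw [show K a 0 * e ^ ((m - (a + 0)) / 2) * ((0 : R) * p ^ a * y ^ (0 - 1)) * (e * u) = 0 by ring,
    add_zero]
  refine Finset.sum_congr rfl fun b _ => ?_
  by_cases h5 : a + (b + 1) ≤ m ∧ Even (m - (a + (b + 1)))
  · obtain ⟨h6, c, hc⟩ := h5
    have h7 : (m + 1 - (a + b)) / 2 = (m - (a + (b + 1))) / 2 + 1 := by omega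
    rw [h7, pow_succ, Nat.add_sub_cancel, Algebra.smul_def, map_add, map_one, map_natCast]
    push_cast
    ring
  · rw [hK _ _ h5]
    simp

theorem alg_identity {R : Type} [CommRing R] [Algebra ℝ R] (DD' DT' : Derivation ℝ R R)
    (p y e U : R) (h1 : y ^ 2 + p ^ 2 = 1 - 2 * e * U) (h2 : DT' p = DD' y)
    (h3 : DD' e = 0) (h4 : DT' e = 0) (m : ℕ) (K : ℕ → ℕ → R)
    (hK : IsKabs DD' DT' U m K) :
    p * DD' (∑ a ∈ Finset.range (m + 1), ∑ b ∈ Finset.range (m + 1),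
        K a b * e ^ ((m - (a + b)) / 2) * p ^ a * y ^ b)
      + y * DT' (∑ a ∈ Finset.range (m + 1), ∑ b ∈ Finset.range (m + 1),
        K a b * e ^ ((m - (a + b)) / 2) * p ^ a * y ^ b) = 0 := by
  -- the two basic relations
  have sq : ∀ (T : Derivation ℝ R R), T e = 0 → y * T y + p * T p = - (e * T U) := by
    intro T hT
    refine AbsAlg_half ?_
    have h5 := congrArg T h1
    rw [map_add, map_sub, Derivation.leibniz_pow, Derivation.leibniz_pow, mul_assoc,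
      Derivation.map_one_eq_zero] at h5
    have h6 : T (2 * (e * U)) = 2 * (e * T U) := by
      have h7 : (2 : R) * (e * U) = e * U + e * U := by ring
      rw [h7, map_add, Derivation.leibniz, hT]
      simp only [smul_eq_mul, mul_zero, add_zero]
      ring
    rw [h6] at h5
    simp only [Nat.add_one_sub_one, pow_one, smul_eq_mul, nsmul_eq_mul, Nat.cast_ofNat] at h5
    linear_combination h5
  have r1 : p * DD' p + y * DT' p = - (e * DD' U) := by
    rw [h2]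
    linear_combination sq DD' h3
  have r2 : p * DD' y + y * DT' y = - (e * DT' U) := by
    rw [← h2]
    linear_combination sq DT' h4
  -- derivative of one term
  have term : ∀ (T : Derivation ℝ R R), T e = 0 → ∀ (c : R) (k a b : ℕ),
      T (c * e ^ k * p ^ a * y ^ b) = T c * e ^ k * p ^ a * y ^ b
        + c * e ^ k * ((a : R) * p ^ (a - 1) * y ^ b * T p + (b : R) * p ^ a * y ^ (b - 1) * T y) := by
    intro T hT c k a b
    rw [Derivation.leibniz, Derivation.leibniz, Derivation.leibniz, Derivation.leibniz_pow,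
      Derivation.leibniz_pow, Derivation.leibniz_pow, hT]
    simp only [smul_eq_mul, nsmul_eq_mul, smul_zero, mul_zero, zero_add]
    ring
  have main : p * DD' (∑ a ∈ Finset.range (m + 1), ∑ b ∈ Finset.range (m + 1),
        K a b * e ^ ((m - (a + b)) / 2) * p ^ a * y ^ b)
      + y * DT' (∑ a ∈ Finset.range (m + 1), ∑ b ∈ Finset.range (m + 1),
        K a b * e ^ ((m - (a + b)) / 2) * p ^ a * y ^ b)
      = ((∑ a ∈ Finset.range (m + 1), ∑ b ∈ Finset.range (m + 1),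
          p * DD' (K a b) * e ^ ((m - (a + b)) / 2) * p ^ a * y ^ b)
        + (∑ a ∈ Finset.range (m + 1), ∑ b ∈ Finset.range (m + 1),
          y * DT' (K a b) * e ^ ((m - (a + b)) / 2) * p ^ a * y ^ b))
        - ((∑ a ∈ Finset.range (m + 1), ∑ b ∈ Finset.range (m + 1),
          K a b * e ^ ((m - (a + b)) / 2) * ((a : R) * p ^ (a - 1) * y ^ b) * (e * DD' U))
        + (∑ a ∈ Finset.range (m + 1), ∑ b ∈ Finset.range (m + 1),
          K a b * e ^ ((m - (a + b)) / 2) * ((b : R) * p ^ a * y ^ (b - 1)) * (e * DT' U))) := by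
    rw [map_sum, map_sum, Finset.mul_sum, Finset.mul_sum, ← Finset.sum_add_distrib,
      ← Finset.sum_add_distrib, ← Finset.sum_add_distrib, ← Finset.sum_sub_distrib]
    refine Finset.sum_congr rfl fun a _ => ?_
    rw [map_sum, map_sum, Finset.mul_sum, Finset.mul_sum, ← Finset.sum_add_distrib,
      ← Finset.sum_add_distrib, ← Finset.sum_add_distrib, ← Finset.sum_sub_distrib]
    refine Finset.sum_congr rfl fun b _ => ?_
    rw [term DD' h3, term DT' h4]
    linear_combination (K a b * e ^ ((m - (a + b)) / 2) * ((a : R) * p ^ (a - 1) * y ^ b)) * r1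
      + (K a b * e ^ ((m - (a + b)) / 2) * ((b : R) * p ^ a * y ^ (b - 1))) * r2
  rw [main, ← AbsAlg_A DD' p y e m K hK.supp, ← AbsAlg_B DT' p y e m K hK.supp,
    ← AbsAlg_C (DD' U) p y e m K hK.supp, ← AbsAlg_D (DT' U) p y e m K hK.supp,
    ← Finset.sum_add_distrib, ← Finset.sum_add_distrib, ← Finset.sum_sub_distrib]
  refine Finset.sum_eq_zero fun a _ => ?_
  rw [← Finset.sum_add_distrib, ← Finset.sum_add_distrib, ← Finset.sum_sub_distrib]
  refine Finset.sum_eq_zero fun b _ => ?_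
  linear_combination (e ^ ((m + 1 - (a + b)) / 2) * p ^ a * y ^ b) * hK.pde a b

end Pool.Agent.W_MP_4b1b5d_an
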