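import Pool.Agent.W_MP_4b1b5d_an.AbsAlg

set_option autoImplicit false

/-!
# A3: the formal Lagrangian manifold carries the integral

With `p = z x`, `y = 1 - z² ω`, `e = z² η`:
* `y² + p² = 1 - 2 e U` from (E2): `y² + p² = 1 - 2z²ω + z⁴ω² + z²x² = 1 - z²(2ω - x² - z²ω²)`.
* `DT p = DD y`: coefficient of `z^{j+2}` of `-DD(z²ω)` is `-LL (j+2) ω_j`, and the coefficient of
  `z^{j+2}` of `DT (z x) = z DT x` is `-LL (j+2) ω_j` by (E1).
* `DD (emb a) = emb (ds a)`, `DT (emb a) = emb (dt a)` and `DD e = 0`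
  (`LL w 2 X = - w X (2 X - 2 X) = 0`), `DT e = 0`.
Then use `alg_identity` with `K` replaced by `fun a b => emb (K a b)`.
-/

namespace Pool.Agent.W_MP_4b1b5d_an

open Polynomial

section aux

variable {A : Type} [CommRing A] [Algebra ℝ A]

theorem LL_zero_AC (d : Derivation ℝ A A) (w : A) (j : ℕ) : LL d w j (0 : A[X]) = 0 := by
  simp [LL]

theorem dP_C_AC (d : Derivation ℝ A A) (a : A) : dP d (C a) = C (d a) := by
  ext i
  rw [dP_coeff, coeff_C, coeff_C]
  split_ifs <;> simp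

theorem dP_X_AC (d : Derivation ℝ A A) : dP d (X : A[X]) = 0 := by
  ext i
  rw [dP_coeff, coeff_X, coeff_zero]
  split_ifs <;> simp

theorem DD_emb_AC (d : Derivation ℝ A A) (w a : A) : DD d w (emb a) = emb (d a) := by
  ext1 j
  rw [DD_coeff]
  simp only [emb, RingHom.comp_apply, PowerSeries.coeff_C]
  by_cases hj : j = 0
  · subst hj
    simp [LL, dP_C_AC]
  · simp [hj, LL_zero_AC]

theorem DT_emb_AC (d : Derivation ℝ A A) (a : A) : DT d (emb a) = emb (d a) :=
  DD_emb_AC d 0 a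

theorem emb_smul_AC (r : ℝ) (a : A) : (emb (r • a) : PowerSeries A[X]) = r • emb a := by
  ext1 j
  simp only [emb, RingHom.comp_apply, PowerSeries.coeff_C, PowerSeries.coeff_smul]
  split_ifs
  · rw [smul_C]
  · simp

theorem DD_e_AC (d : Derivation ℝ A A) (w : A) : DD d w (eS : PowerSeries A[X]) = 0 := by
  ext1 j
  rw [DD_coeff]
  have hc : PowerSeries.coeff j (eS : PowerSeries A[X]) = if j = 2 then X else 0 := by
    rw [eS, zR, etaR, mul_comm, PowerSeries.coeff_C_mul, PowerSeries.coeff_X_pow]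
    split_ifs <;> simp
  rw [hc]
  by_cases hj : j = 2
  · subst hj
    simp only [if_true, LL, dP_X_AC, derivative_X]
    simp
  · simp [hj, LL_zero_AC]

theorem DD_z_AC (d : Derivation ℝ A A) : DT d (zR : PowerSeries A[X]) = 0 := by
  ext1 j
  rw [DT_coeff, zR, PowerSeries.coeff_X]
  split_ifs <;> simp

end aux

theorem phi_identity {A : Type} [CommRing A] [Algebra ℝ A] (h : HJ A) (U : A)
    (x ω : PowerSeries A[X]) (hs : HJSol h U x ω) (m : ℕ) (K : ℕ → ℕ → A)
    (hK : IsKabs h.ds h.dt U m K) :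
    pS x * DD h.ds (h.ds (h.av U)) (Phi m K (pS x) (yS ω))
      + yS ω * DT h.dt (Phi m K (pS x) (yS ω)) = 0 := by
  have h1 : (yS ω) ^ 2 + (pS x) ^ 2 = 1 - 2 * eS * emb U := by
    rw [yS, pS, eS]
    linear_combination (-(zR ^ 2)) * hs.e2
  have h2 : DT h.dt (pS x) = DD h.ds (h.ds (h.av U)) (yS ω) := by
    rw [pS, yS, Derivation.leibniz, DD_z_AC, hs.e10, map_sub, Derivation.map_one_eq_zero]
    ext1 j
    rw [smul_zero, add_zero, zero_sub, map_neg, DD_coeff, smul_eq_mul, mul_neg, map_neg,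
      ← mul_assoc, ← sq]
    congr 1
    simp only [zR]
    rcases j with _ | _ | j
    · rw [PowerSeries.coeff_X_pow_mul', PowerSeries.coeff_X_pow_mul']
      simp [LL_zero_AC]
    · rw [PowerSeries.coeff_X_pow_mul', PowerSeries.coeff_X_pow_mul']
      simp [LL_zero_AC]
    · rw [show j + 1 + 1 = j + 2 from rfl, PowerSeries.coeff_X_pow_mul,
        PowerSeries.coeff_X_pow_mul, PowerSeries.coeff_mk]
  have h3 : DD h.ds (h.ds (h.av U)) (eS : PowerSeries A[X]) = 0 := DD_e_AC _ _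
  have h4 : DT h.dt (eS : PowerSeries A[X]) = 0 := DD_e_AC _ _
  have hK' : IsKabs (DD h.ds (h.ds (h.av U))) (DT h.dt) (emb U) m (fun a b => emb (K a b)) := by
    refine ⟨fun a b hab => by rw [hK.supp a b hab, map_zero], fun a b => ?_⟩
    have e0 : sh0 (fun a b => (emb (K a b) : PowerSeries A[X])) a b = emb (sh0 K a b) := by
      cases a <;> simp [sh0]
    have e1 : sh1 (fun a b => (emb (K a b) : PowerSeries A[X])) a b = emb (sh1 K a b) := by
      cases b <;> simp [sh1]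
    rw [e0, e1, DD_emb_AC, DT_emb_AC, DD_emb_AC, DT_emb_AC, ← map_add, hK.pde a b, map_add,
      emb_smul_AC, emb_smul_AC, map_mul, map_mul]
  exact alg_identity (DD h.ds (h.ds (h.av U))) (DT h.dt) (pS x) (yS ω) eS (emb U) h1 h2 h3 h4 m
    (fun a b => emb (K a b)) hK'

end Pool.Agent.W_MP_4b1b5d_an
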