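import Pool.Agent.W_MP_4b1b5d_an.Defs

set_option autoImplicit false

/-!
# Abstract Hamilton-Jacobi setting: definitions
-/

namespace Pool.Agent.W_MP_4b1b5d_an

open Polynomial

/-- two commuting derivations with an averaging operator along the second one -/
structure HJ (A : Type) [CommRing A] [Algebra ℝ A] where
  ds : Derivation ℝ A A
  dt : Derivation ℝ A A
  av : A →ₗ[ℝ] A
  pr : A →ₗ[ℝ] A
  comm : ∀ a, ds (dt a) = dt (ds a)
  dt_av : ∀ a, dt (av a) = 0
  av_of_dt : ∀ a, dt a = 0 → av a = a
  av_ds : ∀ a, av (ds a) = ds (av a)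
  av_mul : ∀ c a, dt c = 0 → av (c * a) = c * av a
  dt_pr : ∀ a, dt (pr a) = a - av a
  av_pr : ∀ a, av (pr a) = 0
  av_dt : ∀ a, av (dt a) = 0

/-- the coefficient form of the equation of an integral, in orthonormal coordinates -/
structure IsKabs {A : Type} [CommRing A] [Algebra ℝ A] (ds dt : Derivation ℝ A A) (U : A) (m : ℕ)
    (K : ℕ → ℕ → A) : Prop where
  supp : ∀ a b, ¬ (a + b ≤ m ∧ Even (m - (a + b))) → K a b = 0
  pde : ∀ a b, ds (sh0 K a b) + dt (sh1 K a b)
      = ((a : ℝ) + 1) • (ds U * K (a + 1) b) + ((b : ℝ) + 1) • (dt U * K a (b + 1))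

section

variable {A : Type} [CommRing A] [Algebra ℝ A]

/-- a linear map applied to all coefficients of a polynomial, as a function -/
noncomputable def mPf (L : A →ₗ[ℝ] A) (f : A[X]) : A[X] :=
  ∑ i ∈ Finset.range (f.natDegree + 1), monomial i (L (f.coeff i))

theorem mPf_coeff (L : A →ₗ[ℝ] A) (f : A[X]) (i : ℕ) :
    (mPf L f).coeff i = L (f.coeff i) := by
  simp only [mPf, finsetSum_coeff, coeff_monomial, Finset.sum_ite_eq', Finset.mem_range]
  by_cases h1 : i < f.natDegree + 1
  · simp [h1]
  · simp only [h1, if_false]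
    rw [coeff_eq_zero_of_natDegree_lt (p := f) (n := i) (by omega), map_zero]

/-- a linear map applied to all coefficients of a polynomial -/
noncomputable def mP (L : A →ₗ[ℝ] A) : A[X] →ₗ[ℝ] A[X] where
  toFun := mPf L
  map_add' := by
    intro f g
    ext i
    simp only [mPf_coeff, coeff_add, map_add]
  map_smul' := by
    intro c f
    ext i
    simp only [mPf_coeff, coeff_smul, map_smul, RingHom.id_apply]

@[simp] theorem mP_coeff (L : A →ₗ[ℝ] A) (f : A[X]) (i : ℕ) :
    (mP L f).coeff i = L (f.coeff i) := mPf_coeff L f i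

/-- a derivation applied to all coefficients of a polynomial -/
noncomputable def dP (d : Derivation ℝ A A) : Derivation ℝ A[X] A[X] :=
  Derivation.mk' (mP (d : A →ₗ[ℝ] A)) (by
    intro f g
    ext i
    simp only [mP_coeff, coeff_mul, coeff_add, smul_eq_mul, Derivation.coeFn_coe, map_sum,
      Derivation.leibniz]
    rw [Finset.sum_add_distrib]
    congr 1
    rw [← Finset.Nat.sum_antidiagonal_swap]
    rfl)

@[simp] theorem dP_coeff (d : Derivation ℝ A A) (f : A[X]) (i : ℕ) :
    (dP d f).coeff i = d (f.coeff i) := by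
  simp [dP]

/-- the component of weight `j` of the derivation `∂_s` along `ξ(s)`, `w = u'` -/
noncomputable def LL (d : Derivation ℝ A A) (w : A) (j : ℕ) (f : A[X]) : A[X] :=
  dP d f - C w * X * ((j : A[X]) * f - 2 * X * derivative f)

theorem LL_add (d : Derivation ℝ A A) (w : A) (j : ℕ) (f g : A[X]) :
    LL d w j (f + g) = LL d w j f + LL d w j g := by
  simp only [LL, map_add]; ring

theorem LL_smul (d : Derivation ℝ A A) (w : A) (j : ℕ) (c : ℝ) (f : A[X]) :
    LL d w j (c • f) = c • LL d w j f := by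
  have h1 : dP d (c • f) = c • dP d f := (dP d).map_smul c f
  have h2 : derivative (c • f) = c • derivative f := derivative_smul _ _
  simp only [LL, h1, h2]
  simp only [Algebra.smul_def]; ring

theorem LL_mul (d : Derivation ℝ A A) (w : A) (i j : ℕ) (f g : A[X]) :
    LL d w (i + j) (f * g) = f * LL d w j g + g * LL d w i f := by
  simp only [LL, Derivation.leibniz, smul_eq_mul, derivative_mul, Nat.cast_add]; ring

theorem LL_coeff_zero (d : Derivation ℝ A A) (w : A) (j : ℕ) (f : A[X]) :
    (LL d w j f).coeff 0 = d (f.coeff 0) := by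
  rw [LL, coeff_sub, dP_coeff, mul_assoc, coeff_C_mul, coeff_X_mul_zero]
  simp

theorem LL_coeff_succ (d : Derivation ℝ A A) (w : A) (j i : ℕ) (f : A[X]) :
    (LL d w j f).coeff (i + 1) = d (f.coeff (i + 1)) - w * (((j : ℝ) - 2 * i) • f.coeff i) := by
  rw [LL, coeff_sub, dP_coeff, mul_assoc, coeff_C_mul, coeff_X_mul, coeff_sub]
  congr 2
  have h1 : ((j : A[X]) * f).coeff i = (j : A) * f.coeff i := by
    rw [← C_eq_natCast, coeff_C_mul]
  have h2 : (2 * X * derivative f).coeff i = 2 * ((i : A) * f.coeff i) := by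
    rw [show (2 : A[X]) = C (2 : A) from (C_ofNat 2).symm, mul_assoc, coeff_C_mul]
    cases i with
    | zero => simp
    | succ i => rw [coeff_X_mul, coeff_derivative]; push_cast; ring
  rw [h1, h2, Algebra.smul_def, map_sub, map_mul, map_natCast, map_natCast, map_ofNat]
  ring

/-- the derivation `𝒟` on `A[η]⟦z⟧` -/
noncomputable def DD (d : Derivation ℝ A A) (w : A) :
    Derivation ℝ (PowerSeries A[X]) (PowerSeries A[X]) :=
  Derivation.mk'
    { toFun := fun f => PowerSeries.mk fun j => LL d w j (PowerSeries.coeff j f)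
      map_add' := by
        intro f g
        ext1 j
        simp [LL_add]
      map_smul' := by
        intro c f
        ext1 j
        simp only [PowerSeries.coeff_mk, RingHom.id_apply, PowerSeries.coeff_smul]
        exact LL_smul d w j c _ }
    (by
      intro f g
      ext1 j
      simp only [LinearMap.coe_mk, AddHom.coe_mk, PowerSeries.coeff_mk, PowerSeries.coeff_mul,
        map_add, smul_eq_mul]
      have hsum : LL d w j (∑ p ∈ Finset.HasAntidiagonal.antidiagonal j,
          PowerSeries.coeff p.1 f * PowerSeries.coeff p.2 g)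
          = ∑ p ∈ Finset.HasAntidiagonal.antidiagonal j,
            LL d w j (PowerSeries.coeff p.1 f * PowerSeries.coeff p.2 g) := by
        let L : A[X] →+ A[X] :=
          { toFun := LL d w j, map_zero' := by simp [LL], map_add' := LL_add d w j }
        exact map_sum L _ _
      rw [hsum]
      rw [← Finset.Nat.sum_antidiagonal_swap (f := fun p : ℕ × ℕ =>
        PowerSeries.coeff p.1 g * LL d w p.2 (PowerSeries.coeff p.2 f)), ← Finset.sum_add_distrib]
      refine Finset.sum_congr rfl fun p hp => ?_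
      rw [Finset.HasAntidiagonal.mem_antidiagonal] at hp
      subst hp
      rw [LL_mul]
      rfl)

@[simp] theorem DD_coeff (d : Derivation ℝ A A) (w : A) (f : PowerSeries A[X]) (j : ℕ) :
    PowerSeries.coeff j (DD d w f) = LL d w j (PowerSeries.coeff j f) := by
  simp [DD]

/-- a derivation of `A` applied to all coefficients in `A[η]⟦z⟧` -/
noncomputable def DT (d : Derivation ℝ A A) :
    Derivation ℝ (PowerSeries A[X]) (PowerSeries A[X]) := DD d 0

@[simp] theorem DT_coeff (d : Derivation ℝ A A) (f : PowerSeries A[X]) (j : ℕ) :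
    PowerSeries.coeff j (DT d f) = dP d (PowerSeries.coeff j f) := by
  simp [DT, LL]

/-- embedding of `A` in `A[η]⟦z⟧` -/
noncomputable def emb : A →+* PowerSeries A[X] := (PowerSeries.C (R := A[X])).comp (C : A →+* A[X])

/-- the variable `η` in `A[η]⟦z⟧` -/
noncomputable def etaR : PowerSeries A[X] := PowerSeries.C (R := A[X]) X

/-- the variable `z` in `A[η]⟦z⟧` -/
noncomputable def zR : PowerSeries A[X] := PowerSeries.X

/-- the solution of the Hamilton-Jacobi recursion -/
structure HJSol (h : HJ A) (U : A) (x ω : PowerSeries A[X]) : Prop where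
  x0 : PowerSeries.coeff 0 x = 1
  /-- (E1), first coefficient -/
  e10 : DT h.dt x = - (zR * (PowerSeries.mk fun j => LL h.ds (h.ds (h.av U)) (j + 2)
      (PowerSeries.coeff j ω)))
  e2 : 2 * ω = x ^ 2 + 2 * emb U * etaR + zR ^ 2 * ω ^ 2
  e3 : ∀ j, mP h.av (PowerSeries.coeff (j + 1) ω) = 0

/-- `p` -/
noncomputable def pS (x : PowerSeries A[X]) : PowerSeries A[X] := zR * x

/-- `y` -/
noncomputable def yS (ω : PowerSeries A[X]) : PowerSeries A[X] := 1 - zR ^ 2 * ω

/-- `e` -/
noncomputable def eS : PowerSeries A[X] := (zR ^ 2 * etaR : PowerSeries A[X])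

/-- the integral restricted to the formal Lagrangian manifold -/
noncomputable def Phi (m : ℕ) (K : ℕ → ℕ → A) (p y : PowerSeries A[X]) : PowerSeries A[X] :=
  ∑ a ∈ Finset.range (m + 1), ∑ b ∈ Finset.range (m + 1),
    emb (K a b) * eS ^ ((m - (a + b)) / 2) * p ^ a * y ^ b

end

end Pool.Agent.W_MP_4b1b5d_an
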