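import Pool.Agent.W_MP_4b1b5d_an.AbsDefs

set_option autoImplicit false

/-!
# A5: the solution at `η = 0`

Write `x̄_j = (x_j).coeff 0`, `ω̄_j = (ω_j).coeff 0`.  Strong induction on `j`:
`x̄_j = algebraMap c_j` and `ω̄_0 = 1/2`, `ω̄_j = 0` for `j ≥ 1`.
(E1) at `η = 0`: `dt x̄_0 = 0`, `dt x̄_{j+1} = - ds ω̄_j` (`LL_coeff_zero`), which is `0` by induction.
(E2) at `η = 0`: `2 ω̄_j = ∑_{i+i'=j} x̄_i x̄_{i'} + ∑_{i+i'=j-2} ω̄_i ω̄_{i'}`; for `j ≥ 1` this is
`2 x̄_j + (constant)`, so `dt ω̄_j = 0`, hence `ω̄_j = av ω̄_j = 0` by (E3), and `x̄_j` is constant.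
For `j = 0`: `2 ω̄_0 = x̄_0² = 1`.
With `c = ∑ c_j z^j ∈ ℝ⟦z⟧`, (E2) becomes `1 = c² + z²/4` (use that `algebraMap ℝ A` is injective;
`c_0 = 1`).
-/

namespace Pool.Agent.W_MP_4b1b5d_an

open Polynomial

theorem eta_zero {A : Type} [CommRing A] [Algebra ℝ A]
    (hinj : ∀ c : ℝ, algebraMap ℝ A c = 0 → c = 0) (h : HJ A) (U : A)
    (x ω : PowerSeries A[X]) (hs : HJSol h U x ω) :
    ∃ c : PowerSeries ℝ, PowerSeries.coeff 0 c = 1 ∧
      c ^ 2 = 1 - PowerSeries.C (1 / 4 : ℝ) * PowerSeries.X ^ 2 ∧
      (∀ j, (PowerSeries.coeff j x).coeff 0 = algebraMap ℝ A (PowerSeries.coeff j c)) ∧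
      (∀ j, (PowerSeries.coeff j ω).coeff 0 = if j = 0 then algebraMap ℝ A (1 / 2) else 0) := by
  set φ : PowerSeries A[X] →+* PowerSeries A := PowerSeries.map (Polynomial.constantCoeff) with hφ
  have hφc : ∀ (f : PowerSeries A[X]) (j : ℕ),
      PowerSeries.coeff j (φ f) = (PowerSeries.coeff j f).coeff 0 := by
    intro f j
    rw [hφ, PowerSeries.coeff_map]
    rfl
  obtain ⟨xb, hxb⟩ : ∃ xb, xb = φ x := ⟨_, rfl⟩
  obtain ⟨wb, hwb⟩ : ∃ wb, wb = φ ω := ⟨_, rfl⟩
  have hx : ∀ j, PowerSeries.coeff j xb = (PowerSeries.coeff j x).coeff 0 := by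
    rw [hxb]; exact hφc x
  have hw : ∀ j, PowerSeries.coeff j wb = (PowerSeries.coeff j ω).coeff 0 := by
    rw [hwb]; exact hφc ω
  have hE2 : 2 * wb = xb ^ 2 + PowerSeries.X ^ 2 * wb ^ 2 := by
    have h0 := congrArg φ hs.e2
    have h1 : φ etaR = 0 := by
      ext j
      rw [hφc, etaR, PowerSeries.coeff_C]
      split_ifs <;> simp
    have h2 : φ zR = PowerSeries.X := by
      rw [hφ, zR, PowerSeries.map_X]
    simp only [map_add, map_mul, map_pow, map_ofNat, h1, h2, mul_zero, add_zero] at h0
    rw [hxb, hwb]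
    exact h0
  have hx0 : PowerSeries.coeff 0 xb = 1 := by
    rw [hx, hs.x0]; simp
  have hE1 : ∀ j, h.dt (PowerSeries.coeff (j + 1) xb) = - h.ds (PowerSeries.coeff j wb) := by
    intro j
    have h0 := congrArg (fun f => (PowerSeries.coeff (j + 1) f).coeff 0) hs.e10
    simp only [DT_coeff, dP_coeff, map_neg, coeff_neg, zR, PowerSeries.coeff_succ_X_mul,
      PowerSeries.coeff_mk, LL_coeff_zero] at h0
    rw [hx, hw]
    exact h0
  have hE3 : ∀ j, h.av (PowerSeries.coeff (j + 1) wb) = 0 := by
    intro j
    have h0 := congrArg (fun f => f.coeff 0) (hs.e3 j)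
    simp only [mP_coeff, coeff_zero] at h0
    rw [hw]
    exact h0
  have htwo : ∀ a : A, algebraMap ℝ A (1 / 2) * (2 * a) = a := by
    intro a
    have : (2 : A) = algebraMap ℝ A 2 := (map_ofNat _ 2).symm
    rw [← mul_assoc, this, ← map_mul]
    norm_num
  -- the induction
  have hmain : ∀ n, (∃ c : ℝ, PowerSeries.coeff n xb = algebraMap ℝ A c) ∧
      PowerSeries.coeff n wb = if n = 0 then algebraMap ℝ A (1 / 2) else 0 := by
    intro n
    induction n using Nat.strong_induction_on with
    | _ n ih =>
      rcases n with _ | k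
      · refine ⟨⟨1, by rw [hx0, map_one]⟩, ?_⟩
        have h0 := congrArg (PowerSeries.coeff 0) hE2
        rw [if_pos rfl]
        have h1 : (2 : A) * PowerSeries.coeff 0 wb = 1 := by
          have h2 : PowerSeries.coeff 0 (2 * wb) = 2 * PowerSeries.coeff 0 wb := by
            rw [show (2 : PowerSeries A) = PowerSeries.C 2 from (map_ofNat _ 2).symm,
              PowerSeries.coeff_C_mul]
          rw [← h2, h0]
          have h3 : PowerSeries.coeff 0 (xb ^ 2) = 1 := by
            rw [PowerSeries.coeff_zero_eq_constantCoeff, map_pow,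
              ← PowerSeries.coeff_zero_eq_constantCoeff, hx0, one_pow]
          rw [map_add, h3, PowerSeries.coeff_zero_eq_constantCoeff, map_mul, map_pow,
            PowerSeries.constantCoeff_X]
          ring
        rw [← htwo (PowerSeries.coeff 0 wb), h1, mul_one]
      · have hxc : ∀ i, i ≤ k → ∃ c : ℝ, PowerSeries.coeff i xb = algebraMap ℝ A c :=
          fun i hi => (ih i (by omega)).1
        have hwc : ∀ i, i ≤ k → ∃ c : ℝ, PowerSeries.coeff i wb = algebraMap ℝ A c := by
          intro i hi
          rw [(ih i (by omega)).2]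
          split_ifs
          · exact ⟨_, rfl⟩
          · exact ⟨0, by simp⟩
        have hk := congrArg (PowerSeries.coeff (k + 1)) hE2
        have h2 : PowerSeries.coeff (k + 1) (2 * wb) = 2 * PowerSeries.coeff (k + 1) wb := by
          rw [show (2 : PowerSeries A) = PowerSeries.C 2 from (map_ofNat _ 2).symm,
              PowerSeries.coeff_C_mul]
        -- the last term is constant
        have hlast : ∃ c : ℝ, PowerSeries.coeff (k + 1) (PowerSeries.X ^ 2 * wb ^ 2)
            = algebraMap ℝ A c := by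
          rw [PowerSeries.coeff_X_pow_mul']
          split_ifs with hk2
          · have hmem : PowerSeries.coeff (k + 1 - 2) (wb ^ 2) ∈ (algebraMap ℝ A).range := by
              rw [sq, PowerSeries.coeff_mul]
              refine Subring.sum_mem _ fun p hp => ?_
              rw [Finset.HasAntidiagonal.mem_antidiagonal] at hp
              obtain ⟨c1, hc1⟩ := hwc p.1 (by omega)
              obtain ⟨c2, hc2⟩ := hwc p.2 (by omega)
              rw [hc1, hc2, ← map_mul]
              exact ⟨_, rfl⟩
            obtain ⟨c, hc⟩ := hmem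
            exact ⟨c, hc.symm⟩
          · exact ⟨0, by simp⟩
        have hdx : ∀ i, i ≤ k + 1 → h.dt (PowerSeries.coeff i xb) = 0 := by
          intro i hi
          rcases Nat.lt_or_ge i (k + 1) with hlt | hge
          · obtain ⟨c, hc⟩ := hxc i (by omega)
            rw [hc, Derivation.map_algebraMap]
          · obtain rfl : i = k + 1 := by omega
            obtain ⟨c, hc⟩ := hwc k le_rfl
            rw [hE1, hc, Derivation.map_algebraMap, neg_zero]
        have hdw2 : h.dt (2 * PowerSeries.coeff (k + 1) wb) = 0 := by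
          rw [← h2, hk, map_add, map_add]
          obtain ⟨c, hc⟩ := hlast
          rw [hc, Derivation.map_algebraMap, add_zero, sq, PowerSeries.coeff_mul, map_sum]
          refine Finset.sum_eq_zero fun p hp => ?_
          rw [Finset.HasAntidiagonal.mem_antidiagonal] at hp
          rw [Derivation.leibniz, hdx p.1 (by omega), hdx p.2 (by omega)]
          simp
        have hdw : h.dt (PowerSeries.coeff (k + 1) wb) = 0 := by
          rw [← htwo (PowerSeries.coeff (k + 1) wb), Derivation.leibniz, hdw2,
            Derivation.map_algebraMap]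
          simp
        have hw0 : PowerSeries.coeff (k + 1) wb = 0 := by
          rw [← h.av_of_dt _ hdw, hE3 k]
        refine ⟨?_, by rw [if_neg (by omega), hw0]⟩
        -- `x̄_{k+1}` is constant
        rw [h2, hw0, mul_zero, map_add] at hk
        obtain ⟨c, hc⟩ := hlast
        rw [hc, sq, PowerSeries.coeff_mul] at hk
        have hS : ∃ r : ℝ, 2 * PowerSeries.coeff (k + 1) xb = algebraMap ℝ A r := by
          rw [Finset.Nat.sum_antidiagonal_succ] at hk
          rcases k with _ | k
          · simp only [Finset.Nat.antidiagonal_zero, Finset.sum_singleton, hx0, zero_add] at hk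
            refine ⟨-c, ?_⟩
            rw [map_neg, zero_add, eq_neg_iff_add_eq_zero, hk]
            ring
          · rw [Finset.Nat.sum_antidiagonal_succ'] at hk
            simp only [hx0] at hk
            have hmem : ∑ p ∈ Finset.HasAntidiagonal.antidiagonal k, PowerSeries.coeff (p.1 + 1) xb *
                PowerSeries.coeff (p.2 + 1) xb ∈ (algebraMap ℝ A).range := by
              refine Subring.sum_mem _ fun p hp => ?_
              rw [Finset.HasAntidiagonal.mem_antidiagonal] at hp
              obtain ⟨c1, hc1⟩ := hxc (p.1 + 1) (by omega)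
              obtain ⟨c2, hc2⟩ := hxc (p.2 + 1) (by omega)
              rw [hc1, hc2, ← map_mul]
              exact ⟨_, rfl⟩
            obtain ⟨r, hr⟩ := hmem
            refine ⟨-c - r, ?_⟩
            rw [← hr] at hk
            rw [map_sub, map_neg]
            linear_combination -hk
        obtain ⟨r, hr⟩ := hS
        refine ⟨1 / 2 * r, ?_⟩
        rw [← htwo (PowerSeries.coeff (k + 1) xb), hr, ← map_mul]
  choose c hc using fun n => (hmain n).1
  have hwb2 : wb = PowerSeries.C (algebraMap ℝ A (1 / 2)) := by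
    ext n
    rw [(hmain n).2, PowerSeries.coeff_C]
  have hinj' : Function.Injective (algebraMap ℝ A) := by
    rw [injective_iff_map_eq_zero]
    exact hinj
  have hxb2 : xb = PowerSeries.map (algebraMap ℝ A) (PowerSeries.mk c) := by
    ext n
    rw [hc, PowerSeries.coeff_map, PowerSeries.coeff_mk]
  refine ⟨PowerSeries.mk c, ?_, ?_, ?_, ?_⟩
  · apply hinj'
    rw [PowerSeries.coeff_mk, ← hc, hx0, map_one]
  · have hmi : Function.Injective (PowerSeries.map (algebraMap ℝ A)) := by
      intro f g hfg
      ext n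
      apply hinj'
      have := congrArg (PowerSeries.coeff n) hfg
      simpa only [PowerSeries.coeff_map] using this
    apply hmi
    rw [map_pow, ← hxb2, map_sub, map_one, map_mul, map_pow, PowerSeries.map_C, PowerSeries.map_X]
    have h3 : xb ^ 2 = 2 * wb - PowerSeries.X ^ 2 * wb ^ 2 := by rw [hE2]; ring
    rw [h3, hwb2]
    have h4 : (2 : PowerSeries A) * PowerSeries.C (algebraMap ℝ A (1 / 2)) = 1 := by
      rw [show (2 : PowerSeries A) = PowerSeries.C (algebraMap ℝ A 2) by
        rw [map_ofNat, map_ofNat], ← map_mul, ← map_mul]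
      norm_num
    have h5 : (PowerSeries.C (algebraMap ℝ A (1 / 2)) : PowerSeries A) ^ 2
        = PowerSeries.C (algebraMap ℝ A (1 / 4)) := by
      rw [← map_pow, ← map_pow]
      norm_num
    rw [h4, h5]
    ring
  · intro j
    rw [PowerSeries.coeff_mk, ← hc, hx]
  · intro j
    rw [← hw]
    exact (hmain j).2

end Pool.Agent.W_MP_4b1b5d_an
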