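import Pool.Agent.W_MP_4b1b5d_an.AbsDefs

set_option autoImplicit false

/-!
# A1: solution of the abstract Hamilton-Jacobi recursion

Recursion: write `x_j, ω_j : A[X]` for the coefficients of `z^j`, `w = ds (av U)`.
`x_0 = 1`, `ω_0 = 1/2 + U η`, and for `j ≥ 1`, with
`S_j = ∑_{0<i<j} x_i x_{j-i} + ∑_{i+i'=j-2} ω_i ω_{i'}` (second sum only if `j ≥ 2`),
`x_j = - pr (LL (j+1) ω_{j-1}) - ½ av S_j`, `ω_j = x_j + ½ S_j` (`pr, av` coefficientwise: `mP`).
Then `dt x_j = -(LL (j+1) ω_{j-1} - av (LL (j+1) ω_{j-1}))` and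
`av (LL (j+1) ω_{j-1}) = LL (j+1) (av ω_{j-1})` (because `av ds = ds av`, and `dt w = 0`,
`av (w a) = w av a`), which is `0`: for `j ≥ 2` by induction (`av ω_{j-1} = 0`), for `j = 1` since
`av ω_0 = 1/2 + u η`, `u = av U`, `ds u = w`:
`LL 2 (1/2 + uη) = w η - w η (2 (1/2 + u η) - 2 η u) = 0`.
`2 ω_j = 2 x_j + S_j` is the coefficient of `z^j` of `e2`, and `av ω_j = av x_j + ½ av S_j = 0` by
`av pr = 0`, `av av = av`.
-/

namespace Pool.Agent.W_MP_4b1b5d_an

open Polynomial

section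

variable {A : Type} [CommRing A] [Algebra ℝ A]

theorem ae_rec {α : Type} (d : α) (G : ℕ → (ℕ → α) → α) :
    ∃ f : ℕ → α, ∀ n, f n = G n (fun m => if m < n then f m else d) := by
  classical
  let F : (n : ℕ) → ((m : ℕ) → m < n → α) → α :=
    fun n g => G n (fun m => if hm : m < n then g m hm else d)
  refine ⟨WellFounded.fix (C := fun _ => α) Nat.lt_wfRel.wf F, fun n => ?_⟩
  rw [WellFounded.fix_eq]
  simp only [F, dite_eq_ite]

/-- the inhomogeneous term -/
noncomputable def aeS (j : ℕ) (g : ℕ → A[X] × A[X]) : A[X] :=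
  ∑ i ∈ Finset.range j, (g (i + 1)).1 * (g (j - i)).1 +
    (if 1 ≤ j then ∑ i ∈ Finset.range j, (g i).2 * (g (j - 1 - i)).2 else 0)

/-- the recursion step -/
noncomputable def aeStep (h : HJ A) (U : A) : ℕ → (ℕ → A[X] × A[X]) → A[X] × A[X]
  | 0, _ => (1, C (algebraMap ℝ A (1 / 2)) + C U * X)
  | j + 1, g =>
    (-(mP h.pr (LL h.ds (h.ds (h.av U)) (j + 2) (g j).2)) - (1 / 2 : ℝ) • mP h.av (aeS j g),
      (-(mP h.pr (LL h.ds (h.ds (h.av U)) (j + 2) (g j).2)) - (1 / 2 : ℝ) • mP h.av (aeS j g)) +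
        (1 / 2 : ℝ) • aeS j g)

omit [Algebra ℝ A] in
theorem aeS_congr (j : ℕ) (g g' : ℕ → A[X] × A[X]) (h : ∀ i ≤ j, g i = g' i) :
    aeS j g = aeS j g' := by
  unfold aeS
  congr 1
  · refine Finset.sum_congr rfl fun i hi => ?_
    rw [Finset.mem_range] at hi
    rw [h (i + 1) (by omega), h (j - i) (by omega)]
  · split_ifs with hj
    · refine Finset.sum_congr rfl fun i hi => ?_
      rw [Finset.mem_range] at hi
      rw [h i (by omega), h (j - 1 - i) (by omega)]
    · rfl

theorem aeStep_congr (h : HJ A) (U : A) (n : ℕ) (g g' : ℕ → A[X] × A[X]) (hg : ∀ i < n, g i = g' i) :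
    aeStep h U n g = aeStep h U n g' := by
  cases n with
  | zero => rfl
  | succ j =>
    simp only [aeStep]
    rw [aeS_congr j g g' (fun i hi => hg i (by omega)), hg j (by omega)]

theorem ae_seq (h : HJ A) (U : A) : ∃ f : ℕ → A[X] × A[X], ∀ n, f n = aeStep h U n f := by
  obtain ⟨f, hf⟩ := ae_rec (1 : A[X] × A[X]) (aeStep h U)
  refine ⟨f, fun n => ?_⟩
  rw [hf n]
  refine aeStep_congr h U n _ _ fun i hi => ?_
  simp only [hi, if_true]

theorem HJ.av_av (h : HJ A) (a : A) : h.av (h.av a) = h.av a := h.av_of_dt _ (h.dt_av a)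

theorem HJ.dt_w (h : HJ A) (U : A) : h.dt (h.ds (h.av U)) = 0 := by
  rw [← h.comm, h.dt_av, map_zero]

/-- averaging commutes with `LL` -/
theorem HJ.av_LL (h : HJ A) (U : A) (k : ℕ) (f : A[X]) :
    mP h.av (LL h.ds (h.ds (h.av U)) k f) = LL h.ds (h.ds (h.av U)) k (mP h.av f) := by
  ext i
  rw [mP_coeff]
  cases i with
  | zero => rw [LL_coeff_zero, LL_coeff_zero, mP_coeff, h.av_ds]
  | succ i =>
    rw [LL_coeff_succ, LL_coeff_succ, map_sub, h.av_ds, h.av_mul _ _ (h.dt_w U), map_smul,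
      mP_coeff, mP_coeff]

theorem HJ.av_algebraMap (h : HJ A) (c : ℝ) : h.av (algebraMap ℝ A c) = algebraMap ℝ A c :=
  h.av_of_dt _ (Derivation.map_algebraMap _ _)

theorem HJ.av_omega0 (h : HJ A) (U : A) :
    mP h.av (C (algebraMap ℝ A (1 / 2)) + C U * X) = C (algebraMap ℝ A (1 / 2)) + C (h.av U) * X := by
  ext i
  rw [mP_coeff, coeff_add, coeff_add, coeff_C, coeff_C_mul, coeff_C_mul, coeff_X, map_add]
  congr 1
  · split_ifs with hi
    · exact h.av_algebraMap _
    · exact map_zero _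
  · split_ifs with hi
    · simp
    · simp

theorem HJ.LL_omega0 (h : HJ A) (U : A) :
    LL h.ds (h.ds (h.av U)) 2 (C (algebraMap ℝ A (1 / 2)) + C (h.av U) * X) = 0 := by
  set w := h.ds (h.av U) with hw
  have h1 : dP h.ds (C (algebraMap ℝ A (1 / 2)) + C (h.av U) * X) = C w * X := by
    ext i
    rw [dP_coeff, coeff_add, coeff_C, coeff_C_mul, coeff_C_mul, coeff_X, map_add]
    have e1 : h.ds (if i = 0 then algebraMap ℝ A (1 / 2) else 0) = 0 := by
      split_ifs
      · exact Derivation.map_algebraMap _ _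
      · exact map_zero _
    rw [e1, zero_add]
    split_ifs with hi
    · rw [mul_one, mul_one]
    · rw [mul_zero, mul_zero, map_zero]
  have h2 : derivative (C (algebraMap ℝ A (1 / 2)) + C (h.av U) * X) = C (h.av U) := by
    simp
  have h3 : (2 : A[X]) * C (algebraMap ℝ A (1 / 2)) = 1 := by
    rw [show (2 : A[X]) = C (algebraMap ℝ A 2) by rw [map_ofNat, C_ofNat], ← C_mul, ← map_mul]
    norm_num
  unfold LL
  rw [h1, h2]
  have h4 : ((2 : ℕ) : A[X]) = 2 := by norm_num
  rw [h4]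
  have h5 : (2 : A[X]) * (C (algebraMap ℝ A (1 / 2)) + C (h.av U) * X) - 2 * X * C (h.av U) = 1 := by
    rw [mul_add, h3]; ring
  rw [h5, mul_one, sub_self]

/-- the two power series -/
theorem exists_sol_aux (h : HJ A) (U : A) (f : ℕ → A[X] × A[X]) (hf : ∀ n, f n = aeStep h U n f) :
    HJSol h U (PowerSeries.mk fun j => (f j).1) (PowerSeries.mk fun j => (f j).2) := by
  have hx0 : (f 0).1 = 1 := by rw [hf 0]; rfl
  have hw0 : (f 0).2 = C (algebraMap ℝ A (1 / 2)) + C U * X := by rw [hf 0]; rfl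
  have hxs : ∀ j, (f (j + 1)).1 = -(mP h.pr (LL h.ds (h.ds (h.av U)) (j + 2) (f j).2))
      - (1 / 2 : ℝ) • mP h.av (aeS j f) := fun j => by
    rw [hf (j + 1)]; rfl
  have hws : ∀ j, (f (j + 1)).2 = (f (j + 1)).1 + (1 / 2 : ℝ) • aeS j f := fun j => by
    rw [hxs j, hf (j + 1)]; rfl
  have hav : ∀ j, mP h.av (f (j + 1)).2 = 0 := fun j => by
    rw [hws, hxs]
    ext i
    simp only [mP_coeff, coeff_add, coeff_sub, coeff_neg, coeff_smul, coeff_zero, map_add, map_sub,
      map_neg, map_smul]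
    rw [h.av_pr, h.av_av]
    simp
  have hLL : ∀ j, mP h.av (LL h.ds (h.ds (h.av U)) (j + 2) (f j).2) = 0 := fun j => by
    rw [h.av_LL]
    cases j with
    | zero => rw [hw0, h.av_omega0]; exact h.LL_omega0 U
    | succ j =>
      rw [hav j]
      unfold LL
      simp
  have hdt : ∀ j, dP h.dt (f (j + 1)).1 = -(LL h.ds (h.ds (h.av U)) (j + 2) (f j).2) := fun j => by
    rw [hxs]
    have h1 := hLL j
    ext i
    have h2 : h.av ((LL h.ds (h.ds (h.av U)) (j + 2) (f j).2).coeff i) = 0 := by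
      rw [← mP_coeff, h1, coeff_zero]
    simp only [dP_coeff, mP_coeff, coeff_sub, coeff_neg, coeff_smul, map_sub, map_neg,
      Derivation.map_smul]
    rw [h.dt_pr, h.dt_av, h2]
    simp
  refine ⟨?_, ?_, ?_, ?_⟩
  · rw [PowerSeries.coeff_mk, hx0]
  · ext1 j
    rw [DT_coeff, PowerSeries.coeff_mk, map_neg]
    unfold zR
    cases j with
    | zero =>
      rw [hx0, PowerSeries.coeff_zero_X_mul, neg_zero]
      exact (dP h.dt).map_one_eq_zero
    | succ j =>
      rw [PowerSeries.coeff_succ_X_mul, PowerSeries.coeff_mk, PowerSeries.coeff_mk, hdt]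
  · ext1 j
    have e1 : (2 : PowerSeries A[X]) * emb U * etaR = PowerSeries.C (2 * C U * X) := by
      unfold emb etaR
      rw [RingHom.comp_apply, map_mul, map_mul, map_ofNat]
    rw [e1, show (2 : PowerSeries A[X]) = PowerSeries.C (2 : A[X]) by rw [map_ofNat],
      PowerSeries.coeff_C_mul, PowerSeries.coeff_mk, map_add, map_add, PowerSeries.coeff_C]
    unfold zR
    rw [PowerSeries.coeff_X_pow_mul']
    cases j with
    | zero =>
      rw [hw0]
      have h3 : (2 : A[X]) * C (algebraMap ℝ A (1 / 2)) = 1 := by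
        rw [show (2 : A[X]) = C (algebraMap ℝ A 2) by rw [map_ofNat, C_ofNat], ← C_mul, ← map_mul]
        norm_num
      have e2 : PowerSeries.coeff 0 ((PowerSeries.mk fun j => (f j).1) ^ 2) = 1 := by
        rw [PowerSeries.coeff_zero_eq_constantCoeff_apply, map_pow,
          ← PowerSeries.coeff_zero_eq_constantCoeff_apply, PowerSeries.coeff_mk, hx0, one_pow]
      rw [e2, if_pos rfl, if_neg (by norm_num), add_zero, mul_add, h3]
      ring
    | succ j =>
      rw [if_neg (by omega), add_zero, hws]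
      have e2 : PowerSeries.coeff (j + 1) ((PowerSeries.mk fun j => (f j).1) ^ 2) =
          ∑ i ∈ Finset.range j, (f (i + 1)).1 * (f (j - i)).1 + 2 * (f (j + 1)).1 := by
        rw [pow_two, PowerSeries.coeff_mul, Finset.Nat.sum_antidiagonal_eq_sum_range_succ_mk,
          Finset.sum_range_succ', Finset.sum_range_succ]
        simp only [PowerSeries.coeff_mk, Nat.sub_self, Nat.sub_zero, Nat.succ_sub_succ_eq_sub]
        rw [hx0]
        ring
      have e3 : (if 2 ≤ j + 1 then PowerSeries.coeff (j + 1 - 2) ((PowerSeries.mk fun j => (f j).2) ^ 2)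
          else 0) = (if 1 ≤ j then ∑ i ∈ Finset.range j, (f i).2 * (f (j - 1 - i)).2 else 0) := by
        by_cases hj : 1 ≤ j
        · rw [if_pos (by omega), if_pos hj, pow_two, PowerSeries.coeff_mul,
            Finset.Nat.sum_antidiagonal_eq_sum_range_succ_mk]
          have hj' : j + 1 - 2 = j - 1 := by omega
          rw [hj']
          have hj2 : (j - 1).succ = j := by omega
          rw [hj2]
          simp only [PowerSeries.coeff_mk]
        · rw [if_neg (by omega), if_neg hj]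
      rw [e2, e3]
      have e4 : (2 : A[X]) * ((1 / 2 : ℝ) • aeS j f) = aeS j f := by
        rw [two_mul, ← add_smul]
        norm_num
      rw [mul_add, e4]
      unfold aeS
      ring
  · intro j
    rw [PowerSeries.coeff_mk]
    exact hav j

end

theorem exists_sol {A : Type} [CommRing A] [Algebra ℝ A] (h : HJ A) (U : A) :
    ∃ x ω : PowerSeries A[X], HJSol h U x ω := by
  obtain ⟨f, hf⟩ := ae_seq h U
  exact ⟨_, _, exists_sol_aux h U f hf⟩

end Pool.Agent.W_MP_4b1b5d_an
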