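import Pool.Agent.W_MP_4b1b5d_an.AbsDefs

set_option autoImplicit false

/-!
# A4: induction on the order in `z`

Claim by induction on `j`: `dP dt Φ_i = 0` for `i ≤ j` and `LL i Φ_i = 0` for `i < j`.
The coefficient of `z^{j+1}` in `p DD Φ + y DT Φ = 0` (`p = z x`, `x_0 = 1`, `y = 1 - z² ω`) is
`LL j Φ_j + dP dt Φ_{j+1} = 0` (all other terms contain lower `LL i Φ_i` or `dP dt Φ_i`); the
coefficient of `z^0` gives `dP dt Φ_0 = 0`.  Apply `mP av`: `av (dt a) = 0`, and since `dP dt Φ_j = 0`
we have `av Φ_j = Φ_j` and `av (LL j Φ_j) = LL j (av Φ_j) = LL j Φ_j`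
(`av ds = ds av`; `av (w a) = w (av a)` for `w = ds (av U)` because `dt w = ds (dt (av U)) = 0`).
So `LL j Φ_j = 0` and then `dP dt Φ_{j+1} = 0`.
-/

namespace Pool.Agent.W_MP_4b1b5d_an

open Polynomial

/-- the coefficient of `z^n` in `y G`, if the lower coefficients of `G` vanish -/
theorem coeff_yS_mul {A : Type} [CommRing A] (ω G : PowerSeries A[X]) (n : ℕ)
    (hG : ∀ k, k + 2 ≤ n → PowerSeries.coeff k G = 0) :
    PowerSeries.coeff n (yS ω * G) = PowerSeries.coeff n G := by
  have h1 : yS ω * G = G - PowerSeries.X ^ 2 * (ω * G) := by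
    unfold yS zR; ring
  rw [h1, map_sub, PowerSeries.coeff_X_pow_mul']
  split_ifs with h2
  · have h3 : PowerSeries.coeff (n - 2) (ω * G) = 0 := by
      rw [PowerSeries.coeff_mul]
      refine Finset.sum_eq_zero fun p hp => ?_
      rw [Finset.HasAntidiagonal.mem_antidiagonal] at hp
      rw [hG p.2 (by omega), mul_zero]
    rw [h3, sub_zero]
  · rw [sub_zero]

/-- the coefficient of `z^(n+1)` in `p G`, if the lower coefficients of `G` vanish -/
theorem coeff_pS_mul {A : Type} [CommRing A] (x G : PowerSeries A[X]) (n : ℕ)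
    (hx : PowerSeries.coeff 0 x = 1) (hG : ∀ k, k < n → PowerSeries.coeff k G = 0) :
    PowerSeries.coeff (n + 1) (pS x * G) = PowerSeries.coeff n G := by
  have h1 : pS x * G = PowerSeries.X * (x * G) := by unfold pS zR; ring
  rw [h1, PowerSeries.coeff_succ_X_mul, PowerSeries.coeff_mul,
    Finset.sum_eq_single (0, n)]
  · rw [hx, one_mul]
  · intro p hp hne
    rw [Finset.HasAntidiagonal.mem_antidiagonal] at hp
    have h2 : p.2 < n := by
      rcases Nat.lt_or_ge p.2 n with h | h
      · exact h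
      · exfalso
        apply hne
        have h3 : p.1 = 0 := by omega
        have h4 : p.2 = n := by omega
        exact Prod.ext h3 h4
    rw [hG p.2 h2, mul_zero]
  · intro h
    exfalso
    apply h
    rw [Finset.HasAntidiagonal.mem_antidiagonal]
    simp

theorem av_LL {A : Type} [CommRing A] [Algebra ℝ A] (h : HJ A) (w : A) (hw : h.dt w = 0)
    (j : ℕ) (f : A[X]) (hf : dP h.dt f = 0) : mP h.av (LL h.ds w j f) = LL h.ds w j f := by
  have hfi : ∀ i, h.dt (f.coeff i) = 0 := by
    intro i
    have := congrArg (fun g => coeff g i) hf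
    simpa using this
  have hav : ∀ i, h.av (f.coeff i) = f.coeff i := fun i => h.av_of_dt _ (hfi i)
  ext i
  rw [mP_coeff]
  cases i with
  | zero => rw [LL_coeff_zero, h.av_ds, hav]
  | succ i => rw [LL_coeff_succ, map_sub, h.av_ds, hav, h.av_mul _ _ hw, map_smul, hav]

theorem order_induction {A : Type} [CommRing A] [Algebra ℝ A] (h : HJ A) (U : A)
    (x ω Φ : PowerSeries A[X]) (hx : PowerSeries.coeff 0 x = 1)
    (hid : pS x * DD h.ds (h.ds (h.av U)) Φ + yS ω * DT h.dt Φ = 0) :
    ∀ j, dP h.dt (PowerSeries.coeff j Φ) = 0 ∧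
      LL h.ds (h.ds (h.av U)) j (PowerSeries.coeff j Φ) = 0 := by
  have hw : h.dt (h.ds (h.av U)) = 0 := by rw [← h.comm, h.dt_av, map_zero]
  intro j
  induction j using Nat.strong_induction_on with
  | _ j ih =>
    have hstep1 : dP h.dt (PowerSeries.coeff j Φ) = 0 := by
      have h1 := congrArg (PowerSeries.coeff j) hid
      rw [map_add, map_zero, coeff_yS_mul ω (DT h.dt Φ) j
        (fun k hk => by rw [DT_coeff]; exact (ih k (by omega)).1), DT_coeff] at h1
      cases j with
      | zero =>
        have h2 : PowerSeries.coeff 0 (pS x * DD h.ds (h.ds (h.av U)) Φ) = 0 := by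
          have h3 : pS x * DD h.ds (h.ds (h.av U)) Φ =
            PowerSeries.X * (x * DD h.ds (h.ds (h.av U)) Φ) := by unfold pS zR; ring
          rw [h3, PowerSeries.coeff_zero_X_mul]
        rw [h2, zero_add] at h1
        exact h1
      | succ j =>
        rw [coeff_pS_mul x _ j hx (fun k hk => by rw [DD_coeff]; exact (ih k (by omega)).2),
          DD_coeff, (ih j (by omega)).2, zero_add] at h1
        exact h1
    refine ⟨hstep1, ?_⟩
    have h1 := congrArg (PowerSeries.coeff (j + 1)) hid
    rw [map_add, map_zero, coeff_yS_mul ω (DT h.dt Φ) (j + 1)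
        (fun k hk => by rw [DT_coeff]; exact (ih k (by omega)).1), DT_coeff,
      coeff_pS_mul x _ j hx (fun k hk => by rw [DD_coeff]; exact (ih k hk).2), DD_coeff] at h1
    have h2 := congrArg (mP h.av) h1
    rw [map_add, map_zero, av_LL h _ hw j _ hstep1] at h2
    have h3 : mP h.av (dP h.dt (PowerSeries.coeff (j + 1) Φ)) = 0 := by
      ext i
      rw [mP_coeff, dP_coeff, h.av_dt, coeff_zero]
    rw [h3, add_zero] at h2
    exact h2

end Pool.Agent.W_MP_4b1b5d_an
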