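import Mathlib

set_option autoImplicit false

/-!
# A6: the real power series argument

Let `c² = 1 - z²/4`, `c_0 = 1`, `w = z c`, `y = 1 - z²/2`.  If the series `∑_a r_a w^a y^{m-a}` has
vanishing odd coefficients then `r_a = 0` for all odd `a ≤ m`.
Proof: `w^{2i} y^b = (z² - z⁴/4)^i y^b` has vanishing odd coefficients.  Strong induction on the odd
number `a`: coefficient of `z^a` of the sum: even `a'` contribute `0`, odd `a' < a` contribute `0`
by induction, `a' > a` contribute `0` (order), and `a' = a` contributes `r_a`.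
-/

namespace Pool.Agent.W_MP_4b1b5d_an

theorem real_series_even_coeff (p : PowerSeries ℝ) (hp : PowerSeries.rescale (-1 : ℝ) p = p)
    (j : ℕ) (hj : Odd j) : PowerSeries.coeff j p = 0 := by
  have h := congrArg (PowerSeries.coeff j) hp
  rw [PowerSeries.coeff_rescale, hj.neg_one_pow] at h
  linarith

theorem real_series_rescale_X_sq :
    PowerSeries.rescale (-1 : ℝ) (PowerSeries.X ^ 2) = (PowerSeries.X ^ 2 : PowerSeries ℝ) := by
  ext n
  rw [PowerSeries.coeff_rescale, PowerSeries.coeff_X_pow]
  split_ifs with h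
  · subst h; norm_num
  · simp

theorem real_series_rescale_C (r : ℝ) :
    PowerSeries.rescale (-1 : ℝ) (PowerSeries.C r) = (PowerSeries.C r : PowerSeries ℝ) := by
  ext n
  rw [PowerSeries.coeff_rescale, PowerSeries.coeff_C]
  split_ifs with h
  · subst h; norm_num
  · simp

theorem real_series (c : PowerSeries ℝ) (hc0 : PowerSeries.coeff 0 c = 1)
    (hc : c ^ 2 = 1 - PowerSeries.C (1 / 4 : ℝ) * PowerSeries.X ^ 2) (m : ℕ) (r : ℕ → ℝ)
    (hodd : ∀ j, Odd j → PowerSeries.coeff j (∑ a ∈ Finset.range (m + 1),
      PowerSeries.C (r a) * (PowerSeries.X * c) ^ a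
        * (1 - PowerSeries.C (1 / 2 : ℝ) * PowerSeries.X ^ 2) ^ (m - a)) = 0) :
    ∀ a, a ≤ m → Odd a → r a = 0 := by
  intro a
  induction a using Nat.strong_induction_on with
  | _ a ih =>
    intro ham hao
    have h := hodd a hao
    rw [map_sum, Finset.sum_eq_single a] at h
    · have e : PowerSeries.C (r a) * (PowerSeries.X * c) ^ a
          * (1 - PowerSeries.C (1 / 2 : ℝ) * PowerSeries.X ^ 2) ^ (m - a)
          = PowerSeries.X ^ a * (PowerSeries.C (r a) * (c ^ a
            * (1 - PowerSeries.C (1 / 2 : ℝ) * PowerSeries.X ^ 2) ^ (m - a))) := by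
        rw [mul_pow]; ring
      rw [e, PowerSeries.coeff_X_pow_mul', if_pos le_rfl, Nat.sub_self,
        PowerSeries.coeff_zero_eq_constantCoeff_apply] at h
      rw [PowerSeries.coeff_zero_eq_constantCoeff_apply] at hc0
      simpa [hc0] using h
    · intro b hb hba
      rcases lt_or_gt_of_ne hba with hlt | hgt
      · rcases Nat.even_or_odd b with he | ho
        · apply real_series_even_coeff _ _ a hao
          obtain ⟨i, rfl⟩ := he
          have e : (PowerSeries.X * c) ^ (i + i)
              = (PowerSeries.X ^ 2 * (1 - PowerSeries.C (1 / 4 : ℝ) * PowerSeries.X ^ 2)) ^ i := by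
            rw [← hc, ← two_mul, pow_mul, mul_pow]
          rw [e]
          simp only [map_mul, map_pow, map_sub, map_one, real_series_rescale_C]
          have hX : PowerSeries.rescale (-1 : ℝ) PowerSeries.X ^ 2
              = (PowerSeries.X ^ 2 : PowerSeries ℝ) := by
            rw [← map_pow, real_series_rescale_X_sq]
          rw [hX]
        · rw [ih b hlt (by omega) ho]
          simp
      · have e : PowerSeries.C (r b) * (PowerSeries.X * c) ^ b
          * (1 - PowerSeries.C (1 / 2 : ℝ) * PowerSeries.X ^ 2) ^ (m - b)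
          = PowerSeries.X ^ b * (PowerSeries.C (r b) * (c ^ b
            * (1 - PowerSeries.C (1 / 2 : ℝ) * PowerSeries.X ^ 2) ^ (m - b))) := by
          rw [mul_pow]; ring
        rw [e, PowerSeries.coeff_X_pow_mul', if_neg (by omega)]
    · intro hna
      exact absurd (Finset.mem_range.mpr (by omega)) hna

end Pool.Agent.W_MP_4b1b5d_an
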