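import Pool.Agent.W_MP_4b1b5d_an.AbsExist
import Pool.Agent.W_MP_4b1b5d_an.AbsCheck
import Pool.Agent.W_MP_4b1b5d_an.AbsOrder
import Pool.Agent.W_MP_4b1b5d_an.AbsEta0
import Pool.Agent.W_MP_4b1b5d_an.AbsReal

set_option autoImplicit false

/-!
# A7: the abstract reflection theorem

`exists_sol`, `phi_identity`, `order_induction` give `LL j Φ_j = 0`, i.e. (by `LL_coeff_zero`,
`LL_coeff_succ`) `ds Φ_{j,0} = 0` and `ds Φ_{j,i+1} = w (j - 2i) Φ_{j,i}`, `w = ds (av U)`.
Let `j` be odd and `N` the degree of `Φ_j`.  Downward induction: `Φ_{j,i} ∈ I` for all `i`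
(`Φ_{j,i+1} ∈ I → ds Φ_{j,i+1} ∈ I → w Φ_{j,i} ∈ I → Φ_{j,i} ∈ I`, as `j - 2i ≠ 0`).
So `Φ_{j,0} ∈ I`.  At `η = 0` (apply the ring hom `A[X] → A`, `coeff 0`, to all coefficients) the terms
with `a + b < m` vanish (`e = z² η`), and by `eta_zero` `Φ_{j,0}` is
`algebraMap (coeff j (∑ r_ab (z c)^a (1 - z²/2)^b))`; so `hI3` gives the hypothesis of `real_series`.
-/

namespace Pool.Agent.W_MP_4b1b5d_an

open Polynomial

/-- downward induction on the degree in `η` -/
private theorem AbsFinal_mem {A : Type} [CommRing A] [Algebra ℝ A] (d : Derivation ℝ A A) (w : A)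
    (I : Ideal A) (hI1 : ∀ a ∈ I, d a ∈ I) (hI2 : ∀ a, w * a ∈ I → a ∈ I) (j : ℕ) (hj : Odd j)
    (P : A[X]) (hP : LL d w j P = 0) : ∀ n i, P.natDegree < i + n → P.coeff i ∈ I := by
  intro n
  induction n with
  | zero =>
    intro i hi
    rw [coeff_eq_zero_of_natDegree_lt (by omega)]
    exact I.zero_mem
  | succ n ih =>
    intro i hi
    have h1 : P.coeff (i + 1) ∈ I := ih (i + 1) (by omega)
    have h2 := LL_coeff_succ d w j i P
    rw [hP, coeff_zero] at h2
    have h3 : w * (((j : ℝ) - 2 * i) • P.coeff i) = d (P.coeff (i + 1)) := by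
      have h4 := sub_eq_zero.mp h2.symm
      exact h4.symm
    have h5 : ((j : ℝ) - 2 * i) • P.coeff i ∈ I := hI2 _ (by rw [h3]; exact hI1 _ h1)
    have h6 : ((j : ℝ) - 2 * i) ≠ 0 := by
      intro h7
      have h8 : (j : ℝ) = ((2 * i : ℕ) : ℝ) := by push_cast; linarith
      have h9 : j = 2 * i := by exact_mod_cast h8
      obtain ⟨k, hk⟩ := hj
      omega
    have h7 : P.coeff i = ((j : ℝ) - 2 * i)⁻¹ • (((j : ℝ) - 2 * i) • P.coeff i) := by
      rw [inv_smul_smul₀ h6]
    rw [h7]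
    exact Submodule.smul_of_tower_mem I _ h5

/-- the coefficients of the integral at `η = 0` -/
private theorem AbsFinal_eta {A : Type} [CommRing A] [Algebra ℝ A] (m : ℕ) (K : ℕ → ℕ → A)
    (hsupp : ∀ a b, ¬ (a + b ≤ m ∧ Even (m - (a + b))) → K a b = 0) (r : ℕ → ℝ)
    (hr : ∀ a, a ≤ m → K a (m - a) = algebraMap ℝ A (r a)) (x ω : PowerSeries A[X])
    (c : PowerSeries ℝ)
    (hx : ∀ j, (PowerSeries.coeff j x).coeff 0 = algebraMap ℝ A (PowerSeries.coeff j c))
    (hω : ∀ j, (PowerSeries.coeff j ω).coeff 0 = if j = 0 then algebraMap ℝ A (1 / 2) else 0) :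
    PowerSeries.map (constantCoeff : A[X] →+* A) (Phi m K (pS x) (yS ω)) =
      PowerSeries.map (algebraMap ℝ A) (∑ a ∈ Finset.range (m + 1),
      PowerSeries.C (r a) * (PowerSeries.X * c) ^ a
        * (1 - PowerSeries.C (1 / 2 : ℝ) * PowerSeries.X ^ 2) ^ (m - a)) := by
  have hxc : PowerSeries.map (constantCoeff : A[X] →+* A) x =
      PowerSeries.map (algebraMap ℝ A) c := by
    ext j
    rw [PowerSeries.coeff_map, PowerSeries.coeff_map, constantCoeff_apply, hx]
  have hωc : PowerSeries.map (constantCoeff : A[X] →+* A) ω =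
      PowerSeries.map (algebraMap ℝ A) (PowerSeries.C (1 / 2 : ℝ)) := by
    ext j
    rw [PowerSeries.coeff_map, PowerSeries.coeff_map, constantCoeff_apply, hω,
      PowerSeries.coeff_C]
    split_ifs <;> simp
  have hz : PowerSeries.map (constantCoeff : A[X] →+* A) zR =
      PowerSeries.map (algebraMap ℝ A) PowerSeries.X := by
    unfold zR
    rw [PowerSeries.map_X, PowerSeries.map_X]
  have hp : PowerSeries.map (constantCoeff : A[X] →+* A) (pS x) =
      PowerSeries.map (algebraMap ℝ A) (PowerSeries.X * c) := by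
    unfold pS
    rw [map_mul, map_mul, hz, hxc]
  have hy : PowerSeries.map (constantCoeff : A[X] →+* A) (yS ω) =
      PowerSeries.map (algebraMap ℝ A)
        (1 - PowerSeries.C (1 / 2 : ℝ) * PowerSeries.X ^ 2) := by
    unfold yS
    rw [map_sub, map_sub, map_one, map_one, map_mul, map_mul, map_pow, map_pow, hz, hωc]
    ring
  have he : PowerSeries.map (constantCoeff : A[X] →+* A) (eS (A := A)) = 0 := by
    unfold eS etaR
    rw [map_mul, PowerSeries.map_C, constantCoeff_apply, coeff_X_zero, map_zero, mul_zero]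
  have hemb : ∀ a : A, PowerSeries.map (constantCoeff : A[X] →+* A) (emb a) =
      PowerSeries.C a := by
    intro a
    unfold emb
    rw [RingHom.comp_apply, PowerSeries.map_C, constantCoeff_apply, coeff_C_zero]
  unfold Phi
  rw [map_sum, map_sum]
  refine Finset.sum_congr rfl fun a ha => ?_
  have ha' : a ≤ m := by
    have := Finset.mem_range.1 ha
    omega
  rw [map_sum, Finset.sum_eq_single (m - a)]
  · rw [map_mul, map_mul, map_mul, map_mul, map_mul, map_pow, map_pow, map_pow, map_pow, map_pow,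
      hp, hy, he, hemb, hr a ha', show (m - (a + (m - a))) / 2 = 0 by omega, pow_zero, mul_one,
      PowerSeries.map_C]
  · intro b _ hb
    by_cases h1 : a + b ≤ m ∧ Even (m - (a + b))
    · have h2 : (m - (a + b)) / 2 ≠ 0 := by
        obtain ⟨h3, k, hk⟩ := h1
        omega
      rw [map_mul, map_mul, map_mul, map_pow, he, zero_pow h2, mul_zero, zero_mul, zero_mul]
    · rw [hsupp a b h1]
      simp
  · intro h1
    exact absurd (Finset.mem_range.2 (by omega)) h1

theorem abs_reflection {A : Type} [CommRing A] [Algebra ℝ A] (h : HJ A) (U : A) (m : ℕ)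
    (K : ℕ → ℕ → A) (hK : IsKabs h.ds h.dt U m K) (r : ℕ → ℝ)
    (hr : ∀ a, a ≤ m → K a (m - a) = algebraMap ℝ A (r a))
    (I : Ideal A) (hI1 : ∀ a ∈ I, h.ds a ∈ I) (hI2 : ∀ a, h.ds (h.av U) * a ∈ I → a ∈ I)
    (hI3 : ∀ c : ℝ, algebraMap ℝ A c ∈ I → c = 0) :
    ∀ a, a ≤ m → Odd a → r a = 0 := by
  have hinj : ∀ c : ℝ, algebraMap ℝ A c = 0 → c = 0 := fun c hc =>
    hI3 c (by rw [hc]; exact I.zero_mem)
  obtain ⟨x, ω, hs⟩ := exists_sol h U
  have hid := phi_identity h U x ω hs m K hK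
  have hord := order_induction h U x ω _ hs.x0 hid
  obtain ⟨c, hc0, hc, hx, hω⟩ := eta_zero hinj h U x ω hs
  refine real_series c hc0 hc m r fun j hj => ?_
  apply hI3
  have h1 := AbsFinal_eta m K hK.supp r hr x ω c hx hω
  have h2 := congrArg (PowerSeries.coeff j) h1
  rw [PowerSeries.coeff_map, PowerSeries.coeff_map, constantCoeff_apply] at h2
  rw [← h2]
  refine AbsFinal_mem h.ds (h.ds (h.av U)) I hI1 hI2 j hj _ (hord j).2
    ((PowerSeries.coeff j (Phi m K (pS x) (yS ω))).natDegree + 1) 0 ?_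
  omega

end Pool.Agent.W_MP_4b1b5d_an
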