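import Pool.Agent.W_MP_4b1b5d_an.GeomG

set_option autoImplicit false

/-!
# G3: at most three lattice lines at angles in `(π/N) ℤ`, `N` odd

With `u_i = uu k_i`, `w_i = tau k_i`: `conj w_i w_j - w_i conj w_j = 2 i √det det2 k_i k_j` and it equals
`conj w_i conj w_j (u_j - u_i)`.  So for four vectors
`det2(k₁,k₃) det2(k₂,k₄) (u₄-u₁)(u₃-u₂) = det2(k₁,k₄) det2(k₂,k₃) (u₃-u₁)(u₄-u₂)`.
`(u_i/u_1)^N = 1`, `N` odd; write `u_i = u_1 ζ^{e_i}` with `ζ` a primitive `N`-th root of unity.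
The resulting polynomial identity with integer coefficients at `ζ` also holds at `ζ²`
(`IsPrimitiveRoot.minpoly_eq_pow_coprime`, `N` odd).  With `ζ_i = ζ^{e_i}` pairwise different:
`d₁₃ d₂₄ (ζ₄²-ζ₁²)(ζ₃²-ζ₂²) = d₁₄ d₂₃ (ζ₃²-ζ₁²)(ζ₄²-ζ₂²)`; dividing by the first identity,
`(ζ₄+ζ₁)(ζ₃+ζ₂) = (ζ₃+ζ₁)(ζ₄+ζ₂)`, i.e. `(ζ₁-ζ₂)(ζ₃-ζ₄) = 0`, a contradiction.
* `no_orth_odd`: if `ip k l = 0` then `uu l = - uu k`.
* `ratAngle_of_uu`: `uu k / uu l = e^{2iφ}`, `φ` the angle, so `2 N φ ∈ 2πℤ`.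
-/

namespace Pool.Agent.W_MP_4b1b5d_an

theorem no_orth_odd (G : M2) (hG : G.PosDef) (N : ℕ) (hN : Odd N) (k l : V2) (hk : k ≠ 0)
    (hl : l ≠ 0) (hort : ip G k l = 0) : uu G k ^ N ≠ uu G l ^ N := by
  intro h
  have ha := tau_ne G hG k hk
  have hb := tau_ne G hG l hl
  have ha' : (starRingEnd ℂ) (tau G k) ≠ 0 := by simpa using ha
  have hb' : (starRingEnd ℂ) (tau G l) ≠ 0 := by simpa using hb
  have h1 := tau_mul G hG k l
  rw [hort] at h1
  have h2 := congrArg (starRingEnd ℂ) h1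
  simp only [map_mul, Complex.conj_conj, Complex.conj_ofReal, Complex.conj_I,
    Complex.ofReal_zero, zero_add, neg_mul] at h1 h2
  have h3 : uu G l = - uu G k := by
    unfold uu
    rw [div_eq_iff hb', neg_mul, div_mul_eq_mul_div, h2, neg_div, neg_neg, eq_div_iff ha', ← h1]
    ring
  rw [h3, hN.neg_pow] at h
  have h4 : uu G k ^ N = 0 := by
    have h5 : (2 : ℂ) * uu G k ^ N = 0 := by
      linear_combination h
    simpa using h5
  have h6 := congrArg norm h4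
  rw [norm_pow, uu_norm G hG k hk] at h6
  simp at h6

theorem ratAngle_of_uu (G : M2) (hG : G.PosDef) (N : ℕ) (hN : 0 < N) (k l : V2) (hk : k ≠ 0)
    (hl : l ≠ 0) (hu : uu G k ^ N = uu G l ^ N) : RatAngle G k l := by
  have ha := tau_ne G hG k hk
  have hb := tau_ne G hG l hl
  have ha' : (starRingEnd ℂ) (tau G k) ≠ 0 := by simpa using ha
  have hb' : (starRingEnd ℂ) (tau G l) ≠ 0 := by simpa using hb
  have h1 := tau_mul G hG k l
  set z : ℂ := (starRingEnd ℂ) (tau G k) * tau G l with hz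
  have hz0 : z ≠ 0 := mul_ne_zero ha' hb
  have hre : z.re = ip G k l := by rw [h1]; simp
  have him : z.im = √G.det * det2 k l := by rw [h1]; simp
  have hnorm : ‖z‖ = √(ip G k k) * √(ip G l l) := by
    rw [← Real.sqrt_mul (ip_pos G hG k hk).le, ip_lagrange G hG k l, Complex.norm_def,
      Complex.normSq_apply, hre, him]
    congr 1
    have := Real.mul_self_sqrt (det_pos G hG).le
    linear_combination (det2 k l) ^ 2 * this
  have hconj : (starRingEnd ℂ) (z ^ N) = z ^ N := by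
    unfold uu at hu
    rw [div_pow, div_pow, div_eq_div_iff (pow_ne_zero _ ha') (pow_ne_zero _ hb')] at hu
    rw [hz, map_pow, map_mul, Complex.conj_conj, mul_pow, mul_pow, hu]
    ring
  have him0 : (z ^ N).im = 0 := Complex.conj_eq_iff_im.mp hconj
  have hpow : z ^ N = ((‖z‖ ^ N : ℝ) : ℂ) * Complex.exp (((N * z.arg : ℝ) : ℂ) * Complex.I) := by
    conv_lhs => rw [← Complex.norm_mul_exp_arg_mul_I z]
    rw [mul_pow, ← Complex.exp_nat_mul]
    push_cast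
    ring_nf
  rw [hpow, Complex.im_ofReal_mul, Complex.exp_ofReal_mul_I_im] at him0
  have hn0 : ‖z‖ ^ N ≠ 0 := pow_ne_zero _ (norm_ne_zero_iff.mpr hz0)
  have hsin := (mul_eq_zero.mp him0).resolve_left hn0
  obtain ⟨m, hm⟩ := Real.sin_eq_zero_iff.mp hsin
  have hN0 : (N : ℝ) ≠ 0 := by exact_mod_cast hN.ne'
  refine ⟨(m : ℚ) / (N : ℚ), ?_⟩
  have harg : (((m : ℚ) / (N : ℚ) : ℚ) : ℝ) * Real.pi = z.arg := by
    push_cast
    field_simp
    linarith
  rw [harg, ← hnorm, Complex.norm_mul_cos_arg, hre]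

end Pool.Agent.W_MP_4b1b5d_an
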