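import Pool.Agent.W_MP_4b1b5d_an.GeomG

set_option autoImplicit false

/-!
# G1: invariant polynomials and angles

In the complex coordinate `z = tau p` a real homogeneous polynomial of degree `m` is
`P(p) = ∑_{a ≤ m} c_a z^a z̄^{m-a}` with unique complex `c_a`, `c_{m-a} = conj c_a`.
Invariance under the reflection in `k` (`z ↦ -u z̄`, `u = uu k`, `|u| = 1`) means
`c_{m-a} = (-1)^m u^{2a-m} c_a`.  So for two such `k, l`: `u_k^{2a-m} = u_l^{2a-m}` for every `a`
with `c_a ≠ 0`.
`P` is radial iff only `c_{m/2}` can be nonzero (`crit G P k` is up to a nonzero factor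
`i ∑ (2a - m) c_a z^a z̄^{m-a}` at a point `z` orthogonal to `tau k`).  So if `P` is not radial there is
`a` with `c_a ≠ 0`, `2a ≠ m`; take `N = |2a - m|`, which is odd if `m` is odd.
-/

namespace Pool.Agent.W_MP_4b1b5d_an

/-- functions which are forms of degree `m` in `z = tau p` and its conjugate -/
def HF (G : M2) (m : ℕ) (f : V2 → ℂ) : Prop :=
  ∃ c : ℕ → ℂ, ∀ p : V2, f p
      = ∑ a ∈ Finset.range (m + 1), c a * tau G p ^ a * (starRingEnd ℂ) (tau G p) ^ (m - a)

theorem HF.zero (G : M2) (m : ℕ) : HF G m (fun _ => 0) :=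
  ⟨fun _ => 0, fun p => by simp⟩

theorem HF.one (G : M2) : HF G 0 (fun _ => 1) :=
  ⟨fun _ => 1, fun p => by simp⟩

theorem HF.add {G : M2} {m : ℕ} {f g : V2 → ℂ} (hf : HF G m f) (hg : HF G m g) :
    HF G m (fun p => f p + g p) := by
  obtain ⟨c, hc⟩ := hf
  obtain ⟨d, hd⟩ := hg
  refine ⟨fun a => c a + d a, fun p => ?_⟩
  simp only
  rw [hc, hd, ← Finset.sum_add_distrib]
  exact Finset.sum_congr rfl fun a _ => by ring

theorem HF.smul {G : M2} {m : ℕ} {f : V2 → ℂ} (hf : HF G m f) (r : ℂ) :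
    HF G m (fun p => r * f p) := by
  obtain ⟨c, hc⟩ := hf
  refine ⟨fun a => r * c a, fun p => ?_⟩
  simp only
  rw [hc, Finset.mul_sum]
  exact Finset.sum_congr rfl fun a _ => by ring

theorem HF.sum {G : M2} {m : ℕ} {ι : Type*} (s : Finset ι) {f : ι → V2 → ℂ}
    (hf : ∀ i ∈ s, HF G m (f i)) : HF G m (fun p => ∑ i ∈ s, f i p) := by
  classical
  induction s using Finset.induction_on with
  | empty => simpa using HF.zero G m
  | insert a s ha ih =>
    simp only [Finset.sum_insert ha]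
    exact (hf a (by simp)).add (ih fun i hi => hf i (by simp [hi]))

theorem HF.lin {G : M2} {m : ℕ} {f : V2 → ℂ} (hf : HF G m f) (α β : ℂ) :
    HF G (m + 1) (fun p => (α * tau G p + β * (starRingEnd ℂ) (tau G p)) * f p) := by
  obtain ⟨c, hc⟩ := hf
  refine ⟨fun s => (if s = 0 then 0 else α * c (s - 1)) + (if s = m + 1 then 0 else β * c s),
    fun p => ?_⟩
  set z := tau G p
  set w := (starRingEnd ℂ) z
  have h1 : ∑ s ∈ Finset.range (m + 1 + 1), (if s = 0 then 0 else α * c (s - 1)) * z ^ s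
      * w ^ (m + 1 - s) = ∑ a ∈ Finset.range (m + 1), α * z * (c a * z ^ a * w ^ (m - a)) := by
    rw [Finset.sum_range_succ']
    simp only [Nat.add_eq_zero_iff, one_ne_zero, and_false, if_false, Nat.add_sub_cancel, if_true,
      zero_mul, add_zero]
    refine Finset.sum_congr rfl fun a _ => ?_
    rw [Nat.add_sub_add_right]
    ring
  have h2 : ∑ s ∈ Finset.range (m + 1 + 1), (if s = m + 1 then 0 else β * c s) * z ^ s
      * w ^ (m + 1 - s) = ∑ a ∈ Finset.range (m + 1), β * w * (c a * z ^ a * w ^ (m - a)) := by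
    rw [Finset.sum_range_succ]
    simp only [if_true, zero_mul, add_zero]
    refine Finset.sum_congr rfl fun a ha => ?_
    have ha' := Finset.mem_range.mp ha
    rw [if_neg (by omega), show m + 1 - a = (m - a) + 1 by omega, pow_succ]
    ring
  simp only [add_mul, Finset.sum_add_distrib]
  rw [hc, Finset.mul_sum, Finset.mul_sum, h1, h2]

theorem coord_form (G : M2) (hG : G.PosDef) (i : Fin 2) : ∃ α β : ℂ, ∀ p : V2,
    (p i : ℂ) = α * tau G p + β * (starRingEnd ℂ) (tau G p) := by
  have h0 := g00_pos G hG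
  have hd := det_pos G hG
  have hs : 0 < √(G.det / G 0 0) := Real.sqrt_pos.mpr (div_pos hd h0)
  have hg : 0 < √(G 0 0) := Real.sqrt_pos.mpr h0
  have hgg : √(G 0 0) * √(G 0 0) = G 0 0 := Real.mul_self_sqrt h0.le
  set s := √(G.det / G 0 0) with hsdef
  set g := √(G 0 0) with hgdef
  have e1 : ∀ p : V2, (p 1 : ℂ) = (1 / (2 * Complex.I * s)) * tau G p
      + (- (1 / (2 * Complex.I * s))) * (starRingEnd ℂ) (tau G p) := by
    intro p
    have h1 : tau G p - (starRingEnd ℂ) (tau G p) = ((2 * (s * p 1) : ℝ) : ℂ) * Complex.I :=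
      Complex.sub_conj _
    have hs' : (s : ℂ) ≠ 0 := by exact_mod_cast hs.ne'
    have h2 : (1 / (2 * Complex.I * s)) * tau G p
      + (- (1 / (2 * Complex.I * s))) * (starRingEnd ℂ) (tau G p)
        = (1 / (2 * Complex.I * s)) * (tau G p - (starRingEnd ℂ) (tau G p)) := by ring
    rw [h2, h1]
    push_cast
    field_simp
  have e0 : ∀ p : V2, (p 0 : ℂ) = (1 / (2 * g)) * (tau G p + (starRingEnd ℂ) (tau G p))
      - (G 0 1 / G 0 0) * (p 1 : ℂ) := by
    intro p
    have h1 : tau G p + (starRingEnd ℂ) (tau G p)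
        = ((2 * ((G 0 0 * p 0 + G 0 1 * p 1) / g) : ℝ) : ℂ) := Complex.add_conj _
    have h2 : p 0 = (1 / (2 * g)) * (2 * ((G 0 0 * p 0 + G 0 1 * p 1) / g))
        - (G 0 1 / G 0 0) * p 1 := by
      have : (1 / (2 * g)) * (2 * ((G 0 0 * p 0 + G 0 1 * p 1) / g))
          = (G 0 0 * p 0 + G 0 1 * p 1) / (g * g) := by
        field_simp
      rw [this, hgg]
      field_simp
      ring
    rw [h1]
    have h3 : (p 0 : ℂ) = (((1 / (2 * g)) * (2 * ((G 0 0 * p 0 + G 0 1 * p 1) / g))
        - (G 0 1 / G 0 0) * p 1 : ℝ) : ℂ) := congrArg (fun x : ℝ => (x : ℂ)) h2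
    refine h3.trans ?_
    push_cast
    ring
  obtain rfl | rfl : i = 0 ∨ i = 1 := by omega
  · refine ⟨1 / (2 * g) - (G 0 1 / G 0 0) * (1 / (2 * Complex.I * s)),
      1 / (2 * g) + (G 0 1 / G 0 0) * (1 / (2 * Complex.I * s)), fun p => ?_⟩
    have h := e0 p
    rw [e1 p] at h
    rw [h]
    ring
  · exact ⟨_, _, e1⟩

theorem monomial_form (G : M2) (hG : G.PosDef) (i j : ℕ) :
    HF G (i + j) (fun p => (p 0 : ℂ) ^ i * (p 1 : ℂ) ^ j) := by
  obtain ⟨α, β, h0⟩ := coord_form G hG 0
  obtain ⟨γ, δ, h1⟩ := coord_form G hG 1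
  have hj : ∀ j : ℕ, HF G j (fun p => (p 1 : ℂ) ^ j) := by
    intro j
    induction j with
    | zero => simpa using HF.one G
    | succ j ih =>
      have := ih.lin γ δ
      refine (show (fun p : V2 => (p 1 : ℂ) ^ (j + 1)) = _ from ?_) ▸ this
      funext p
      rw [← h1, pow_succ']
  induction i with
  | zero => simpa using hj j
  | succ i ih =>
    have := ih.lin α β
    rw [show i + 1 + j = i + j + 1 by ring]
    refine (show (fun p : V2 => (p 0 : ℂ) ^ (i + 1) * (p 1 : ℂ) ^ j) = _ from ?_) ▸ this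
    funext p
    rw [← h0, pow_succ']
    ring

/-- complex normal form -/
theorem complex_form (G : M2) (hG : G.PosDef) (P : RP) (m : ℕ) (hP : P.IsHomogeneous m) :
    ∃ c : ℕ → ℂ, ∀ p : V2, (MvPolynomial.eval p P : ℂ)
      = ∑ a ∈ Finset.range (m + 1), c a * tau G p ^ a * (starRingEnd ℂ) (tau G p) ^ (m - a) := by
  have h : HF G m (fun p => ∑ d ∈ P.support, ((MvPolynomial.coeff d P : ℝ) : ℂ) * ((p 0 : ℂ) ^ (d 0) * (p 1 : ℂ) ^ (d 1))) := by
    refine HF.sum _ fun d hd => HF.smul ?_ _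
    have h1 : d 0 + d 1 = m := by
      have := hP (MvPolynomial.mem_support_iff.mp hd)
      have h2 : Finsupp.weight (1 : Fin 2 → ℕ) d = d 0 + d 1 := by
        simp [Finsupp.weight_apply, Finsupp.sum_fintype, Fin.sum_univ_two]
      rw [← h2]
      exact this
    rw [← h1]
    exact monomial_form G hG _ _
  obtain ⟨c, hc⟩ := h
  refine ⟨c, fun p => ?_⟩
  rw [← hc, MvPolynomial.eval_eq']
  push_cast
  simp [Fin.prod_univ_two]

/-- uniqueness of the coefficients -/
theorem complex_unique (m : ℕ) (c : ℕ → ℂ)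
    (h : ∀ z : ℂ, ∑ a ∈ Finset.range (m + 1), c a * z ^ a * (starRingEnd ℂ) z ^ (m - a) = 0) :
    ∀ a ≤ m, c a = 0 := by
  set Q : Polynomial ℂ := ∑ a ∈ Finset.range (m + 1), Polynomial.C (c a) * Polynomial.X ^ a with hQ
  have hne : ∀ t : ℝ, (1 : ℂ) - Complex.I * t ≠ 0 := by
    intro t ht
    have := congrArg Complex.re ht
    simp at this
  have hroot : ∀ t : ℕ, Q.IsRoot ((1 + Complex.I * (t : ℝ)) / (1 - Complex.I * (t : ℝ))) := by
    intro t
    have h1 := h (1 + Complex.I * (t : ℝ))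
    have hconj : (starRingEnd ℂ) (1 + Complex.I * (t : ℝ)) = 1 - Complex.I * (t : ℝ) := by
      simp [sub_eq_add_neg]
    rw [hconj] at h1
    have h2 := hne t
    set z : ℂ := 1 + Complex.I * (t : ℝ)
    set w : ℂ := 1 - Complex.I * (t : ℝ)
    have h3 : w ^ m * Q.eval (z / w) = 0 := by
      rw [← h1, hQ, Polynomial.eval_finsetSum, Finset.mul_sum]
      refine Finset.sum_congr rfl fun a ha => ?_
      have ha' : a ≤ m := by
        have := Finset.mem_range.mp ha
        omega
      simp only [Polynomial.eval_mul, Polynomial.eval_C, Polynomial.eval_pow, Polynomial.eval_X]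
      have h4 : w ^ m = w ^ a * w ^ (m - a) := by rw [← pow_add]; congr 1; omega
      rw [h4, div_pow]
      field_simp
    exact (mul_eq_zero.mp h3).resolve_left (pow_ne_zero _ h2)
  have hinj : Function.Injective
      (fun t : ℕ => ((1 + Complex.I * (t : ℝ)) / (1 - Complex.I * (t : ℝ)) : ℂ)) := by
    intro t s hts
    simp only at hts
    rw [div_eq_div_iff (hne t) (hne s)] at hts
    have h1 := congrArg Complex.im hts
    simp at h1
    have h2 : (t : ℝ) = s := by linarith
    exact_mod_cast h2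
  have hQ0 : Q = 0 := by
    refine Polynomial.eq_zero_of_infinite_isRoot Q ?_
    exact Set.infinite_of_injective_forall_mem hinj hroot
  intro a ha
  have h1 : Q.coeff a = c a := by
    rw [hQ, Polynomial.finsetSum_coeff]
    simp only [Polynomial.coeff_C_mul, Polynomial.coeff_X_pow, mul_ite, mul_one, mul_zero]
    rw [Finset.sum_ite_eq, if_pos (Finset.mem_range.mpr (by omega))]
  rw [← h1, hQ0, Polynomial.coeff_zero]

/-- the quadratic form as a polynomial -/
noncomputable def QP (G : M2) : RP :=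
  MvPolynomial.C (G 0 0) * MvPolynomial.X 0 ^ 2
    + MvPolynomial.C (G 0 1 + G 1 0) * (MvPolynomial.X 0 * MvPolynomial.X 1)
    + MvPolynomial.C (G 1 1) * MvPolynomial.X 1 ^ 2

theorem eval_QP (G : M2) (p : V2) : MvPolynomial.eval p (QP G) = ip G p p := by
  simp [QP, ip, Fin.sum_univ_two]
  ring

theorem dir_QP (G : M2) (hG : G.PosDef) (k p : V2) :
    k 0 * MvPolynomial.eval p (MvPolynomial.pderiv 0 (QP G))
      + k 1 * MvPolynomial.eval p (MvPolynomial.pderiv 1 (QP G)) = 2 * ip G k p := by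
  have h := g_symm G hG
  simp [QP, ip, Fin.sum_univ_two, MvPolynomial.pderiv_X, Derivation.leibniz,
    Derivation.leibniz_pow]
  rw [h]
  ring

theorem crit_pow_QP (G : M2) (hG : G.PosDef) (r : ℝ) (n : ℕ) (k : V2) :
    crit G (MvPolynomial.C r * QP G ^ n) k = 0 := by
  have h0 : ip G k (J (G.mulVec k)) = 0 := by
    have h := g_symm G hG
    simp [ip, J, Matrix.mulVec, dotProduct, Fin.sum_univ_two]
    rw [h]
    ring
  have h1 := dir_QP G hG k (J (G.mulVec k))
  rw [h0, mul_zero] at h1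
  unfold crit
  have h2 : ∀ i, MvPolynomial.pderiv i (MvPolynomial.C r * QP G ^ n)
      = MvPolynomial.C r * ((n : RP) * QP G ^ (n - 1)) * MvPolynomial.pderiv i (QP G) := by
    intro i
    rw [Derivation.leibniz, MvPolynomial.pderiv_C, smul_zero, add_zero, Derivation.leibniz_pow]
    simp only [smul_eq_mul, nsmul_eq_mul]
    ring
  rw [h2, h2]
  simp only [map_mul]
  have h3 : ∀ A B C D E : ℝ, A * (E * B) + C * (E * D) = E * (A * B + C * D) := by
    intros; ring
  rw [h3, h1, mul_zero]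

theorem tau_conj_self (G : M2) (hG : G.PosDef) (p : V2) :
    (starRingEnd ℂ) (tau G p) * tau G p = (ip G p p : ℂ) := by
  rw [tau_mul G hG]
  simp [det2, mul_comm]

/-- if only the middle coefficient is nonzero then `P` is radial -/
theorem rad_of_coeff (G : M2) (hG : G.PosDef) (P : RP) (m : ℕ) (c : ℕ → ℂ)
    (hc : ∀ p : V2, (MvPolynomial.eval p P : ℂ)
      = ∑ a ∈ Finset.range (m + 1), c a * tau G p ^ a * (starRingEnd ℂ) (tau G p) ^ (m - a))
    (h0 : ∀ a ≤ m, 2 * a ≠ m → c a = 0) : Rad G P := by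
  have hP : ∃ (r : ℝ) (n : ℕ), P = MvPolynomial.C r * QP G ^ n := by
    rcases Nat.even_or_odd' m with ⟨n, hn | hn⟩
    · refine ⟨(c n).re, n, ?_⟩
      apply MvPolynomial.funext
      intro p
      have h1 := hc p
      rw [Finset.sum_eq_single_of_mem n (Finset.mem_range.mpr (by omega))] at h1
      · have h2 : m - n = n := by omega
        rw [h2, mul_assoc, ← mul_pow, mul_comm (tau G p), tau_conj_self G hG] at h1
        have h3 := congrArg Complex.re h1
        rw [Complex.ofReal_re, ← Complex.ofReal_pow, Complex.re_mul_ofReal] at h3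
        rw [h3]
        simp [eval_QP]
      · intro b hb hbn
        have := Finset.mem_range.mp hb
        rw [h0 b (by omega) (by omega)]
        ring
    · refine ⟨0, 0, ?_⟩
      apply MvPolynomial.funext
      intro p
      have h1 := hc p
      rw [Finset.sum_eq_zero] at h1
      · have : MvPolynomial.eval p P = 0 := by exact_mod_cast h1
        rw [this]
        simp
      · intro a ha
        have := Finset.mem_range.mp ha
        rw [h0 a (by omega) (by omega)]
        ring
  obtain ⟨r, n, rfl⟩ := hP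
  exact fun k => crit_pow_QP G hG r n k

theorem inv_coeff (G : M2) (hG : G.PosDef) (P : RP) (m : ℕ) (c : ℕ → ℂ)
    (hc : ∀ p : V2, (MvPolynomial.eval p P : ℂ)
      = ∑ a ∈ Finset.range (m + 1), c a * tau G p ^ a * (starRingEnd ℂ) (tau G p) ^ (m - a))
    (k : V2) (hk : k ≠ 0) (hinv : InvR G P k) (a : ℕ) (ha : a ≤ m) :
    c a = (-1) ^ m * (c (m - a) * (uu G k ^ (m - a) * (starRingEnd ℂ) (uu G k) ^ a)) := by
  have key : ∀ z : ℂ, ∑ a ∈ Finset.range (m + 1),
      (c a - (-1) ^ m * (c (m - a) * (uu G k ^ (m - a) * (starRingEnd ℂ) (uu G k) ^ a)))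
        * z ^ a * (starRingEnd ℂ) z ^ (m - a) = 0 := by
    intro z
    obtain ⟨p, rfl⟩ := tau_surj G hG z
    have h1 := hc (refl G k p)
    rw [hinv p, hc p, tau_refl G hG k p hk, ← Finset.sum_range_reflect (fun b => c b *
      (-uu G k * (starRingEnd ℂ) (tau G p)) ^ b *
      (starRingEnd ℂ) (-uu G k * (starRingEnd ℂ) (tau G p)) ^ (m - b))] at h1
    have h2 : ∀ a b c d : ℂ, (a - b) * c * d = a * c * d - b * c * d := by intros; ring
    simp only [h2, Finset.sum_sub_distrib]
    rw [sub_eq_zero, h1]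
    refine Finset.sum_congr rfl fun a ha => ?_
    have ha' : a ≤ m := by
      have := Finset.mem_range.mp ha
      omega
    have e1 : m + 1 - 1 - a = m - a := by omega
    have e2 : m - (m - a) = a := by omega
    have e3 : (-1 : ℂ) ^ m = (-1) ^ (m - a) * (-1) ^ a := by rw [← pow_add]; congr 1; omega
    rw [e1, e2, e3, map_mul, map_neg, Complex.conj_conj]
    have e4 : ∀ x y : ℂ, ∀ n : ℕ, (-x * y) ^ n = (-1) ^ n * x ^ n * y ^ n := by
      intro x y n
      rw [← mul_pow, ← mul_pow]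
      congr 1
      ring
    rw [e4, e4]
    ring
  have := complex_unique m _ key a ha
  exact sub_eq_zero.mp this

theorem exists_order (G : M2) (hG : G.PosDef) (P : RP) (m : ℕ) (hP : P.IsHomogeneous m)
    (hnr : ¬ Rad G P) :
    ∃ N : ℕ, 0 < N ∧ (Odd m → Odd N) ∧ ∀ k l : V2, k ≠ 0 → l ≠ 0 → InvR G P k → InvR G P l →
      uu G k ^ N = uu G l ^ N := by
  obtain ⟨c, hc⟩ := complex_form G hG P m hP
  obtain ⟨a, ha, ham, hca⟩ : ∃ a ≤ m, 2 * a ≠ m ∧ c a ≠ 0 := by
    by_contra hcon
    push Not at hcon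
    exact hnr (rad_of_coeff G hG P m c hc hcon)
  have hmul : ∀ k : V2, k ≠ 0 → uu G k * (starRingEnd ℂ) (uu G k) = 1 := by
    intro k hk
    rw [Complex.mul_conj, Complex.normSq_eq_norm_sq, uu_norm G hG k hk]
    norm_num
  have hkey : ∀ k l : V2, k ≠ 0 → l ≠ 0 → InvR G P k → InvR G P l →
      uu G k ^ (m - a) * (starRingEnd ℂ) (uu G k) ^ a
        = uu G l ^ (m - a) * (starRingEnd ℂ) (uu G l) ^ a := by
    intro k l hk hl hik hil
    have h1 := inv_coeff G hG P m c hc k hk hik a ha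
    have h2 := inv_coeff G hG P m c hc l hl hil a ha
    have h3 : c (m - a) ≠ 0 := by
      intro h0
      rw [h0, zero_mul, mul_zero] at h1
      exact hca h1
    rw [h1] at h2
    have h4 := mul_left_cancel₀ (pow_ne_zero m (by norm_num : (-1 : ℂ) ≠ 0)) h2
    exact mul_left_cancel₀ h3 h4
  rcases lt_or_ge (2 * a) m with h | h
  · refine ⟨m - 2 * a, by omega, fun hm => Nat.Odd.sub_even (by omega) hm (even_two_mul a), ?_⟩
    intro k l hk hl hik hil
    have h1 := hkey k l hk hl hik hil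
    have e : m - a = (m - 2 * a) + a := by omega
    rw [e, pow_add, pow_add, mul_assoc, mul_assoc, ← mul_pow, ← mul_pow, hmul k hk, hmul l hl,
      one_pow, mul_one, mul_one] at h1
    exact h1
  · refine ⟨2 * a - m, by omega, fun hm => Nat.Even.sub_odd (by omega) (even_two_mul a) hm, ?_⟩
    intro k l hk hl hik hil
    have h1 := hkey k l hk hl hik hil
    have e : a = (m - a) + (2 * a - m) := by omega
    have h2 : ∀ k : V2, k ≠ 0 → uu G k ^ (m - a) * (starRingEnd ℂ) (uu G k) ^ a
        = (starRingEnd ℂ) (uu G k ^ (2 * a - m)) := by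
      intro k hk
      conv_lhs => rw [e]
      have e' : (m - a) + (2 * a - m) - (m - a) = 2 * a - m := by omega
      have e'' : m - (m - a + (2 * a - m)) = m - a := by omega
      rw [e'', pow_add, ← mul_assoc, ← mul_pow, hmul k hk, one_pow, one_mul, map_pow]
    rw [h2 k hk, h2 l hl] at h1
    exact (starRingEnd ℂ).injective h1

end Pool.Agent.W_MP_4b1b5d_an
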