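import Pool.Agent.W_MP_4b1b5d_an.Defs

set_option autoImplicit false

/-!
# B1: weighted averages along an integer vector

For `f` smooth and `ℤ²`-periodic, `v` an integer vector and `w` continuous, the function
`x ↦ ∫_0^1 w τ * f (x + τ v) dτ` is smooth and periodic, and directional derivatives commute with it.
(Smoothness: by induction on `n`, `contDiff_succ_iff_fderiv` (or `contDiff_nat`/`contDiff_infty`), for
functions with values in any normed space; the derivative is computed by
`intervalIntegral.hasFDerivAt_integral_of_dominated_of_fderiv_le` or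
`hasFDerivAt_integral_of_dominated_of_fderiv_le`, with a bound from continuity of `fderiv f` on a
compact neighbourhood.)
-/

namespace Pool.Agent.W_MP_4b1b5d_an

open MeasureTheory

section general

universe u

variable {E : Type u} [NormedAddCommGroup E] [NormedSpace ℝ E]

/-- vector-valued weighted average -/
noncomputable def gavg (w : ℝ → ℝ) (v : V2) (g : V2 → E) (x : V2) : E :=
  ∫ τ in (0:ℝ)..1, w τ • g (x + τ • v)

theorem gavg_hasFDerivAt (w : ℝ → ℝ) (hw : Continuous w) (v : V2) (g : V2 → E)
    (hg : ContDiff ℝ 1 g) (x : V2) :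
    HasFDerivAt (gavg w v g) (gavg w v (fderiv ℝ g) x) x := by
  have hg1 : Differentiable ℝ g := hg.differentiable one_ne_zero
  have hg2 : Continuous (fderiv ℝ g) := hg.continuous_fderiv one_ne_zero
  have hcont : Continuous fun p : V2 × ℝ => w p.2 • fderiv ℝ g (p.1 + p.2 • v) := by fun_prop
  obtain ⟨C, hC⟩ := ((isCompact_closedBall x 1).prod (isCompact_Icc (a := (0:ℝ)) (b := 1))).exists_bound_of_continuousOn
    hcont.continuousOn
  refine intervalIntegral.hasFDerivAt_integral_of_dominated_of_fderiv_le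
    (F := fun y τ => w τ • g (y + τ • v)) (F' := fun y τ => w τ • fderiv ℝ g (y + τ • v))
    (bound := fun _ => C) (s := Metric.closedBall x 1)
    (Metric.closedBall_mem_nhds x one_pos) ?_ ?_ ?_ ?_ ?_ ?_
  · refine Filter.Eventually.of_forall fun y => ?_
    exact (Continuous.aestronglyMeasurable (by fun_prop))
  · exact Continuous.intervalIntegrable (by fun_prop) _ _
  · exact (Continuous.aestronglyMeasurable (by fun_prop))
  · refine Filter.Eventually.of_forall fun τ hτ y hy => ?_
    rw [Set.uIoc_of_le zero_le_one] at hτ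
    exact hC (y, τ) ⟨hy, ⟨hτ.1.le, hτ.2⟩⟩
  · exact intervalIntegrable_const
  · refine Filter.Eventually.of_forall fun τ _ y _ => ?_
    have h1 : HasFDerivAt (fun z : V2 => z + τ • v) (ContinuousLinearMap.id ℝ V2) y :=
      (hasFDerivAt_id y).add_const _
    have h2 : HasFDerivAt (fun z : V2 => g (z + τ • v)) (fderiv ℝ g (y + τ • v)) y :=
      (hg1 (y + τ • v)).hasFDerivAt.comp y h1
    exact h2.const_smul (w τ)

theorem gavg_fderiv (w : ℝ → ℝ) (hw : Continuous w) (v : V2) (g : V2 → E)
    (hg : ContDiff ℝ 1 g) : fderiv ℝ (gavg w v g) = gavg w v (fderiv ℝ g) :=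
  funext fun x => (gavg_hasFDerivAt w hw v g hg x).fderiv

theorem gavg_contDiff_nat (w : ℝ → ℝ) (hw : Continuous w) (v : V2) (n : ℕ) :
    ∀ {E : Type u} [NormedAddCommGroup E] [NormedSpace ℝ E] (g : V2 → E),
      ContDiff ℝ n g → ContDiff ℝ n (gavg w v g) := by
  induction n with
  | zero =>
    intro E _ _ g hg
    have hg' : Continuous g := hg.continuous
    simp only [Nat.cast_zero, contDiff_zero]
    unfold gavg
    apply intervalIntegral.continuous_parametric_intervalIntegral_of_continuous'
    simp only [Function.uncurry_def]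
    fun_prop
  | succ n ih =>
    intro E _ _ g hg
    push_cast at hg ⊢
    have hg1 : ContDiff ℝ 1 g := hg.of_le (by simp)
    rw [contDiff_succ_iff_fderiv] at hg ⊢
    refine ⟨fun x => (gavg_hasFDerivAt w hw v g hg1 x).differentiableAt, ?_, ?_⟩
    · intro h
      exact absurd h (by simp)
    · rw [gavg_fderiv w hw v g hg1]
      exact ih _ hg.2.2

theorem gavg_contDiff (w : ℝ → ℝ) (hw : Continuous w) (v : V2) (g : V2 → E)
    (hg : ContDiff ℝ (⊤ : ℕ∞) g) : ContDiff ℝ (⊤ : ℕ∞) (gavg w v g) := by
  rw [contDiff_infty] at hg ⊢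
  exact fun n => gavg_contDiff_nat w hw v n g (hg n)

end general

/-- weighted average -/
noncomputable def wavg (w : ℝ → ℝ) (v : V2) (f : V2 → ℝ) (x : V2) : ℝ :=
  ∫ τ in (0:ℝ)..1, w τ * f (x + τ • v)

theorem wavg_eq_gavg (w : ℝ → ℝ) (v : V2) (f : V2 → ℝ) : wavg w v f = gavg w v f := rfl

theorem wavg_contDiff (w : ℝ → ℝ) (hw : Continuous w) (v : V2) (f : V2 → ℝ)
    (hf : ContDiff ℝ (⊤ : ℕ∞) f) : ContDiff ℝ (⊤ : ℕ∞) (wavg w v f) := by
  rw [wavg_eq_gavg]
  exact gavg_contDiff w hw v f hf

theorem wavg_fderiv (w : ℝ → ℝ) (hw : Continuous w) (v : V2) (f : V2 → ℝ)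
    (hf : ContDiff ℝ (⊤ : ℕ∞) f) (x e : V2) :
    fderiv ℝ (wavg w v f) x e = wavg w v (fun y => fderiv ℝ f y e) x := by
  have hf1 : ContDiff ℝ 1 f := hf.of_le (by exact_mod_cast le_top)
  have hf2 : Continuous (fderiv ℝ f) := hf1.continuous_fderiv one_ne_zero
  rw [wavg_eq_gavg, gavg_fderiv w hw v f hf1]
  unfold gavg wavg
  rw [ContinuousLinearMap.intervalIntegral_apply]
  · rfl
  · exact Continuous.intervalIntegrable (by fun_prop) _ _

theorem wavg_per (w : ℝ → ℝ) (v : V2) (f : V2 → ℝ)
    (hf : ∀ (x : V2) (k : Z2), f (x + toR k) = f x) (x : V2) (k : Z2) :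
    wavg w v f (x + toR k) = wavg w v f x := by
  unfold wavg
  congr 1
  funext τ
  rw [add_right_comm, hf]

/-- weighted average on smooth periodic functions, as a linear map -/
noncomputable def wavgSP (w : ℝ → ℝ) (hw : Continuous w) (v : V2) : SP →ₗ[ℝ] SP where
  toFun f := ⟨wavg w v f, wavg_contDiff w hw v f (sp_contDiff f), wavg_per w v f (sp_per f)⟩
  map_add' := by
    intro f g
    ext x
    have hf : Continuous (f : V2 → ℝ) := (sp_contDiff f).continuous
    have hg : Continuous (g : V2 → ℝ) := (sp_contDiff g).continuous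
    change wavg w v ((f + g : SP) : V2 → ℝ) x = wavg w v f x + wavg w v g x
    unfold wavg
    rw [← intervalIntegral.integral_add
      (Continuous.intervalIntegrable (by fun_prop) _ _)
      (Continuous.intervalIntegrable (by fun_prop) _ _)]
    congr 1
    funext τ
    simp only [AddMemClass.coe_add, Pi.add_apply]
    ring
  map_smul' := by
    intro c f
    ext x
    change wavg w v ((c • f : SP) : V2 → ℝ) x = c * wavg w v f x
    unfold wavg
    rw [← intervalIntegral.integral_const_mul]
    congr 1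
    funext τ
    simp only [SetLike.val_smul, Pi.smul_apply, smul_eq_mul]
    ring

theorem wavgSP_apply (w : ℝ → ℝ) (hw : Continuous w) (v : V2) (f : SP) (x : V2) :
    (wavgSP w hw v f : V2 → ℝ) x = ∫ τ in (0:ℝ)..1, w τ * (f : V2 → ℝ) (x + τ • v) := rfl

end Pool.Agent.W_MP_4b1b5d_an
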