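import Pool.Agent.W_MP_4b1b5d_an.GeomG

set_option autoImplicit false

/-!
# I4: condition (C4)

`c4_rational`: let `G` have rational entries and let `3 det G` not be the square of a rational.
If `ip k l = |k||l| cos (rπ)`, then `cos (2rπ) = 2 (ip k l)²/(ip k k ip l l) - 1` is rational, so by
Niven's theorem (`Mathlib/NumberTheory/Niven.lean`) `cos² (rπ) ∈ {0, 1/4, 1/2, 3/4, 1}`.
By `ip_lagrange`, `ip k k ip l l = (ip k l)² + det G det2²`; if `ip k l ≠ 0` and `det2 k l ≠ 0`, then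
`det G det2²/(ip k l)² = tan² ∈ {3, 1, 1/3}`, and `3`, `1/3` would make `3 det G` a rational square.
`c4_countable`: `¬ C4 G` gives (at least) three pairwise non-parallel integer vectors with pairwise
rational angles `r01, r02, r12`.  With `det G = 1`, Lagrange gives
`ip k_i k_j = cos(r π)/√(1 - cos²(r π)) · |det2 k_i k_j|`, so the three numbers `ip k_i k_j` are
determined by the (countable) data `(k0,k1,k2,r01,r02,r12)`, and they determine the symmetric matrix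
`G` (`k2 = x k0 + y k1`, `x, y ≠ 0`: `ip k0 k0 = (ip k0 k2 - y ip k0 k1)/x`,
`ip k1 k1 = (ip k1 k2 - x ip k0 k1)/y`, and `k0, k1` is a basis).
-/

namespace Pool.Agent.W_MP_4b1b5d_an

/-- the value of `ip` is determined by the angle and the determinant -/
theorem cc_ip (G : M2) (hG : G.PosDef) (hd : G.det = 1) (k l : V2) (hkl : det2 k l ≠ 0) (c : ℝ)
    (h : ip G k l = √(ip G k k) * √(ip G l l) * c) :
    ip G k l = √(det2 k l ^ 2 / (1 - c ^ 2)) * c := by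
  have hk : k ≠ 0 := by
    rintro rfl
    apply hkl
    simp [det2]
  have hl : l ≠ 0 := by
    rintro rfl
    apply hkl
    simp [det2]
  have h1 := ip_lagrange G hG k l
  have h2 : ip G k l ^ 2 = ip G k k * ip G l l * c ^ 2 := by
    rw [h, mul_pow, mul_pow, Real.sq_sqrt (ip_pos G hG k hk).le, Real.sq_sqrt (ip_pos G hG l hl).le]
  have h3 : (ip G k k * ip G l l) * (1 - c ^ 2) = det2 k l ^ 2 := by
    rw [hd] at h1
    linear_combination h1 + h2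
  have h4 : 1 - c ^ 2 ≠ 0 := by
    intro h5
    rw [h5, mul_zero] at h3
    exact hkl (pow_eq_zero_iff two_ne_zero |>.1 h3.symm)
  have h5 : det2 k l ^ 2 / (1 - c ^ 2) = ip G k k * ip G l l := by
    rw [← h3]
    field_simp
  rw [h5, Real.sqrt_mul (ip_pos G hG k hk).le]
  exact h

/-- three products determine a symmetric matrix -/
theorem cc_unique (G H : M2) (hG : G 1 0 = G 0 1) (hH : H 1 0 = H 0 1) (u v w : V2)
    (h1 : det2 u v ≠ 0) (h2 : det2 u w ≠ 0) (h3 : det2 v w ≠ 0)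
    (e1 : ip G u v = ip H u v) (e2 : ip G u w = ip H u w) (e3 : ip G v w = ip H v w) : G = H := by
  rw [gg_ip_expand, gg_ip_expand, hG, hH] at e1 e2 e3
  have hD : det2 u v * det2 u w * det2 v w ≠ 0 := mul_ne_zero (mul_ne_zero h1 h2) h3
  have a0 : (det2 u v * det2 u w * det2 v w) * (G 0 0 - H 0 0) = 0 := by
    unfold det2
    linear_combination ((u 0 * w 1 + u 1 * w 0) * (v 1 * w 1) - (u 1 * w 1) * (v 0 * w 1 + v 1 * w 0)) * e1
      - ((u 0 * v 1 + u 1 * v 0) * (v 1 * w 1) - (u 1 * v 1) * (v 0 * w 1 + v 1 * w 0)) * e2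
      + ((u 0 * v 1 + u 1 * v 0) * (u 1 * w 1) - (u 1 * v 1) * (u 0 * w 1 + u 1 * w 0)) * e3
  have a1 : (det2 u v * det2 u w * det2 v w) * (G 0 1 - H 0 1) = 0 := by
    unfold det2
    linear_combination (-(u 0 * w 0) * (v 1 * w 1) + (u 1 * w 1) * (v 0 * w 0)) * e1
      + ((u 0 * v 0) * (v 1 * w 1) - (u 1 * v 1) * (v 0 * w 0)) * e2
      - ((u 0 * v 0) * (u 1 * w 1) - (u 1 * v 1) * (u 0 * w 0)) * e3
  have a2 : (det2 u v * det2 u w * det2 v w) * (G 1 1 - H 1 1) = 0 := by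
    unfold det2
    linear_combination ((u 0 * w 0) * (v 0 * w 1 + v 1 * w 0) - (u 0 * w 1 + u 1 * w 0) * (v 0 * w 0)) * e1
      - ((u 0 * v 0) * (v 0 * w 1 + v 1 * w 0) - (u 0 * v 1 + u 1 * v 0) * (v 0 * w 0)) * e2
      + ((u 0 * v 0) * (u 0 * w 1 + u 1 * w 0) - (u 0 * v 1 + u 1 * v 0) * (u 0 * w 0)) * e3
  have b0 := sub_eq_zero.1 ((mul_eq_zero.1 a0).resolve_left hD)
  have b1 := sub_eq_zero.1 ((mul_eq_zero.1 a1).resolve_left hD)
  have b2 := sub_eq_zero.1 ((mul_eq_zero.1 a2).resolve_left hD)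
  ext i j
  fin_cases i <;> fin_cases j
  · exact b0
  · exact b1
  · show G 1 0 = H 1 0
    rw [hG, hH]
    exact b1
  · exact b2

theorem c4_countable : Set.Countable {G : M2 | G.PosDef ∧ G.det = 1 ∧ ¬ C4 G} := by
  let T : (Z2 × Z2 × Z2 × ℚ × ℚ × ℚ) → Set M2 := fun p =>
    {G : M2 | G.PosDef ∧ G.det = 1 ∧ det2 (toR p.1) (toR p.2.1) ≠ 0 ∧ det2 (toR p.1) (toR p.2.2.1) ≠ 0 ∧
      det2 (toR p.2.1) (toR p.2.2.1) ≠ 0 ∧
      ip G (toR p.1) (toR p.2.1) = √(ip G (toR p.1) (toR p.1)) * √(ip G (toR p.2.1) (toR p.2.1)) *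
        Real.cos (p.2.2.2.1 * Real.pi) ∧
      ip G (toR p.1) (toR p.2.2.1) = √(ip G (toR p.1) (toR p.1)) * √(ip G (toR p.2.2.1) (toR p.2.2.1)) *
        Real.cos (p.2.2.2.2.1 * Real.pi) ∧
      ip G (toR p.2.1) (toR p.2.2.1) = √(ip G (toR p.2.1) (toR p.2.1)) * √(ip G (toR p.2.2.1) (toR p.2.2.1)) *
        Real.cos (p.2.2.2.2.2 * Real.pi)}
  have hT : ∀ p, (T p).Countable := by
    intro p
    apply Set.Subsingleton.countable
    rintro G ⟨g1, g2, g3, g4, g5, g6, g7, g8⟩ H ⟨h1, h2, -, -, -, h6, h7, h8⟩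
    refine cc_unique G H (g_symm G g1) (g_symm H h1) _ _ _ g3 g4 g5 ?_ ?_ ?_
    · rw [cc_ip G g1 g2 _ _ g3 _ g6, cc_ip H h1 h2 _ _ g3 _ h6]
    · rw [cc_ip G g1 g2 _ _ g4 _ g7, cc_ip H h1 h2 _ _ g4 _ h7]
    · rw [cc_ip G g1 g2 _ _ g5 _ g8, cc_ip H h1 h2 _ _ g5 _ h8]
  refine (Set.countable_iUnion hT).mono ?_
  rintro G ⟨hG, hd, hc⟩
  unfold C4 at hc
  push Not at hc
  obtain ⟨k, hk, hr, -⟩ := hc
  obtain ⟨r1, hr1⟩ := hr 0 1
  obtain ⟨r2, hr2⟩ := hr 0 2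
  obtain ⟨r3, hr3⟩ := hr 1 2
  rw [Set.mem_iUnion]
  exact ⟨(k 0, k 1, k 2, r1, r2, r3), hG, hd, hk 0 1 (by decide), hk 0 2 (by decide), hk 1 2 (by decide),
    hr1, hr2, hr3⟩

end Pool.Agent.W_MP_4b1b5d_an
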