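import Pool.Agent.W_MP_4b1b5d_an.GeomG

set_option autoImplicit false

/-!
# I4: condition (C4)

`c4_rational`: let `G` have rational entries and let `3 det G` not be the square of a rational.
If `ip k l = |k||l| cos (rπ)`, then `cos (2rπ) = 2 (ip k l)²/(ip k k ip l l) - 1` is rational, so by
Niven's theorem (`Mathlib/NumberTheory/Niven.lean`) `cos² (rπ) ∈ {0, 1/4, 1/2, 3/4, 1}`.
By `ip_lagrange`, `ip k k ip l l = (ip k l)² + det G det2²`; if `ip k l ≠ 0` and `det2 k l ≠ 0`, then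
`det G det2²/(ip k l)² = tan² ∈ {3, 1, 1/3}`, and `3`, `1/3` would make `3 det G` a rational square.
`c4_countable`: `¬ C4 G` gives (at least) three pairwise non-parallel integer vectors with pairwise
rational angles `r01, r02, r12`.  With `det G = 1`, Lagrange gives
`ip k_i k_j = cos(r π)/√(1 - cos²(r π)) · |det2 k_i k_j|`, so the three numbers `ip k_i k_j` are
determined by the (countable) data `(k0,k1,k2,r01,r02,r12)`, and they determine the symmetric matrix
`G` (`k2 = x k0 + y k1`, `x, y ≠ 0`: `ip k0 k0 = (ip k0 k2 - y ip k0 k1)/x`,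
`ip k1 k1 = (ip k1 k2 - x ip k0 k1)/y`, and `k0, k1` is a basis).
-/

namespace Pool.Agent.W_MP_4b1b5d_an

theorem ne_zero_of_det2 {x y : V2} (h : det2 x y ≠ 0) : x ≠ 0 ∧ y ≠ 0 := by
  constructor
  · rintro rfl; exact h (by simp [det2])
  · rintro rfl; exact h (by simp [det2])

/-- the rational version of `ip` -/
def ipQ (Q : Matrix (Fin 2) (Fin 2) ℚ) (k l : Z2) : ℚ :=
  ∑ i, ∑ j, Q i j * k i * l j

theorem ip_eq_ipQ (G : M2) (Q : Matrix (Fin 2) (Fin 2) ℚ) (hQ : ∀ i j, G i j = (Q i j : ℝ))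
    (k l : Z2) : ip G (toR k) (toR l) = ((ipQ Q k l : ℚ) : ℝ) := by
  simp only [ip, ipQ, toR, Fin.sum_univ_two, hQ]
  push_cast
  ring

theorem det2_eq_cast (k l : Z2) :
    det2 (toR k) (toR l) = (((k 0 * l 1 - k 1 * l 0 : ℤ) : ℚ) : ℝ) := by
  simp only [det2, toR]
  push_cast
  ring

theorem det_eq_cast (G : M2) (Q : Matrix (Fin 2) (Fin 2) ℚ) (hQ : ∀ i j, G i j = (Q i j : ℝ)) :
    G.det = ((Q.det : ℚ) : ℝ) := by
  rw [Matrix.det_fin_two, Matrix.det_fin_two, hQ, hQ, hQ, hQ]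
  push_cast
  ring

/-- `cos² (rπ)` rational implies that it is one of five values -/
theorem cos_sq_rat (r : ℚ) (s : ℚ) (h : Real.cos (r * Real.pi) ^ 2 = (s : ℝ)) :
    s = 0 ∨ s = 1 / 4 ∨ s = 1 / 2 ∨ s = 3 / 4 ∨ s = 1 := by
  have h2 : Real.cos (((2 * r : ℚ) : ℝ) * Real.pi) = ((2 * s - 1 : ℚ) : ℝ) := by
    have h3 : ((2 * r : ℚ) : ℝ) * Real.pi = 2 * (r * Real.pi) := by push_cast; ring
    rw [h3, Real.cos_two_mul, h]
    push_cast
    ring
  have h4 := niven (θ := ((2 * r : ℚ) : ℝ) * Real.pi) ⟨2 * r, rfl⟩ ⟨2 * s - 1, h2⟩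
  rw [h2] at h4
  simp only [Set.mem_insert_iff, Set.mem_singleton_iff] at h4
  rcases h4 with h5 | h5 | h5 | h5 | h5
  · left
    have : (2 * s - 1 : ℚ) = -1 := by exact_mod_cast h5
    linarith
  · right; left
    have : (2 * s - 1 : ℚ) = -1 / 2 := by
      have h6 : ((2 * s - 1 : ℚ) : ℝ) = ((-1 / 2 : ℚ) : ℝ) := by rw [h5]; push_cast; ring
      exact_mod_cast h6
    linarith
  · right; right; left
    have : (2 * s - 1 : ℚ) = 0 := by exact_mod_cast h5
    linarith
  · right; right; right; left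
    have : (2 * s - 1 : ℚ) = 1 / 2 := by
      have h6 : ((2 * s - 1 : ℚ) : ℝ) = ((1 / 2 : ℚ) : ℝ) := by rw [h5]; push_cast; ring
      exact_mod_cast h6
    linarith
  · right; right; right; right
    have : (2 * s - 1 : ℚ) = 1 := by exact_mod_cast h5
    linarith

theorem c4_rational (G : M2) (hG : G.PosDef) (Q : Matrix (Fin 2) (Fin 2) ℚ)
    (hQ : ∀ i j, G i j = (Q i j : ℝ)) (hsq : ¬ IsSquare (3 * Q.det)) : C4 G := by
  intro k hpar hrat i j hij
  have hd := hpar i j hij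
  obtain ⟨hx, hy⟩ := ne_zero_of_det2 hd
  obtain ⟨r, hr⟩ := hrat i j
  have ha := ip_pos G hG _ hx
  have hb := ip_pos G hG _ hy
  have hlag := ip_lagrange G hG (toR (k i)) (toR (k j))
  have hcos : ip G (toR (k i)) (toR (k j)) ^ 2
      = ip G (toR (k i)) (toR (k i)) * ip G (toR (k j)) (toR (k j))
        * Real.cos (r * Real.pi) ^ 2 := by
    rw [hr, mul_pow, mul_pow, Real.sq_sqrt ha.le, Real.sq_sqrt hb.le]
  have hdQ : (((k i) 0 * (k j) 1 - (k i) 1 * (k j) 0 : ℤ) : ℚ) ≠ 0 := by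
    intro h0
    apply hd
    rw [det2_eq_cast, h0]
    simp
  rw [ip_eq_ipQ G Q hQ, ip_eq_ipQ G Q hQ, ip_eq_ipQ G Q hQ] at hcos hlag
  rw [ip_eq_ipQ G Q hQ] at ha hb
  rw [ip_eq_ipQ G Q hQ, ip_eq_ipQ G Q hQ, ip_eq_ipQ G Q hQ]
  rw [det2_eq_cast, det_eq_cast G Q hQ] at hlag
  generalize hcdef : ipQ Q (k i) (k j) = c at *
  generalize hadef : ipQ Q (k i) (k i) = a at *
  generalize hbdef : ipQ Q (k j) (k j) = b at *
  generalize hddef : (((k i) 0 * (k j) 1 - (k i) 1 * (k j) 0 : ℤ) : ℚ) = d at *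
  have ha' : 0 < a := by exact_mod_cast ha
  have hb' : 0 < b := by exact_mod_cast hb
  have hlag' : a * b = c ^ 2 + Q.det * d ^ 2 := by exact_mod_cast hlag
  have hcs : Real.cos (r * Real.pi) ^ 2 = ((c ^ 2 / (a * b) : ℚ) : ℝ) := by
    push_cast
    have h1 : (a : ℝ) ≠ 0 := ha.ne'
    have h2 : (b : ℝ) ≠ 0 := hb.ne'
    field_simp
    linarith
  have hab : a * b ≠ 0 := (mul_pos ha' hb').ne'
  rcases cos_sq_rat r _ hcs with h | h | h | h | h
  · left
    have h2 : c ^ 2 = 0 := by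
      rcases div_eq_zero_iff.mp h with h3 | h3
      · exact h3
      · exact absurd h3 hab
    have h3 : c = 0 := by simpa using h2
    exact_mod_cast h3
  · exfalso
    apply hsq
    rw [div_eq_iff hab] at h
    refine ⟨3 * c / d, ?_⟩
    field_simp
    nlinarith
  · right
    rw [div_eq_iff hab] at h
    have h3 : 2 * c ^ 2 = a * b := by linarith
    exact_mod_cast h3
  · exfalso
    apply hsq
    rw [div_eq_iff hab] at h
    refine ⟨c / d, ?_⟩
    field_simp
    nlinarith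
  · exfalso
    rw [div_eq_iff hab] at h
    have hD : 0 < Q.det := by
      have := det_pos G hG
      rw [det_eq_cast G Q hQ] at this
      exact_mod_cast this
    have : 0 < Q.det * d ^ 2 := by positivity
    linarith

theorem ip_smul_mat (G : M2) (c : ℝ) (k l : V2) : ip (c • G) k l = c * ip G k l := by
  simp only [ip, Fin.sum_univ_two, Matrix.smul_apply, smul_eq_mul]
  ring

theorem c4_smul (G : M2) (hG : G.PosDef) (c : ℝ) (hc : 0 < c) (h : C4 G) : C4 (c • G) := by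
  intro k hpar hrat i j hij
  have h1 : ∀ i j, RatAngle G (toR (k i)) (toR (k j)) := by
    intro i j
    obtain ⟨r, hr⟩ := hrat i j
    refine ⟨r, ?_⟩
    rw [ip_smul_mat, ip_smul_mat, ip_smul_mat, Real.sqrt_mul hc.le, Real.sqrt_mul hc.le] at hr
    have hcc : √c * √c = c := Real.mul_self_sqrt hc.le
    have h2 : c * ip G (toR (k i)) (toR (k j))
        = c * (√(ip G (toR (k i)) (toR (k i))) * √(ip G (toR (k j)) (toR (k j)))
          * Real.cos (r * Real.pi)) := by
      rw [hr]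
      calc _ = (√c * √c) * (√(ip G (toR (k i)) (toR (k i))) * √(ip G (toR (k j)) (toR (k j)))
          * Real.cos (r * Real.pi)) := by ring
        _ = _ := by rw [hcc]
    exact mul_left_cancel₀ hc.ne' h2
  rw [ip_smul_mat, ip_smul_mat, ip_smul_mat]
  rcases h k hpar h1 i j hij with h3 | h3
  · left; rw [h3, mul_zero]
  · right
    calc 2 * (c * ip G (toR (k i)) (toR (k j))) ^ 2
        = c ^ 2 * (2 * ip G (toR (k i)) (toR (k j)) ^ 2) := by ring
      _ = _ := by rw [h3]; ring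

end Pool.Agent.W_MP_4b1b5d_an
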