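import Pool.Agent.W_MP_4b1b5d_an.GeomG

set_option autoImplicit false

/-!
# I1: from the frozen notion of integral to coefficient arrays

The bracket condition reads, for all `x, p`:
`∑_i (G p)_i ∂_{x_i}F(x,p) - ∂_{x_i}U(x) ∂_{p_i}F(x,p) = 0`
(`deriv` of `Ham` in `p_i` is `(G p)_i` as `G` is symmetric; `deriv (fun t => f (update x i t)) (x i)` is
`fderiv f x (Pi.single i 1)`; `∂_{p_i}` of `eval` is `eval` of `pderiv i`; `F x = ∑ coeff`, finite sum as
the degree is bounded).  Both sides are polynomials in `p`: compare the coefficients of `p₀^a p₁^b`.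
Only coefficients with `a + b` of one parity occur in one equation, so the part of `F` of degrees
`n, n-2, ...` satisfies `pde`:  `K a b = if a + b ≤ n ∧ Even (n - (a+b)) then coeff else 0`
(`a + b > n`: the coefficient of `F` vanishes by the degree bound).
-/

namespace Pool.Agent.W_MP_4b1b5d_an

open MvPolynomial

/-- the exponent `(a, b)` -/
noncomputable def mk2 (a b : ℕ) : Fin 2 →₀ ℕ := Finsupp.single 0 a + Finsupp.single 1 b

theorem mk2_zero (a b : ℕ) : mk2 a b 0 = a := by simp [mk2]

theorem mk2_one (a b : ℕ) : mk2 a b 1 = b := by simp [mk2]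

theorem eq_mk2 (m : Fin 2 →₀ ℕ) : m = mk2 (m 0) (m 1) := by
  ext i
  fin_cases i
  · simp [mk2]
  · simp [mk2]

theorem mk2_inj {a b a' b' : ℕ} (h : mk2 a b = mk2 a' b') : a = a' ∧ b = b' := by
  constructor
  · have := DFunLike.congr_fun h 0
    rwa [mk2_zero, mk2_zero] at this
  · have := DFunLike.congr_fun h 1
    rwa [mk2_one, mk2_one] at this

theorem mk2_add0 (a b : ℕ) : mk2 a b + Finsupp.single 0 1 = mk2 (a + 1) b := by
  ext i
  fin_cases i
  · simp [mk2]
  · simp [mk2]

theorem mk2_add1 (a b : ℕ) : mk2 a b + Finsupp.single 1 1 = mk2 a (b + 1) := by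
  ext i
  fin_cases i
  · simp [mk2]
  · simp [mk2]

theorem mk2_degree (a b : ℕ) : (mk2 a b).degree = a + b := by
  rw [Finsupp.degree_eq_sum, Fin.sum_univ_two, mk2_zero, mk2_one]

/-- coefficients beyond the total degree vanish -/
theorem coeff_mk2_eq_zero {P : RP} {n a b : ℕ} (h : P.totalDegree ≤ n) (hab : n < a + b) :
    P.coeff (mk2 a b) = 0 := by
  apply coeff_eq_zero_of_totalDegree_lt
  rw [← Finsupp.degree_apply, mk2_degree]
  omega

/-- a polynomial of degree at most `n` as a sum of monomials -/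
theorem eq_sum_mk2 {P : RP} {n : ℕ} (h : P.totalDegree ≤ n) :
    P = ∑ q ∈ Finset.range (n + 1) ×ˢ Finset.range (n + 1),
      monomial (mk2 q.1 q.2) (P.coeff (mk2 q.1 q.2)) := by
  ext m
  rw [coeff_sum]
  simp only [coeff_monomial]
  rw [eq_mk2 m]
  by_cases hm : m 0 ≤ n ∧ m 1 ≤ n
  · rw [Finset.sum_eq_single (m 0, m 1)]
    · simp
    · intro q _ hq
      rw [if_neg]
      intro h'
      obtain ⟨h1, h2⟩ := mk2_inj h'
      exact hq (by ext <;> simp [h1, h2])
    · intro h'
      exfalso
      apply h'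
      simp only [Finset.mem_product, Finset.mem_range]
      omega
  · rw [coeff_mk2_eq_zero h (by omega)]
    symm
    apply Finset.sum_eq_zero
    intro q hq
    rw [if_neg]
    intro h'
    obtain ⟨h1, h2⟩ := mk2_inj h'
    simp only [Finset.mem_product, Finset.mem_range] at hq
    omega

theorem hasDerivAt_comp_update {f : V2 → ℝ} (hf : Differentiable ℝ f) (x : V2) (i : Fin 2) :
    HasDerivAt (fun t => f (Function.update x i t)) (fderiv ℝ f x (Pi.single i 1)) (x i) := by
  have h1 : HasFDerivAt f (fderiv ℝ f x) (Function.update x i (x i)) := by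
    rw [Function.update_eq_self]
    exact (hf x).hasFDerivAt
  exact h1.comp_hasDerivAt (x i) (hasDerivAt_update x i (x i))

theorem hasDerivAt_eval_update (P : RP) (p : V2) (i : Fin 2) :
    HasDerivAt (fun t => eval (Function.update p i t) P) (eval p (pderiv i P)) (p i) := by
  induction P using MvPolynomial.induction_on with
  | C a =>
    simp only [eval_C, pderiv_C, map_zero]
    exact hasDerivAt_const _ _
  | add P Q hP hQ =>
    simp only [map_add]
    exact hP.add hQ
  | mul_X P j hP =>
    simp only [map_mul, eval_X, pderiv_mul, map_add]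
    have hj : HasDerivAt (fun t => Function.update p i t j) (eval p (pderiv i (X j : RP))) (p i) := by
      have h1 := hasDerivAt_pi.1 (hasDerivAt_update p i (p i)) j
      have h2 : eval p (pderiv i (X j : RP)) = (Pi.single i (1 : ℝ) : Fin 2 → ℝ) j := by
        rw [pderiv_X]
        by_cases hij : j = i
        · subst hij; simp
        · simp [hij]
      rw [h2]
      exact h1
    have := hP.fun_mul hj
    simpa [Function.update_eq_self, add_comm] using this

theorem hasDerivAt_ham (G : M2) (hG : G.PosDef) (U : V2 → ℝ) (x p : V2) (i : Fin 2) :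
    HasDerivAt (fun t => Ham G U x (Function.update p i t)) (∑ j, G i j * p j) (p i) := by
  have hs := g_symm G hG
  have hc : ∀ j, HasDerivAt (fun t => Function.update p i t j)
      ((Pi.single i (1 : ℝ) : Fin 2 → ℝ) j) (p i) :=
    fun j => hasDerivAt_pi.1 (hasDerivAt_update p i (p i)) j
  have h1 : HasDerivAt (fun t => Ham G U x (Function.update p i t))
      ((1 / 2 : ℝ) * ∑ k, ∑ j, ((G k j * (Pi.single i (1 : ℝ) : Fin 2 → ℝ) k) * p j
        + (G k j * p k) * (Pi.single i (1 : ℝ) : Fin 2 → ℝ) j)) (p i) := by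
    unfold Ham
    refine HasDerivAt.add_const (U x) (HasDerivAt.const_mul (1 / 2 : ℝ) ?_)
    refine HasDerivAt.fun_sum fun k _ => HasDerivAt.fun_sum fun j _ => ?_
    have := ((hc k).const_mul (G k j)).fun_mul (hc j)
    simpa [Function.update_eq_self] using this
  convert! h1 using 1
  simp only [Fin.sum_univ_two]
  fin_cases i
  · simp [hs]; ring
  · simp [hs]; ring

/-- the coefficient functions -/
noncomputable def cf {H : V2 → V2 → ℝ} {F : V2 → RP} (hF : IsInt H F) (m : Fin 2 →₀ ℕ) : SP :=
  ⟨fun x => (F x).coeff m, hF.1 m, fun x k => by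
    have h := hF.2.1 x k
    change (F (x + fun i => (k i : ℝ))).coeff m = (F x).coeff m
    rw [h]⟩

theorem cf_apply {H : V2 → V2 → ℝ} {F : V2 → RP} (hF : IsInt H F) (m : Fin 2 →₀ ℕ) (x : V2) :
    (cf hF m : V2 → ℝ) x = (F x).coeff m := rfl

theorem cf_zero {H : V2 → V2 → ℝ} {F : V2 → RP} (hF : IsInt H F) {n a b : ℕ}
    (hle : ∀ x, (F x).totalDegree ≤ n) (hab : n < a + b) : cf hF (mk2 a b) = 0 := by
  apply Subtype.ext
  funext x
  exact coeff_mk2_eq_zero (hle x) hab

/-- the derivative of `F` in the direction `x_i`, as a polynomial -/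
noncomputable def dF {H : V2 → V2 → ℝ} {F : V2 → RP} (hF : IsInt H F) (n : ℕ) (i : Fin 2)
    (x : V2) : RP :=
  ∑ q ∈ Finset.range (n + 1) ×ˢ Finset.range (n + 1),
    monomial (mk2 q.1 q.2) ((D i (cf hF (mk2 q.1 q.2)) : V2 → ℝ) x)

theorem dF_coeff {H : V2 → V2 → ℝ} {F : V2 → RP} (hF : IsInt H F) {n : ℕ}
    (hle : ∀ x, (F x).totalDegree ≤ n) (i : Fin 2) (x : V2) (a b : ℕ) :
    (dF hF n i x).coeff (mk2 a b) = (D i (cf hF (mk2 a b)) : V2 → ℝ) x := by
  rw [dF, coeff_sum]
  simp only [coeff_monomial]
  by_cases hm : a ≤ n ∧ b ≤ n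
  · rw [Finset.sum_eq_single (a, b)]
    · simp
    · intro q _ hq
      rw [if_neg]
      intro h'
      obtain ⟨h1, h2⟩ := mk2_inj h'
      exact hq (by ext <;> simp [h1, h2])
    · intro h'
      exfalso
      apply h'
      simp only [Finset.mem_product, Finset.mem_range]
      omega
  · rw [cf_zero hF hle (a := a) (b := b) (by omega), map_zero]
    apply Finset.sum_eq_zero
    intro q hq
    rw [if_neg]
    intro h'
    obtain ⟨h1, h2⟩ := mk2_inj h'
    simp only [Finset.mem_product, Finset.mem_range] at hq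
    omega

theorem hasDerivAt_F {H : V2 → V2 → ℝ} {F : V2 → RP} (hF : IsInt H F) {n : ℕ}
    (hle : ∀ x, (F x).totalDegree ≤ n) (i : Fin 2) (x p : V2) :
    HasDerivAt (fun t => eval p (F (Function.update x i t))) (eval p (dF hF n i x)) (x i) := by
  have h1 : ∀ y, eval p (F y) = ∑ q ∈ Finset.range (n + 1) ×ˢ Finset.range (n + 1),
      (cf hF (mk2 q.1 q.2) : V2 → ℝ) y * eval p (monomial (mk2 q.1 q.2) (1 : ℝ)) := by
    intro y
    conv_lhs => rw [eq_sum_mk2 (hle y)]
    rw [map_sum]
    refine Finset.sum_congr rfl fun q _ => ?_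
    rw [eval_monomial, eval_monomial, one_mul]
    rfl
  have h2 : eval p (dF hF n i x) = ∑ q ∈ Finset.range (n + 1) ×ˢ Finset.range (n + 1),
      (D i (cf hF (mk2 q.1 q.2)) : V2 → ℝ) x * eval p (monomial (mk2 q.1 q.2) (1 : ℝ)) := by
    rw [dF, map_sum]
    refine Finset.sum_congr rfl fun q _ => ?_
    rw [eval_monomial, eval_monomial, one_mul]
  rw [h2]
  simp only [h1]
  refine HasDerivAt.fun_sum fun q _ => HasDerivAt.mul_const ?_ _
  exact hasDerivAt_comp_update (sp_diff _) x i

theorem coeff_X0_mul {C0 : ℕ → ℕ → SP} {Q : RP} {i : Fin 2} {x : V2}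
    (hQ : ∀ a b, Q.coeff (mk2 a b) = (D i (C0 a b) : V2 → ℝ) x) (a b : ℕ) :
    (X 0 * Q : RP).coeff (mk2 a b) = (D i (sh0 C0 a b) : V2 → ℝ) x := by
  cases a with
  | zero =>
    rw [coeff_X_mul', if_neg (by simp [mk2]), sh0, map_zero]
    rfl
  | succ a =>
    rw [← mk2_add0, add_comm (mk2 a b), coeff_X_mul, hQ]
    rfl

theorem coeff_X1_mul {C0 : ℕ → ℕ → SP} {Q : RP} {i : Fin 2} {x : V2}
    (hQ : ∀ a b, Q.coeff (mk2 a b) = (D i (C0 a b) : V2 → ℝ) x) (a b : ℕ) :
    (X 1 * Q : RP).coeff (mk2 a b) = (D i (sh1 C0 a b) : V2 → ℝ) x := by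
  cases b with
  | zero =>
    rw [coeff_X_mul', if_neg (by simp [mk2])]
    cases a <;> simp [sh1]
  | succ b =>
    rw [← mk2_add1, add_comm (mk2 a b), coeff_X_mul, hQ]
    cases a <;> rfl

/-- the equation for the unfiltered coefficients -/
theorem full_pde (G : M2) (hG : G.PosDef) (U : SP) (F : V2 → RP) (hF : IsInt (Ham G U) F) (n : ℕ)
    (hle : ∀ x, (F x).totalDegree ≤ n) (a b : ℕ) :
    (G 0 0 • D 0 (sh0 (fun a b => cf hF (mk2 a b)) a b)
        + G 1 0 • D 1 (sh0 (fun a b => cf hF (mk2 a b)) a b))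
      + (G 0 1 • D 0 (sh1 (fun a b => cf hF (mk2 a b)) a b)
        + G 1 1 • D 1 (sh1 (fun a b => cf hF (mk2 a b)) a b))
      = ((a : ℝ) + 1) • (D 0 U * cf hF (mk2 (a + 1) b))
        + ((b : ℝ) + 1) • (D 1 U * cf hF (mk2 a (b + 1))) := by
  apply Subtype.ext
  funext x
  -- the polynomial identity
  have hP : (∑ i : Fin 2, ((C (G i 0) * X 0 + C (G i 1) * X 1) * dF hF n i x
      - C ((D i U : V2 → ℝ) x) * pderiv i (F x)) : RP) = 0 := by
    apply MvPolynomial.funext
    intro p
    rw [map_zero, ← hF.2.2.2 x p, map_sum]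
    refine Finset.sum_congr rfl fun i _ => ?_
    rw [(hasDerivAt_ham G hG U x p i).deriv, (hasDerivAt_F hF hle i x p).deriv,
      (hasDerivAt_eval_update (F x) p i).deriv]
    have h1 : HasDerivAt (fun t => Ham G U (Function.update x i t) p)
        ((D i U : V2 → ℝ) x) (x i) := by
      unfold Ham
      have := (hasDerivAt_comp_update (sp_diff U) x i).const_add
        ((1 / 2 : ℝ) * ∑ i, ∑ j, G i j * p i * p j)
      exact this
    rw [h1.deriv]
    simp only [map_sub, map_mul, map_add, eval_C, eval_X, Fin.sum_univ_two]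
  have h := congrArg (fun P : RP => P.coeff (mk2 a b)) hP
  simp only [Fin.sum_univ_two, coeff_add, coeff_sub, coeff_zero, add_mul, mul_assoc,
    coeff_C_mul, coeff_pderiv] at h
  rw [coeff_X0_mul (C0 := fun a b => cf hF (mk2 a b)) (dF_coeff hF hle 0 x),
    coeff_X0_mul (C0 := fun a b => cf hF (mk2 a b)) (dF_coeff hF hle 1 x),
    coeff_X1_mul (C0 := fun a b => cf hF (mk2 a b)) (dF_coeff hF hle 0 x),
    coeff_X1_mul (C0 := fun a b => cf hF (mk2 a b)) (dF_coeff hF hle 1 x),
    mk2_add0, mk2_add1, mk2_zero, mk2_one] at h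
  simp only [AddMemClass.coe_add, Pi.add_apply, SetLike.val_smul, Pi.smul_apply,
    MulMemClass.coe_mul, Pi.mul_apply, smul_eq_mul, cf_apply]
  linear_combination h

theorem toK (G : M2) (hG : G.PosDef) (U : SP) (F : V2 → RP) (hF : IsInt (Ham G U) F) (n : ℕ)
    (hle : ∀ x, (F x).totalDegree ≤ n) (hex : ∃ x, (F x).totalDegree = n)
    (hne : ∃ x, F x ≠ 0) :
    ∃ K : ℕ → ℕ → SP, IsK G U n K ∧ (∃ a, a ≤ n ∧ K a (n - a) ≠ 0) ∧
      ∀ a, a ≤ n → ∀ x, (K a (n - a) : V2 → ℝ) x
        = (F x).coeff (Finsupp.single 0 a + Finsupp.single 1 (n - a)) := by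
  classical
  let K : ℕ → ℕ → SP := fun a b =>
    if a + b ≤ n ∧ Even (n - (a + b)) then cf hF (mk2 a b) else 0
  have hK1 : ∀ a b, (a + b ≤ n ∧ Even (n - (a + b))) → K a b = cf hF (mk2 a b) :=
    fun a b h => if_pos h
  have hK2 : ∀ a b, ¬ (a + b ≤ n ∧ Even (n - (a + b))) → K a b = 0 := fun a b h => if_neg h
  have hKtop : ∀ a, a ≤ n → K a (n - a) = cf hF (mk2 a (n - a)) := by
    intro a ha
    apply hK1
    constructor
    · omega
    · rw [show n - (a + (n - a)) = 0 by omega]
      exact Even.zero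
  refine ⟨K, ⟨hK2, ?_⟩, ?_, ?_⟩
  · intro a b
    by_cases hpar : a + b ≤ n + 1 ∧ Even (n + 1 - (a + b))
    · -- all terms are unfiltered
      have h0 : sh0 K a b = sh0 (fun a b => cf hF (mk2 a b)) a b := by
        cases a with
        | zero => rfl
        | succ a =>
          change K a b = cf hF (mk2 a b)
          apply hK1
          refine ⟨by omega, ?_⟩
          have : n - (a + b) = n + 1 - (a + 1 + b) := by omega
          rw [this]
          exact hpar.2
      have h1 : sh1 K a b = sh1 (fun a b => cf hF (mk2 a b)) a b := by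
        cases b with
        | zero => cases a <;> rfl
        | succ b =>
          have : sh1 K a (b + 1) = K a b := by cases a <;> rfl
          rw [this]
          have : sh1 (fun a b => cf hF (mk2 a b)) a (b + 1) = cf hF (mk2 a b) := by
            cases a <;> rfl
          rw [this]
          apply hK1
          refine ⟨by omega, ?_⟩
          have : n - (a + b) = n + 1 - (a + (b + 1)) := by omega
          rw [this]
          exact hpar.2
      have h2 : ∀ a' b', a' + b' = a + b + 1 → K a' b' = cf hF (mk2 a' b') := by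
        intro a' b' hab
        by_cases hle' : a' + b' ≤ n
        · apply hK1
          refine ⟨hle', ?_⟩
          obtain ⟨r, hr⟩ := hpar.2
          exact ⟨r - 1, by omega⟩
        · rw [hK2 a' b' (fun h => hle' h.1), cf_zero hF hle (by omega)]
      rw [h0, h1, h2 (a + 1) b (by omega), h2 a (b + 1) (by omega)]
      exact full_pde G hG U F hF n hle a b
    · -- all terms are filtered
      have h0 : sh0 K a b = 0 := by
        cases a with
        | zero => rfl
        | succ a =>
          change K a b = 0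
          apply hK2
          rintro ⟨h1, h2⟩
          apply hpar
          refine ⟨by omega, ?_⟩
          have : n + 1 - (a + 1 + b) = n - (a + b) := by omega
          rw [this]
          exact h2
      have h1 : sh1 K a b = 0 := by
        cases b with
        | zero => cases a <;> rfl
        | succ b =>
          have : sh1 K a (b + 1) = K a b := by cases a <;> rfl
          rw [this]
          apply hK2
          rintro ⟨h1, h2⟩
          apply hpar
          refine ⟨by omega, ?_⟩
          have : n + 1 - (a + (b + 1)) = n - (a + b) := by omega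
          rw [this]
          exact h2
      have h2 : ∀ a' b', a' + b' = a + b + 1 → K a' b' = 0 := by
        intro a' b' hab
        apply hK2
        rintro ⟨h1, r, hr⟩
        apply hpar
        exact ⟨by omega, r + 1, by omega⟩
      rw [h0, h1, h2 (a + 1) b (by omega), h2 a (b + 1) (by omega)]
      simp
  · -- a nonzero coefficient of top degree
    have hx : ∃ x, ∃ m ∈ (F x).support, m.degree = n := by
      by_cases hn : n = 0
      · obtain ⟨x, hx⟩ := hne
        obtain ⟨m, hm⟩ := support_nonempty.2 hx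
        refine ⟨x, m, hm, ?_⟩
        have h1 := le_totalDegree hm
        have h2 := hle x
        change m.degree ≤ _ at h1
        omega
      · obtain ⟨x, hx⟩ := hex
        have hFx : F x ≠ 0 := by
          intro h
          rw [h, totalDegree_zero] at hx
          exact hn hx.symm
        obtain ⟨m, hm, hmd⟩ := Finset.exists_mem_eq_sup _ (support_nonempty.2 hFx)
          (fun m : Fin 2 →₀ ℕ => m.sum fun _ e => e)
        refine ⟨x, m, hm, ?_⟩
        rw [← hx, totalDegree, hmd]
        rfl
    obtain ⟨x, m, hm, hmd⟩ := hx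
    have hm' := eq_mk2 m
    have hdeg : m 0 + m 1 = n := by
      rw [← hmd]
      conv_rhs => rw [hm', mk2_degree]
    refine ⟨m 0, by omega, ?_⟩
    rw [hKtop (m 0) (by omega)]
    intro h
    have h1 := congrArg (fun f : SP => (f : V2 → ℝ) x) h
    have h2 : n - m 0 = m 1 := by omega
    simp only [cf_apply, h2] at h1
    rw [← hm'] at h1
    exact (mem_support_iff.1 hm) h1
  · intro a ha x
    rw [hKtop a ha]
    rfl

end Pool.Agent.W_MP_4b1b5d_an
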