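import Pool.Agent.W_MP_4b1b5d_an.Angles

set_option autoImplicit false

/-!
# G2: radial polynomials and critical directions

* `Rad` means that the derivative of `P` along every `G`-circle vanishes, so `P` (homogeneous of
  degree `m`) is `c (ip p p)^{m/2}` as a function.  (Along the curve
  `θ ↦ tau⁻¹(e^{iθ} z)`, or with `complex_form`: `∑ (2a - m) c_a z^a z̄^{m-a} = 0` for all `z`, so
  `c_a = 0` for `2a ≠ m` by `complex_unique`.)
* For odd `m` this gives `P = 0`.
* `crit G P` is a homogeneous polynomial function of degree `m` of `k`; on the line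
  `t ↦ m1 + t m2` it is a polynomial in `t`, which is not zero if `P` is not radial.
-/

namespace Pool.Agent.W_MP_4b1b5d_an

theorem critfin_eval_smul (P : RP) (m : ℕ) (hP : P.IsHomogeneous m) (c : ℝ) (p : V2) :
    MvPolynomial.eval (c • p) P = c ^ m * MvPolynomial.eval p P := by
  rw [MvPolynomial.eval_eq, MvPolynomial.eval_eq, Finset.mul_sum]
  refine Finset.sum_congr rfl fun d hd => ?_
  have h1 : ∑ i ∈ d.support, d i = m := by
    have := hP (MvPolynomial.mem_support_iff.mp hd)
    rw [Finsupp.weight_apply, Finsupp.sum] at this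
    simpa using this
  simp only [Pi.smul_apply, smul_eq_mul, mul_pow]
  rw [Finset.prod_mul_distrib, Finset.prod_pow_eq_pow_sum, h1]
  ring

theorem critfin_J_lin (G : M2) (x y : V2) (s t : ℝ) :
    J (G.mulVec (s • x + t • y)) = s • J (G.mulVec x) + t • J (G.mulVec y) := by
  ext i
  rw [Matrix.mulVec_add, Matrix.mulVec_smul, Matrix.mulVec_smul]
  fin_cases i
  · simp [J]; ring
  · simp [J]

theorem critfin_smul (G : M2) (P : RP) (m : ℕ) (hP : P.IsHomogeneous m) (c : ℝ) (k : V2) :
    crit G P (c • k) = c ^ m * crit G P k := by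
  rcases m with _ | m
  · have h0 : ∀ i, MvPolynomial.pderiv i P = 0 := by
      intro i
      rw [← MvPolynomial.totalDegree_zero_iff_isHomogeneous,
        MvPolynomial.totalDegree_eq_zero_iff_eq_C] at hP
      rw [hP, MvPolynomial.pderiv_C]
    simp [crit, h0]
  · have hJ : J (G.mulVec (c • k)) = c • J (G.mulVec k) := by
      have := critfin_J_lin G k 0 c 0
      simpa using this
    have hd : ∀ i, MvPolynomial.eval (J (G.mulVec (c • k))) (MvPolynomial.pderiv i P)
        = c ^ m * MvPolynomial.eval (J (G.mulVec k)) (MvPolynomial.pderiv i P) := by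
      intro i
      rw [hJ]
      exact critfin_eval_smul _ m (hP.pderiv (i := i)) c _
    simp only [crit, hd, Pi.smul_apply, smul_eq_mul]
    ring

open Polynomial in
theorem critfin_poly (G : M2) (P : RP) (m1 m2 : V2) :
    ∃ Q : ℝ[X], ∀ t, Q.eval t = crit G P (m1 + t • m2) := by
  have key : ∀ R : RP, ∃ Q : ℝ[X], ∀ t, Q.eval t =
      MvPolynomial.eval (J (G.mulVec (m1 + t • m2))) R := by
    intro R
    refine ⟨MvPolynomial.aeval (fun i => Polynomial.C (J (G.mulVec m1) i)
      + Polynomial.X * Polynomial.C (J (G.mulVec m2) i)) R, fun t => ?_⟩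
    have h1 : J (G.mulVec (m1 + t • m2)) = J (G.mulVec m1) + t • J (G.mulVec m2) := by
      have := critfin_J_lin G m1 m2 1 t
      simpa using this
    rw [h1]
    induction R using MvPolynomial.induction_on with
    | C a => simp
    | add p q hp hq => simp only [map_add, Polynomial.eval_add, hp, hq]
    | mul_X p i hp =>
      simp only [map_mul, Polynomial.eval_mul, hp, MvPolynomial.aeval_X, MvPolynomial.eval_X,
        Polynomial.eval_add, Polynomial.eval_C, Polynomial.eval_X, Pi.add_apply, Pi.smul_apply,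
        smul_eq_mul]
  obtain ⟨Q0, h0⟩ := key (MvPolynomial.pderiv 0 P)
  obtain ⟨Q1, h1⟩ := key (MvPolynomial.pderiv 1 P)
  refine ⟨(Polynomial.C (m1 0) + Polynomial.X * Polynomial.C (m2 0)) * Q0
    + (Polynomial.C (m1 1) + Polynomial.X * Polynomial.C (m2 1)) * Q1, fun t => ?_⟩
  simp only [Polynomial.eval_add, Polynomial.eval_mul, Polynomial.eval_C, Polynomial.eval_X, h0, h1,
    crit, Pi.add_apply, Pi.smul_apply, smul_eq_mul]

theorem crit_finite (G : M2) (hG : G.PosDef) (P : RP) (m : ℕ) (hP : P.IsHomogeneous m)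
    (hnr : ¬ Rad G P) (m1 m2 : V2) (h : det2 m1 m2 ≠ 0) :
    ∃ S : Finset ℝ, ∀ x y : ℝ, x ≠ 0 → y / x ∉ S → crit G P (x • m1 + y • m2) ≠ 0 := by
  have hxy : ∀ x y : ℝ, x ≠ 0 → crit G P (x • m1 + y • m2)
      = x ^ m * crit G P (m1 + (y / x) • m2) := by
    intro x y hx
    rw [← critfin_smul G P m hP]
    congr 1
    rw [smul_add, smul_smul, mul_div_cancel₀ _ hx]
  obtain ⟨Q, hQ⟩ := critfin_poly G P m1 m2
  by_cases hQ0 : Q = 0
  · exfalso
    apply hnr
    have hz : ∀ x y : ℝ, x ≠ 0 → crit G P (x • m1 + y • m2) = 0 := by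
      intro x y hx
      rw [hxy x y hx, ← hQ, hQ0, Polynomial.eval_zero, mul_zero]
    obtain ⟨Q', hQ'⟩ := critfin_poly G P m2 m1
    have hQ'0 : Q' = 0 := by
      refine Polynomial.eq_zero_of_infinite_isRoot Q' ?_
      have : Set.Infinite {s : ℝ | s ≠ 0} := by
        have h1 : ({s : ℝ | s ≠ 0} : Set ℝ) = {0}ᶜ := rfl
        rw [h1]
        exact (Set.finite_singleton (0 : ℝ)).infinite_compl
      refine this.mono fun s hs => ?_
      rw [Set.mem_ofPred_eq, Polynomial.IsRoot, hQ' s]
      have := hz s 1 hs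
      rwa [one_smul, add_comm] at this
    have hm2 : crit G P m2 = 0 := by
      have := hQ' 0
      rw [hQ'0, Polynomial.eval_zero, zero_smul, add_zero] at this
      exact this.symm
    intro k
    have hk : k = (det2 k m2 / det2 m1 m2) • m1 + (det2 m1 k / det2 m1 m2) • m2 := by
      have h' : m1 0 * m2 1 - m1 1 * m2 0 ≠ 0 := h
      ext i
      fin_cases i
      · simp only [det2, Fin.zero_eta, Pi.add_apply, Pi.smul_apply, smul_eq_mul]
        rw [div_mul_eq_mul_div, div_mul_eq_mul_div, ← add_div, eq_div_iff h']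
        ring
      · simp only [det2, Fin.mk_one, Pi.add_apply, Pi.smul_apply, smul_eq_mul]
        rw [div_mul_eq_mul_div, div_mul_eq_mul_div, ← add_div, eq_div_iff h']
        ring
    rw [hk]
    by_cases hx : det2 k m2 / det2 m1 m2 = 0
    · rw [hx, zero_smul, zero_add, critfin_smul G P m hP, hm2, mul_zero]
    · exact hz _ _ hx
  · refine ⟨Q.roots.toFinset, fun x y hx hy => ?_⟩
    rw [hxy x y hx, ← hQ]
    refine mul_ne_zero (pow_ne_zero _ hx) fun hcon => hy ?_
    rw [Multiset.mem_toFinset, Polynomial.mem_roots hQ0]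
    exact hcon

end Pool.Agent.W_MP_4b1b5d_an
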