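import Pool.Agent.W_MP_4b1b5d_an.GeomG

set_option autoImplicit false

/-!
# G3: at most three lattice lines at angles in `(π/N) ℤ`, `N` odd

With `u_i = uu k_i`, `w_i = tau k_i`: `conj w_i w_j - w_i conj w_j = 2 i √det det2 k_i k_j` and it equals
`conj w_i conj w_j (u_j - u_i)`.  So for four vectors
`det2(k₁,k₃) det2(k₂,k₄) (u₄-u₁)(u₃-u₂) = det2(k₁,k₄) det2(k₂,k₃) (u₃-u₁)(u₄-u₂)`.
`(u_i/u_1)^N = 1`, `N` odd; write `u_i = u_1 ζ^{e_i}` with `ζ` a primitive `N`-th root of unity.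
The resulting polynomial identity with integer coefficients at `ζ` also holds at `ζ²`
(`IsPrimitiveRoot.minpoly_eq_pow_coprime`, `N` odd).  With `ζ_i = ζ^{e_i}` pairwise different:
`d₁₃ d₂₄ (ζ₄²-ζ₁²)(ζ₃²-ζ₂²) = d₁₄ d₂₃ (ζ₃²-ζ₁²)(ζ₄²-ζ₂²)`; dividing by the first identity,
`(ζ₄+ζ₁)(ζ₃+ζ₂) = (ζ₃+ζ₁)(ζ₄+ζ₂)`, i.e. `(ζ₁-ζ₂)(ζ₃-ζ₄) = 0`, a contradiction.
* `no_orth_odd`: if `ip k l = 0` then `uu l = - uu k`.
* `ratAngle_of_uu`: `uu k / uu l = e^{2iφ}`, `φ` the angle, so `2 N φ ∈ 2πℤ`.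
-/

namespace Pool.Agent.W_MP_4b1b5d_an

/-- the algebra behind the cross ratio argument -/
theorem cross_alg {a b r0 r1 r2 r3 : ℂ} (ha : a ≠ 0) (h30 : r3 ≠ r0) (h21 : r2 ≠ r1)
    (h10 : r1 ≠ r0) (h32 : r3 ≠ r2)
    (h1 : a * ((r3 - r0) * (r2 - r1)) = b * ((r2 - r0) * (r3 - r1)))
    (h2 : a * ((r3 ^ 2 - r0 ^ 2) * (r2 ^ 2 - r1 ^ 2)) = b * ((r2 ^ 2 - r0 ^ 2) * (r3 ^ 2 - r1 ^ 2))) :
    False := by
  have hne : a * ((r3 - r0) * (r2 - r1)) ≠ 0 :=
    mul_ne_zero ha (mul_ne_zero (sub_ne_zero.2 h30) (sub_ne_zero.2 h21))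
  have h3 : (a * ((r3 - r0) * (r2 - r1))) * ((r1 - r0) * (r3 - r2)) = 0 := by
    linear_combination h2 - (r2 + r0) * (r3 + r1) * h1
  rcases mul_eq_zero.1 h3 with h | h
  · exact hne h
  · rcases mul_eq_zero.1 h with h | h
    · exact h10 (sub_eq_zero.1 h)
    · exact h32 (sub_eq_zero.1 h)

theorem cross_key {S U c0 c1 c2 c3 r0 r1 r2 r3 d02 d13 d03 d12 : ℂ} (hS : S ≠ 0)
    (e02 : S * d02 = c0 * c2 * (U * r2 - U * r0)) (e13 : S * d13 = c1 * c3 * (U * r3 - U * r1))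
    (e03 : S * d03 = c0 * c3 * (U * r3 - U * r0)) (e12 : S * d12 = c1 * c2 * (U * r2 - U * r1)) :
    d02 * d13 * ((r3 - r0) * (r2 - r1)) = d03 * d12 * ((r2 - r0) * (r3 - r1)) := by
  apply mul_left_cancel₀ (pow_ne_zero 2 hS)
  linear_combination (S * d13 * ((r3 - r0) * (r2 - r1))) * e02
    + (c0 * c2 * (U * r2 - U * r0) * ((r3 - r0) * (r2 - r1))) * e13
    - (S * d12 * ((r2 - r0) * (r3 - r1))) * e03
    - (c0 * c3 * (U * r3 - U * r0) * ((r2 - r0) * (r3 - r1))) * e12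

/-- integer polynomial identities at a root of unity of odd order also hold at its square -/
theorem square_of_identity {N : ℕ} (hN : Odd N) {a b : ℤ} {r : Fin 4 → ℂ}
    (hr : ∀ i, r i ^ N = 1)
    (h1 : (a : ℂ) * ((r 3 - r 0) * (r 2 - r 1)) = b * ((r 2 - r 0) * (r 3 - r 1))) :
    (a : ℂ) * ((r 3 ^ 2 - r 0 ^ 2) * (r 2 ^ 2 - r 1 ^ 2))
      = b * ((r 2 ^ 2 - r 0 ^ 2) * (r 3 ^ 2 - r 1 ^ 2)) := by
  have hN0 : N ≠ 0 := by rintro rfl; simp at hN
  have hNe : NeZero N := ⟨hN0⟩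
  obtain ⟨ζ, hζ⟩ : ∃ ζ : ℂ, IsPrimitiveRoot ζ N := ⟨_, Complex.isPrimitiveRoot_exp N hN0⟩
  have he : ∀ i, ∃ e : ℕ, ζ ^ e = r i := fun i => by
    obtain ⟨e, _, he⟩ := hζ.eq_pow_of_pow_eq_one (hr i)
    exact ⟨e, he⟩
  choose e he using he
  have hcop : Nat.Coprime 2 N := (Nat.coprime_two_left).2 hN
  have hmin := hζ.minpoly_eq_pow_coprime hcop
  set P : Polynomial ℤ := Polynomial.C a * ((Polynomial.X ^ e 3 - Polynomial.X ^ e 0) *
      (Polynomial.X ^ e 2 - Polynomial.X ^ e 1)) - Polynomial.C b *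
      ((Polynomial.X ^ e 2 - Polynomial.X ^ e 0) * (Polynomial.X ^ e 3 - Polynomial.X ^ e 1)) with hP
  have hP1 : Polynomial.aeval ζ P = 0 := by
    rw [hP]
    simp only [map_sub, map_mul, map_pow, Polynomial.aeval_X, Polynomial.aeval_C, he]
    simp only [algebraMap_int_eq, eq_intCast]
    linear_combination h1
  have hint : IsIntegral ℤ ζ := hζ.isIntegral (Nat.pos_of_ne_zero hN0)
  have hdvd : minpoly ℤ ζ ∣ P := minpoly.isIntegrallyClosed_dvd hint hP1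
  have hP2 : Polynomial.aeval (ζ ^ 2) P = 0 := by
    rw [hmin] at hdvd
    obtain ⟨Q, hQ⟩ := hdvd
    rw [hQ, map_mul, minpoly.aeval, zero_mul]
  rw [hP] at hP2
  simp only [map_sub, map_mul, map_pow, Polynomial.aeval_X, Polynomial.aeval_C] at hP2
  simp only [algebraMap_int_eq, eq_intCast] at hP2
  have hsq : ∀ i, (ζ ^ 2) ^ e i = r i ^ 2 := fun i => by
    rw [← he i, ← pow_mul, ← pow_mul, mul_comm]
  simp only [hsq] at hP2
  linear_combination hP2

theorem no_four_odd (G : M2) (hG : G.PosDef) (N : ℕ) (hN : Odd N) (k : Fin 4 → Z2)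
    (hpar : ∀ i j, i ≠ j → det2 (toR (k i)) (toR (k j)) ≠ 0)
    (hu : ∀ i j, uu G (toR (k i)) ^ N = uu G (toR (k j)) ^ N) : False := by
  have hk : ∀ i, toR (k i) ≠ 0 := by
    intro i h0
    obtain ⟨j, hj⟩ := exists_ne i
    apply hpar i j hj.symm
    rw [h0]
    simp [det2]
  have huu : ∀ i, uu G (toR (k i)) ≠ 0 := fun i h => by
    have := uu_norm G hG (toR (k i)) (hk i)
    rw [h] at this
    simp at this
  have hw : ∀ i, (starRingEnd ℂ) (tau G (toR (k i))) ≠ 0 := fun i h => by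
    exact tau_ne G hG (toR (k i)) (hk i) ((map_eq_zero _).1 h)
  have hdet : ∀ i j, 2 * Complex.I * ((√G.det : ℝ) : ℂ) * (det2 (toR (k i)) (toR (k j)) : ℂ)
      = (starRingEnd ℂ) (tau G (toR (k i))) * (starRingEnd ℂ) (tau G (toR (k j))) *
        (uu G (toR (k j)) - uu G (toR (k i))) := by
    intro i j
    have h1 := tau_mul G hG (toR (k i)) (toR (k j))
    have h2 := tau_mul G hG (toR (k j)) (toR (k i))
    rw [ip_comm G hG (toR (k j)) (toR (k i))] at h2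
    have h3 : det2 (toR (k j)) (toR (k i)) = - det2 (toR (k i)) (toR (k j)) := by
      unfold det2; ring
    rw [h3] at h2
    have h4 : uu G (toR (k j)) * (starRingEnd ℂ) (tau G (toR (k j))) = tau G (toR (k j)) := by
      unfold uu
      exact div_mul_cancel₀ _ (hw j)
    have h5 : uu G (toR (k i)) * (starRingEnd ℂ) (tau G (toR (k i))) = tau G (toR (k i)) := by
      unfold uu
      exact div_mul_cancel₀ _ (hw i)
    push_cast at h1 h2
    linear_combination -h1 + h2 - (starRingEnd ℂ) (tau G (toR (k i))) * h4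
      + (starRingEnd ℂ) (tau G (toR (k j))) * h5
  have hs : (2 * Complex.I * ((√G.det : ℝ) : ℂ)) ≠ 0 := by
    refine mul_ne_zero (mul_ne_zero two_ne_zero Complex.I_ne_zero) ?_
    exact_mod_cast (Real.sqrt_pos.2 (det_pos G hG)).ne'
  have hne : ∀ i j, i ≠ j → uu G (toR (k j)) ≠ uu G (toR (k i)) := by
    intro i j hij h
    have h1 := hdet i j
    rw [h, sub_self, mul_zero] at h1
    rcases mul_eq_zero.1 h1 with h2 | h2
    · exact hs h2
    · exact hpar i j hij (by exact_mod_cast h2)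
  -- the integer determinants
  set d : Fin 4 → Fin 4 → ℤ := fun i j => k i 0 * k j 1 - k i 1 * k j 0 with hd
  have hdd : ∀ i j, det2 (toR (k i)) (toR (k j)) = (d i j : ℝ) := by
    intro i j
    simp [det2, toR, hd]
  set r : Fin 4 → ℂ := fun i => uu G (toR (k i)) / uu G (toR (k 0)) with hr
  have hrN : ∀ i, r i ^ N = 1 := by
    intro i
    simp only [hr, div_pow]
    rw [hu i 0, div_self (pow_ne_zero _ (huu 0))]
  have hur : ∀ i, uu G (toR (k i)) = uu G (toR (k 0)) * r i := fun i => by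
    simp only [hr]
    rw [mul_div_cancel₀ _ (huu 0)]
  have hrne : ∀ i j, i ≠ j → r j ≠ r i := by
    intro i j hij h
    apply hne i j hij
    rw [hur i, hur j, h]
  have key : ((d 0 2 * d 1 3 : ℤ) : ℂ) * ((r 3 - r 0) * (r 2 - r 1))
      = ((d 0 3 * d 1 2 : ℤ) : ℂ) * ((r 2 - r 0) * (r 3 - r 1)) := by
    have e : ∀ i j, 2 * Complex.I * ((√G.det : ℝ) : ℂ) * (d i j : ℂ)
        = (starRingEnd ℂ) (tau G (toR (k i))) * (starRingEnd ℂ) (tau G (toR (k j))) *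
          (uu G (toR (k 0)) * r j - uu G (toR (k 0)) * r i) := by
      intro i j
      have h := hdet i j
      rw [hdd] at h
      rw [← hur i, ← hur j, ← h]
      push_cast
      rfl
    push_cast
    exact cross_key hs (e 0 2) (e 1 3) (e 0 3) (e 1 2)
  refine cross_alg ?_ (hrne 0 3 (by decide)) (hrne 1 2 (by decide)) (hrne 0 1 (by decide))
    (hrne 2 3 (by decide)) key (square_of_identity hN hrN key)
  have h02 : d 0 2 ≠ 0 := fun h => hpar 0 2 (by decide) (by rw [hdd, h]; simp)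
  have h13 : d 1 3 ≠ 0 := fun h => hpar 1 3 (by decide) (by rw [hdd, h]; simp)
  exact_mod_cast mul_ne_zero h02 h13

end Pool.Agent.W_MP_4b1b5d_an
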