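import Mathlib

set_option autoImplicit false

/-!
# MP_4b1b5d_an (flat case): definitions

Everything is written for the flat metric with constant inverse matrix `G` on `ℝ²/ℤ²`.
-/

namespace Pool.Agent.W_MP_4b1b5d_an

open MvPolynomial

abbrev V2 := Fin 2 → ℝ
abbrev Z2 := Fin 2 → ℤ
abbrev M2 := Matrix (Fin 2) (Fin 2) ℝ
/-- complex polynomials in the momenta -/
abbrev CP := MvPolynomial (Fin 2) ℂ
/-- real polynomials in the momenta -/
abbrev RP := MvPolynomial (Fin 2) ℝ

/-- an integer vector as a real vector -/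
def toR (k : Z2) : V2 := fun i => (k i : ℝ)

/-- the bilinear form of `G` (on covectors) -/
def ip (G : M2) (k l : V2) : ℝ := ∑ i, ∑ j, G i j * k i * l j

/-- rotation by a right angle -/
def J (x : V2) : V2 := ![-x 1, x 0]

def det2 (k l : V2) : ℝ := k 0 * l 1 - k 1 * l 0

/-- `G`-orthogonal reflection of covectors sending `k` to `-k` -/
noncomputable def refl (G : M2) (k p : V2) : V2 := p - (2 * ip G p k / ip G k k) • k

/-- the polynomial `P` is invariant under the reflection in `k` -/
def InvR (G : M2) (P : RP) (k : V2) : Prop :=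
  ∀ p : V2, eval (refl G k p) P = eval p P

/-- derivative of `P` in the direction `k` at the point `J (G k)`, which is `G`-orthogonal to `k` -/
noncomputable def crit (G : M2) (P : RP) (k : V2) : ℝ :=
  k 0 * eval (J (G.mulVec k)) (pderiv 0 P) + k 1 * eval (J (G.mulVec k)) (pderiv 1 P)

/-- `P` is a function of `ip G p p` (all angular derivatives vanish) -/
def Rad (G : M2) (P : RP) : Prop := ∀ k : V2, crit G P k = 0

/-- the angle of `k` and `l` is a rational multiple of `π` -/
def RatAngle (G : M2) (k l : V2) : Prop :=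
  ∃ r : ℚ, ip G k l = √(ip G k k) * √(ip G l l) * Real.cos (r * Real.pi)

/-- condition (C4): four pairwise non-parallel integer vectors, pairwise at rational angles, are
pairwise at angles which are multiples of 45 degrees -/
def C4 (G : M2) : Prop :=
  ∀ k : Fin 4 → Z2, (∀ i j, i ≠ j → det2 (toR (k i)) (toR (k j)) ≠ 0) →
    (∀ i j, RatAngle G (toR (k i)) (toR (k j))) →
    ∀ i j, i ≠ j → (ip G (toR (k i)) (toR (k j)) = 0 ∨
      2 * ip G (toR (k i)) (toR (k j)) ^ 2
        = ip G (toR (k i)) (toR (k i)) * ip G (toR (k j)) (toR (k j)))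

/-! ### smooth periodic functions -/

/-- the algebra of smooth `ℤ²`-periodic functions -/
def SP : Subalgebra ℝ (V2 → ℝ) where
  carrier := {f | ContDiff ℝ (⊤ : ℕ∞) f ∧ ∀ (x : V2) (k : Z2), f (x + toR k) = f x}
  mul_mem' := by
    rintro f g ⟨hf, hf'⟩ ⟨hg, hg'⟩
    exact ⟨hf.mul hg, fun x k => by simp [hf' x k, hg' x k]⟩
  add_mem' := by
    rintro f g ⟨hf, hf'⟩ ⟨hg, hg'⟩
    exact ⟨hf.add hg, fun x k => by simp [hf' x k, hg' x k]⟩
  algebraMap_mem' := by
    intro r
    exact ⟨contDiff_const, fun x k => rfl⟩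

theorem sp_contDiff (f : SP) : ContDiff ℝ (⊤ : ℕ∞) (f : V2 → ℝ) := f.2.1

theorem sp_per (f : SP) (x : V2) (k : Z2) : (f : V2 → ℝ) (x + toR k) = (f : V2 → ℝ) x := f.2.2 x k

theorem sp_diff (f : SP) : Differentiable ℝ (f : V2 → ℝ) :=
  (sp_contDiff f).differentiable (by simp)

/-- directional derivative along `e` on smooth periodic functions -/
noncomputable def Dv (e : V2) : Derivation ℝ SP SP :=
  Derivation.mk'
    { toFun := fun f => ⟨fun x => fderiv ℝ (f : V2 → ℝ) x e, by
        constructor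
        · exact ((sp_contDiff f).fderiv_right (m := (⊤ : ℕ∞)) (by simp)).clm_apply contDiff_const
        · intro x k
          have h : (fun y => (f : V2 → ℝ) (y + toR k)) = (f : V2 → ℝ) := by
            funext y; exact sp_per f y k
          have h2 := fderiv_comp_add_right (𝕜 := ℝ) (f := (f : V2 → ℝ)) (x := x) (toR k)
          rw [h] at h2
          simp only
          rw [← h2]⟩
      map_add' := by
        intro f g
        ext x
        simp only [AddMemClass.coe_add, Pi.add_apply]
        rw [fderiv_add (sp_diff f x) (sp_diff g x)]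
        rfl
      map_smul' := by
        intro c f
        ext x
        simp only [SetLike.val_smul, Pi.smul_apply, RingHom.id_apply]
        rw [fderiv_const_smul (sp_diff f x)]
        rfl }
    (by
      intro f g
      ext x
      simp only [LinearMap.coe_mk, AddHom.coe_mk, MulMemClass.coe_mul, Pi.mul_apply,
        AddMemClass.coe_add, Pi.add_apply, smul_eq_mul]
      rw [fderiv_mul (sp_diff f x) (sp_diff g x)]
      simp)

theorem Dv_apply (e : V2) (f : SP) (x : V2) :
    (Dv e f : V2 → ℝ) x = fderiv ℝ (f : V2 → ℝ) x e := rfl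

/-- partial derivatives -/
noncomputable abbrev D (i : Fin 2) : Derivation ℝ SP SP := Dv (Pi.single i 1)

/-! ### polynomial integrals as coefficient arrays -/

/-- multiplication by `p₀` on coefficient arrays -/
def sh0 {A : Type*} [Zero A] (K : ℕ → ℕ → A) : ℕ → ℕ → A
  | 0, _ => 0
  | a + 1, b => K a b

/-- multiplication by `p₁` on coefficient arrays -/
def sh1 {A : Type*} [Zero A] (K : ℕ → ℕ → A) : ℕ → ℕ → A
  | _, 0 => 0
  | a, b + 1 => K a b

/-- `∑ K a b p₀^a p₁^b` is an integral of `½ pᵀ G p + U`, with only degrees `m, m-2, m-4, ...` -/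
structure IsK (G : M2) (U : SP) (m : ℕ) (K : ℕ → ℕ → SP) : Prop where
  supp : ∀ a b, ¬ (a + b ≤ m ∧ Even (m - (a + b))) → K a b = 0
  pde : ∀ a b, (G 0 0 • D 0 (sh0 K a b) + G 1 0 • D 1 (sh0 K a b))
      + (G 0 1 • D 0 (sh1 K a b) + G 1 1 • D 1 (sh1 K a b))
      = ((a : ℝ) + 1) • (D 0 U * K (a + 1) b) + ((b : ℝ) + 1) • (D 1 U * K a (b + 1))

/-- top degree part (at the point `0`; it is constant) -/
noncomputable def PR (m : ℕ) (K : ℕ → ℕ → SP) : RP :=
  ∑ a ∈ Finset.range (m + 1), C ((K a (m - a) : V2 → ℝ) 0) * X 0 ^ a * X 1 ^ (m - a)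

/-! ### Fourier coefficients -/

/-- Fourier coefficient of a periodic function -/
noncomputable def fc (f : V2 → ℝ) (k : Z2) : ℂ :=
  ∫ s in (0:ℝ)..1, ∫ t in (0:ℝ)..1,
    Complex.exp (-(2 * Real.pi * Complex.I * (k 0 * s + k 1 * t))) * (f ![s, t] : ℂ)

/-- the component of degree `m - 2 j` at the frequency `k` -/
noncomputable def ff (m : ℕ) (K : ℕ → ℕ → SP) (j : ℕ) (k : Z2) : CP :=
  if 2 * j ≤ m then
    ∑ a ∈ Finset.range (m - 2 * j + 1),
      C (fc (K a (m - 2 * j - a)) k) * X 0 ^ a * X 1 ^ (m - 2 * j - a)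
  else 0

/-- derivative in the momentum direction `k` -/
noncomputable def Dp (k : V2) (P : CP) : CP :=
  C (k 0 : ℂ) * pderiv 0 P + C (k 1 : ℂ) * pderiv 1 P

/-- the linear form `p ↦ (G k)·p` -/
noncomputable def Lp (G : M2) (k : V2) : CP :=
  C ((G.mulVec k 0 : ℝ) : ℂ) * X 0 + C ((G.mulVec k 1 : ℝ) : ℂ) * X 1

/-- evaluation of a complex polynomial at a real point -/
noncomputable def ev (p : V2) (P : CP) : ℂ := eval (fun i => (p i : ℂ)) P

/-! ### complex coordinate -/

/-- isometry from `(ℝ², ip G)` to `ℂ` -/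
noncomputable def tau (G : M2) (p : V2) : ℂ :=
  ⟨(G 0 0 * p 0 + G 0 1 * p 1) / √(G 0 0), √(G.det / G 0 0) * p 1⟩

/-- `tau / conj tau`: the square of the unit vector -/
noncomputable def uu (G : M2) (k : V2) : ℂ := tau G k / (starRingEnd ℂ) (tau G k)

/-! ### the frozen form -/

/-- the Hamiltonian -/
noncomputable def Ham (G : M2) (U : V2 → ℝ) (x p : V2) : ℝ :=
  (1 / 2 : ℝ) * ∑ i, ∑ j, G i j * p i * p j + U x

/-- the notion of integral of the frozen statement, for the Hamiltonian `H` -/
def IsInt (H : V2 → V2 → ℝ) (F : V2 → RP) : Prop :=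
  (∀ m, ContDiff ℝ (⊤ : ℕ∞) (fun x => (F x).coeff m)) ∧
   (∀ (x : V2) (k : Z2), F (x + fun i => (k i : ℝ)) = F x) ∧
   (∃ N : ℕ, ∀ x, (F x).totalDegree ≤ N) ∧
   (∀ x p : V2, ∑ i : Fin 2,
      (deriv (fun t => H x (Function.update p i t)) (p i) *
          deriv (fun t => MvPolynomial.eval p (F (Function.update x i t))) (x i) -
        deriv (fun t => H (Function.update x i t) p) (x i) *
          deriv (fun t => MvPolynomial.eval (Function.update p i t) (F x)) (p i)) = 0)

/-- `F` is a polynomial in `H` -/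
def PolyH (H : V2 → V2 → ℝ) (F : V2 → RP) : Prop :=
  ∃ q : Polynomial ℝ, ∀ x p, MvPolynomial.eval p (F x) = q.eval (H x p)

end Pool.Agent.W_MP_4b1b5d_an
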