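import Pool.Agent.W_MP_4b1b5d_an.FourierD

set_option autoImplicit false

/-!
# F2: Fourier series of smooth periodic functions: products, uniqueness, decay

Identify a continuous periodic function with a function on `UnitAddTorus (Fin 2)` and `fc` with
`UnitAddTorus.mFourierCoeff` (`mFourierCoeff_eq_integral` with `a = 0`).
* `fc_mul`: Parseval `UnitAddTorus.hasSum_prod_mFourierCoeff` for `f` (real) and
  `g exp(-2πi k·x)`: `fc (f g) k = ∑_{k'} conj (fc f k') fc g (k + k')`, then `k' ↦ -k'`.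
* `fc_inj`: Parseval for norms, `∫ f² = 0` and `f` continuous (or the completeness of the
  Fourier basis).
* `fc_decay`: `fc_Dv` applied repeatedly and `fc_bound`.
-/

namespace Pool.Agent.W_MP_4b1b5d_an

/-- `1 - Δ / (4π²)` -/
noncomputable def fdL (f : SP) : SP :=
  f + (-(1 / (4 * Real.pi ^ 2)) : ℝ) • (D 0 (D 0 f) + D 1 (D 1 f))

theorem fc_fdL (f : SP) (k : Z2) :
    fc (fdL f : V2 → ℝ) k = ((1 + (k 0 : ℝ) ^ 2 + (k 1 : ℝ) ^ 2 : ℝ) : ℂ) * fc (f : V2 → ℝ) k := by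
  have hpi : (Real.pi : ℂ) ≠ 0 := by exact_mod_cast Real.pi_ne_zero
  have e0 : ((k 0 * (Pi.single (0 : Fin 2) (1 : ℝ) : V2) 0 + k 1 * (Pi.single (0 : Fin 2) (1 : ℝ) : V2) 1 : ℝ) : ℂ)
      = (k 0 : ℂ) := by simp
  have e1 : ((k 0 * (Pi.single (1 : Fin 2) (1 : ℝ) : V2) 0 + k 1 * (Pi.single (1 : Fin 2) (1 : ℝ) : V2) 1 : ℝ) : ℂ)
      = (k 1 : ℂ) := by simp
  unfold fdL
  rw [fc_add, fc_smul, fc_add]
  unfold D
  rw [fc_Dv, fc_Dv, fc_Dv, fc_Dv, e0, e1]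
  push_cast
  have hI : (Complex.I) ^ 2 = -1 := Complex.I_sq
  field_simp
  ring_nf
  rw [hI]
  ring

theorem fc_decay (f : SP) : ∃ C : ℝ, ∀ k : Z2,
    ‖fc (f : V2 → ℝ) k‖ * (1 + (k 0 : ℝ) ^ 2 + (k 1 : ℝ) ^ 2) ^ 2 ≤ C := by
  obtain ⟨C, hC⟩ := fc_bound (fdL (fdL f))
  refine ⟨C, fun k => ?_⟩
  have h := hC k
  have hp : (0 : ℝ) ≤ 1 + (k 0 : ℝ) ^ 2 + (k 1 : ℝ) ^ 2 := by positivity
  rw [fc_fdL, fc_fdL, norm_mul, norm_mul, Complex.norm_real, Real.norm_eq_abs, abs_of_nonneg hp] at h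
  calc ‖fc (f : V2 → ℝ) k‖ * (1 + (k 0 : ℝ) ^ 2 + (k 1 : ℝ) ^ 2) ^ 2
      = (1 + (k 0 : ℝ) ^ 2 + (k 1 : ℝ) ^ 2) * ((1 + (k 0 : ℝ) ^ 2 + (k 1 : ℝ) ^ 2) *
          ‖fc (f : V2 → ℝ) k‖) := by ring
    _ ≤ C := h

end Pool.Agent.W_MP_4b1b5d_an
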