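import Pool.Agent.W_MP_4b1b5d_an.TailPair

set_option autoImplicit false

/-!
# H1c: pure tail lemma for the 45 degree star

`hrel` at (fixed `b > 0`, large `a > 0`)
* (for `v1`) `(x,y) = (a+b, b)` and `(a+b, -b)`:
  `v1(a) v2(b) - v1(a+2b) v4(b) + v2(a+b) v3(-a) + v3(a+2b) v4(-(a+b)) = 0`,
  `v1(a+2b) v2(-b) - v1(a) v4(-b) + v2(a+b) v3(-(a+2b)) + v3(a) v4(-(a+b)) = 0`;
* (for `v3`) `(x,y) = (b, a+b)` and `(-b, a+b)`:
  `v1(-a) v2(a+b) - v1(a+2b) v4(a+b) + v2(b) v3(a) + v3(a+2b) v4(-b) = 0`,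
  `v1(-(a+2b)) v2(a+b) - v1(a) v4(a+b) + v2(-b) v3(a+2b) + v3(a) v4(b) = 0`;
* (for `v2`) `(x,y) = (a+b, a)` and `(a, a+b)`:
  `v1(b) v2(a) - v1(2a+b) v4(a) + v2(a+b) v3(-b) + v3(2a+b) v4(-(a+b)) = 0`,
  `v1(-b) v2(a+b) - v1(2a+b) v4(a+b) + v2(a) v3(b) + v3(2a+b) v4(-a) = 0`;
* (for `v4`) `(x,y) = (-(a+b), a)` and `(-a, a+b)`:
  `v1(-(2a+b)) v2(a) - v1(-b) v4(a) + v2(-(a+b)) v3(2a+b) + v3(-b) v4(a+b) = 0`,
  `v1(-(2a+b)) v2(a+b) - v1(b) v4(a+b) + v2(-a) v3(2a+b) + v3(b) v4(a) = 0`.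
The ratios `y/x` are outside the finite set `S` for large `a`.  With `M_i(a) = sup_{n ≥ a} |v_i n|`:
`(|v2 b| + |v4 b|) |v1 a| ≤ (same) |v1 (a+2b)| + 2 M3(a) (M2(a) + M4(a))`, the same for `v3` with error
`2 M1(a) (M2(a) + M4(a))`;
`(|v1 b| + |v3 b|) |v2 a| ≤ (same) |v2 (a+b)| + 2 M4(a) (M1(a) + M3(a))`, the same for `v4` with error
`2 M2(a) (M1(a) + M3(a))`.
Choose `b` by `h24` resp. `h13` (and `hodd`), and apply `tail_pair` to `|v1|, |v3|` and to `|v2|, |v4|`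
(`M_i(a) ≤ C/a²`).
-/

namespace Pool.Agent.W_MP_4b1b5d_an

namespace Tail4Aux

theorem four (a b c d : ℂ) (h : a - b + c + d = 0) :
    ‖a‖ ≤ ‖b‖ + ‖c‖ + ‖d‖ ∧ ‖b‖ ≤ ‖a‖ + ‖c‖ + ‖d‖ ∧ ‖c‖ ≤ ‖a‖ + ‖b‖ + ‖d‖ ∧
      ‖d‖ ≤ ‖a‖ + ‖b‖ + ‖c‖ := by
  refine ⟨?_, ?_, ?_, ?_⟩
  · have : a = b - c - d := by linear_combination h
    rw [this]; exact (norm_sub_le _ _).trans (by gcongr; exact norm_sub_le _ _)
  · have : b = a + c + d := by linear_combination -h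
    calc ‖b‖ = ‖a + c + d‖ := by rw [← this]
      _ ≤ _ := norm_add₃_le
  · have : c = b - a - d := by linear_combination h
    rw [this]; refine (norm_sub_le _ _).trans ?_
    have := norm_sub_le b a
    linarith
  · have : d = b - a - c := by linear_combination h
    rw [this]; refine (norm_sub_le _ _).trans ?_
    have := norm_sub_le b a
    linarith

/-- an injective sequence eventually leaves a finite set -/
theorem ev (r : ℕ → ℝ) (S : Finset ℝ)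
    (hr : ∀ m n : ℕ, 0 < m → 0 < n → r m = r n → m = n) : ∃ N : ℕ, ∀ n, N ≤ n → r n ∉ S := by
  have hfin : (Set.Ioi (0 : ℕ) ∩ r ⁻¹' (S : Set ℝ)).Finite := by
    apply Set.Finite.of_finite_image (f := r)
    · exact S.finite_toSet.subset (by rintro _ ⟨x, ⟨_, hx⟩, rfl⟩; exact hx)
    · rintro m ⟨hm, _⟩ n ⟨hn, _⟩ h
      exact hr m n hm hn h
  obtain ⟨N, hN⟩ := hfin.bddAbove
  refine ⟨N + 1, fun n hn hnS => ?_⟩
  have : n ≤ N := hN ⟨by simp only [Set.mem_Ioi]; omega, hnS⟩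
  omega

theorem core (p q x x' E : ℝ) (hs : 0 < p + q) (h1 : p * x ≤ q * x' + E)
    (h2 : q * x ≤ p * x' + E) : x ≤ x' + 2 * E / (p + q) := by
  have h : (p + q) * x ≤ (p + q) * x' + 2 * E := by nlinarith
  have h3 : x' + 2 * E / (p + q) = ((p + q) * x' + 2 * E) / (p + q) := by
    field_simp
  rw [h3, le_div_iff₀ hs]
  linarith

/-- two-relation estimate, ready for `tail_pair` -/
theorem step (p q K M : ℝ) (a : ℕ) (ha : 0 < a) (hs : 0 < p + q) (hK : 0 ≤ K) (hM : 0 ≤ M)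
    (x x' e1 e2 e3 e4 : ℝ) (h1 : p * x ≤ q * x' + e1 + e2) (h2 : q * x ≤ p * x' + e3 + e4)
    (he1 : e1 ≤ K / (a : ℝ) ^ 2 * M) (he2 : e2 ≤ K / (a : ℝ) ^ 2 * M)
    (he3 : e3 ≤ K / (a : ℝ) ^ 2 * M) (he4 : e4 ≤ K / (a : ℝ) ^ 2 * M) :
    x ≤ x' + (4 * K / (p + q)) / (a : ℝ) ^ 2 * M := by
  have := core p q x x' (2 * (K / (a : ℝ) ^ 2 * M)) hs (by linarith) (by linarith)
  refine this.trans (le_of_eq ?_)
  field_simp
  ring

theorem mulb (F G K M : ℝ) (a : ℕ) (hG : 0 ≤ G) (hF : F ≤ K / (a : ℝ) ^ 2) (hM : G ≤ M)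
    (hK : 0 ≤ K) : F * G ≤ K / (a : ℝ) ^ 2 * M :=
  mul_le_mul hF hM hG (by positivity)

theorem mulb' (F G K M : ℝ) (a : ℕ) (hG : 0 ≤ G) (hF : F ≤ K / (a : ℝ) ^ 2) (hM : G ≤ M)
    (hK : 0 ≤ K) : G * F ≤ K / (a : ℝ) ^ 2 * M := by
  rw [mul_comm]; exact mulb F G K M a hG hF hM hK

end Tail4Aux

open Tail4Aux in
theorem tail4 (v1 v2 v3 v4 : ℤ → ℂ)
    (hodd1 : ∀ n, v1 (-n) = - (starRingEnd ℂ) (v1 n))
    (hodd2 : ∀ n, v2 (-n) = - (starRingEnd ℂ) (v2 n))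
    (hodd3 : ∀ n, v3 (-n) = - (starRingEnd ℂ) (v3 n))
    (hodd4 : ∀ n, v4 (-n) = - (starRingEnd ℂ) (v4 n))
    (C : ℝ) (hdec1 : ∀ (n : ℤ), n ≠ 0 → ‖v1 n‖ ≤ C / (n : ℝ) ^ 2)
    (hdec2 : ∀ (n : ℤ), n ≠ 0 → ‖v2 n‖ ≤ C / (n : ℝ) ^ 2)
    (hdec3 : ∀ (n : ℤ), n ≠ 0 → ‖v3 n‖ ≤ C / (n : ℝ) ^ 2)
    (hdec4 : ∀ (n : ℤ), n ≠ 0 → ‖v4 n‖ ≤ C / (n : ℝ) ^ 2)
    (S : Finset ℝ)
    (hrel : ∀ x y : ℤ, x ≠ 0 → (y : ℝ) / x ∉ S →
      v1 (x - y) * v2 y - v1 (x + y) * v4 y + v2 x * v3 (y - x) + v3 (x + y) * v4 (-x) = 0)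
    (h13 : ∃ n, n ≠ 0 ∧ (v1 n ≠ 0 ∨ v3 n ≠ 0)) (h24 : ∃ n, n ≠ 0 ∧ (v2 n ≠ 0 ∨ v4 n ≠ 0)) :
    ∃ N1 : ℤ, ∀ n, N1 ≤ |n| → v1 n = 0 ∧ v2 n = 0 ∧ v3 n = 0 ∧ v4 n = 0 := by
  classical
  have nn : ∀ (v : ℤ → ℂ), (∀ n, v (-n) = - (starRingEnd ℂ) (v n)) → ∀ n, ‖v (-n)‖ = ‖v n‖ := by
    intro v hv n
    rw [hv n, norm_neg, RCLike.norm_conj]
  have n1 := nn v1 hodd1
  have n2 := nn v2 hodd2
  have n3 := nn v3 hodd3
  have n4 := nn v4 hodd4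
  set K : ℝ := |C| with hKdef
  have hK : 0 ≤ K := abs_nonneg C
  -- decay
  have dec : ∀ (v : ℤ → ℂ), (∀ (n : ℤ), n ≠ 0 → ‖v n‖ ≤ C / (n : ℝ) ^ 2) →
      ∀ (a : ℕ) (n : ℤ), 0 < a → (a : ℤ) ≤ n → ‖v n‖ ≤ K / (a : ℝ) ^ 2 := by
    intro v hv a n ha hn
    have hn0 : n ≠ 0 := by omega
    refine (hv n hn0).trans ?_
    have h1 : (a : ℝ) ≤ (n : ℝ) := by exact_mod_cast hn
    have h0 : (0 : ℝ) < a := by exact_mod_cast ha
    have h2 : (a : ℝ) ^ 2 ≤ (n : ℝ) ^ 2 := by gcongr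
    calc C / (n : ℝ) ^ 2 ≤ K / (n : ℝ) ^ 2 := by
          apply div_le_div_of_nonneg_right (le_abs_self C) (by positivity)
      _ ≤ K / (a : ℝ) ^ 2 := by
          apply div_le_div_of_nonneg_left hK (by positivity) h2
  have d1 := dec v1 hdec1
  have d2 := dec v2 hdec2
  have d3 := dec v3 hdec3
  have d4 := dec v4 hdec4
  -- limits
  have lim : ∀ (v : ℤ → ℂ), (∀ (a : ℕ) (n : ℤ), 0 < a → (a : ℤ) ≤ n → ‖v n‖ ≤ K / (a : ℝ) ^ 2) →
      Filter.Tendsto (fun n : ℕ => ‖v (n : ℤ)‖) Filter.atTop (nhds 0) := by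
    intro v hv
    refine squeeze_zero' (Filter.Eventually.of_forall fun n => norm_nonneg _) ?_
      (tendsto_const_div_atTop_nhds_zero_nat K)
    filter_upwards [Filter.eventually_ge_atTop 1] with n hn
    refine (hv n n hn le_rfl).trans ?_
    have h1 : (1 : ℝ) ≤ n := by exact_mod_cast hn
    apply div_le_div_of_nonneg_left hK (by positivity)
    nlinarith
  -- relations between norms
  have R : ∀ x y : ℤ, x ≠ 0 → (y : ℝ) / x ∉ S →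
      (‖v1 (x - y)‖ * ‖v2 y‖ ≤ ‖v1 (x + y)‖ * ‖v4 y‖ + ‖v2 x‖ * ‖v3 (y - x)‖ + ‖v3 (x + y)‖ * ‖v4 x‖) ∧
      (‖v1 (x + y)‖ * ‖v4 y‖ ≤ ‖v1 (x - y)‖ * ‖v2 y‖ + ‖v2 x‖ * ‖v3 (y - x)‖ + ‖v3 (x + y)‖ * ‖v4 x‖) ∧
      (‖v2 x‖ * ‖v3 (y - x)‖ ≤ ‖v1 (x - y)‖ * ‖v2 y‖ + ‖v1 (x + y)‖ * ‖v4 y‖ + ‖v3 (x + y)‖ * ‖v4 x‖) ∧
      (‖v3 (x + y)‖ * ‖v4 x‖ ≤ ‖v1 (x - y)‖ * ‖v2 y‖ + ‖v1 (x + y)‖ * ‖v4 y‖ + ‖v2 x‖ * ‖v3 (y - x)‖) := by
    intro x y hx hS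
    have := four _ _ _ _ (hrel x y hx hS)
    simpa only [norm_mul, n4] using this
  -- choice of the shifts
  obtain ⟨b, hb, hb24⟩ : ∃ b : ℕ, 0 < b ∧ 0 < ‖v2 b‖ + ‖v4 b‖ := by
    obtain ⟨n, hn, h⟩ := h24
    refine ⟨n.natAbs, Int.natAbs_pos.2 hn, ?_⟩
    have e : ∀ v : ℤ → ℂ, (∀ n, ‖v (-n)‖ = ‖v n‖) → ‖v (n.natAbs : ℤ)‖ = ‖v n‖ := by
      intro v hv
      rcases Int.natAbs_eq n with h' | h'
      · rw [← h']
      · conv_rhs => rw [h', hv]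
    rw [e v2 n2, e v4 n4]
    rcases h with h | h
    · have := norm_pos_iff.2 h
      have := norm_nonneg (v4 n)
      linarith
    · have := norm_pos_iff.2 h
      have := norm_nonneg (v2 n)
      linarith
  obtain ⟨c, hc, hc13⟩ : ∃ b : ℕ, 0 < b ∧ 0 < ‖v1 b‖ + ‖v3 b‖ := by
    obtain ⟨n, hn, h⟩ := h13
    refine ⟨n.natAbs, Int.natAbs_pos.2 hn, ?_⟩
    have e : ∀ v : ℤ → ℂ, (∀ n, ‖v (-n)‖ = ‖v n‖) → ‖v (n.natAbs : ℤ)‖ = ‖v n‖ := by
      intro v hv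
      rcases Int.natAbs_eq n with h' | h'
      · rw [← h']
      · conv_rhs => rw [h', hv]
    rw [e v1 n1, e v3 n3]
    rcases h with h | h
    · have := norm_pos_iff.2 h
      have := norm_nonneg (v3 n)
      linarith
    · have := norm_pos_iff.2 h
      have := norm_nonneg (v1 n)
      linarith
  -- ratios leave `S`
  have hbR : (0 : ℝ) < b := by exact_mod_cast hb
  have hcR : (0 : ℝ) < c := by exact_mod_cast hc
  obtain ⟨N1, hN1⟩ := ev (fun a => ((b : ℤ) : ℝ) / (((a : ℤ) + b : ℤ) : ℝ)) S (by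
    intro m n hm hn h
    have hm' : (0 : ℝ) < m := by exact_mod_cast hm
    have hn' : (0 : ℝ) < n := by exact_mod_cast hn
    push_cast at h
    rw [div_eq_div_iff (by positivity) (by positivity)] at h
    have h' : (b : ℝ) * ((m : ℝ) - n) = 0 := by linarith
    have h2 : (m : ℝ) - n = 0 := by
      rcases mul_eq_zero.1 h' with h'' | h''
      · exact absurd h'' hbR.ne'
      · exact h''
    exact_mod_cast sub_eq_zero.1 h2)
  obtain ⟨N2, hN2⟩ := ev (fun a => ((-(b : ℤ) : ℤ) : ℝ) / (((a : ℤ) + b : ℤ) : ℝ)) S (by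
    intro m n hm hn h
    have hm' : (0 : ℝ) < m := by exact_mod_cast hm
    have hn' : (0 : ℝ) < n := by exact_mod_cast hn
    push_cast at h
    rw [div_eq_div_iff (by positivity) (by positivity)] at h
    have h' : (b : ℝ) * ((m : ℝ) - n) = 0 := by linarith
    have h2 : (m : ℝ) - n = 0 := by
      rcases mul_eq_zero.1 h' with h'' | h''
      · exact absurd h'' hbR.ne'
      · exact h''
    exact_mod_cast sub_eq_zero.1 h2)
  obtain ⟨N3, hN3⟩ := ev (fun a => (((a : ℤ) + b : ℤ) : ℝ) / ((b : ℤ) : ℝ)) S (by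
    intro m n hm hn h
    push_cast at h
    rw [div_eq_div_iff (by positivity) (by positivity)] at h
    have h' : (b : ℝ) * ((m : ℝ) - n) = 0 := by linarith
    have h2 : (m : ℝ) - n = 0 := by
      rcases mul_eq_zero.1 h' with h'' | h''
      · exact absurd h'' hbR.ne'
      · exact h''
    exact_mod_cast sub_eq_zero.1 h2)
  obtain ⟨N4, hN4⟩ := ev (fun a => (((a : ℤ) + b : ℤ) : ℝ) / ((-(b : ℤ) : ℤ) : ℝ)) S (by
    intro m n hm hn h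
    push_cast at h
    rw [div_eq_div_iff (neg_ne_zero.2 hbR.ne') (neg_ne_zero.2 hbR.ne')] at h
    have h' : (b : ℝ) * ((m : ℝ) - n) = 0 := by linarith
    have h2 : (m : ℝ) - n = 0 := by
      rcases mul_eq_zero.1 h' with h'' | h''
      · exact absurd h'' hbR.ne'
      · exact h''
    exact_mod_cast sub_eq_zero.1 h2)
  obtain ⟨N5, hN5⟩ := ev (fun a => ((a : ℤ) : ℝ) / (((a : ℤ) + c : ℤ) : ℝ)) S (by
    intro m n hm hn h
    have hm' : (0 : ℝ) < m := by exact_mod_cast hm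
    have hn' : (0 : ℝ) < n := by exact_mod_cast hn
    push_cast at h
    rw [div_eq_div_iff (by positivity) (by positivity)] at h
    have h' : (c : ℝ) * ((m : ℝ) - n) = 0 := by linarith
    have h2 : (m : ℝ) - n = 0 := by
      rcases mul_eq_zero.1 h' with h'' | h''
      · exact absurd h'' hcR.ne'
      · exact h''
    exact_mod_cast sub_eq_zero.1 h2)
  obtain ⟨N6, hN6⟩ := ev (fun a => (((a : ℤ) + c : ℤ) : ℝ) / ((a : ℤ) : ℝ)) S (by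
    intro m n hm hn h
    have hm' : (0 : ℝ) < m := by exact_mod_cast hm
    have hn' : (0 : ℝ) < n := by exact_mod_cast hn
    push_cast at h
    rw [div_eq_div_iff (by positivity) (by positivity)] at h
    have h' : (c : ℝ) * ((m : ℝ) - n) = 0 := by linarith
    have h2 : (m : ℝ) - n = 0 := by
      rcases mul_eq_zero.1 h' with h'' | h''
      · exact absurd h'' hcR.ne'
      · exact h''
    exact_mod_cast sub_eq_zero.1 h2)
  obtain ⟨N7, hN7⟩ := ev (fun a => ((a : ℤ) : ℝ) / ((-((a : ℤ) + c) : ℤ) : ℝ)) S (by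
    intro m n hm hn h
    have hm' : (0 : ℝ) < m := by exact_mod_cast hm
    have hn' : (0 : ℝ) < n := by exact_mod_cast hn
    push_cast at h
    rw [div_eq_div_iff (neg_ne_zero.2 (by positivity)) (neg_ne_zero.2 (by positivity))] at h
    have h' : (c : ℝ) * ((m : ℝ) - n) = 0 := by linarith
    have h2 : (m : ℝ) - n = 0 := by
      rcases mul_eq_zero.1 h' with h'' | h''
      · exact absurd h'' hcR.ne'
      · exact h''
    exact_mod_cast sub_eq_zero.1 h2)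
  obtain ⟨N8, hN8⟩ := ev (fun a => (((a : ℤ) + c : ℤ) : ℝ) / ((-(a : ℤ) : ℤ) : ℝ)) S (by
    intro m n hm hn h
    have hm' : (0 : ℝ) < m := by exact_mod_cast hm
    have hn' : (0 : ℝ) < n := by exact_mod_cast hn
    push_cast at h
    rw [div_eq_div_iff (neg_ne_zero.2 (by positivity)) (neg_ne_zero.2 (by positivity))] at h
    have h' : (c : ℝ) * ((m : ℝ) - n) = 0 := by linarith
    have h2 : (m : ℝ) - n = 0 := by
      rcases mul_eq_zero.1 h' with h'' | h''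
      · exact absurd h'' hcR.ne'
      · exact h''
    exact_mod_cast sub_eq_zero.1 h2)
  -- the pair `v1, v3`
  obtain ⟨P1, hP1⟩ := tail_pair (fun n => ‖v1 (n : ℤ)‖) (fun n => ‖v3 (n : ℤ)‖)
    (fun n => norm_nonneg _) (fun n => norm_nonneg _) (lim v1 d1) (lim v3 d3)
    (2 * b) (2 * b) (N1 + N2 + N3 + N4 + 1) (by omega) (by omega)
    (4 * K / (‖v2 b‖ + ‖v4 b‖)) (by
      intro a ha M hM
      have ha0 : 0 < a := by omega
      have hM0 : 0 ≤ M := (norm_nonneg _).trans (hM a le_rfl)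
      have r1 := (R ((a : ℤ) + b) b (by omega) (hN1 a (by omega))).1
      have r2 := (R ((a : ℤ) + b) (-(b : ℤ)) (by omega) (hN2 a (by omega))).2.1
      rw [show (a : ℤ) + b - b = a by ring, show (b : ℤ) - (a + b) = -(a : ℤ) by ring, n3] at r1
      rw [show (a : ℤ) + b - -(b : ℤ) = a + b + b by ring, show (a : ℤ) + b + -(b : ℤ) = a by ring,
        show -(b : ℤ) - (a + b) = -((a : ℤ) + b + b) by ring, n3, n2 b, n4 b] at r2
      have cst : ((a + 2 * b : ℕ) : ℤ) = (a : ℤ) + b + b := by push_cast; ring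
      have M1 := hM a le_rfl
      have M2 := hM (a + 2 * b) (by omega)
      simp only [cst] at M1 M2 ⊢
      refine step ‖v2 b‖ ‖v4 b‖ K M a ha0 hb24 hK hM0 ‖v1 a‖ ‖v1 ((a : ℤ) + b + b)‖
        (‖v2 ((a : ℤ) + b)‖ * ‖v3 a‖) (‖v3 ((a : ℤ) + b + b)‖ * ‖v4 ((a : ℤ) + b)‖)
        (‖v2 ((a : ℤ) + b)‖ * ‖v3 ((a : ℤ) + b + b)‖) (‖v3 a‖ * ‖v4 ((a : ℤ) + b)‖)
        (by linarith) (by linarith) ?_ ?_ ?_ ?_
      · exact mulb _ _ K M a (norm_nonneg _) (d2 a _ ha0 (by omega)) M1 hK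
      · exact mulb' _ _ K M a (norm_nonneg _) (d4 a _ ha0 (by omega)) M2 hK
      · exact mulb _ _ K M a (norm_nonneg _) (d2 a _ ha0 (by omega)) M2 hK
      · exact mulb' _ _ K M a (norm_nonneg _) (d4 a _ ha0 (by omega)) M1 hK) (by
      intro a ha M hM
      have ha0 : 0 < a := by omega
      have hM0 : 0 ≤ M := (norm_nonneg _).trans (hM a le_rfl)
      have r1 := (R (b : ℤ) ((a : ℤ) + b) (by omega) (hN3 a (by omega))).2.2.1
      have r2 := (R (-(b : ℤ)) ((a : ℤ) + b) (by omega) (hN4 a (by omega))).2.2.2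
      rw [show (b : ℤ) - (a + b) = -(a : ℤ) by ring, show (a : ℤ) + b - b = a by ring,
        show (b : ℤ) + (a + b) = (a : ℤ) + b + b by ring, n1] at r1
      rw [show -(b : ℤ) - (a + b) = -((a : ℤ) + b + b) by ring,
        show -(b : ℤ) + (a + b) = (a : ℤ) by ring,
        show (a : ℤ) + b - -(b : ℤ) = a + b + b by ring, n1, n2 b, n4 b] at r2
      have cst : ((a + 2 * b : ℕ) : ℤ) = (a : ℤ) + b + b := by push_cast; ring
      have M1 := hM a le_rfl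
      have M2 := hM (a + 2 * b) (by omega)
      simp only [cst] at M1 M2 ⊢
      refine step ‖v2 b‖ ‖v4 b‖ K M a ha0 hb24 hK hM0 ‖v3 a‖ ‖v3 ((a : ℤ) + b + b)‖
        (‖v1 a‖ * ‖v2 ((a : ℤ) + b)‖) (‖v1 ((a : ℤ) + b + b)‖ * ‖v4 ((a : ℤ) + b)‖)
        (‖v1 ((a : ℤ) + b + b)‖ * ‖v2 ((a : ℤ) + b)‖) (‖v1 a‖ * ‖v4 ((a : ℤ) + b)‖)
        (by linarith) (by linarith) ?_ ?_ ?_ ?_
      · exact mulb' _ _ K M a (norm_nonneg _) (d2 a _ ha0 (by omega)) M1 hK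
      · exact mulb' _ _ K M a (norm_nonneg _) (d4 a _ ha0 (by omega)) M2 hK
      · exact mulb' _ _ K M a (norm_nonneg _) (d2 a _ ha0 (by omega)) M2 hK
      · exact mulb' _ _ K M a (norm_nonneg _) (d4 a _ ha0 (by omega)) M1 hK)
  -- the pair `v2, v4`
  obtain ⟨P2, hP2⟩ := tail_pair (fun n => ‖v2 (n : ℤ)‖) (fun n => ‖v4 (n : ℤ)‖)
    (fun n => norm_nonneg _) (fun n => norm_nonneg _) (lim v2 d2) (lim v4 d4)
    c c (N5 + N6 + N7 + N8 + 1) hc hc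
    (4 * K / (‖v1 c‖ + ‖v3 c‖)) (by
      intro a ha M hM
      have ha0 : 0 < a := by omega
      have hM0 : 0 ≤ M := (norm_nonneg _).trans (hM a le_rfl)
      have r1 := (R ((a : ℤ) + c) a (by omega) (hN5 a (by omega))).1
      have r2 := (R (a : ℤ) ((a : ℤ) + c) (by omega) (hN6 a (by omega))).2.2.1
      rw [show (a : ℤ) + c - a = c by ring, show (a : ℤ) - (a + c) = -(c : ℤ) by ring,
        show (a : ℤ) + c + a = 2 * a + c by ring, n3] at r1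
      rw [show (a : ℤ) - (a + c) = -(c : ℤ) by ring, show (a : ℤ) + (a + c) = 2 * a + c by ring,
        show (a : ℤ) + c - a = c by ring, n1] at r2
      have cst : ((a + c : ℕ) : ℤ) = (a : ℤ) + c := by push_cast; ring
      have M1 := hM a le_rfl
      have M2 := hM (a + c) (by omega)
      simp only [cst] at M1 M2 ⊢
      refine step ‖v1 c‖ ‖v3 c‖ K M a ha0 hc13 hK hM0 ‖v2 a‖ ‖v2 ((a : ℤ) + c)‖
        (‖v1 (2 * (a : ℤ) + c)‖ * ‖v4 a‖) (‖v3 (2 * (a : ℤ) + c)‖ * ‖v4 ((a : ℤ) + c)‖)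
        (‖v1 (2 * (a : ℤ) + c)‖ * ‖v4 ((a : ℤ) + c)‖) (‖v3 (2 * (a : ℤ) + c)‖ * ‖v4 a‖)
        (by linarith) (by linarith) ?_ ?_ ?_ ?_
      · exact mulb _ _ K M a (norm_nonneg _) (d1 a _ ha0 (by omega)) M1 hK
      · exact mulb _ _ K M a (norm_nonneg _) (d3 a _ ha0 (by omega)) M2 hK
      · exact mulb _ _ K M a (norm_nonneg _) (d1 a _ ha0 (by omega)) M2 hK
      · exact mulb _ _ K M a (norm_nonneg _) (d3 a _ ha0 (by omega)) M1 hK) (by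
      intro a ha M hM
      have ha0 : 0 < a := by omega
      have hM0 : 0 ≤ M := (norm_nonneg _).trans (hM a le_rfl)
      have r1 := (R (-((a : ℤ) + c)) a (by omega) (hN7 a (by omega))).2.1
      have r2 := (R (-(a : ℤ)) ((a : ℤ) + c) (by omega) (hN8 a (by omega))).2.2.2
      rw [show -((a : ℤ) + c) - a = -(2 * a + c) by ring, show -((a : ℤ) + c) + a = -(c : ℤ) by ring,
        show (a : ℤ) - -((a : ℤ) + c) = 2 * a + c by ring, n1, n1, n2, n3, n4] at r1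
      rw [show -(a : ℤ) - (a + c) = -(2 * a + c) by ring, show -(a : ℤ) + (a + c) = c by ring,
        show (a : ℤ) + c - -(a : ℤ) = 2 * a + c by ring, n1, n2, n4] at r2
      have cst : ((a + c : ℕ) : ℤ) = (a : ℤ) + c := by push_cast; ring
      have M1 := hM a le_rfl
      have M2 := hM (a + c) (by omega)
      simp only [cst] at M1 M2 ⊢
      refine step ‖v1 c‖ ‖v3 c‖ K M a ha0 hc13 hK hM0 ‖v4 a‖ ‖v4 ((a : ℤ) + c)‖
        (‖v1 (2 * (a : ℤ) + c)‖ * ‖v2 a‖) (‖v2 ((a : ℤ) + c)‖ * ‖v3 (2 * (a : ℤ) + c)‖)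
        (‖v1 (2 * (a : ℤ) + c)‖ * ‖v2 ((a : ℤ) + c)‖) (‖v2 a‖ * ‖v3 (2 * (a : ℤ) + c)‖)
        (by linarith) (by linarith) ?_ ?_ ?_ ?_
      · exact mulb _ _ K M a (norm_nonneg _) (d1 a _ ha0 (by omega)) M1 hK
      · exact mulb' _ _ K M a (norm_nonneg _) (d3 a _ ha0 (by omega)) M2 hK
      · exact mulb _ _ K M a (norm_nonneg _) (d1 a _ ha0 (by omega)) M2 hK
      · exact mulb' _ _ K M a (norm_nonneg _) (d3 a _ ha0 (by omega)) M1 hK)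
  -- conclusion
  refine ⟨((P1 + P2 : ℕ) : ℤ), fun n hn => ?_⟩
  have hna : P1 + P2 ≤ n.natAbs := by
    rw [← Int.natCast_natAbs] at hn
    exact_mod_cast hn
  have e : ∀ v : ℤ → ℂ, (∀ n, ‖v (-n)‖ = ‖v n‖) → ‖v (n.natAbs : ℤ)‖ = 0 → v n = 0 := by
    intro v hv h0
    have : ‖v (n.natAbs : ℤ)‖ = ‖v n‖ := by
      rcases Int.natAbs_eq n with h' | h'
      · rw [← h']
      · conv_rhs => rw [h', hv]
    rw [this] at h0
    exact norm_eq_zero.1 h0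
  have q1 := hP1 n.natAbs (by omega)
  have q2 := hP2 n.natAbs (by omega)
  exact ⟨e v1 n1 q1.1, e v2 n2 q2.1, e v3 n3 q1.2, e v4 n4 q2.2⟩

end Pool.Agent.W_MP_4b1b5d_an
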