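import Pool.Agent.W_MP_4b1b5d_an.PairSum
import Pool.Agent.W_MP_4b1b5d_an.Tail4
import Pool.Agent.W_MP_4b1b5d_an.CritFin
import Pool.Agent.W_MP_4b1b5d_an.FourierDecay

set_option autoImplicit false

/-!
# H3: spectrum on a 45 degree star is finite

Geometry: among the four lines `k 0` is orthogonal to exactly one, say `k 2` (after renumbering), and
at 45 degrees with the two others.  Write `k 1 = α k 0 + β k 2` (`α, β` rational, nonzero) and put
`m1 = α k 0`, `m3 = β k 2`, `m2 = k 1 = m1 + m3`; then `ip m1 m3 = 0` and `ip m1 m1 = ip m3 m3` (45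
degrees between `m1` and `m2`), and `k 3` is parallel to `m4 = m3 - m1`.
Choose a positive integer `N` such that every integer vector parallel to `m_i` is `(n/N) m_i`,
`n ∈ ℤ`; `e_i = m_i/N`, `v_i n = fcR U (n e_i)/n`.  For `q = x e_1 + y e_3`:
`q = (x-y) e_1 + y e_2 = (x+y) e_1 + y e_4 = x e_2 + (y-x) e_3 = (x+y) e_3 - x e_4`
(`q = x e_1 + y e_3` itself is the orthogonal pair with weight `0`; the pair `(e_2, e_4)` also has
weight `0`).  All `det2` of these pairs are `± D`, `ip e_1 e_2 = ip e_2 e_3 = ip e_3 e_4 = - ip e_1 e_4`.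
`pair_sum` gives, up to a nonzero factor,
`v1(x-y) v2(y) - v1(x+y) v4(y) + v2(x) v3(y-x) + v3(x+y) v4(-x) = 0` for `x ≠ 0`, `y/x ∉ S`, `S` = the set of
`crit_finite` together with `0, 1, -1`.  `a, b` (active, not parallel, not orthogonal) lie one on the
lines `1, 3` and one on the lines `2, 4`.  Then `tail4`.
-/

namespace Pool.Agent.W_MP_4b1b5d_an

namespace FinStar

theorem toR_neg (k : Z2) : toR (-k) = -toR k := by
  funext i; simp [toR]

theorem toR_inj {k l : Z2} (h : toR k = toR l) : k = l := by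
  funext i
  have := congrFun h i
  simpa [toR] using this

theorem toR_zero : toR (0 : Z2) = 0 := by
  funext i; simp [toR]

theorem fcR_neg (U : SP) (q : V2) :
    fcR (U : V2 → ℝ) (-q) = (starRingEnd ℂ) (fcR (U : V2 → ℝ) q) := by
  by_cases h : ∃ k : Z2, toR k = q
  · obtain ⟨k, rfl⟩ := h
    rw [← toR_neg, fcR_toR, fcR_toR, fc_neg]
  · rw [fcR_of_not _ _ (fun k hk => h ⟨k, hk⟩), fcR_of_not _ _ (fun k hk => h ⟨-k, ?_⟩)]
    · simp
    · rw [toR_neg, hk, neg_neg]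

/-- the coefficient sequence along a vector -/
noncomputable def vv (U : SP) (e : V2) (n : ℤ) : ℂ := fcR (U : V2 → ℝ) ((n : ℝ) • e) / (n : ℂ)

theorem vv_odd (U : SP) (e : V2) (n : ℤ) : vv U e (-n) = - (starRingEnd ℂ) (vv U e n) := by
  unfold vv
  have h : (((-n : ℤ) : ℝ)) • e = -((n : ℝ) • e) := by push_cast; rw [neg_smul]
  rw [h, fcR_neg, map_div₀]
  simp [div_neg]

theorem vv_dec (U : SP) (e : V2) (he : e ≠ 0) :
    ∃ C : ℝ, 0 ≤ C ∧ ∀ n : ℤ, n ≠ 0 → ‖vv U e n‖ ≤ C / (n : ℝ) ^ 2 := by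
  obtain ⟨C, hC⟩ := fc_decay U
  have hC0 : 0 ≤ C := by
    refine le_trans ?_ (hC 0)
    positivity
  have hpos : 0 < e 0 ^ 2 + e 1 ^ 2 := by
    by_contra hcon
    apply he
    have h0 : e 0 = 0 := by nlinarith [sq_nonneg (e 0), sq_nonneg (e 1)]
    have h1 : e 1 = 0 := by nlinarith [sq_nonneg (e 0), sq_nonneg (e 1)]
    funext i
    fin_cases i
    · exact h0
    · exact h1
  refine ⟨C / (e 0 ^ 2 + e 1 ^ 2), by positivity, fun n hn => ?_⟩
  have hnR : (n : ℝ) ≠ 0 := by exact_mod_cast hn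
  have hn1 : (1 : ℝ) ≤ |(n : ℝ)| := by
    have : (1 : ℤ) ≤ |n| := Int.one_le_abs hn
    exact_mod_cast this
  by_cases h : ∃ k : Z2, toR k = (n : ℝ) • e
  · obtain ⟨k, hk⟩ := h
    have h0 : (k 0 : ℝ) = n * e 0 := by
      have := congrFun hk 0
      simpa [toR] using this
    have h1 : (k 1 : ℝ) = n * e 1 := by
      have := congrFun hk 1
      simpa [toR] using this
    unfold vv
    rw [← hk, fcR_toR, norm_div]
    have hnn : ‖(n : ℂ)‖ = |(n : ℝ)| := by
      rw [Complex.norm_intCast]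
    rw [hnn]
    have hb := hC k
    rw [h0, h1] at hb
    set A := ‖fc (U : V2 → ℝ) k‖ with hA
    have hA0 : 0 ≤ A := norm_nonneg _
    set s := e 0 ^ 2 + e 1 ^ 2 with hs
    have hsq : (n : ℝ) ^ 2 = |(n : ℝ)| ^ 2 := (sq_abs _).symm
    have e1 : (1 + ((n : ℝ) * e 0) ^ 2 + ((n : ℝ) * e 1) ^ 2) = 1 + |(n : ℝ)| ^ 2 * s := by
      rw [← hsq, hs]; ring
    rw [e1] at hb
    rw [hsq]
    set t := |(n : ℝ)| with ht
    have htpos : 0 < t := by linarith
    rw [div_le_div_iff₀ htpos (by positivity)]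
    have h2 : t * s ≤ (1 + t ^ 2 * s) ^ 2 := by
      nlinarith [mul_pos htpos hpos, mul_nonneg (sub_nonneg.2 hn1) (mul_pos htpos hpos).le,
        sq_nonneg (t ^ 2 * s)]
    have h3 : A * (t * s) ≤ C := (mul_le_mul_of_nonneg_left h2 hA0).trans hb
    rw [div_mul_eq_mul_div, le_div_iff₀ hpos]
    nlinarith
  · unfold vv
    rw [fcR_of_not _ _ (fun k hk => h ⟨k, hk⟩)]
    simp only [zero_div, norm_zero]
    positivity


theorem det2_add_right (k l l' : V2) : det2 k (l + l') = det2 k l + det2 k l' := by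
  simp only [det2, Pi.add_apply]; ring

theorem det2_sub_right (k l l' : V2) : det2 k (l - l') = det2 k l - det2 k l' := by
  simp only [det2, Pi.sub_apply]; ring

theorem det2_add_left (k l l' : V2) : det2 (l + l') k = det2 l k + det2 l' k := by
  simp only [det2, Pi.add_apply]; ring

theorem det2_sub_left (k l l' : V2) : det2 (l - l') k = det2 l k - det2 l' k := by
  simp only [det2, Pi.sub_apply]; ring

theorem det2_smul_left (c : ℝ) (k l : V2) : det2 (c • k) l = c * det2 k l := by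
  simp only [det2, Pi.smul_apply, smul_eq_mul]; ring

theorem det2_smul_right (c : ℝ) (k l : V2) : det2 k (c • l) = c * det2 k l := by
  simp only [det2, Pi.smul_apply, smul_eq_mul]; ring

theorem det2_self (k : V2) : det2 k k = 0 := by
  simp only [det2]; ring

theorem det2_swap (k l : V2) : det2 k l = - det2 l k := by
  simp only [det2]; ring

theorem ip_sub_right (G : M2) (k l l' : V2) : ip G k (l - l') = ip G k l - ip G k l' := by
  have : l - l' = l + (-1 : ℝ) • l' := by rw [neg_one_smul, sub_eq_add_neg]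
  rw [this, ip_add_right, ip_smul_right]; ring

theorem fcR_eq_vv (U : SP) (e : V2) (n : ℤ) (hn : n ≠ 0) :
    fcR (U : V2 → ℝ) ((n : ℝ) • e) = (n : ℂ) * vv U e n := by
  unfold vv
  have : (n : ℂ) ≠ 0 := by exact_mod_cast hn
  field_simp

theorem term_eq (G : M2) (U : SP) (ei ej q : V2) (a b : ℤ) (ha : a ≠ 0) (hb : b ≠ 0)
    (h1 : det2 q ej = a * det2 ei ej) (h2 : det2 ei q = b * det2 ei ej) (h3 : det2 ei ej ≠ 0) :
    fcR (U : V2 → ℝ) ((det2 q ej / det2 ei ej) • ei)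
        * fcR (U : V2 → ℝ) ((det2 ei q / det2 ei ej) • ej)
        * ((ip G ei ej / (det2 q ej * det2 ei q) : ℝ) : ℂ)
      = vv U ei a * vv U ej b * ((ip G ei ej / det2 ei ej ^ 2 : ℝ) : ℂ) := by
  have e1 : det2 q ej / det2 ei ej = (a : ℝ) := by rw [h1]; field_simp
  have e2 : det2 ei q / det2 ei ej = (b : ℝ) := by rw [h2]; field_simp
  rw [e1, e2, fcR_eq_vv U ei a ha, fcR_eq_vv U ej b hb, h1, h2]
  have h3' : ((det2 ei ej : ℝ) : ℂ) ≠ 0 := by exact_mod_cast h3
  have ha' : (a : ℂ) ≠ 0 := by exact_mod_cast ha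
  have hb' : (b : ℂ) ≠ 0 := by exact_mod_cast hb
  push_cast
  field_simp

/-- the four-term relation -/
theorem rel4 (G : M2) (hG : G.PosDef) (U : SP) (P : RP)
    (hn2 : ∀ k : Z2, crit G P (toR k) ≠ 0 →
      HasSum (fun k' : Z2 => fc (U : V2 → ℝ) k' * fc (U : V2 → ℝ) (k - k')
        * ((ip G (toR k') (toR (k - k')) / det2 (toR k') (toR k) ^ 2 : ℝ) : ℂ)) 0)
    (e1 e3 : V2) (h0 : ip G e1 e3 = 0) (h1 : ip G e3 e3 = ip G e1 e1) (hd : det2 e1 e3 ≠ 0)
    (hlines : ∀ q : Z2, fc (U : V2 → ℝ) q ≠ 0 → det2 (toR q) e1 = 0 ∨ det2 (toR q) (e1 + e3) = 0 ∨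
      det2 (toR q) e3 = 0 ∨ det2 (toR q) (e3 - e1) = 0)
    (x y : ℤ) (hx : x ≠ 0) (hy : y ≠ 0) (hxy : x - y ≠ 0) (hxy' : x + y ≠ 0)
    (hcrit : crit G P ((x : ℝ) • e1 + (y : ℝ) • e3) ≠ 0) :
    vv U e1 (x - y) * vv U (e1 + e3) y - vv U e1 (x + y) * vv U (e3 - e1) y
      + vv U (e1 + e3) x * vv U e3 (y - x) + vv U e3 (x + y) * vv U (e3 - e1) (-x) = 0 := by
  have he1 : e1 ≠ 0 := by
    rintro rfl
    apply hd; simp [det2]
  have hip1 : ip G e1 e1 ≠ 0 := (ip_pos G hG e1 he1).ne'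
  have hd' : det2 e3 e1 = - det2 e1 e3 := det2_swap _ _
  have hi31 : ip G e3 e1 = 0 := by rw [ip_comm G hG]; exact h0
  have hxR : (x : ℝ) ≠ 0 := by exact_mod_cast hx
  have hyR : (y : ℝ) ≠ 0 := by exact_mod_cast hy
  have hxyR : (x : ℝ) - y ≠ 0 := by exact_mod_cast hxy
  have hxyR' : (x : ℝ) + y ≠ 0 := by exact_mod_cast hxy'
  have hyx : y - x ≠ 0 := fun h => hxy (by omega)
  have hnx : -x ≠ 0 := by omega
  set q : V2 := (x : ℝ) • e1 + (y : ℝ) • e3 with hq
  set e2 : V2 := e1 + e3 with he2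
  set e4 : V2 := e3 - e1 with he4
  have d12 : det2 e1 e2 = det2 e1 e3 := by
    rw [he2, det2_add_right, det2_self, zero_add]
  have d14 : det2 e1 e4 = det2 e1 e3 := by
    rw [he4, det2_sub_right, det2_self, sub_zero]
  have d23 : det2 e2 e3 = det2 e1 e3 := by
    rw [he2, det2_add_left, det2_self, add_zero]
  have d24 : det2 e2 e4 = 2 * det2 e1 e3 := by
    rw [he4, det2_sub_right, he2, det2_add_left, det2_add_left, det2_self, det2_self, hd']; ring
  have d34 : det2 e3 e4 = det2 e1 e3 := by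
    rw [he4, det2_sub_right, det2_self, hd']; ring
  have dq1 : det2 q e1 = - (y : ℝ) * det2 e1 e3 := by
    rw [hq, det2_add_left, det2_smul_left, det2_smul_left, det2_self, hd']; ring
  have dq3 : det2 q e3 = (x : ℝ) * det2 e1 e3 := by
    rw [hq, det2_add_left, det2_smul_left, det2_smul_left, det2_self]; ring
  have dq2 : det2 q e2 = ((x : ℝ) - y) * det2 e1 e3 := by
    rw [he2, det2_add_right, dq1, dq3]; ring
  have dq4 : det2 q e4 = ((x : ℝ) + y) * det2 e1 e3 := by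
    rw [he4, det2_sub_right, dq1, dq3]; ring
  have i12 : ip G e1 e2 = ip G e1 e1 := by rw [he2, ip_add_right, h0, add_zero]
  have i14 : ip G e1 e4 = - ip G e1 e1 := by rw [he4, ip_sub_right, h0, zero_sub]
  have i32 : ip G e3 e2 = ip G e1 e1 := by rw [he2, ip_add_right, hi31, h1, zero_add]
  have i34 : ip G e3 e4 = ip G e1 e1 := by rw [he4, ip_sub_right, hi31, h1, sub_zero]
  have i24 : ip G e2 e4 = 0 := by
    rw [he2, ip_add_left, i14, i34]; ring
  have i42 : ip G e4 e2 = 0 := by rw [ip_comm G hG]; exact i24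
  have i21 : ip G e2 e1 = ip G e1 e1 := by rw [ip_comm G hG]; exact i12
  have i41 : ip G e4 e1 = - ip G e1 e1 := by rw [ip_comm G hG]; exact i14
  have i23 : ip G e2 e3 = ip G e1 e1 := by rw [ip_comm G hG]; exact i32
  have i43 : ip G e4 e3 = ip G e1 e1 := by rw [ip_comm G hG]; exact i34
  have n12 : det2 e1 e2 ≠ 0 := by rw [d12]; exact hd
  have n14 : det2 e1 e4 ≠ 0 := by rw [d14]; exact hd
  have n23 : det2 e2 e3 ≠ 0 := by rw [d23]; exact hd
  have n24 : det2 e2 e4 ≠ 0 := by rw [d24]; exact mul_ne_zero two_ne_zero hd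
  have n34 : det2 e3 e4 ≠ 0 := by rw [d34]; exact hd
  have n21 : det2 e2 e1 ≠ 0 := by rw [det2_swap]; exact neg_ne_zero.2 n12
  have n31 : det2 e3 e1 ≠ 0 := by rw [det2_swap]; exact neg_ne_zero.2 hd
  have n41 : det2 e4 e1 ≠ 0 := by rw [det2_swap]; exact neg_ne_zero.2 n14
  have n32 : det2 e3 e2 ≠ 0 := by rw [det2_swap]; exact neg_ne_zero.2 n23
  have n42 : det2 e4 e2 ≠ 0 := by rw [det2_swap]; exact neg_ne_zero.2 n24
  have n43 : det2 e4 e3 ≠ 0 := by rw [det2_swap]; exact neg_ne_zero.2 n34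
  have hps := pair_sum G hG U P hn2 4 ![e1, e2, e3, e4] ?_ ?_ q ?_ hcrit
  · simp only [Fin.sum_univ_four, Fin.isValue, Matrix.cons_val_zero, Matrix.cons_val_one,
      Matrix.cons_val, Fin.reduceEq, ↓reduceIte] at hps
    rw [term_eq G U e1 e2 q (x - y) y hxy hy (by rw [dq2, d12]; push_cast; ring)
        (by rw [det2_swap, dq1, d12]; ring) (by rw [d12]; exact hd),
      term_eq G U e2 e1 q y (x - y) hy hxy (by rw [dq1, det2_swap e2, d12]; ring)
        (by rw [det2_swap, dq2, det2_swap e2, d12]; push_cast; ring)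
        (by rw [det2_swap, d12]; exact neg_ne_zero.2 hd),
      term_eq G U e1 e4 q (x + y) y hxy' hy (by rw [dq4, d14]; push_cast; ring)
        (by rw [det2_swap, dq1, d14]; ring) (by rw [d14]; exact hd),
      term_eq G U e4 e1 q y (x + y) hy hxy' (by rw [dq1, det2_swap e4, d14]; ring)
        (by rw [det2_swap, dq4, det2_swap e4, d14]; push_cast; ring)
        (by rw [det2_swap, d14]; exact neg_ne_zero.2 hd),
      term_eq G U e2 e3 q x (y - x) hx hyx (by rw [dq3, d23])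
        (by rw [det2_swap, dq2, d23]; push_cast; ring) (by rw [d23]; exact hd),
      term_eq G U e3 e2 q (y - x) x hyx hx (by rw [dq2, det2_swap e3, d23]; push_cast; ring)
        (by rw [det2_swap, dq3, det2_swap e3, d23]; ring)
        (by rw [det2_swap, d23]; exact neg_ne_zero.2 hd),
      term_eq G U e3 e4 q (x + y) (-x) hxy' hnx (by rw [dq4, d34]; push_cast; ring)
        (by rw [det2_swap, dq3, d34]; push_cast; ring) (by rw [d34]; exact hd),
      term_eq G U e4 e3 q (-x) (x + y) hnx hxy' (by rw [dq3, det2_swap e4, d34]; push_cast; ring)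
        (by rw [det2_swap, dq4, det2_swap e4, d34]; push_cast; ring)
        (by rw [det2_swap, d34]; exact neg_ne_zero.2 hd)] at hps
    rw [h0, hi31, i24, i42, i12, i21, i14, i41, i23, i32, i34, i43, det2_swap e2 e1,
      det2_swap e4 e1, det2_swap e3 e2, det2_swap e4 e3, d12, d14, d23, d34] at hps
    have hdC : ((det2 e1 e3 : ℝ) : ℂ) ≠ 0 := by exact_mod_cast hd
    have hgC : ((ip G e1 e1 : ℝ) : ℂ) ≠ 0 := by exact_mod_cast hip1
    push_cast at hps
    have hfin : (2 * ((ip G e1 e1 : ℝ) : ℂ) / ((det2 e1 e3 : ℝ) : ℂ) ^ 2) *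
        (vv U e1 (x - y) * vv U e2 y - vv U e1 (x + y) * vv U e4 y
      + vv U e2 x * vv U e3 (y - x) + vv U e3 (x + y) * vv U e4 (-x)) = 0 := by
      rw [← hps]
      simp only [zero_div, mul_zero, zero_add, add_zero]
      field_simp
      ring
    have hne : (2 * ((ip G e1 e1 : ℝ) : ℂ) / ((det2 e1 e3 : ℝ) : ℂ) ^ 2) ≠ 0 := by
      have : (2 : ℂ) ≠ 0 := two_ne_zero
      positivity
    exact (mul_eq_zero.1 hfin).resolve_left hne
  · intro i j hij
    fin_cases i <;> fin_cases j <;> first | exact absurd rfl hij | skip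
    all_goals
      simp only [Fin.isValue, Matrix.cons_val_zero, Matrix.cons_val_one,
        Matrix.cons_val, Fin.reduceFinMk, Fin.zero_eta, Fin.mk_one]
      assumption
  · intro k hk
    rcases hlines k hk with h | h | h | h
    · exact ⟨0, h⟩
    · exact ⟨1, h⟩
    · exact ⟨2, h⟩
    · exact ⟨3, h⟩
  · intro i
    fin_cases i
    · show det2 q e1 ≠ 0
      rw [dq1]; exact mul_ne_zero (neg_ne_zero.2 hyR) hd
    · show det2 q e2 ≠ 0
      rw [dq2]; exact mul_ne_zero hxyR hd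
    · show det2 q e3 ≠ 0
      rw [dq3]; exact mul_ne_zero hxR hd
    · show det2 q e4 ≠ 0
      rw [dq4]; exact mul_ne_zero hxyR' hd

/-- the core: four lines with directions `e1, e1 + e3, e3, e3 - e1` -/
theorem core (G : M2) (hG : G.PosDef) (U : SP) (P : RP) (m : ℕ) (hP : P.IsHomogeneous m)
    (hnr : ¬ Rad G P)
    (hn2 : ∀ k : Z2, crit G P (toR k) ≠ 0 →
      HasSum (fun k' : Z2 => fc (U : V2 → ℝ) k' * fc (U : V2 → ℝ) (k - k')
        * ((ip G (toR k') (toR (k - k')) / det2 (toR k') (toR k) ^ 2 : ℝ) : ℂ)) 0)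
    (e1 e3 : V2) (h0 : ip G e1 e3 = 0) (h1 : ip G e3 e3 = ip G e1 e1) (hd : det2 e1 e3 ≠ 0)
    (hlines : ∀ q : Z2, fc (U : V2 → ℝ) q ≠ 0 → (∃ n : ℤ, toR q = (n : ℝ) • e1) ∨
      (∃ n : ℤ, toR q = (n : ℝ) • (e1 + e3)) ∨ (∃ n : ℤ, toR q = (n : ℝ) • e3) ∨
      (∃ n : ℤ, toR q = (n : ℝ) • (e3 - e1)))
    (a b : Z2) (hab : det2 (toR a) (toR b) ≠ 0)
    (ha : fc (U : V2 → ℝ) a ≠ 0) (hb : fc (U : V2 → ℝ) b ≠ 0)
    (hip : ip G (toR a) (toR b) ≠ 0) :
    {k : Z2 | fc (U : V2 → ℝ) k ≠ 0}.Finite := by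
  have he1 : e1 ≠ 0 := by
    rintro rfl
    apply hd; simp [det2]
  have he3 : e3 ≠ 0 := by
    rintro rfl
    apply hd; simp [det2]
  have hip1 : ip G e1 e1 ≠ 0 := (ip_pos G hG e1 he1).ne'
  have hd' : det2 e3 e1 = - det2 e1 e3 := det2_swap _ _
  have hi31 : ip G e3 e1 = 0 := by rw [ip_comm G hG]; exact h0
  have he2 : e1 + e3 ≠ 0 := by
    intro h
    apply hd
    have : det2 e1 (e1 + e3) = det2 e1 e3 := by rw [det2_add_right, det2_self, zero_add]
    rw [← this, h]; simp [det2]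
  have he4 : e3 - e1 ≠ 0 := by
    intro h
    apply hd
    have : det2 e1 (e3 - e1) = det2 e1 e3 := by rw [det2_sub_right, det2_self, sub_zero]
    rw [← this, h]; simp [det2]
  obtain ⟨C1, hC1, hdec1⟩ := vv_dec U e1 he1
  obtain ⟨C2, hC2, hdec2⟩ := vv_dec U (e1 + e3) he2
  obtain ⟨C3, hC3, hdec3⟩ := vv_dec U e3 he3
  obtain ⟨C4, hC4, hdec4⟩ := vv_dec U (e3 - e1) he4
  have hmono : ∀ (c : ℝ) (n : ℤ), c ≤ C1 + C2 + C3 + C4 →
      c / (n : ℝ) ^ 2 ≤ (C1 + C2 + C3 + C4) / (n : ℝ) ^ 2 := fun c n hc => by gcongr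
  obtain ⟨S, hS⟩ := crit_finite G hG P m hP hnr e1 e3 hd
  have hrel : ∀ x y : ℤ, x ≠ 0 → (y : ℝ) / x ∉ S ∪ {0, 1, -1} →
      vv U e1 (x - y) * vv U (e1 + e3) y - vv U e1 (x + y) * vv U (e3 - e1) y
      + vv U (e1 + e3) x * vv U e3 (y - x) + vv U e3 (x + y) * vv U (e3 - e1) (-x) = 0 := by
    intro x y hx hxy
    have hxR : (x : ℝ) ≠ 0 := by exact_mod_cast hx
    simp only [Finset.mem_union, Finset.mem_insert, Finset.mem_singleton, not_or] at hxy
    obtain ⟨h1', h2', h3', h4'⟩ := hxy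
    refine rel4 G hG U P hn2 e1 e3 h0 h1 hd ?_ x y hx ?_ ?_ ?_ ?_
    · intro q hq
      rcases hlines q hq with ⟨n, hn⟩ | ⟨n, hn⟩ | ⟨n, hn⟩ | ⟨n, hn⟩
      · left; rw [hn, det2_smul_left, det2_self, mul_zero]
      · right; left; rw [hn, det2_smul_left, det2_self, mul_zero]
      · right; right; left; rw [hn, det2_smul_left, det2_self, mul_zero]
      · right; right; right; rw [hn, det2_smul_left, det2_self, mul_zero]
    · rintro rfl
      apply h2'; simp
    · intro h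
      apply h3'
      have : x = y := by omega
      rw [this, div_self]
      rw [← this]; exact hxR
    · intro h
      apply h4'
      have : y = -x := by omega
      rw [this]; push_cast; rw [neg_div, div_self hxR]
    · exact hS x y hxR h1'
  -- activity
  have hact : ∀ (q : Z2) (n : ℤ) (e : V2), fc (U : V2 → ℝ) q ≠ 0 → toR q = (n : ℝ) • e → n ≠ 0 →
      vv U e n ≠ 0 := by
    intro q n e hq hqe hn
    unfold vv
    rw [← hqe, fcR_toR]
    have : (n : ℂ) ≠ 0 := by exact_mod_cast hn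
    exact div_ne_zero hq this
  have hnz : ∀ (q : Z2) (n : ℤ) (e : V2), toR q ≠ 0 → toR q = (n : ℝ) • e → n ≠ 0 := by
    rintro q n e hq hqe rfl
    apply hq; rw [hqe]; simp
  have ha0 : toR a ≠ 0 := by
    intro h; apply hab; rw [h]; simp [det2]
  have hb0 : toR b ≠ 0 := by
    intro h; apply hab; rw [h]; simp [det2]
  have hi24 : ip G (e1 + e3) (e3 - e1) = 0 := by
    rw [ip_add_left, ip_sub_right, ip_sub_right, h0, hi31, h1]; ring
  have hi42 : ip G (e3 - e1) (e1 + e3) = 0 := by rw [ip_comm G hG]; exact hi24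
  have key : (∃ n : ℤ, n ≠ 0 ∧ (vv U e1 n ≠ 0 ∨ vv U e3 n ≠ 0)) ∧
      (∃ n : ℤ, n ≠ 0 ∧ (vv U (e1 + e3) n ≠ 0 ∨ vv U (e3 - e1) n ≠ 0)) := by
    have hpar : ∀ (n n' : ℤ) (e : V2), toR a = (n : ℝ) • e → toR b = (n' : ℝ) • e → False := by
      intro n n' e h h'
      apply hab
      rw [h, h', det2_smul_left, det2_smul_right, det2_self]; ring
    have horth : ∀ (n n' : ℤ) (e e' : V2), toR a = (n : ℝ) • e → toR b = (n' : ℝ) • e' →
        ip G e e' = 0 → False := by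
      intro n n' e e' h h' h''
      apply hip
      rw [h, h', ip_smul_left, ip_smul_right, h'']; ring
    rcases hlines a ha with ⟨n, hn⟩ | ⟨n, hn⟩ | ⟨n, hn⟩ | ⟨n, hn⟩ <;>
    rcases hlines b hb with ⟨n', hn'⟩ | ⟨n', hn'⟩ | ⟨n', hn'⟩ | ⟨n', hn'⟩
    · exact (hpar _ _ _ hn hn').elim
    · exact ⟨⟨n, hnz a n _ ha0 hn, Or.inl (hact a n _ ha hn (hnz a n _ ha0 hn))⟩,
        ⟨n', hnz b n' _ hb0 hn', Or.inl (hact b n' _ hb hn' (hnz b n' _ hb0 hn'))⟩⟩
    · exact (horth _ _ _ _ hn hn' h0).elim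
    · exact ⟨⟨n, hnz a n _ ha0 hn, Or.inl (hact a n _ ha hn (hnz a n _ ha0 hn))⟩,
        ⟨n', hnz b n' _ hb0 hn', Or.inr (hact b n' _ hb hn' (hnz b n' _ hb0 hn'))⟩⟩
    · exact ⟨⟨n', hnz b n' _ hb0 hn', Or.inl (hact b n' _ hb hn' (hnz b n' _ hb0 hn'))⟩,
        ⟨n, hnz a n _ ha0 hn, Or.inl (hact a n _ ha hn (hnz a n _ ha0 hn))⟩⟩
    · exact (hpar _ _ _ hn hn').elim
    · exact ⟨⟨n', hnz b n' _ hb0 hn', Or.inr (hact b n' _ hb hn' (hnz b n' _ hb0 hn'))⟩,
        ⟨n, hnz a n _ ha0 hn, Or.inl (hact a n _ ha hn (hnz a n _ ha0 hn))⟩⟩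
    · exact (horth _ _ _ _ hn hn' hi24).elim
    · exact (horth _ _ _ _ hn hn' hi31).elim
    · exact ⟨⟨n, hnz a n _ ha0 hn, Or.inr (hact a n _ ha hn (hnz a n _ ha0 hn))⟩,
        ⟨n', hnz b n' _ hb0 hn', Or.inl (hact b n' _ hb hn' (hnz b n' _ hb0 hn'))⟩⟩
    · exact (hpar _ _ _ hn hn').elim
    · exact ⟨⟨n, hnz a n _ ha0 hn, Or.inr (hact a n _ ha hn (hnz a n _ ha0 hn))⟩,
        ⟨n', hnz b n' _ hb0 hn', Or.inr (hact b n' _ hb hn' (hnz b n' _ hb0 hn'))⟩⟩
    · exact ⟨⟨n', hnz b n' _ hb0 hn', Or.inl (hact b n' _ hb hn' (hnz b n' _ hb0 hn'))⟩,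
        ⟨n, hnz a n _ ha0 hn, Or.inr (hact a n _ ha hn (hnz a n _ ha0 hn))⟩⟩
    · exact (horth _ _ _ _ hn hn' hi42).elim
    · exact ⟨⟨n', hnz b n' _ hb0 hn', Or.inr (hact b n' _ hb hn' (hnz b n' _ hb0 hn'))⟩,
        ⟨n, hnz a n _ ha0 hn, Or.inr (hact a n _ ha hn (hnz a n _ ha0 hn))⟩⟩
    · exact (hpar _ _ _ hn hn').elim
  obtain ⟨h13, h24⟩ := key
  obtain ⟨N1, hN1⟩ := tail4 (vv U e1) (vv U (e1 + e3)) (vv U e3) (vv U (e3 - e1))
    (vv_odd U _) (vv_odd U _) (vv_odd U _) (vv_odd U _) (C1 + C2 + C3 + C4)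
    (fun n hn => (hdec1 n hn).trans (hmono _ _ (by linarith)))
    (fun n hn => (hdec2 n hn).trans (hmono _ _ (by linarith)))
    (fun n hn => (hdec3 n hn).trans (hmono _ _ (by linarith)))
    (fun n hn => (hdec4 n hn).trans (hmono _ _ (by linarith)))
    (S ∪ {0, 1, -1}) hrel h13 h24
  have hsub : {k : Z2 | fc (U : V2 → ℝ) k ≠ 0} ⊆
      toR ⁻¹' ((fun n : ℤ => (n : ℝ) • e1) '' (Set.Icc (-(|N1| + 1)) (|N1| + 1)) ∪
        (fun n : ℤ => (n : ℝ) • (e1 + e3)) '' (Set.Icc (-(|N1| + 1)) (|N1| + 1)) ∪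
        (fun n : ℤ => (n : ℝ) • e3) '' (Set.Icc (-(|N1| + 1)) (|N1| + 1)) ∪
        (fun n : ℤ => (n : ℝ) • (e3 - e1)) '' (Set.Icc (-(|N1| + 1)) (|N1| + 1))) := by
    intro q hq
    have hq' : fc (U : V2 → ℝ) q ≠ 0 := hq
    have hb : ∀ n : ℤ, |n| < N1 ∨ n = 0 → n ∈ Set.Icc (-(|N1| + 1)) (|N1| + 1) := by
      rintro n (h | rfl)
      · have := le_abs_self N1
        have h2 := abs_lt.1 (h.trans_le this)
        constructor <;> omega
      · have := abs_nonneg N1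
        constructor <;> omega
    rw [Set.mem_preimage]
    rcases hlines q hq' with ⟨n, hn⟩ | ⟨n, hn⟩ | ⟨n, hn⟩ | ⟨n, hn⟩
    · left; left; left
      refine ⟨n, hb n ?_, hn.symm⟩
      by_contra hcon
      push Not at hcon
      exact hact q n _ hq' hn hcon.2 (hN1 n hcon.1).1
    · left; left; right
      refine ⟨n, hb n ?_, hn.symm⟩
      by_contra hcon
      push Not at hcon
      exact hact q n _ hq' hn hcon.2 (hN1 n hcon.1).2.1
    · left; right
      refine ⟨n, hb n ?_, hn.symm⟩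
      by_contra hcon
      push Not at hcon
      exact hact q n _ hq' hn hcon.2 (hN1 n hcon.1).2.2.1
    · right
      refine ⟨n, hb n ?_, hn.symm⟩
      by_contra hcon
      push Not at hcon
      exact hact q n _ hq' hn hcon.2 (hN1 n hcon.1).2.2.2
  refine Set.Finite.subset (Set.Finite.preimage (fun k _ l _ h => toR_inj h) ?_) hsub
  exact ((((Set.finite_Icc _ _).image _).union ((Set.finite_Icc _ _).image _)).union
    ((Set.finite_Icc _ _).image _)).union ((Set.finite_Icc _ _).image _)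

theorem exists_mult (M : Z2) (hM : toR M ≠ 0) : ∃ d : ℤ, d ≠ 0 ∧ ∀ N : ℤ, N ≠ 0 → d ∣ N →
    ∀ q : Z2, det2 (toR q) (toR M) = 0 → ∃ n : ℤ, toR q = (n : ℝ) • ((1 / (N : ℝ)) • toR M) := by
  by_cases h0 : M 0 = 0
  · have h1 : M 1 ≠ 0 := by
      intro h1
      apply hM
      funext i
      fin_cases i
      · simp [toR, h0]
      · simp [toR, h1]
    refine ⟨M 1, h1, ?_⟩
    rintro N hN ⟨t, rfl⟩ q hq
    have h1R : (M 1 : ℝ) ≠ 0 := by exact_mod_cast h1
    have ht : (t : ℝ) ≠ 0 := by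
      rintro h
      apply hN
      have : t = 0 := by exact_mod_cast h
      rw [this, mul_zero]
    have hq' : (q 0 : ℝ) * M 1 - q 1 * M 0 = 0 := hq
    refine ⟨q 1 * t, ?_⟩
    funext i
    fin_cases i
    · simp only [toR, Pi.smul_apply, smul_eq_mul, Fin.zero_eta]
      push_cast
      field_simp
      linarith
    · simp only [toR, Pi.smul_apply, smul_eq_mul, Fin.mk_one]
      push_cast
      field_simp
  · refine ⟨M 0, h0, ?_⟩
    rintro N hN ⟨t, rfl⟩ q hq
    have h1R : (M 0 : ℝ) ≠ 0 := by exact_mod_cast h0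
    have ht : (t : ℝ) ≠ 0 := by
      rintro h
      apply hN
      have : t = 0 := by exact_mod_cast h
      rw [this, mul_zero]
    have hq' : (q 0 : ℝ) * M 1 - q 1 * M 0 = 0 := hq
    refine ⟨q 0 * t, ?_⟩
    funext i
    fin_cases i
    · simp only [toR, Pi.smul_apply, smul_eq_mul, Fin.zero_eta]
      push_cast
      field_simp
    · simp only [toR, Pi.smul_apply, smul_eq_mul, Fin.mk_one]
      push_cast
      field_simp
      linarith

theorem cramer (A B C : V2) : det2 A C • B = det2 B C • A + det2 A B • C := by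
  funext i
  fin_cases i
  · simp only [det2, Pi.smul_apply, Pi.add_apply, smul_eq_mul, Fin.zero_eta]; ring
  · simp only [det2, Pi.smul_apply, Pi.add_apply, smul_eq_mul, Fin.mk_one]; ring

theorem sq_coeff (G : M2) (hG : G.PosDef) (A B C : V2) (hac : ip G A C = 0)
    (hA : A ≠ 0) (hb : 2 * ip G A B ^ 2 = ip G A A * ip G B B) :
    det2 B C ^ 2 * ip G A A = det2 A B ^ 2 * ip G C C := by
  have hca : ip G C A = 0 := by rw [ip_comm G hG]; exact hac
  have h1 : det2 A C * ip G A B = det2 B C * ip G A A := by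
    rw [← ip_smul_right, cramer A B C, ip_add_right, ip_smul_right, ip_smul_right, hac]; ring
  have h2 : det2 A C ^ 2 * ip G B B = det2 B C ^ 2 * ip G A A + det2 A B ^ 2 * ip G C C := by
    have : det2 A C ^ 2 * ip G B B = ip G (det2 A C • B) (det2 A C • B) := by
      rw [ip_smul_left, ip_smul_right]; ring
    rw [this, cramer A B C]
    simp only [ip_add_left, ip_add_right, ip_smul_left, ip_smul_right, hac, hca]; ring
  have hpos := ip_pos G hG A hA
  have h3 : ip G A A * (det2 B C ^ 2 * ip G A A - det2 A B ^ 2 * ip G C C) = 0 := by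
    have h4 : 2 * (det2 A C * ip G A B) ^ 2 = ip G A A * (det2 A C ^ 2 * ip G B B) := by
      linear_combination (det2 A C ^ 2) * hb
    rw [h1, h2] at h4
    linear_combination h4
  have := (mul_eq_zero.1 h3).resolve_left hpos.ne'
  linarith

theorem fourth (G : M2) (hG : G.PosDef) (A B C D : V2) (hac : ip G A C = 0)
    (hA : A ≠ 0) (hC : C ≠ 0) (hAC : det2 A C ≠ 0) (hBD : det2 B D ≠ 0)
    (hb : 2 * ip G A B ^ 2 = ip G A A * ip G B B)
    (hd : 2 * ip G A D ^ 2 = ip G A A * ip G D D) :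
    det2 A B * det2 D C + det2 B C * det2 A D = 0 := by
  have e1 := sq_coeff G hG A B C hac hA hb
  have e2 := sq_coeff G hG A D C hac hA hd
  have hpA := ip_pos G hG A hA
  have hpC := ip_pos G hG C hC
  have h3 : (ip G A A * ip G C C) * ((det2 A B * det2 D C + det2 B C * det2 A D) *
      (det2 B C * det2 A D - det2 A B * det2 D C)) = 0 := by
    have : (det2 B C ^ 2 * ip G A A) * (det2 A D ^ 2 * ip G C C)
        = (det2 A B ^ 2 * ip G C C) * (det2 D C ^ 2 * ip G A A) := by rw [e1, e2]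
    linear_combination this
  have h4 := (mul_eq_zero.1 h3).resolve_left (mul_pos hpA hpC).ne'
  rcases mul_eq_zero.1 h4 with h | h
  · exact h
  · exfalso
    have h5 : det2 A C * det2 B D = det2 B C * det2 A D - det2 A B * det2 D C := by
      simp only [det2]; ring
    rw [h] at h5
    exact (mul_ne_zero hAC hBD) h5

/-- integer determinant -/
def dz (k l : Z2) : ℤ := k 0 * l 1 - k 1 * l 0

theorem det2_toR (k l : Z2) : det2 (toR k) (toR l) = (dz k l : ℝ) := by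
  simp [det2, toR, dz]

theorem toR_smul (c : ℤ) (k : Z2) : toR (c • k) = (c : ℝ) • toR k := by
  funext i; simp [toR]

theorem toR_add (k l : Z2) : toR (k + l) = toR k + toR l := by
  funext i; simp [toR]

theorem toR_sub (k l : Z2) : toR (k - l) = toR k - toR l := by
  funext i; simp [toR]

theorem of_orth (G : M2) (hG : G.PosDef) (U : SP) (P : RP) (m : ℕ) (hP : P.IsHomogeneous m)
    (hnr : ¬ Rad G P)
    (hn2 : ∀ k : Z2, crit G P (toR k) ≠ 0 →
      HasSum (fun k' : Z2 => fc (U : V2 → ℝ) k' * fc (U : V2 → ℝ) (k - k')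
        * ((ip G (toR k') (toR (k - k')) / det2 (toR k') (toR k) ^ 2 : ℝ) : ℂ)) 0)
    (k1 k2 k3 k4 : Z2) (h12 : det2 (toR k1) (toR k2) ≠ 0) (h13 : det2 (toR k1) (toR k3) ≠ 0)
    (h14 : det2 (toR k1) (toR k4) ≠ 0) (h23 : det2 (toR k2) (toR k3) ≠ 0)
    (h24 : det2 (toR k2) (toR k4) ≠ 0) (h34 : det2 (toR k3) (toR k4) ≠ 0)
    (horth : ip G (toR k1) (toR k3) = 0)
    (hs12 : ip G (toR k1) (toR k2) = 0 ∨
      2 * ip G (toR k1) (toR k2) ^ 2
        = ip G (toR k1) (toR k1) * ip G (toR k2) (toR k2))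
    (hs14 : ip G (toR k1) (toR k4) = 0 ∨
      2 * ip G (toR k1) (toR k4) ^ 2
        = ip G (toR k1) (toR k1) * ip G (toR k4) (toR k4))
    (hlines : ∀ q : Z2, fc (U : V2 → ℝ) q ≠ 0 → det2 (toR q) (toR k1) = 0 ∨
      det2 (toR q) (toR k2) = 0 ∨ det2 (toR q) (toR k3) = 0 ∨ det2 (toR q) (toR k4) = 0)
    (a b : Z2) (hab : det2 (toR a) (toR b) ≠ 0)
    (ha : fc (U : V2 → ℝ) a ≠ 0) (hb : fc (U : V2 → ℝ) b ≠ 0)
    (hip : ip G (toR a) (toR b) ≠ 0) :
    {k : Z2 | fc (U : V2 → ℝ) k ≠ 0}.Finite := by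
  have hz : ∀ k l : Z2, det2 (toR k) (toR l) ≠ 0 → toR k ≠ 0 ∧ toR l ≠ 0 := by
    intro k l h
    constructor
    · intro h'; apply h; rw [h']; simp [det2]
    · intro h'; apply h; rw [h']; simp [det2]
  have hk1 := (hz _ _ h12).1
  have hk3 := (hz _ _ h13).2
  have hp1 := ip_pos G hG _ hk1
  have hnp : ∀ k : Z2, det2 (toR k) (toR k3) ≠ 0 → ip G (toR k1) (toR k) ≠ 0 := by
    intro k hk h
    have h1 := congrArg (ip G (toR k1)) (cramer (toR k1) (toR k) (toR k3))
    rw [ip_add_right, ip_smul_right, ip_smul_right, ip_smul_right, h, horth] at h1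
    have : det2 (toR k) (toR k3) * ip G (toR k1) (toR k1) = 0 := by linarith
    exact (mul_ne_zero hk hp1.ne') this
  have hb45 := hs12.resolve_left (hnp k2 h23)
  have h43 : det2 (toR k4) (toR k3) ≠ 0 := by rw [det2_swap]; exact neg_ne_zero.2 h34
  have hd45 := hs14.resolve_left (hnp k4 h43)
  have hsq := sq_coeff G hG (toR k1) (toR k2) (toR k3) horth hk1 hb45
  have hfour := fourth G hG (toR k1) (toR k2) (toR k3) (toR k4) horth hk1 hk3 h13 h24 hb45 hd45
  set M1 : Z2 := dz k2 k3 • k1 with hM1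
  set M3 : Z2 := dz k1 k2 • k3 with hM3
  have hM1R : toR M1 = det2 (toR k2) (toR k3) • toR k1 := by rw [hM1, toR_smul, det2_toR]
  have hM3R : toR M3 = det2 (toR k1) (toR k2) • toR k3 := by rw [hM3, toR_smul, det2_toR]
  have hsum : toR (M1 + M3) = det2 (toR k1) (toR k3) • toR k2 := by
    rw [toR_add, hM1R, hM3R, ← cramer (toR k1) (toR k2) (toR k3)]
  have hdiff : det2 (toR k1) (toR k4) • toR (M3 - M1)
      = (det2 (toR k1) (toR k2) * det2 (toR k1) (toR k3)) • toR k4 := by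
    rw [toR_sub, hM1R, hM3R, mul_smul, cramer (toR k1) (toR k4) (toR k3), smul_sub, smul_add,
      smul_smul, smul_smul, smul_smul, smul_smul]
    have e : det2 (toR k1) (toR k4) * det2 (toR k2) (toR k3)
        = - (det2 (toR k1) (toR k2) * det2 (toR k4) (toR k3)) := by linarith
    rw [e, neg_smul, sub_neg_eq_add, mul_comm (det2 (toR k1) (toR k4)), add_comm]
  have n1 : toR M1 ≠ 0 := by rw [hM1R]; exact smul_ne_zero h23 hk1
  have n3 : toR M3 ≠ 0 := by rw [hM3R]; exact smul_ne_zero h12 hk3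
  have n2 : toR (M1 + M3) ≠ 0 := by rw [hsum]; exact smul_ne_zero h13 (hz _ _ h12).2
  have n4 : toR (M3 - M1) ≠ 0 := by
    intro h
    rw [h, smul_zero] at hdiff
    exact (smul_ne_zero (mul_ne_zero h12 h13) (hz _ _ h14).2) hdiff.symm
  obtain ⟨d1, hd1, hm1⟩ := exists_mult M1 n1
  obtain ⟨d2, hd2, hm2⟩ := exists_mult (M1 + M3) n2
  obtain ⟨d3, hd3, hm3⟩ := exists_mult M3 n3
  obtain ⟨d4, hd4, hm4⟩ := exists_mult (M3 - M1) n4
  set N : ℤ := d1 * d2 * d3 * d4 with hN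
  have hN0 : N ≠ 0 := by positivity
  have hNR : (N : ℝ) ≠ 0 := by exact_mod_cast hN0
  have e2 : (1 / (N : ℝ)) • toR M1 + (1 / (N : ℝ)) • toR M3 = (1 / (N : ℝ)) • toR (M1 + M3) := by
    rw [toR_add, smul_add]
  have e4 : (1 / (N : ℝ)) • toR M3 - (1 / (N : ℝ)) • toR M1 = (1 / (N : ℝ)) • toR (M3 - M1) := by
    rw [toR_sub, smul_sub]
  refine core G hG U P m hP hnr hn2 ((1 / (N : ℝ)) • toR M1) ((1 / (N : ℝ)) • toR M3)
    ?_ ?_ ?_ ?_ a b hab ha hb hip
  · rw [ip_smul_left, ip_smul_right, hM1R, hM3R, ip_smul_left, ip_smul_right, horth]; ring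
  · rw [ip_smul_left, ip_smul_right, ip_smul_left, ip_smul_right, hM1R, hM3R, ip_smul_left,
      ip_smul_right, ip_smul_left, ip_smul_right]
    linear_combination (-(1 / (N : ℝ)) ^ 2) * hsq
  · rw [det2_smul_left, det2_smul_right, hM1R, hM3R, det2_smul_left, det2_smul_right]
    positivity
  · intro q hq
    rw [e2, e4]
    rcases hlines q hq with h | h | h | h
    · left
      refine hm1 N hN0 ⟨d2 * d3 * d4, by rw [hN]; ring⟩ q ?_
      rw [hM1R, det2_smul_right, h, mul_zero]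
    · right; left
      refine hm2 N hN0 ⟨d1 * d3 * d4, by rw [hN]; ring⟩ q ?_
      rw [hsum, det2_smul_right, h, mul_zero]
    · right; right; left
      refine hm3 N hN0 ⟨d1 * d2 * d4, by rw [hN]; ring⟩ q ?_
      rw [hM3R, det2_smul_right, h, mul_zero]
    · right; right; right
      refine hm4 N hN0 ⟨d1 * d2 * d3, by rw [hN]; ring⟩ q ?_
      have h5 : det2 (toR q) (det2 (toR k1) (toR k4) • toR (M3 - M1)) = 0 := by
        rw [hdiff, det2_smul_right, h, mul_zero]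
      rw [det2_smul_right] at h5
      exact (mul_eq_zero.1 h5).resolve_left h14

theorem same_sign (G : M2) (hG : G.PosDef) (A B C : V2) (σ : ℝ) (hA : A ≠ 0)
    (h1 : ip G A B = σ * det2 A B) (h2 : ip G A C = σ * det2 A C) (hBC : det2 B C ≠ 0) : False := by
  have h3 := congrArg (ip G A) (cramer A B C)
  rw [ip_add_right, ip_smul_right, ip_smul_right, ip_smul_right, h1, h2] at h3
  have : det2 B C * ip G A A = 0 := by linear_combination -h3
  exact (mul_ne_zero hBC (ip_pos G hG A hA).ne') this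

end FinStar

open FinStar in
theorem fin_star (G : M2) (hG : G.PosDef) (U : SP) (P : RP) (m : ℕ) (hP : P.IsHomogeneous m)
    (hnr : ¬ Rad G P)
    (hn2 : ∀ k : Z2, crit G P (toR k) ≠ 0 →
      HasSum (fun k' : Z2 => fc (U : V2 → ℝ) k' * fc (U : V2 → ℝ) (k - k')
        * ((ip G (toR k') (toR (k - k')) / det2 (toR k') (toR k) ^ 2 : ℝ) : ℂ)) 0)
    (k : Fin 4 → Z2) (hpar : ∀ i j, i ≠ j → det2 (toR (k i)) (toR (k j)) ≠ 0)
    (hstar : ∀ i j, i ≠ j → (ip G (toR (k i)) (toR (k j)) = 0 ∨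
      2 * ip G (toR (k i)) (toR (k j)) ^ 2
        = ip G (toR (k i)) (toR (k i)) * ip G (toR (k j)) (toR (k j))))
    (hlines : ∀ q : Z2, fc (U : V2 → ℝ) q ≠ 0 → ∃ i, det2 (toR q) (toR (k i)) = 0)
    (a b : Z2) (hab : det2 (toR a) (toR b) ≠ 0)
    (ha : fc (U : V2 → ℝ) a ≠ 0) (hb : fc (U : V2 → ℝ) b ≠ 0)
    (hip : ip G (toR a) (toR b) ≠ 0) :
    {k : Z2 | fc (U : V2 → ℝ) k ≠ 0}.Finite := by
  have hk0 : toR (k 0) ≠ 0 := by
    intro h; apply hpar 0 1 (by decide); rw [h]; simp [det2]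
  have hlin : ∀ q : Z2, fc (U : V2 → ℝ) q ≠ 0 → det2 (toR q) (toR (k 0)) = 0 ∨
      det2 (toR q) (toR (k 1)) = 0 ∨ det2 (toR q) (toR (k 2)) = 0 ∨
      det2 (toR q) (toR (k 3)) = 0 := by
    intro q hq
    obtain ⟨i, hi⟩ := hlines q hq
    fin_cases i
    · exact Or.inl hi
    · exact Or.inr (Or.inl hi)
    · exact Or.inr (Or.inr (Or.inl hi))
    · exact Or.inr (Or.inr (Or.inr hi))
  by_cases c1 : ip G (toR (k 0)) (toR (k 1)) = 0
  · refine of_orth G hG U P m hP hnr hn2 (k 0) (k 2) (k 1) (k 3) (hpar _ _ (by decide))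
      (hpar _ _ (by decide)) (hpar _ _ (by decide)) (hpar _ _ (by decide)) (hpar _ _ (by decide))
      (hpar _ _ (by decide)) c1 (hstar _ _ (by decide)) (hstar _ _ (by decide)) ?_
      a b hab ha hb hip
    intro q hq
    rcases hlin q hq with h | h | h | h
    · exact Or.inl h
    · exact Or.inr (Or.inr (Or.inl h))
    · exact Or.inr (Or.inl h)
    · exact Or.inr (Or.inr (Or.inr h))
  by_cases c2 : ip G (toR (k 0)) (toR (k 2)) = 0
  · exact of_orth G hG U P m hP hnr hn2 (k 0) (k 1) (k 2) (k 3) (hpar _ _ (by decide))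
      (hpar _ _ (by decide)) (hpar _ _ (by decide)) (hpar _ _ (by decide)) (hpar _ _ (by decide))
      (hpar _ _ (by decide)) c2 (hstar _ _ (by decide)) (hstar _ _ (by decide)) hlin
      a b hab ha hb hip
  by_cases c3 : ip G (toR (k 0)) (toR (k 3)) = 0
  · refine of_orth G hG U P m hP hnr hn2 (k 0) (k 1) (k 3) (k 2) (hpar _ _ (by decide))
      (hpar _ _ (by decide)) (hpar _ _ (by decide)) (hpar _ _ (by decide)) (hpar _ _ (by decide))
      (hpar _ _ (by decide)) c3 (hstar _ _ (by decide)) (hstar _ _ (by decide)) ?_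
      a b hab ha hb hip
    intro q hq
    rcases hlin q hq with h | h | h | h
    · exact Or.inl h
    · exact Or.inr (Or.inl h)
    · exact Or.inr (Or.inr (Or.inr h))
    · exact Or.inr (Or.inr (Or.inl h))
  exfalso
  have hsign : ∀ j, (0 : Fin 4) ≠ j → ip G (toR (k 0)) (toR (k j)) ≠ 0 →
      ip G (toR (k 0)) (toR (k j)) = √G.det * det2 (toR (k 0)) (toR (k j)) ∨
      ip G (toR (k 0)) (toR (k j)) = (-√G.det) * det2 (toR (k 0)) (toR (k j)) := by
    intro j hj hne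
    have h45 := (hstar 0 j hj).resolve_left hne
    have hlag := ip_lagrange G hG (toR (k 0)) (toR (k j))
    have hs : √G.det ^ 2 = G.det := Real.sq_sqrt (det_pos G hG).le
    have h : ip G (toR (k 0)) (toR (k j)) ^ 2 = (√G.det * det2 (toR (k 0)) (toR (k j))) ^ 2 := by
      rw [mul_pow, hs]; linarith
    rcases sq_eq_sq_iff_eq_or_eq_neg.1 h with h | h
    · exact Or.inl h
    · right; rw [h]; ring
  rcases hsign 1 (by decide) c1 with s1 | s1 <;> rcases hsign 2 (by decide) c2 with s2 | s2 <;>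
    rcases hsign 3 (by decide) c3 with s3 | s3
  · exact same_sign G hG _ _ _ _ hk0 s1 s2 (hpar 1 2 (by decide))
  · exact same_sign G hG _ _ _ _ hk0 s1 s2 (hpar 1 2 (by decide))
  · exact same_sign G hG _ _ _ _ hk0 s1 s3 (hpar 1 3 (by decide))
  · exact same_sign G hG _ _ _ _ hk0 s2 s3 (hpar 2 3 (by decide))
  · exact same_sign G hG _ _ _ _ hk0 s2 s3 (hpar 2 3 (by decide))
  · exact same_sign G hG _ _ _ _ hk0 s1 s3 (hpar 1 3 (by decide))
  · exact same_sign G hG _ _ _ _ hk0 s1 s2 (hpar 1 2 (by decide))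
  · exact same_sign G hG _ _ _ _ hk0 s1 s2 (hpar 1 2 (by decide))

end Pool.Agent.W_MP_4b1b5d_an
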