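import Pool.Agent.W_MP_4b1b5d_an.TailPair

set_option autoImplicit false

/-!
# H1b: pure tail lemma for three lines

For `a > 0` large and fixed `b > 0` use `hrel` at
* (for `v 0`) `(x, y) = (a, -b)` and `(a + b, b)`:
  `-g01 v0(a) conj v1(b) + g02 v0(a+b) v2(b) + g12 conj v1(a+b) conj v2(a) = 0`,
  `g01 v0(a+b) v1(b) - g02 v0(a) conj v2(b) + g12 conj v1(a) conj v2(a+b) = 0`;
* (for `v 1`) `(x, y) = (-b, a)` and `(b, a + b)`:
  `g01 v0(-b) v1(a) + g02 v0(-b-a) v2(-a) + g12 v1(a+b) v2(b) = 0`,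
  `g01 v0(b) v1(a+b) + g02 v0(-a) v2(-a-b) + g12 v1(a) v2(-b) = 0`;
* (for `v 2`) `(x, y) = (-a-b, -a)` and `(-a, -a-b)`:
  `g01 v0(-a-b) v1(-a) + g02 v0(-b) v2(a) + g12 v1(b) v2(a+b) = 0`,
  `g01 v0(-a) v1(-a-b) + g02 v0(b) v2(a+b) + g12 v1(-b) v2(a) = 0`.
The ratios `y/x` are outside the finite set `S` for large `a` (they tend to `0, ±∞, 1` without being
equal to the limit).  Adding the two norm estimates, with `M_i(a) = sup_{n ≥ a} |v i n|`: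
`(|g01 v1 b| + |g02 v2 b|) |v0 a| ≤ (same) |v0 (a+b)| + 2 |g12| M1(a) M2(a)`,
`(|g01 v0 b| + |g12 v2 b|) |v1 a| ≤ (same) |v1 (a+b)| + 2 |g02| M0(a) M2(a)`,
`(|g02 v0 b| + |g12 v1 b|) |v2 a| ≤ (same) |v2 (a+b)| + 2 |g01| M0(a) M1(a)`.
Choose `b > 0` with `v1 b ≠ 0` for the first (`hv1`, `hodd`), `v0 b ≠ 0` for the second; `tail_pair` for
`|v0|, |v1|` (`M2(a) ≤ C/a²`) gives `v0 = v1 = 0` for large `n`.  For `v2`: choose `b` with
`g02 v0 b ≠ 0` or `g12 v1 b ≠ 0` (`hg`); the error vanishes for large `a`, so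
`|v2 a| ≤ |v2 (a + i b)| → 0`.  Negative `n` by `hodd`.
-/

namespace Pool.Agent.W_MP_4b1b5d_an

open Filter Topology

theorem Tail3_ev (r : ℕ → ℝ) (hr : ∀ a b, 1 ≤ a → 1 ≤ b → r a = r b → a = b) (S : Finset ℝ) :
    ∀ᶠ a in atTop, r a ∉ S := by
  have h1 : ∀ᶠ a in atTop, ∀ s ∈ S, r a ≠ s := by
    rw [Filter.eventually_all_finset]
    intro s _
    by_cases h : ∃ a0, 1 ≤ a0 ∧ r a0 = s
    · obtain ⟨a0, h0, h1⟩ := h
      filter_upwards [eventually_gt_atTop a0] with a ha h2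
      have := hr a a0 (by omega) h0 (h2.trans h1.symm)
      omega
    · push Not at h
      filter_upwards [eventually_ge_atTop 1] with a ha
      exact h a ha
  filter_upwards [h1] with a ha h2
  exact ha _ h2 rfl

theorem Tail3_tri {x y z : ℂ} (h : x + y + z = 0) :
    ‖x‖ ≤ ‖y‖ + ‖z‖ ∧ ‖y‖ ≤ ‖x‖ + ‖z‖ ∧ ‖z‖ ≤ ‖x‖ + ‖y‖ := by
  have h1 : x = -(y + z) := by linear_combination h
  have h2 : y = -(x + z) := by linear_combination h
  have h3 : z = -(x + y) := by linear_combination h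
  refine ⟨?_, ?_, ?_⟩
  · calc ‖x‖ = ‖y + z‖ := by rw [h1, norm_neg]
      _ ≤ _ := norm_add_le _ _
  · calc ‖y‖ = ‖x + z‖ := by rw [h2, norm_neg]
      _ ≤ _ := norm_add_le _ _
  · calc ‖z‖ = ‖x + y‖ := by rw [h3, norm_neg]
      _ ≤ _ := norm_add_le _ _

theorem Tail3_norm (g : ℝ) (p q : ℂ) : ‖(g : ℂ) * p * q‖ = |g| * ‖p‖ * ‖q‖ := by
  rw [norm_mul, norm_mul, Complex.norm_real, Real.norm_eq_abs]

/-- the six ratios -/
theorem Tail3_ratios (S : Finset ℝ) (b : ℕ) (hb : 0 < b) : ∀ᶠ a : ℕ in atTop,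
    ((-(b : ℤ) : ℤ) : ℝ) / ((a : ℤ) : ℝ) ∉ S ∧
    ((b : ℤ) : ℝ) / (((a : ℤ) + b : ℤ) : ℝ) ∉ S ∧
    ((a : ℤ) : ℝ) / ((-(b : ℤ) : ℤ) : ℝ) ∉ S ∧
    (((a : ℤ) + b : ℤ) : ℝ) / ((b : ℤ) : ℝ) ∉ S ∧
    ((-(a : ℤ) : ℤ) : ℝ) / ((-((a : ℤ) + b) : ℤ) : ℝ) ∉ S ∧
    ((-((a : ℤ) + b) : ℤ) : ℝ) / ((-(a : ℤ) : ℤ) : ℝ) ∉ S := by
  have hb' : (0 : ℝ) < b := by exact_mod_cast hb
  have hpos : ∀ a : ℕ, 1 ≤ a → (0 : ℝ) < a := fun a ha => by exact_mod_cast (by omega : 0 < a)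
  push_cast
  refine (Tail3_ev _ ?_ S).and ((Tail3_ev _ ?_ S).and ((Tail3_ev _ ?_ S).and
    ((Tail3_ev _ ?_ S).and ((Tail3_ev _ ?_ S).and (Tail3_ev _ ?_ S))))) <;>
  · intro a a' ha ha' h
    have h1 := hpos a ha
    have h2 := hpos a' ha'
    have h3 : (a : ℝ) = a' := by
      have e1 : (a : ℝ) ≠ 0 := h1.ne'
      have e2 : (a' : ℝ) ≠ 0 := h2.ne'
      have e3 : (b : ℝ) ≠ 0 := hb'.ne'
      have e4 : (a : ℝ) + b ≠ 0 := by positivity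
      have e5 : (a' : ℝ) + b ≠ 0 := by positivity
      have e6 : -(b : ℝ) ≠ 0 := neg_ne_zero.2 e3
      have e7 : -(a : ℝ) ≠ 0 := neg_ne_zero.2 e1
      have e8 : -(a' : ℝ) ≠ 0 := neg_ne_zero.2 e2
      have e9 : -((a : ℝ) + b) ≠ 0 := neg_ne_zero.2 e4
      have e10 : -((a' : ℝ) + b) ≠ 0 := neg_ne_zero.2 e5
      rw [div_eq_div_iff (by assumption) (by assumption)] at h
      have h4 : (b : ℝ) * (a - a') = 0 := by
        first
          | linear_combination h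
          | linear_combination -h
      rcases mul_eq_zero.1 h4 with h5 | h5
      · exact absurd h5 e3
      · linarith
    exact_mod_cast h3

theorem tail3 (v : Fin 3 → ℤ → ℂ) (g01 g02 g12 : ℝ)
    (hodd : ∀ i n, v i (-n) = - (starRingEnd ℂ) (v i n))
    (C : ℝ) (hdec : ∀ i (n : ℤ), n ≠ 0 → ‖v i n‖ ≤ C / (n : ℝ) ^ 2)
    (S : Finset ℝ)
    (hrel : ∀ x y : ℤ, x ≠ 0 → (y : ℝ) / x ∉ S →
      g01 * v 0 x * v 1 y + g02 * v 0 (x - y) * v 2 (-y) + g12 * v 1 (y - x) * v 2 (-x) = 0)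
    (hg01 : g01 ≠ 0) (hg : g02 ≠ 0 ∨ g12 ≠ 0)
    (hv0 : ∃ n, n ≠ 0 ∧ v 0 n ≠ 0) (hv1 : ∃ n, n ≠ 0 ∧ v 1 n ≠ 0) :
    ∃ N1 : ℤ, ∀ i n, N1 ≤ |n| → v i n = 0 := by
  have heven : ∀ i n, ‖v i (-n)‖ = ‖v i n‖ := by
    intro i n
    rw [hodd, norm_neg, RCLike.norm_conj]
  -- the three inequalities
  have hR : ∀ x y : ℤ, x ≠ 0 → (y : ℝ) / x ∉ S →
      (|g01| * ‖v 0 x‖ * ‖v 1 y‖ ≤ |g02| * ‖v 0 (x - y)‖ * ‖v 2 y‖ + |g12| * ‖v 1 (y - x)‖ * ‖v 2 x‖) ∧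
      (|g02| * ‖v 0 (x - y)‖ * ‖v 2 y‖ ≤ |g01| * ‖v 0 x‖ * ‖v 1 y‖ + |g12| * ‖v 1 (y - x)‖ * ‖v 2 x‖) ∧
      (|g12| * ‖v 1 (y - x)‖ * ‖v 2 x‖ ≤ |g01| * ‖v 0 x‖ * ‖v 1 y‖ + |g02| * ‖v 0 (x - y)‖ * ‖v 2 y‖) := by
    intro x y hx hS
    have h := Tail3_tri (hrel x y hx hS)
    simp only [Tail3_norm, heven] at h
    exact h
  -- estimates
  have hE : ∀ b : ℕ, 0 < b → ∀ᶠ a : ℕ in atTop,
      ((|g01| * ‖v 1 b‖ + |g02| * ‖v 2 b‖) * ‖v 0 a‖ ≤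
        (|g01| * ‖v 1 b‖ + |g02| * ‖v 2 b‖) * ‖v 0 ((a + b : ℕ) : ℤ)‖ +
        |g12| * (‖v 1 ((a + b : ℕ) : ℤ)‖ * ‖v 2 a‖ + ‖v 1 a‖ * ‖v 2 ((a + b : ℕ) : ℤ)‖)) ∧
      ((|g01| * ‖v 0 b‖ + |g12| * ‖v 2 b‖) * ‖v 1 a‖ ≤
        (|g01| * ‖v 0 b‖ + |g12| * ‖v 2 b‖) * ‖v 1 ((a + b : ℕ) : ℤ)‖ +
        |g02| * (‖v 0 ((a + b : ℕ) : ℤ)‖ * ‖v 2 a‖ + ‖v 0 a‖ * ‖v 2 ((a + b : ℕ) : ℤ)‖)) ∧
      ((|g02| * ‖v 0 b‖ + |g12| * ‖v 1 b‖) * ‖v 2 a‖ ≤
        (|g02| * ‖v 0 b‖ + |g12| * ‖v 1 b‖) * ‖v 2 ((a + b : ℕ) : ℤ)‖ +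
        |g01| * (‖v 0 ((a + b : ℕ) : ℤ)‖ * ‖v 1 a‖ + ‖v 0 a‖ * ‖v 1 ((a + b : ℕ) : ℤ)‖)) := by
    intro b hb
    filter_upwards [Tail3_ratios S b hb, eventually_ge_atTop 1] with a ⟨s1, s2, s3, s4, s5, s6⟩ ha
    have ec : ((a + b : ℕ) : ℤ) = (a : ℤ) + b := by push_cast; ring
    rw [ec]
    refine ⟨?_, ?_, ?_⟩
    · have k1 := (hR a (-b) (by omega) s1).1
      have k2 := (hR (a + b) b (by omega) s2).2.1
      rw [show (a : ℤ) - -(b : ℤ) = a + b by ring, show -(b : ℤ) - a = -(a + b) by ring] at k1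
      rw [show (a : ℤ) + b - b = a by ring, show (b : ℤ) - (a + b) = -a by ring] at k2
      simp only [heven] at k1 k2
      linarith
    · have k1 := (hR (-b) a (by omega) s3).1
      have k2 := (hR b (a + b) (by omega) s4).2.2
      rw [show -(b : ℤ) - (a : ℤ) = -(a + b) by ring, show (a : ℤ) - -(b : ℤ) = a + b by ring] at k1
      rw [show (b : ℤ) - (a + b) = -a by ring, show (a : ℤ) + b - b = a by ring] at k2
      simp only [heven] at k1 k2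
      linarith
    · have k1 := (hR (-(a + b)) (-a) (by omega) s5).2.1
      have k2 := (hR (-a) (-(a + b)) (by omega) s6).2.2
      rw [show -((a : ℤ) + b) - -(a : ℤ) = -b by ring, show -(a : ℤ) - -((a : ℤ) + b) = b by ring] at k1
      rw [show -(a : ℤ) - -((a : ℤ) + b) = b by ring, show -((a : ℤ) + b) - -(a : ℤ) = -b by ring] at k2
      simp only [heven] at k1 k2
      linarith
  -- decay
  have hC : 0 ≤ C := by
    have h := hdec 0 1 one_ne_zero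
    have h2 := norm_nonneg (v 0 1)
    simp only [Int.cast_one, one_pow, div_one] at h
    linarith
  have hdecN : ∀ i (n m : ℕ), 1 ≤ n → n ≤ m → ‖v i m‖ ≤ C / (n : ℝ) ^ 2 := by
    intro i n m hn hnm
    have h := hdec i m (by omega)
    refine h.trans ?_
    have h1 : (0 : ℝ) < n := by exact_mod_cast (by omega : 0 < n)
    have h2 : (n : ℝ) ≤ m := by exact_mod_cast hnm
    simp only [Int.cast_natCast]
    gcongr
  have hlim : ∀ i, Tendsto (fun n : ℕ => ‖v i n‖) atTop (𝓝 0) := by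
    intro i
    have h1 : Tendsto (fun n : ℕ => C / (n : ℝ) ^ 2) atTop (𝓝 0) := by
      refine Tendsto.const_div_atTop ?_ C
      exact (tendsto_pow_atTop (by norm_num)).comp tendsto_natCast_atTop_atTop
    refine squeeze_zero' (Eventually.of_forall fun n => norm_nonneg _) ?_ h1
    filter_upwards [eventually_ge_atTop 1] with n hn
    exact hdecN i n n hn le_rfl
  -- the choice of `b`
  have hpos : ∀ i, (∃ n, n ≠ 0 ∧ v i n ≠ 0) → ∃ b : ℕ, 0 < b ∧ 0 < ‖v i b‖ := by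
    rintro i ⟨n, hn, hv⟩
    refine ⟨n.natAbs, Int.natAbs_pos.2 hn, ?_⟩
    rcases Int.natAbs_eq n with h | h
    · rw [← h]
      exact norm_pos_iff.2 hv
    · have h1 : ((n.natAbs : ℕ) : ℤ) = -n := by omega
      rw [h1, heven]
      exact norm_pos_iff.2 hv
  obtain ⟨b0, hb0, hv0'⟩ := hpos 0 hv0
  obtain ⟨b1, hb1, hv1'⟩ := hpos 1 hv1
  have hA0 : 0 < |g01| := abs_pos.2 hg01
  -- first two functions
  have hA : 0 < |g01| * ‖v 1 b1‖ + |g02| * ‖v 2 b1‖ := by positivity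
  have hB : 0 < |g01| * ‖v 0 b0‖ + |g12| * ‖v 2 b0‖ := by positivity
  obtain ⟨NA, hNA⟩ := eventually_atTop.1 ((hE b1 hb1).and (eventually_ge_atTop 1))
  obtain ⟨NB, hNB⟩ := eventually_atTop.1 ((hE b0 hb0).and (eventually_ge_atTop 1))
  have hdiv : ∀ A x y g M n : ℝ, 0 < A → A * x ≤ A * y + |g| * (M * (C / n ^ 2) + M * (C / n ^ 2)) →
      x ≤ y + 2 * |g| * C / A / n ^ 2 * M := by
    intro A x y g M n hA h
    have h1 : A * x ≤ A * (y + 2 * |g| * C / A / n ^ 2 * M) := by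
      refine h.trans (le_of_eq ?_)
      have hA' : A ≠ 0 := hA.ne'
      rw [mul_add]
      field_simp
      ring
    exact le_of_mul_le_mul_left h1 hA
  set CA : ℝ := 2 * |g12| * C / (|g01| * ‖v 1 b1‖ + |g02| * ‖v 2 b1‖) with hCA
  set CB : ℝ := 2 * |g02| * C / (|g01| * ‖v 0 b0‖ + |g12| * ‖v 2 b0‖) with hCB
  have hCA0 : 0 ≤ CA := by positivity
  have hCB0 : 0 ≤ CB := by positivity
  obtain ⟨N01, hN01⟩ := tail_pair (fun n => ‖v 0 n‖) (fun n => ‖v 1 n‖) (fun n => norm_nonneg _)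
    (fun n => norm_nonneg _) (hlim 0) (hlim 1) b1 b0 (max NA NB) hb1 hb0 (CA + CB) (by
      intro n hn M hM
      obtain ⟨⟨h1, -, -⟩, h2⟩ := hNA n ((le_max_left _ _).trans hn)
      have hM0 : 0 ≤ M := (norm_nonneg _).trans (hM n le_rfl)
      have h3 := hdecN 2 n n h2 le_rfl
      have h4 := hdecN 2 n (n + b1) h2 (by omega)
      have h5 : ‖v 1 ((n + b1 : ℕ) : ℤ)‖ * ‖v 2 n‖ + ‖v 1 n‖ * ‖v 2 ((n + b1 : ℕ) : ℤ)‖ ≤
          M * (C / (n : ℝ) ^ 2) + M * (C / (n : ℝ) ^ 2) :=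
        add_le_add (mul_le_mul (hM (n + b1) (by omega)) h3 (norm_nonneg _) hM0)
          (mul_le_mul (hM n le_rfl) h4 (norm_nonneg _) hM0)
      have h6 := hdiv _ (‖v 0 n‖) (‖v 0 ((n + b1 : ℕ) : ℤ)‖) g12 M n hA
        (h1.trans (add_le_add le_rfl (mul_le_mul_of_nonneg_left h5 (abs_nonneg _))))
      refine h6.trans (add_le_add le_rfl ?_)
      refine mul_le_mul_of_nonneg_right ?_ hM0
      exact div_le_div_of_nonneg_right (by linarith) (by positivity)) (by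
      intro n hn M hM
      obtain ⟨⟨-, h1, -⟩, h2⟩ := hNB n ((le_max_right _ _).trans hn)
      have hM0 : 0 ≤ M := (norm_nonneg _).trans (hM n le_rfl)
      have h3 := hdecN 2 n n h2 le_rfl
      have h4 := hdecN 2 n (n + b0) h2 (by omega)
      have h5 : ‖v 0 ((n + b0 : ℕ) : ℤ)‖ * ‖v 2 n‖ + ‖v 0 n‖ * ‖v 2 ((n + b0 : ℕ) : ℤ)‖ ≤
          M * (C / (n : ℝ) ^ 2) + M * (C / (n : ℝ) ^ 2) :=
        add_le_add (mul_le_mul (hM (n + b0) (by omega)) h3 (norm_nonneg _) hM0)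
          (mul_le_mul (hM n le_rfl) h4 (norm_nonneg _) hM0)
      have h6 := hdiv _ (‖v 1 n‖) (‖v 1 ((n + b0 : ℕ) : ℤ)‖) g02 M n hB
        (h1.trans (add_le_add le_rfl (mul_le_mul_of_nonneg_left h5 (abs_nonneg _))))
      refine h6.trans (add_le_add le_rfl ?_)
      refine mul_le_mul_of_nonneg_right ?_ hM0
      exact div_le_div_of_nonneg_right (by linarith) (by positivity))
  -- third function
  obtain ⟨b, hb, hD⟩ : ∃ b : ℕ, 0 < b ∧ 0 < |g02| * ‖v 0 b‖ + |g12| * ‖v 1 b‖ := by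
    rcases hg with h | h
    · exact ⟨b0, hb0, by have := abs_pos.2 h; positivity⟩
    · exact ⟨b1, hb1, by have := abs_pos.2 h; positivity⟩
  obtain ⟨ND, hND⟩ := eventually_atTop.1 (hE b hb)
  have hstep : ∀ n : ℕ, max ND N01 ≤ n → ‖v 2 n‖ ≤ ‖v 2 ((n + b : ℕ) : ℤ)‖ := by
    intro n hn
    obtain ⟨-, -, h1⟩ := hND n ((le_max_left _ _).trans hn)
    have h2 := hN01 n ((le_max_right _ _).trans hn)
    have h3 := hN01 (n + b) (((le_max_right _ _).trans hn).trans (by omega))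
    rw [h2.1, h2.2, mul_zero, zero_mul, add_zero, mul_zero, add_zero] at h1
    exact le_of_mul_le_mul_left h1 hD
  have hzero2 : ∀ n : ℕ, max ND N01 ≤ n → v 2 n = 0 := by
    intro n hn
    have h1 : ∀ i : ℕ, ‖v 2 n‖ ≤ ‖v 2 ((n + i * b : ℕ) : ℤ)‖ := by
      intro i
      induction i with
      | zero => simp
      | succ i ih =>
        refine ih.trans ?_
        have h2 := hstep (n + i * b) (hn.trans (by omega))
        have h3 : n + i * b + b = n + (i + 1) * b := by ring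
        rwa [h3] at h2
    have h2 : Tendsto (fun i : ℕ => ‖v 2 ((n + i * b : ℕ) : ℤ)‖) atTop (𝓝 0) := by
      refine (hlim 2).comp ?_
      refine tendsto_atTop_mono (fun i => ?_) tendsto_id
      have : i * 1 ≤ i * b := Nat.mul_le_mul_left i hb
      simp only [id]
      omega
    have h3 : ‖v 2 n‖ ≤ 0 := ge_of_tendsto' h2 h1
    exact norm_le_zero_iff.1 h3
  refine ⟨((max ND N01 : ℕ) : ℤ), ?_⟩
  have hall : ∀ i (n : ℕ), max ND N01 ≤ n → v i n = 0 := by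
    intro i n hn
    have h2 := hN01 n ((le_max_right _ _).trans hn)
    fin_cases i
    · exact norm_eq_zero.1 h2.1
    · exact norm_eq_zero.1 h2.2
    · exact hzero2 n hn
  intro i n hn
  have h1 : max ND N01 ≤ n.natAbs := by
    rw [Int.abs_eq_natAbs] at hn
    exact_mod_cast hn
  rcases Int.natAbs_eq n with h | h
  · rw [h]
    exact hall i _ h1
  · rw [h, hodd, hall i _ h1, map_zero, neg_zero]

end Pool.Agent.W_MP_4b1b5d_an
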