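import Pool.Agent.W_MP_4b1b5d_an.PairSum
import Pool.Agent.W_MP_4b1b5d_an.Tail3
import Pool.Agent.W_MP_4b1b5d_an.CritFin
import Pool.Agent.W_MP_4b1b5d_an.FourierDecay

set_option autoImplicit false

/-!
# H2b: spectrum on three lines, two of them active and not orthogonal, is finite

Put `c0 = det2 b c`, `c1 = det2 c a`, `c2 = det2 a b` (integers) and `e0 = a / (c1 c2)`,
`e1 = b / (c2 c0)`, `e2 = c / (c0 c1)`; then `e0 + e1 + e2 = 0` and every integer vector parallel
to `e_i` is an integer multiple of `e_i`.  Let `v i n = fcR U (n e_i) / n` (`v i 0 = 0`).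
`hodd` from `fc_neg`, `hdec` from `fc_decay`.
For `q = x e_0 + y e_1` (`x, y ∈ ℤ`): `q = (x - y) e_0 - y e_2 = (y - x) e_1 - x e_2`, and
`pair_sum` (ordered pairs, so every unordered pair occurs twice) becomes, up to a nonzero factor,
`g01 v0(x) v1(y) + g02 v0(x-y) v2(-y) + g12 v1(y-x) v2(-x) = 0`, `g_ij = ip e_i e_j`,
for all `x ≠ 0`, `y/x ∉ S`, `S` = the set of `crit_finite` for `(e_0, e_1)` together with `0, 1`.
`tail3` gives `fc U k = 0` for all large `k`, so the active set is finite.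
(`g01 ≠ 0` by `hip`; `g02 ≠ 0 ∨ g12 ≠ 0` since `e2` cannot be orthogonal to both `e0` and `e1`.)
-/

namespace Pool.Agent.W_MP_4b1b5d_an

namespace FinThreeAux

theorem toR_inj : Function.Injective toR := by
  intro k l h
  funext i
  have := congrFun h i
  simpa [toR] using this

theorem toR_neg (k : Z2) : toR (-k) = -toR k := by
  funext i; simp [toR]

theorem fcR_neg (f : SP) (q : V2) :
    fcR (f : V2 → ℝ) (-q) = (starRingEnd ℂ) (fcR (f : V2 → ℝ) q) := by
  by_cases h : ∃ k : Z2, toR k = q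
  · obtain ⟨k, rfl⟩ := h
    rw [← toR_neg, fcR_toR, fcR_toR, fc_neg]
  · push Not at h
    rw [fcR_of_not _ q h, fcR_of_not, map_zero]
    intro k hk
    apply h (-k)
    rw [toR_neg, hk, neg_neg]

theorem fcR_decay (f : SP) (e : V2) (he : e ≠ 0) :
    ∃ C : ℝ, 0 ≤ C ∧ ∀ n : ℤ, n ≠ 0 →
      ‖fcR (f : V2 → ℝ) ((n : ℝ) • e)‖ ≤ C / (n : ℝ) ^ 2 := by
  obtain ⟨C0, hC⟩ := fc_decay f
  have hC0 : 0 ≤ C0 := le_trans (by positivity) (hC 0)
  have hs : 0 < e 0 ^ 2 + e 1 ^ 2 := by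
    by_contra hcon
    apply he
    have h0 : e 0 = 0 := by nlinarith [sq_nonneg (e 0), sq_nonneg (e 1)]
    have h1 : e 1 = 0 := by nlinarith [sq_nonneg (e 0), sq_nonneg (e 1)]
    funext i
    fin_cases i
    · exact h0
    · exact h1
  refine ⟨C0 / (e 0 ^ 2 + e 1 ^ 2), by positivity, ?_⟩
  intro n hn
  have hn' : (0 : ℝ) < (n : ℝ) ^ 2 := by
    have : (n : ℝ) ≠ 0 := by exact_mod_cast hn
    positivity
  by_cases h : ∃ k : Z2, toR k = (n : ℝ) • e
  · obtain ⟨k, hk⟩ := h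
    rw [← hk, fcR_toR, div_div, le_div_iff₀ (by positivity)]
    refine le_trans ?_ (hC k)
    have h0 : (k 0 : ℝ) = n * e 0 := by simpa [toR] using congrFun hk 0
    have h1 : (k 1 : ℝ) = n * e 1 := by simpa [toR] using congrFun hk 1
    apply mul_le_mul_of_nonneg_left _ (norm_nonneg _)
    rw [h0, h1]
    have hx : 0 ≤ (e 0 ^ 2 + e 1 ^ 2) * (n : ℝ) ^ 2 := by positivity
    nlinarith [hx, sq_nonneg ((e 0 ^ 2 + e 1 ^ 2) * (n : ℝ) ^ 2)]
  · push Not at h
    rw [fcR_of_not _ _ h, norm_zero]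
    positivity

theorem rel (G : M2) (hG : G.PosDef) (U : SP) (P : RP)
    (hn2 : ∀ k : Z2, crit G P (toR k) ≠ 0 →
      HasSum (fun k' : Z2 => fc (U : V2 → ℝ) k' * fc (U : V2 → ℝ) (k - k')
        * ((ip G (toR k') (toR (k - k')) / det2 (toR k') (toR k) ^ 2 : ℝ) : ℂ)) 0)
    (e0 e1 e2 : V2) (hsum : e2 = -(e0 + e1)) (hd : det2 e0 e1 ≠ 0)
    (hlines : ∀ k : Z2, fc (U : V2 → ℝ) k ≠ 0 →
      det2 (toR k) e0 = 0 ∨ det2 (toR k) e1 = 0 ∨ det2 (toR k) e2 = 0)
    (x y : ℝ) (hx : x ≠ 0) (hy : y ≠ 0) (hxy : x ≠ y)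
    (hcrit : crit G P (x • e0 + y • e1) ≠ 0) :
    (ip G e0 e1 : ℂ) * (fcR (U : V2 → ℝ) (x • e0) / x) * (fcR (U : V2 → ℝ) (y • e1) / y)
    + (ip G e0 e2 : ℂ) * (fcR (U : V2 → ℝ) ((x - y) • e0) / ((x - y : ℝ) : ℂ))
        * (fcR (U : V2 → ℝ) ((-y) • e2) / ((-y : ℝ) : ℂ))
    + (ip G e1 e2 : ℂ) * (fcR (U : V2 → ℝ) ((y - x) • e1) / ((y - x : ℝ) : ℂ))
        * (fcR (U : V2 → ℝ) ((-x) • e2) / ((-x : ℝ) : ℂ)) = 0 := by
  set δ := det2 e0 e1 with hδ
  have h01 : det2 e0 e1 = δ := rfl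
  have h10 : det2 e1 e0 = -δ := by rw [hδ]; unfold det2; ring
  have h02 : det2 e0 e2 = -δ := by rw [hδ, hsum]; unfold det2; simp; ring
  have h20 : det2 e2 e0 = δ := by rw [hδ, hsum]; unfold det2; simp; ring
  have h12 : det2 e1 e2 = δ := by rw [hδ, hsum]; unfold det2; simp; ring
  have h21 : det2 e2 e1 = -δ := by rw [hδ, hsum]; unfold det2; simp; ring
  have hq0 : det2 (x • e0 + y • e1) e0 = -(y * δ) := by
    rw [hδ]; unfold det2; simp; ring
  have hq1 : det2 (x • e0 + y • e1) e1 = x * δ := by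
    rw [hδ]; unfold det2; simp; ring
  have hq2 : det2 (x • e0 + y • e1) e2 = (y - x) * δ := by
    rw [hδ, hsum]; unfold det2; simp; ring
  have hq0' : det2 e0 (x • e0 + y • e1) = y * δ := by
    rw [hδ]; unfold det2; simp; ring
  have hq1' : det2 e1 (x • e0 + y • e1) = -(x * δ) := by
    rw [hδ]; unfold det2; simp; ring
  have hq2' : det2 e2 (x • e0 + y • e1) = (x - y) * δ := by
    rw [hδ, hsum]; unfold det2; simp; ring
  have hyx : y - x ≠ 0 := sub_ne_zero.mpr (Ne.symm hxy)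
  have hxy' : x - y ≠ 0 := sub_ne_zero.mpr hxy
  have key := pair_sum G hG U P hn2 3 ![e0, e1, e2] (by
      intro i j hij
      fin_cases i <;> fin_cases j <;> simp [h01, h10, h02, h20, h12, h21, hd] at hij ⊢)
    (by
      intro k hk
      rcases hlines k hk with h | h | h
      · exact ⟨0, h⟩
      · exact ⟨1, h⟩
      · exact ⟨2, h⟩)
    (x • e0 + y • e1) (by
      intro i
      fin_cases i <;> simp [hq0, hq1, hq2, hd, hx, hy, hyx]) hcrit
  have i10 := ip_comm G hG e1 e0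
  have i20 := ip_comm G hG e2 e0
  have i21 := ip_comm G hG e2 e1
  have a1 : x * δ / δ = x := by field_simp
  have a2 : y * δ / δ = y := by field_simp
  have a3 : -(y * δ) / -δ = y := by field_simp
  have a4 : -(x * δ) / -δ = x := by field_simp
  have a5 : (y - x) * δ / -δ = x - y := by field_simp; ring
  have a6 : y * δ / -δ = -y := by field_simp
  have a7 : -(y * δ) / δ = -y := by field_simp
  have a8 : (x - y) * δ / δ = x - y := by field_simp
  have a9 : (y - x) * δ / δ = y - x := by field_simp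
  have a10 : -(x * δ) / δ = -x := by field_simp
  have a11 : x * δ / -δ = -x := by field_simp
  have a12 : (x - y) * δ / -δ = y - x := by field_simp; ring
  simp only [Fin.sum_univ_three, Matrix.cons_val_zero, Matrix.cons_val_one, Matrix.cons_val,
    if_true, show ((0 : Fin 3) = 1) = False by decide, show ((0 : Fin 3) = 2) = False by decide,
    show ((1 : Fin 3) = 0) = False by decide, show ((1 : Fin 3) = 2) = False by decide,
    show ((2 : Fin 3) = 0) = False by decide, show ((2 : Fin 3) = 1) = False by decide,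
    if_false, h01, h10, h02, h20, h12, h21, hq0, hq1, hq2, hq0', hq1', hq2', i10, i20, i21,
    a1, a2, a3, a4, a5, a6, a7, a8, a9, a10, a11, a12] at key
  have hdC : (δ : ℂ) ≠ 0 := by exact_mod_cast hd
  have hxC : (x : ℂ) ≠ 0 := by exact_mod_cast hx
  have hyC : (y : ℂ) ≠ 0 := by exact_mod_cast hy
  have hxyC : (x : ℂ) - (y : ℂ) ≠ 0 := by exact_mod_cast hxy'
  have hyxC : (y : ℂ) - (x : ℂ) ≠ 0 := by exact_mod_cast hyx
  push_cast at key ⊢
  have key2 := congrArg (fun z => z * (δ : ℂ) ^ 2 / 2) key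
  simp only [zero_mul, zero_div] at key2
  rw [← key2]
  field_simp
  ring

/-- the integer determinant -/
def zdet (k l : Z2) : ℤ := k 0 * l 1 - k 1 * l 0

theorem zdet_cast (k l : Z2) : det2 (toR k) (toR l) = (zdet k l : ℝ) := by
  simp [det2, toR, zdet]

/-- a vector parallel to `l` is `(det2 k l' / det2 l l') l` -/
theorem parallel (k l l' : V2) (h : det2 k l = 0) (hl : det2 l l' ≠ 0) :
    k = (det2 k l' / det2 l l') • l := by
  have e1 : k = (1 / det2 l l') • (det2 l l' • k) := by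
    rw [smul_smul, one_div, inv_mul_cancel₀ hl, one_smul]
  have e2 : det2 l l' • k = det2 k l' • l := by
    funext i
    unfold det2 at h ⊢
    fin_cases i
    · simp only [Fin.zero_eta, Pi.smul_apply, smul_eq_mul]
      linear_combination (-l' 0) * h
    · simp only [Fin.mk_one, Pi.smul_apply, smul_eq_mul]
      linear_combination (-l' 1) * h
  rw [e2, smul_smul] at e1
  rw [e1]
  congr 1
  have := congrArg (fun z : V2 => z) e1
  rw [← e1]
  ring

end FinThreeAux

open FinThreeAux in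
theorem fin_three (G : M2) (hG : G.PosDef) (U : SP) (P : RP) (m : ℕ) (hP : P.IsHomogeneous m)
    (hnr : ¬ Rad G P)
    (hn2 : ∀ k : Z2, crit G P (toR k) ≠ 0 →
      HasSum (fun k' : Z2 => fc (U : V2 → ℝ) k' * fc (U : V2 → ℝ) (k - k')
        * ((ip G (toR k') (toR (k - k')) / det2 (toR k') (toR k) ^ 2 : ℝ) : ℂ)) 0)
    (a b c : Z2) (hab : det2 (toR a) (toR b) ≠ 0) (hac : det2 (toR a) (toR c) ≠ 0)
    (hbc : det2 (toR b) (toR c) ≠ 0)
    (hlines : ∀ k : Z2, fc (U : V2 → ℝ) k ≠ 0 →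
      det2 (toR k) (toR a) = 0 ∨ det2 (toR k) (toR b) = 0 ∨ det2 (toR k) (toR c) = 0)
    (ha : fc (U : V2 → ℝ) a ≠ 0) (hb : fc (U : V2 → ℝ) b ≠ 0)
    (hip : ip G (toR a) (toR b) ≠ 0) :
    {k : Z2 | fc (U : V2 → ℝ) k ≠ 0}.Finite := by
  set c0 : ℝ := det2 (toR b) (toR c) with hc0
  set c1 : ℝ := det2 (toR c) (toR a) with hc1
  set c2 : ℝ := det2 (toR a) (toR b) with hc2
  have hc1' : c1 ≠ 0 := by
    intro h; apply hac; rw [hc1] at h; unfold det2 at h ⊢; linarith
  have n0 : c0 ≠ 0 := hbc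
  have n2 : c2 ≠ 0 := hab
  set e0 : V2 := (1 / (c1 * c2)) • toR a with he0
  set e1 : V2 := (1 / (c2 * c0)) • toR b with he1
  set e2 : V2 := (1 / (c0 * c1)) • toR c with he2
  -- the vectors in terms of `e_i`
  have ea : toR a = (c1 * c2) • e0 := by
    rw [he0, smul_smul, mul_one_div_cancel (mul_ne_zero hc1' n2), one_smul]
  have eb : toR b = (c2 * c0) • e1 := by
    rw [he1, smul_smul, mul_one_div_cancel (mul_ne_zero n2 n0), one_smul]
  have ec : toR c = (c0 * c1) • e2 := by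
    rw [he2, smul_smul, mul_one_div_cancel (mul_ne_zero n0 hc1'), one_smul]
  clear_value e0 e1 e2 c0 c1 c2
  have hsum : e2 = -(e0 + e1) := by
    have hz : c0 • toR a + c1 • toR b + c2 • toR c = 0 := by
      funext i
      rw [hc0, hc1, hc2]
      unfold det2
      fin_cases i
      · simp; ring
      · simp; ring
    clear he0 he1 he2
    rw [ea, eb, ec, smul_smul, smul_smul, smul_smul,
      show c0 * (c1 * c2) = c0 * c1 * c2 by ring, show c1 * (c2 * c0) = c0 * c1 * c2 by ring,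
      show c2 * (c0 * c1) = c0 * c1 * c2 by ring, ← smul_add, ← smul_add] at hz
    have hne : c0 * c1 * c2 ≠ 0 := mul_ne_zero (mul_ne_zero n0 hc1') n2
    have := (smul_eq_zero.mp hz).resolve_left hne
    rw [eq_neg_iff_add_eq_zero, add_comm]
    exact this
  have hd : det2 e0 e1 ≠ 0 := by
    have : det2 e0 e1 = (1 / (c1 * c2)) * (1 / (c2 * c0)) * c2 := by
      rw [he0, he1, hc2]; unfold det2; simp; ring
    rw [this]
    positivity
  have he0n : e0 ≠ 0 := by intro h; apply hd; rw [h]; simp [det2]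
  have he1n : e1 ≠ 0 := by intro h; apply hd; rw [h]; simp [det2]
  have he2n : e2 ≠ 0 := by
    intro h; apply hd
    have : e1 = -e0 := by rw [h] at hsum; have := neg_eq_zero.mp hsum.symm; exact (neg_eq_of_add_eq_zero_right this).symm
    rw [this]; unfold det2; simp; ring
  set e : Fin 3 → V2 := ![e0, e1, e2] with he
  set v : Fin 3 → ℤ → ℂ := fun i n => fcR (U : V2 → ℝ) ((n : ℝ) • e i) / (n : ℂ) with hv
  have hodd : ∀ i n, v i (-n) = -(starRingEnd ℂ) (v i n) := by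
    intro i n
    simp only [hv]
    rw [Int.cast_neg, neg_smul, fcR_neg, map_div₀, map_intCast, Int.cast_neg, div_neg]
  have hdec : ∃ C : ℝ, ∀ i (n : ℤ), n ≠ 0 → ‖v i n‖ ≤ C / (n : ℝ) ^ 2 := by
    obtain ⟨C0, hC0, h0⟩ := fcR_decay U e0 he0n
    obtain ⟨C1, hC1, h1⟩ := fcR_decay U e1 he1n
    obtain ⟨C2, hC2, h2⟩ := fcR_decay U e2 he2n
    refine ⟨C0 + C1 + C2, ?_⟩
    intro i n hn
    have hn1 : (1 : ℝ) ≤ |(n : ℝ)| := by
      have : (1 : ℤ) ≤ |n| := Int.one_le_abs hn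
      exact_mod_cast this
    have hnn : (0 : ℝ) < (n : ℝ) ^ 2 := by
      have : (n : ℝ) ≠ 0 := by exact_mod_cast hn
      positivity
    have hgen : ∀ (q : V2) (Cq : ℝ), 0 ≤ Cq → ‖fcR (U : V2 → ℝ) ((n : ℝ) • q)‖ ≤ Cq / (n : ℝ) ^ 2 →
        Cq ≤ C0 + C1 + C2 →
        ‖fcR (U : V2 → ℝ) ((n : ℝ) • q) / (n : ℂ)‖ ≤ (C0 + C1 + C2) / (n : ℝ) ^ 2 := by
      intro q Cq hCq hq hle
      rw [norm_div, Complex.norm_intCast]
      calc ‖fcR (U : V2 → ℝ) ((n : ℝ) • q)‖ / |(n : ℝ)|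
          ≤ ‖fcR (U : V2 → ℝ) ((n : ℝ) • q)‖ := div_le_self (norm_nonneg _) hn1
        _ ≤ Cq / (n : ℝ) ^ 2 := hq
        _ ≤ _ := by gcongr
    fin_cases i
    · exact hgen e0 C0 hC0 (h0 n hn) (by linarith)
    · exact hgen e1 C1 hC1 (h1 n hn) (by linarith)
    · exact hgen e2 C2 hC2 (h2 n hn) (by linarith)
  obtain ⟨C, hdec⟩ := hdec
  obtain ⟨S, hS⟩ := crit_finite G hG P m hP hnr e0 e1 hd
  have hlines' : ∀ k : Z2, fc (U : V2 → ℝ) k ≠ 0 →
      det2 (toR k) e0 = 0 ∨ det2 (toR k) e1 = 0 ∨ det2 (toR k) e2 = 0 := by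
    intro k hk
    have hsm : ∀ (t : ℝ) (q : V2), det2 (toR k) q = 0 → det2 (toR k) (t • q) = 0 := by
      intro t q h
      have : det2 (toR k) (t • q) = t * det2 (toR k) q := by unfold det2; simp; ring
      rw [this, h, mul_zero]
    rcases hlines k hk with h | h | h
    · left; rw [he0]; exact hsm _ _ h
    · right; left; rw [he1]; exact hsm _ _ h
    · right; right; rw [he2]; exact hsm _ _ h
  have hip0 : ip G e0 e1 ≠ 0 := by
    rw [he0, he1, ip_smul_left, ip_smul_right]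
    exact mul_ne_zero (one_div_ne_zero (mul_ne_zero hc1' n2))
      (mul_ne_zero (one_div_ne_zero (mul_ne_zero n2 n0)) hip)
  have hg : ip G e0 e2 ≠ 0 ∨ ip G e1 e2 ≠ 0 := by
    by_contra hcon
    push Not at hcon
    have hp := ip_pos G hG e2 he2n
    have : ip G e2 e2 = -(ip G e0 e2 + ip G e1 e2) := by
      conv_lhs => rw [hsum]
      have : ip G (-(e0 + e1)) (-(e0 + e1)) = ip G (-(e0 + e1)) e2 := by rw [← hsum]
      rw [this, ← ip_add_left]
      have := ip_smul_left G (-1) (e0 + e1) e2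
      rw [neg_one_smul] at this
      rw [this]; ring
    rw [this, hcon.1, hcon.2] at hp
    simp at hp
  -- integer versions of the coefficients
  set z0 : ℤ := zdet b c with hz0
  set z1 : ℤ := zdet c a with hz1
  set z2 : ℤ := zdet a b with hz2
  have cz0 : c0 = (z0 : ℝ) := by rw [hc0, zdet_cast]
  have cz1 : c1 = (z1 : ℝ) := by rw [hc1, zdet_cast]
  have cz2 : c2 = (z2 : ℝ) := by rw [hc2, zdet_cast]
  have hz0n : z0 ≠ 0 := by intro h; apply n0; rw [cz0, h]; simp
  have hz1n : z1 ≠ 0 := by intro h; apply hc1'; rw [cz1, h]; simp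
  have hz2n : z2 ≠ 0 := by intro h; apply n2; rw [cz2, h]; simp
  have hv0 : ∃ n, n ≠ 0 ∧ v 0 n ≠ 0 := by
    refine ⟨z1 * z2, mul_ne_zero hz1n hz2n, ?_⟩
    simp only [hv]
    apply div_ne_zero
    · have : (((z1 * z2 : ℤ) : ℝ)) • e 0 = toR a := by
        rw [ea, cz1, cz2]; push_cast; rfl
      rw [this, fcR_toR]
      exact ha
    · exact_mod_cast mul_ne_zero hz1n hz2n
  have hv1 : ∃ n, n ≠ 0 ∧ v 1 n ≠ 0 := by
    refine ⟨z2 * z0, mul_ne_zero hz2n hz0n, ?_⟩
    simp only [hv]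
    apply div_ne_zero
    · have : (((z2 * z0 : ℤ) : ℝ)) • e 1 = toR b := by
        rw [eb, cz2, cz0]; push_cast; rfl
      rw [this, fcR_toR]
      exact hb
    · exact_mod_cast mul_ne_zero hz2n hz0n
  classical
  have hrel : ∀ x y : ℤ, x ≠ 0 → (y : ℝ) / x ∉ (S ∪ {0, 1} : Finset ℝ) →
      (ip G e0 e1 : ℂ) * v 0 x * v 1 y + (ip G e0 e2 : ℂ) * v 0 (x - y) * v 2 (-y)
        + (ip G e1 e2 : ℂ) * v 1 (y - x) * v 2 (-x) = 0 := by
    intro x y hx hxy
    simp only [Finset.mem_union, Finset.mem_insert, Finset.mem_singleton, not_or] at hxy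
    obtain ⟨hSx, h0, h1⟩ := hxy
    have hxR : (x : ℝ) ≠ 0 := by exact_mod_cast hx
    have hyR : (y : ℝ) ≠ 0 := by
      intro h; apply h0; rw [h, zero_div]
    have hxyR : (x : ℝ) ≠ y := by
      intro h; apply h1; rw [← h, div_self hxR]
    have := rel G hG U P hn2 e0 e1 e2 hsum hd hlines' x y hxR hyR hxyR (hS x y hxR hSx)
    simp only [hv]
    convert this using 3 <;> (try push_cast) <;> rfl
  obtain ⟨N1, hN1⟩ := tail3 v (ip G e0 e1) (ip G e0 e2) (ip G e1 e2) hodd C hdec (S ∪ {0, 1}) hrel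
    hip0 hg hv0 hv1
  -- finiteness
  have hfin : (⋃ i : Fin 3, (fun n : ℤ => (n : ℝ) • e i) '' (Set.Icc (-(max N1 1)) (max N1 1))).Finite :=
    Set.finite_iUnion fun i => (Set.finite_Icc _ _).image _
  refine (hfin.preimage (toR_inj.injOn)).subset ?_
  intro k hk
  simp only [Set.mem_ofPred_eq] at hk
  have hmem : ∀ (i : Fin 3) (n : ℤ), toR k = (n : ℝ) • e i →
      toR k ∈ (⋃ i : Fin 3, (fun n : ℤ => (n : ℝ) • e i) '' (Set.Icc (-(max N1 1)) (max N1 1))) := by
    intro i n hn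
    refine Set.mem_iUnion.mpr ⟨i, n, ?_, hn.symm⟩
    by_contra hcon
    have hlt : max N1 1 < |n| := by
      rw [Set.mem_Icc, not_and_or, not_le, not_le] at hcon
      rcases hcon with h | h
      · calc max N1 1 < -n := by linarith
          _ ≤ |n| := neg_le_abs n
      · exact lt_of_lt_of_le h (le_abs_self n)
    have hn0 : n ≠ 0 := by
      rintro rfl
      have := le_max_right N1 1
      simp at hlt
    have hv' := hN1 i n (le_of_lt (lt_of_le_of_lt (le_max_left _ _) hlt))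
    simp only [hv] at hv'
    rw [← hn, fcR_toR, div_eq_zero_iff] at hv'
    rcases hv' with h | h
    · exact hk h
    · exact hn0 (by exact_mod_cast h)
  simp only [Set.mem_preimage]
  rcases hlines k hk with h | h | h
  · apply hmem 0 (z1 * zdet k b)
    have h1 : toR k = (det2 (toR k) (toR b) / c2) • toR a := by
      rw [hc2]; exact parallel _ _ _ h (by rw [← hc2]; exact n2)
    rw [h1, ea, smul_smul]
    change _ = _ • e0
    congr 1
    rw [zdet_cast, cz1]
    push_cast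
    field_simp
  · apply hmem 1 (-(z0 * zdet k a))
    have hba : det2 (toR b) (toR a) = -c2 := by rw [hc2]; unfold det2; ring
    have h1 : toR k = (det2 (toR k) (toR a) / (-c2)) • toR b := by
      rw [← hba]; exact parallel _ _ _ h (by rw [hba]; exact neg_ne_zero.mpr n2)
    rw [h1, eb, smul_smul]
    change _ = _ • e1
    congr 1
    rw [zdet_cast, cz0]
    push_cast
    field_simp
  · apply hmem 2 (z0 * zdet k a)
    have h1 : toR k = (det2 (toR k) (toR a) / c1) • toR c := by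
      rw [hc1]; exact parallel _ _ _ h (by rw [← hc1]; exact hc1')
    rw [h1, ec, smul_smul]
    change _ = _ • e2
    congr 1
    rw [zdet_cast, cz0]
    push_cast
    field_simp

end Pool.Agent.W_MP_4b1b5d_an
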