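import Pool.Agent.W_MP_4b1b5d_an.GeomG

set_option autoImplicit false

/-!
# H4: combinatorics of lines

`three_or_four`: if every element of `A` is parallel to `a` or `b`, take `c = a + b`; otherwise pick
`c ∈ A` not parallel to `a, b`; if some `d ∈ A` is not parallel to any of `a, b, c` we are in the second
case.
`star_lines`: otherwise `k` together with `a, b, c, d` are five pairwise non-parallel vectors, any
two of which are orthogonal or at 45 degrees.  Writing vectors as `X a + Y a'` with `a' ⊥ a`,
`|a'| = |a|`, the ones at 45 degrees with `a` have `X = ± Y`; so besides `a` there are at most three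
lines (`X = 0`, `X = Y`, `X = -Y`), contradiction.
-/

namespace Pool.Agent.W_MP_4b1b5d_an

theorem det2_swap (k l : V2) : det2 k l = - det2 l k := by
  unfold det2; ring

theorem det2_swap_ne {k l : V2} (h : det2 k l ≠ 0) : det2 l k ≠ 0 := by
  rw [det2_swap]; exact neg_ne_zero.mpr h

theorem three_or_four (A : Set Z2) (a b : Z2) (ha : a ∈ A) (hb : b ∈ A)
    (hab : det2 (toR a) (toR b) ≠ 0) :
    (∃ c : Z2, det2 (toR a) (toR c) ≠ 0 ∧ det2 (toR b) (toR c) ≠ 0 ∧
      ∀ k ∈ A, det2 (toR k) (toR a) = 0 ∨ det2 (toR k) (toR b) = 0 ∨ det2 (toR k) (toR c) = 0) ∨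
    (∃ k : Fin 4 → Z2, (∀ i, k i ∈ A) ∧ k 0 = a ∧ k 1 = b ∧
      ∀ i j, i ≠ j → det2 (toR (k i)) (toR (k j)) ≠ 0) := by
  by_cases h1 : ∀ k ∈ A, det2 (toR k) (toR a) = 0 ∨ det2 (toR k) (toR b) = 0
  · left
    refine ⟨a + b, ?_, ?_, fun k hk => ?_⟩
    · have h : det2 (toR a) (toR (a + b)) = det2 (toR a) (toR b) := by
        simp only [det2, toR, Pi.add_apply, Int.cast_add]; ring
      rw [h]; exact hab
    · have h : det2 (toR b) (toR (a + b)) = det2 (toR b) (toR a) := by
        simp only [det2, toR, Pi.add_apply, Int.cast_add]; ring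
      rw [h]; exact det2_swap_ne hab
    · rcases h1 k hk with h | h
      · exact Or.inl h
      · exact Or.inr (Or.inl h)
  · push Not at h1
    obtain ⟨c, hc, hca, hcb⟩ := h1
    by_cases h2 : ∀ k ∈ A, det2 (toR k) (toR a) = 0 ∨ det2 (toR k) (toR b) = 0 ∨
        det2 (toR k) (toR c) = 0
    · left
      exact ⟨c, det2_swap_ne hca, det2_swap_ne hcb, h2⟩
    · right
      push Not at h2
      obtain ⟨d, hd, hda, hdb, hdc⟩ := h2
      refine ⟨![a, b, c, d], ?_, rfl, rfl, ?_⟩
      · intro i; fin_cases i
        · exact ha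
        · exact hb
        · exact hc
        · exact hd
      · intro i j hij
        fin_cases i <;> fin_cases j
        · exact absurd rfl hij
        · exact hab
        · exact det2_swap_ne hca
        · exact det2_swap_ne hda
        · exact det2_swap_ne hab
        · exact absurd rfl hij
        · exact det2_swap_ne hcb
        · exact det2_swap_ne hdb
        · exact hca
        · exact hcb
        · exact absurd rfl hij
        · exact det2_swap_ne hdc
        · exact hda
        · exact hdb
        · exact hdc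
        · exact absurd rfl hij

/-- Cramer's identity applied to `ip G · a` -/
theorem cramer_ip (G : M2) (a x y : V2) :
    ip G x a * det2 a y - ip G y a * det2 a x = det2 x y * ip G a a := by
  simp only [ip, det2, Fin.sum_univ_two]; ring

theorem ratio_cases (G : M2) (hG : G.PosDef) (a x : V2)
    (h : ip G a x = 0 ∨ 2 * ip G a x ^ 2 = ip G a a * ip G x x) :
    ip G x a = 0 ∨ ip G x a = √G.det * det2 a x ∨ ip G x a = - (√G.det * det2 a x) := by
  rw [ip_comm G hG x a]
  rcases h with h | h
  · exact Or.inl h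
  · right
    have h2 := ip_lagrange G hG a x
    have hd : √G.det ^ 2 = G.det := Real.sq_sqrt (det_pos G hG).le
    have h3 : ip G a x ^ 2 = (√G.det * det2 a x) ^ 2 := by
      rw [mul_pow, hd]; linarith
    exact sq_eq_sq_iff_eq_or_eq_neg.mp h3

theorem same_ratio (G : M2) (hG : G.PosDef) (a x y : V2) (ha : a ≠ 0) (t : ℝ)
    (hx : ip G x a = t * det2 a x) (hy : ip G y a = t * det2 a y) : det2 x y = 0 := by
  have h := cramer_ip G a x y
  have hpos := ip_pos G hG a ha
  rw [hx, hy] at h
  have h0 : det2 x y * ip G a a = 0 := by rw [← h]; ring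
  rcases mul_eq_zero.mp h0 with h1 | h1
  · exact h1
  · exact absurd h1 hpos.ne'

/-- among four vectors with ratios in a three element set two are parallel -/
theorem four_parallel (G : M2) (hG : G.PosDef) (a : V2) (ha : a ≠ 0) (x : Fin 4 → V2)
    (h : ∀ i, ip G a (x i) = 0 ∨ 2 * ip G a (x i) ^ 2 = ip G a a * ip G (x i) (x i)) :
    ∃ i j, i ≠ j ∧ det2 (x i) (x j) = 0 := by
  have h2 : ∀ i, ∃ t : Fin 3, ip G (x i) a = (![0, √G.det, -√G.det] t) * det2 a (x i) := by
    intro i
    rcases ratio_cases G hG a (x i) (h i) with h1 | h1 | h1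
    · exact ⟨0, by simp [h1]⟩
    · exact ⟨1, by simp [h1]⟩
    · exact ⟨2, by simp [h1]⟩
  choose f hf using h2
  obtain ⟨i, j, hij, hfe⟩ := Fintype.exists_ne_map_eq_of_card_lt f (by simp)
  refine ⟨i, j, hij, same_ratio G hG a (x i) (x j) ha _ (hf i) ?_⟩
  rw [hfe]; exact hf j

theorem star_lines (G : M2) (hG : G.PosDef) (A : Set Z2)
    (hA : ∀ k : Fin 4 → Z2, (∀ i, k i ∈ A) →
      (∀ i j, i ≠ j → det2 (toR (k i)) (toR (k j)) ≠ 0) →
      ∀ i j, i ≠ j → (ip G (toR (k i)) (toR (k j)) = 0 ∨
        2 * ip G (toR (k i)) (toR (k j)) ^ 2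
          = ip G (toR (k i)) (toR (k i)) * ip G (toR (k j)) (toR (k j))))
    (k : Fin 4 → Z2) (hk : ∀ i, k i ∈ A)
    (hpar : ∀ i j, i ≠ j → det2 (toR (k i)) (toR (k j)) ≠ 0) :
    ∀ q ∈ A, ∃ i, det2 (toR q) (toR (k i)) = 0 := by
  intro q hq
  by_contra hcon
  push Not at hcon
  have ha : toR (k 0) ≠ 0 := by
    intro h0
    have h := hpar 0 1 (by decide)
    rw [h0] at h
    exact h (by simp [det2])
  have hrel := hA k hk hpar
  have hq' : ip G (toR (k 0)) (toR q) = 0 ∨
      2 * ip G (toR (k 0)) (toR q) ^ 2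
        = ip G (toR (k 0)) (toR (k 0)) * ip G (toR q) (toR q) := by
    have h := hA ![k 0, q, k 2, k 3] (by
      intro i; fin_cases i
      · exact hk 0
      · exact hq
      · exact hk 2
      · exact hk 3) (by
      intro i j hij
      fin_cases i <;> fin_cases j
      · exact absurd rfl hij
      · exact det2_swap_ne (hcon 0)
      · exact hpar 0 2 (by decide)
      · exact hpar 0 3 (by decide)
      · exact hcon 0
      · exact absurd rfl hij
      · exact hcon 2
      · exact hcon 3
      · exact hpar 2 0 (by decide)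
      · exact det2_swap_ne (hcon 2)
      · exact absurd rfl hij
      · exact hpar 2 3 (by decide)
      · exact hpar 3 0 (by decide)
      · exact det2_swap_ne (hcon 3)
      · exact hpar 3 2 (by decide)
      · exact absurd rfl hij) 0 1 (by decide)
    exact h
  obtain ⟨i, j, hij, hdet⟩ := four_parallel G hG (toR (k 0)) ha
    ![toR q, toR (k 1), toR (k 2), toR (k 3)] (by
      intro i; fin_cases i
      · exact hq'
      · exact hrel 0 1 (by decide)
      · exact hrel 0 2 (by decide)
      · exact hrel 0 3 (by decide))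
  revert hdet
  fin_cases i <;> fin_cases j
  · exact absurd rfl hij
  · exact hcon 1
  · exact hcon 2
  · exact hcon 3
  · exact det2_swap_ne (hcon 1)
  · exact absurd rfl hij
  · exact hpar 1 2 (by decide)
  · exact hpar 1 3 (by decide)
  · exact det2_swap_ne (hcon 2)
  · exact hpar 2 1 (by decide)
  · exact absurd rfl hij
  · exact hpar 2 3 (by decide)
  · exact det2_swap_ne (hcon 3)
  · exact hpar 3 1 (by decide)
  · exact hpar 3 2 (by decide)
  · exact absurd rfl hij

end Pool.Agent.W_MP_4b1b5d_an
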