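import Pool.Agent.W_MP_4b1b5d_an.FR

set_option autoImplicit false

/-!
# F4: the quadratic relation (N2)

Let `p = J (G k)`, so `L_k(p) = 0`, and `crit G P k = (D_k P)(p)`, `P = PR m K`.
(N1) `fr0` evaluated at `p`: `fc U k · crit k = 0`, so `fc U k = 0` if `crit k ≠ 0`; since
`crit (c k) = c^m crit k` (or directly) the same holds for all `k' ≠ 0` parallel to `k`.
(N2) `fr` with `j = 1` at `p`: `∑_{k'} fc U k' (D_{k'} ff 1 (k - k'))(p) = 0`.  Let `k'' = k - k'`.
For `k'` not parallel to `k`: `L_{k''}(p) = - L_{k'}(p) ≠ 0` and differentiating `fr0` at `k''`: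
`ip(k',k'') ff 1 k'' + L_{k''} D_{k'} ff 1 k'' = fc U k'' D_{k'} D_{k''} P`, so
`D_{k'} ff 1 k'' (p) = fc U k'' (D_{k'}D_{k''}P / L_{k''} - ip(k',k'') D_{k''}P / L_{k''}²)(p)`.
Add the sum with `k' ↔ k''` exchanged (`Equiv.subLeft k`):
the second derivatives cancel and `D_{k'}P + D_{k''}P = D_kP`; what remains is
`- fc U k' fc U k'' ip(k',k'') crit k / L_{k'}(p)²`, and `L_{k'}(p) = ± det G · det2 k' k`.
Terms with `k'` parallel to `k` vanish (`k' = 0`: `Dp 0 = 0`; otherwise `fc U k' = 0`), and so do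
the corresponding terms of the claim (`det2 k' k = 0`, division by zero is zero).
-/

namespace Pool.Agent.W_MP_4b1b5d_an

theorem N2_ev_add (p : V2) (P Q : CP) : ev p (P + Q) = ev p P + ev p Q := by simp [ev]
theorem N2_ev_mul (p : V2) (P Q : CP) : ev p (P * Q) = ev p P * ev p Q := by simp [ev]
theorem N2_ev_C (p : V2) (c : ℂ) : ev p (MvPolynomial.C c) = c := by simp [ev]

theorem N2_Dp_C_mul (k : V2) (c : ℂ) (P : CP) :
    Dp k (MvPolynomial.C c * P) = MvPolynomial.C c * Dp k P := by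
  unfold Dp
  rw [MvPolynomial.pderiv_C_mul, MvPolynomial.pderiv_C_mul]
  ring

theorem N2_Dp_mul (k : V2) (P Q : CP) : Dp k (P * Q) = Dp k P * Q + P * Dp k Q := by
  unfold Dp
  rw [MvPolynomial.pderiv_mul, MvPolynomial.pderiv_mul]
  ring

theorem N2_pderiv_comm (i j : Fin 2) (P : CP) :
    MvPolynomial.pderiv i (MvPolynomial.pderiv j P) = MvPolynomial.pderiv j (MvPolynomial.pderiv i P) := by
  induction P using MvPolynomial.induction_on with
  | C a => simp
  | add p q hp hq => simp only [map_add, hp, hq]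
  | mul_X p n hp =>
    have hX : ∀ a b : Fin 2, MvPolynomial.pderiv a (MvPolynomial.pderiv b (MvPolynomial.X n : CP)) = 0 := by
      intro a b
      rw [MvPolynomial.pderiv_X]
      by_cases h : n = b
      · subst h; simp
      · rw [Pi.single_eq_of_ne h]; simp
    simp only [MvPolynomial.pderiv_mul, map_add, hp, hX]
    ring

theorem N2_Dp_comm (k l : V2) (P : CP) : Dp k (Dp l P) = Dp l (Dp k P) := by
  unfold Dp
  simp only [map_add, MvPolynomial.pderiv_C_mul]
  rw [N2_pderiv_comm 1 0 P]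
  ring

theorem N2_Dp_add (k l : V2) (P : CP) : Dp (k + l) P = Dp k P + Dp l P := by
  unfold Dp
  simp only [Pi.add_apply, Complex.ofReal_add, map_add]
  ring

theorem N2_Dp_zero (P : CP) : Dp 0 P = 0 := by
  unfold Dp
  simp

theorem N2_Dp_smul (c : ℝ) (k : V2) (P : CP) : Dp (c • k) P = MvPolynomial.C (c : ℂ) * Dp k P := by
  unfold Dp
  simp only [Pi.smul_apply, smul_eq_mul, Complex.ofReal_mul, MvPolynomial.C_mul]
  ring

theorem N2_Dp_Lp (G : M2) (k l : V2) : Dp k (Lp G l) = MvPolynomial.C ((ip G k l : ℝ) : ℂ) := by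
  unfold Dp Lp ip
  have h10 : MvPolynomial.pderiv (0 : Fin 2) (MvPolynomial.X 1 : CP) = 0 :=
    MvPolynomial.pderiv_X_of_ne (by decide)
  have h01 : MvPolynomial.pderiv (1 : Fin 2) (MvPolynomial.X 0 : CP) = 0 :=
    MvPolynomial.pderiv_X_of_ne (by decide)
  simp only [map_add, MvPolynomial.pderiv_C_mul, MvPolynomial.pderiv_X_self, h10, h01, mul_zero, mul_one,
    add_zero, zero_add, Fin.sum_univ_two, Matrix.mulVec, dotProduct]
  rw [← MvPolynomial.C_mul, ← MvPolynomial.C_mul, ← MvPolynomial.C_add]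
  congr 1
  push_cast
  ring

theorem N2_ev_Lp (G : M2) (k p : V2) :
    ev p (Lp G k) = ((G.mulVec k 0 * p 0 + G.mulVec k 1 * p 1 : ℝ) : ℂ) := by
  unfold Lp ev
  simp

theorem N2_Lp_J (G : M2) (k l : V2) :
    ev (J (G.mulVec k)) (Lp G l) = ((-(G.det * det2 l k) : ℝ) : ℂ) := by
  rw [N2_ev_Lp]
  congr 1
  simp only [J, det2, Matrix.mulVec, dotProduct, Fin.sum_univ_two, Matrix.det_fin_two, Matrix.cons_val_zero,
    Matrix.cons_val_one]
  ring

theorem N2_ev_Dp_map (p k : V2) (P : RP) :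
    ev p (Dp k (MvPolynomial.map (algebraMap ℝ ℂ) P)) =
      ((k 0 * MvPolynomial.eval p (MvPolynomial.pderiv 0 P) +
        k 1 * MvPolynomial.eval p (MvPolynomial.pderiv 1 P) : ℝ) : ℂ) := by
  unfold Dp ev
  have h : ∀ Q : RP, MvPolynomial.eval (fun i => (p i : ℂ)) (MvPolynomial.map (algebraMap ℝ ℂ) Q) =
      ((MvPolynomial.eval p Q : ℝ) : ℂ) := by
    intro Q
    rw [MvPolynomial.eval_map]
    have := MvPolynomial.eval₂_comp_left (algebraMap ℝ ℂ) (RingHom.id ℝ) p Q
    simp only [RingHomCompTriple.comp_eq] at this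
    rw [← MvPolynomial.eval₂_id]
    exact this.symm
  simp only [MvPolynomial.pderiv_map, map_add, map_mul, MvPolynomial.eval_C, h]
  push_cast
  rfl

theorem N2_crit (G : M2) (hG : G.PosDef) (U : SP) (m : ℕ) (K : ℕ → ℕ → SP) (hK : IsK G U m K) (k : V2) :
    ev (J (G.mulVec k)) (Dp k (ff m K 0 0)) = ((crit G (PR m K) k : ℝ) : ℂ) := by
  rw [ff_zero_zero G hG U m K hK, N2_ev_Dp_map]
  rfl

/-- (N1) for all frequencies parallel to `k` -/
theorem N2_parallel (G : M2) (hG : G.PosDef) (U : SP) (m : ℕ) (K : ℕ → ℕ → SP) (hK : IsK G U m K)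
    (k l : Z2) (hk : crit G (PR m K) (toR k) ≠ 0) (hl : l ≠ 0) (hd : det2 (toR l) (toR k) = 0) :
    fc (U : V2 → ℝ) l = 0 := by
  have hk0 : toR k ≠ 0 := by
    intro h
    apply hk
    rw [h]
    simp [crit]
  obtain ⟨c, hc0, hc⟩ : ∃ c : ℝ, c ≠ 0 ∧ toR l = c • toR k := by
    have hl0 : toR l ≠ 0 := by
      intro h
      apply hl
      funext i
      have := congrFun h i
      simpa [toR] using this
    unfold det2 at hd
    by_cases h0 : toR k 0 = 0
    · have h1 : toR k 1 ≠ 0 := by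
        intro h1
        apply hk0
        funext i
        fin_cases i
        · exact h0
        · exact h1
      refine ⟨toR l 1 / toR k 1, ?_, ?_⟩
      · intro h
        rw [div_eq_zero_iff] at h
        rcases h with h | h
        · apply hl0
          rw [h0, mul_zero, sub_zero] at hd
          have : toR l 0 = 0 := (mul_eq_zero.1 hd).resolve_right h1
          funext i
          fin_cases i
          · exact this
          · exact h
        · exact h1 h
      · rw [h0, mul_zero, sub_zero] at hd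
        have : toR l 0 = 0 := (mul_eq_zero.1 hd).resolve_right h1
        funext i
        fin_cases i
        · simp [this, h0]
        · simp only [Fin.mk_one, Pi.smul_apply, smul_eq_mul]
          field_simp
    · refine ⟨toR l 0 / toR k 0, ?_, ?_⟩
      · intro h
        rw [div_eq_zero_iff] at h
        rcases h with h | h
        · apply hl0
          rw [h, zero_mul, zero_sub, neg_eq_zero] at hd
          have : toR l 1 = 0 := (mul_eq_zero.1 hd).resolve_right h0
          funext i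
          fin_cases i
          · exact h
          · exact this
        · exact h0 h
      · funext i
        fin_cases i
        · simp only [Fin.zero_eta, Pi.smul_apply, smul_eq_mul]
          field_simp
        · simp only [Fin.mk_one, Pi.smul_apply, smul_eq_mul]
          field_simp
          linarith
  have h := congrArg (ev (J (G.mulVec (toR k)))) (fr0 G hG U m K hK l)
  rw [N2_ev_mul, N2_ev_mul, N2_ev_C, N2_Lp_J, hd, hc, N2_Dp_smul, N2_ev_mul, N2_ev_C,
    N2_crit G hG U m K hK] at h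
  simp only [mul_zero, neg_zero, Complex.ofReal_zero, zero_mul, mul_eq_zero, Complex.ofReal_eq_zero] at h
  rcases h with h | h | h
  · exact h
  · exact absurd h hc0
  · exact absurd h hk

theorem n1 (G : M2) (hG : G.PosDef) (U : SP) (m : ℕ) (K : ℕ → ℕ → SP) (hK : IsK G U m K)
    (k : Z2) (hk : crit G (PR m K) (toR k) ≠ 0) : fc (U : V2 → ℝ) k = 0 := by
  refine N2_parallel G hG U m K hK k k hk ?_ ?_
  · rintro rfl
    apply hk
    have : toR (0 : Z2) = 0 := by funext i; simp [toR]
    rw [this]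
    simp [crit]
  · unfold det2
    ring

theorem N2_toR_sub (k l : Z2) : toR (k - l) = toR k - toR l := by
  funext i
  simp [toR]

/-- the derivative of `ff 1` at a frequency not parallel to `k` -/
theorem N2_formula (G : M2) (hG : G.PosDef) (U : SP) (m : ℕ) (K : ℕ → ℕ → SP) (hK : IsK G U m K)
    (p : V2) (l : Z2) (v : V2) (hL : ev p (Lp G (toR l)) ≠ 0) :
    ev p (Dp v (ff m K 1 l)) = fc (U : V2 → ℝ) l * (ev p (Dp v (Dp (toR l) (ff m K 0 0))) / ev p (Lp G (toR l))
      - ((ip G v (toR l) : ℝ) : ℂ) * ev p (Dp (toR l) (ff m K 0 0)) / ev p (Lp G (toR l)) ^ 2) := by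
  have h0 := fr0 G hG U m K hK l
  have h1 := congrArg (ev p) h0
  have h2 := congrArg (fun P => ev p (Dp v P)) h0
  simp only [N2_Dp_C_mul] at h2
  simp only [N2_Dp_mul, N2_Dp_Lp, N2_ev_mul, N2_ev_add, N2_ev_C] at h1 h2
  have h3 : ev p (ff m K 1 l) = fc (U : V2 → ℝ) l * ev p (Dp (toR l) (ff m K 0 0)) / ev p (Lp G (toR l)) := by
    rw [h1]
    field_simp
  rw [h3] at h2
  field_simp
  field_simp at h2
  linear_combination -h2

theorem n2 (G : M2) (hG : G.PosDef) (U : SP) (m : ℕ) (K : ℕ → ℕ → SP) (hK : IsK G U m K)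
    (k : Z2) (hk : crit G (PR m K) (toR k) ≠ 0) :
    HasSum (fun k' : Z2 => fc (U : V2 → ℝ) k' * fc (U : V2 → ℝ) (k - k')
      * ((ip G (toR k') (toR (k - k')) / det2 (toR k') (toR k) ^ 2 : ℝ) : ℂ)) 0 := by
  obtain ⟨p, hp⟩ : ∃ p, p = J (G.mulVec (toR k)) := ⟨_, rfl⟩
  have hdet : G.det ≠ 0 := hG.det_pos.ne'
  have hsym : G 1 0 = G 0 1 := by
    have := hG.1.apply 0 1
    simpa using this
  have hipc : ∀ a b : V2, ip G a b = ip G b a := by
    intro a b
    simp only [ip, Fin.sum_univ_two, hsym]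
    ring
  have hA := fr G hG U m K hK 1 k p
  have hL0 : ev p (Lp G (toR k)) = 0 := by
    rw [hp, N2_Lp_J]
    have : det2 (toR k) (toR k) = 0 := by unfold det2; ring
    rw [this]
    simp
  rw [hL0, zero_mul] at hA
  obtain ⟨A, hAd⟩ : ∃ A : Z2 → ℂ, A = fun k' : Z2 => fc (U : V2 → ℝ) k' * ev p (Dp (toR k') (ff m K 1 (k - k'))) :=
    ⟨_, rfl⟩
  rw [← hAd] at hA
  have hB : HasSum (fun k' => A (k - k')) 0 := by
    have := (Equiv.subLeft k).hasSum_iff (f := A) (a := 0)
    exact this.2 hA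
  have hAB := (hA.add hB).mul_left (-((G.det : ℝ) : ℂ) ^ 2 / ((crit G (PR m K) (toR k) : ℝ) : ℂ))
  rw [add_zero, mul_zero] at hAB
  have hkC : ((crit G (PR m K) (toR k) : ℝ) : ℂ) ≠ 0 := by exact_mod_cast hk
  have hdC : ((G.det : ℝ) : ℂ) ≠ 0 := by exact_mod_cast hdet
  have hterm : ∀ k' : Z2, fc (U : V2 → ℝ) k' * fc (U : V2 → ℝ) (k - k')
      * ((ip G (toR k') (toR (k - k')) / det2 (toR k') (toR k) ^ 2 : ℝ) : ℂ) =
      -((G.det : ℝ) : ℂ) ^ 2 / ((crit G (PR m K) (toR k) : ℝ) : ℂ) * (A k' + A (k - k')) := by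
    intro k'
    have hd2 : det2 (toR (k - k')) (toR k) = -det2 (toR k') (toR k) := by
      rw [N2_toR_sub]
      simp only [det2, Pi.sub_apply]
      ring
    have hz : ∀ l : Z2, det2 (toR l) (toR k) = 0 → A l = 0 := by
      intro l hl
      rw [hAd]
      by_cases h0 : l = 0
      · have : toR l = 0 := by rw [h0]; funext i; simp [toR]
        simp only [this, N2_Dp_zero]
        simp [ev]
      · simp only [N2_parallel G hG U m K hK k l hk h0 hl, zero_mul]
    by_cases hd : det2 (toR k') (toR k) = 0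
    · rw [hz k' hd, hz (k - k') (by rw [hd2, hd, neg_zero]), hd]
      simp
    · have hL1 : ev p (Lp G (toR k')) = -(((G.det : ℝ) : ℂ) * ((det2 (toR k') (toR k) : ℝ) : ℂ)) := by
        rw [hp, N2_Lp_J]
        push_cast
        ring
      have hL2 : ev p (Lp G (toR (k - k'))) = ((G.det : ℝ) : ℂ) * ((det2 (toR k') (toR k) : ℝ) : ℂ) := by
        rw [hp, N2_Lp_J, hd2]
        push_cast
        ring
      have hdc : ((det2 (toR k') (toR k) : ℝ) : ℂ) ≠ 0 := by exact_mod_cast hd
      have hA1 : A k' = fc (U : V2 → ℝ) k' * ev p (Dp (toR k') (ff m K 1 (k - k'))) := by rw [hAd]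
      have hA2 : A (k - k') = fc (U : V2 → ℝ) (k - k') * ev p (Dp (toR (k - k')) (ff m K 1 k')) := by
        rw [hAd]
        simp only [sub_sub_cancel]
      rw [N2_formula G hG U m K hK p (k - k') (toR k') (by rw [hL2]; exact mul_ne_zero hdC hdc)] at hA1
      rw [N2_formula G hG U m K hK p k' (toR (k - k')) (by rw [hL1]; exact neg_ne_zero.2 (mul_ne_zero hdC hdc))] at hA2
      have hsum : ev p (Dp (toR k') (ff m K 0 0)) + ev p (Dp (toR (k - k')) (ff m K 0 0)) =
          ((crit G (PR m K) (toR k) : ℝ) : ℂ) := by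
        rw [← N2_ev_add, ← N2_Dp_add, N2_toR_sub, add_sub_cancel, hp, N2_crit G hG U m K hK]
      rw [hA1, hA2, N2_Dp_comm (toR (k - k')) (toR k'), hL1, hL2, hipc (toR (k - k')) (toR k'), ← hsum]
      rw [← hsum] at hkC
      push_cast
      field_simp
      ring
  simp only [hterm]
  exact hAB

end Pool.Agent.W_MP_4b1b5d_an
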