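import Pool.Agent.W_MP_4b1b5d_an.TrigC

set_option autoImplicit false

/-!
# E4: trigonometric polynomials, conclusion

Let `A` be the (finite) set of `k` with `fc U k ≠ 0`, `β ∈ A`, `β ≠ 0` of maximal length; suppose some
`k ∈ A` is neither parallel nor orthogonal to `β`; since `A = -A` we may take `ip k β > 0`; let `γ`
maximize `ip · β` among the elements of `A` not parallel to `β`.  By `trig_key` the polynomial is
radial, contradiction.
So every element of `A` is parallel or orthogonal to `β`, hence any two are parallel or orthogonal.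
-/

namespace Pool.Agent.W_MP_4b1b5d_an

theorem trigD_det_neg (k l : V2) : det2 (-k) l = -det2 k l := by
  simp only [det2, Pi.neg_apply]; ring

theorem trigD_toR_neg (k : Z2) : toR (-k) = -toR k := by
  funext i; simp [toR]

theorem trigD_ip_neg (G : M2) (k l : V2) : ip G (-k) l = - ip G k l := by
  have h := ip_smul_left G (-1) k l
  rw [neg_one_smul] at h
  rw [h]; ring

/-- parallel or orthogonal to the same nonzero vector -/
theorem trigD_rel (G : M2) (hG : G.PosDef) (β k l : V2) (hβ : β ≠ 0)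
    (hk : det2 k β = 0 ∨ ip G k β = 0) (hl : det2 l β = 0 ∨ ip G l β = 0) :
    det2 k l = 0 ∨ ip G k l = 0 := by
  have hb := ip_pos G hG β hβ
  have hd := det_pos G hG
  have hsym := g_symm G hG
  -- `det2 k l * ip β β = det2 k β * ip l β - det2 l β * ip k β`
  have e1 : det2 k l * ip G β β = det2 k β * ip G l β - det2 l β * ip G k β := by
    rw [gg_ip_expand, gg_ip_expand, gg_ip_expand, hsym]
    simp only [det2]
    ring
  have e2 : ip G k l * ip G β β = ip G k β * ip G l β + G.det * (det2 k β * det2 l β) := by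
    rw [gg_ip_expand, gg_ip_expand, gg_ip_expand, gg_ip_expand, hsym, Matrix.det_fin_two, hsym]
    simp only [det2]
    ring
  rcases hk with hk | hk
  · rcases hl with hl | hl
    · left
      rw [hk, hl] at e1
      have : det2 k l * ip G β β = 0 := by rw [e1]; ring
      exact (mul_eq_zero.1 this).resolve_right hb.ne'
    · right
      rw [hk, hl] at e2
      have : ip G k l * ip G β β = 0 := by rw [e2]; ring
      exact (mul_eq_zero.1 this).resolve_right hb.ne'
  · rcases hl with hl | hl
    · right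
      rw [hk, hl] at e2
      have : ip G k l * ip G β β = 0 := by rw [e2]; ring
      exact (mul_eq_zero.1 this).resolve_right hb.ne'
    · left
      rw [hk, hl] at e1
      have : det2 k l * ip G β β = 0 := by rw [e1]; ring
      exact (mul_eq_zero.1 this).resolve_right hb.ne'

theorem trig_case (G : M2) (hG : G.PosDef) (U : SP) (m : ℕ) (K : ℕ → ℕ → SP) (hK : IsK G U m K)
    (hnr : ¬ Rad G (PR m K)) (hfin : {k : Z2 | fc (U : V2 → ℝ) k ≠ 0}.Finite) (k l : Z2)
    (hk : fc (U : V2 → ℝ) k ≠ 0) (hl : fc (U : V2 → ℝ) l ≠ 0) :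
    det2 (toR k) (toR l) = 0 ∨ ip G (toR k) (toR l) = 0 := by
  by_cases hk0 : k = 0
  · left
    rw [hk0, trigB_toR_zero, trigB_det_zero]
  have hneg : ∀ x : Z2, fc (U : V2 → ℝ) x ≠ 0 → fc (U : V2 → ℝ) (-x) ≠ 0 := by
    intro x hx
    rw [fc_neg]
    exact (map_ne_zero _).2 hx
  obtain ⟨β, hβA, hβmax⟩ := hfin.toFinset.exists_max_image (fun x => ip G (toR x) (toR x))
    ⟨k, by simpa using hk⟩
  have hβ : fc (U : V2 → ℝ) β ≠ 0 := by simpa using hβA
  have hmax : ∀ x : Z2, fc (U : V2 → ℝ) x ≠ 0 → ip G (toR x) (toR x) ≤ ip G (toR β) (toR β) :=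
    fun x hx => hβmax x (by simpa using hx)
  have hβ0 : β ≠ 0 := by
    intro h0
    have h1 := hmax k hk
    have h2 := trigB_pos G hG k hk0
    rw [h0, trigB_toR_zero, trigB_ip_zero] at h1
    linarith
  have hrel : ∀ x : Z2, fc (U : V2 → ℝ) x ≠ 0 →
      det2 (toR x) (toR β) = 0 ∨ ip G (toR x) (toR β) = 0 := by
    intro x hx
    by_contra hcon
    push Not at hcon
    obtain ⟨hc1, hc2⟩ := hcon
    apply hnr
    -- an element with positive inner product
    obtain ⟨y, hy, hy1, hy2⟩ : ∃ y : Z2, fc (U : V2 → ℝ) y ≠ 0 ∧ det2 (toR y) (toR β) ≠ 0 ∧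
        0 < ip G (toR y) (toR β) := by
      rcases lt_or_gt_of_ne hc2 with h | h
      · refine ⟨-x, hneg x hx, ?_, ?_⟩
        · rw [trigD_toR_neg, trigD_det_neg]
          exact neg_ne_zero.2 hc1
        · rw [trigD_toR_neg, trigD_ip_neg]
          linarith
      · exact ⟨x, hx, hc1, h⟩
    classical
    obtain ⟨γ, hγA, hγmax⟩ := (hfin.toFinset.filter
      (fun z => det2 (toR z) (toR β) ≠ 0)).exists_max_image (fun z => ip G (toR z) (toR β))
      ⟨y, by simpa using ⟨hy, hy1⟩⟩
    have hγA' : fc (U : V2 → ℝ) γ ≠ 0 ∧ det2 (toR γ) (toR β) ≠ 0 := by simpa using hγA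
    refine trig_key G hG U m K hK hfin β γ hβ hβ0 hmax hγA'.1 hγA'.2 ?_ ?_
    · exact lt_of_lt_of_le hy2 (hγmax y (by simpa using ⟨hy, hy1⟩))
    · intro z hz hz1
      exact hγmax z (by simpa using ⟨hz, hz1⟩)
  have hβR : toR β ≠ 0 := by
    intro h
    exact hβ0 (trigB_toR_inj (by rw [h, trigB_toR_zero]))
  exact trigD_rel G hG (toR β) (toR k) (toR l) hβR (hrel k hk) (hrel l hl)

end Pool.Agent.W_MP_4b1b5d_an
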