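import Pool.Agent.W_MP_4b1b5d_an.Reflection
import Pool.Agent.W_MP_4b1b5d_an.N2
import Pool.Agent.W_MP_4b1b5d_an.CrossRatio
import Pool.Agent.W_MP_4b1b5d_an.FinThree
import Pool.Agent.W_MP_4b1b5d_an.FinStar
import Pool.Agent.W_MP_4b1b5d_an.Lines
import Pool.Agent.W_MP_4b1b5d_an.TrigD
import Pool.Agent.W_MP_4b1b5d_an.AngleLem
import Pool.Agent.W_MP_4b1b5d_an.Angles

set_option autoImplicit false

/-!
# J1: active frequencies are pairwise parallel or orthogonal
-/

namespace Pool.Agent.W_MP_4b1b5d_an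

theorem det2_ne_left {a b : Z2} (h : det2 (toR a) (toR b) ≠ 0) : a ≠ 0 := by
  rintro rfl
  apply h
  simp [det2, toR]

theorem det2_ne_right {a b : Z2} (h : det2 (toR a) (toR b) ≠ 0) : b ≠ 0 := by
  rintro rfl
  apply h
  simp [det2, toR]

/-- condition (C4) for the integer vectors in `A` only -/
def C4on (G : M2) (A : Set Z2) : Prop :=
  ∀ k : Fin 4 → Z2, (∀ i, k i ∈ A) → (∀ i j, i ≠ j → det2 (toR (k i)) (toR (k j)) ≠ 0) →
    (∀ i j, RatAngle G (toR (k i)) (toR (k j))) →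
    ∀ i j, i ≠ j → (ip G (toR (k i)) (toR (k j)) = 0 ∨
      2 * ip G (toR (k i)) (toR (k j)) ^ 2
        = ip G (toR (k i)) (toR (k i)) * ip G (toR (k j)) (toR (k j)))

theorem orth_or_par (G : M2) (hG : G.PosDef) (U : SP) (m : ℕ) (K : ℕ → ℕ → SP) (hK : IsK G U m K)
    (hnr : ¬ Rad G (PR m K)) (hC : Odd m ∨ C4on G {k : Z2 | fc (U : V2 → ℝ) k ≠ 0}) (a b : Z2)
    (ha : fc (U : V2 → ℝ) a ≠ 0) (hb : fc (U : V2 → ℝ) b ≠ 0) :
    det2 (toR a) (toR b) = 0 ∨ ip G (toR a) (toR b) = 0 := by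
  by_contra hcon
  rw [not_or] at hcon
  obtain ⟨hab, hip⟩ := hcon
  obtain ⟨N, hN0, hNodd, hN⟩ := exists_order G hG (PR m K) m (PR_homogeneous m K) hnr
  have hu : ∀ k l : Z2, fc (U : V2 → ℝ) k ≠ 0 → fc (U : V2 → ℝ) l ≠ 0 → k ≠ 0 → l ≠ 0 →
      uu G (toR k) ^ N = uu G (toR l) ^ N := fun k l hk hl hk0 hl0 =>
    hN _ _ (toR_ne hk0) (toR_ne hl0) (reflection G hG U m K hK k hk0 hk)
      (reflection G hG U m K hK l hl0 hl)
  have hn2 := n2 G hG U m K hK
  have hfin : {k : Z2 | fc (U : V2 → ℝ) k ≠ 0}.Finite := by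
    rcases three_or_four {k : Z2 | fc (U : V2 → ℝ) k ≠ 0} a b ha hb hab with
      ⟨c, hac, hbc, hl⟩ | ⟨k, hkA, hk0, hk1, hpar⟩
    · exact fin_three G hG U (PR m K) m (PR_homogeneous m K) hnr hn2 a b c hab hac hbc hl ha hb hip
    · have hne : ∀ i, k i ≠ 0 := by
        intro i
        by_cases hi : i = 0
        · subst hi; exact det2_ne_left (hpar 0 1 (by decide))
        · exact det2_ne_left (hpar i 0 hi)
      rcases hC with hm | hC4
      · exact (no_four_odd G hG N (hNodd hm) k hpar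
          (fun i j => hu _ _ (hkA i) (hkA j) (hne i) (hne j))).elim
      · have hA : ∀ k : Fin 4 → Z2, (∀ i, k i ∈ {k : Z2 | fc (U : V2 → ℝ) k ≠ 0}) →
            (∀ i j, i ≠ j → det2 (toR (k i)) (toR (k j)) ≠ 0) →
            ∀ i j, i ≠ j → (ip G (toR (k i)) (toR (k j)) = 0 ∨
              2 * ip G (toR (k i)) (toR (k j)) ^ 2
                = ip G (toR (k i)) (toR (k i)) * ip G (toR (k j)) (toR (k j))) := by
          intro k hkA hpar
          have hne : ∀ i, k i ≠ 0 := by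
            intro i
            by_cases hi : i = 0
            · subst hi; exact det2_ne_left (hpar 0 1 (by decide))
            · exact det2_ne_left (hpar i 0 hi)
          exact hC4 k hkA hpar (fun i j => ratAngle_of_uu G hG N hN0 _ _ (toR_ne (hne i))
            (toR_ne (hne j)) (hu _ _ (hkA i) (hkA j) (hne i) (hne j)))
        exact fin_star G hG U (PR m K) m (PR_homogeneous m K) hnr hn2 k hpar (hA k hkA hpar)
          (star_lines G hG _ hA k hkA hpar) a b hab ha hb hip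
  rcases trig_case G hG U m K hK hnr hfin a b ha hb with h | h
  · exact hab h
  · exact hip h

theorem odd_par (G : M2) (hG : G.PosDef) (U : SP) (m : ℕ) (K : ℕ → ℕ → SP) (hK : IsK G U m K)
    (hnr : ¬ Rad G (PR m K)) (hm : Odd m) (a b : Z2)
    (ha : fc (U : V2 → ℝ) a ≠ 0) (hb : fc (U : V2 → ℝ) b ≠ 0) :
    det2 (toR a) (toR b) = 0 := by
  rcases orth_or_par G hG U m K hK hnr (Or.inl hm) a b ha hb with h | h
  · exact h
  · by_contra hab
    obtain ⟨N, hN0, hNodd, hN⟩ := exists_order G hG (PR m K) m (PR_homogeneous m K) hnr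
    have ha0 := det2_ne_left hab
    have hb0 := det2_ne_right hab
    exact no_orth_odd G hG N (hNodd hm) _ _ (toR_ne ha0) (toR_ne hb0) h
      (hN _ _ (toR_ne ha0) (toR_ne hb0) (reflection G hG U m K hK a ha0 ha)
        (reflection G hG U m K hK b hb0 hb))

end Pool.Agent.W_MP_4b1b5d_an
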