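import Mathlib

set_option autoImplicit false

/-!
# E1: the edge lemma for univariate polynomials

Fix `κ : ℂ` and let `w = (κ - b X²/2)/B` (a polynomial in `X`, `w' = - b X / B`).
* `T = ∑_n d_n w^n` has derivative `∑ d_n' w^n + ∑ n d_n w^{n-1} w' = 0` by `h2`, so it is constant.
* `S = (1/B) ∑_n (n+1) e_{n+1} w^n` is constant in the same way, and
  `∑ e_n' w^n = b X S` by `h1`.
* `q = ∑ G_n w^n` satisfies, by `h30`, `h3` (multiply by `w^n` and sum):
  `(b g X + c) q + b X ∑ n G_n w^n = B w (∑ G_n' w^n) + A (g b X S + h T)` and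
  `B w q' = B w ∑ G_n' w^n - b X ∑ n G_n w^n`, so
  `(b g X + c) q - (κ - b X²/2) q' = A (g b X S + h T)`.
  If `deg q = N ≥ 1` with leading coefficient `ℓ`, the coefficient of `X^{N+1}` on the left is
  `b (g + N/2) ℓ ≠ 0`, but the right side has degree `≤ 1`: contradiction.  So `q` is constant and
  comparing coefficients `q = A S`, `c q = A h T`, hence `c S = h T`.
* Evaluate at `X0` with `κ = b X0²/2` (so `w(X0) = 0`): `b X0 S = e_0'(X0)`, `T = d_0(X0)`.
-/

namespace Pool.Agent.W_MP_4b1b5d_an

open Polynomial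

/-- if `(n+1) b X f_{n+1} = B f_n'` and `B w' = - b X`, then `∑ f_n w^n` is constant -/
theorem eu_const (b B : ℂ) (hB : B ≠ 0) (f : ℕ → ℂ[X]) (w : ℂ[X]) (N : ℕ)
    (hN : ∀ n, N ≤ n → f n = 0)
    (h : ∀ n : ℕ, C (((n : ℂ) + 1) * b) * X * f (n + 1) = C B * derivative (f n))
    (hw : C B * derivative w = -(C b * X)) :
    ∃ t : ℂ, ∑ n ∈ Finset.range N, f n * w ^ n = C t := by
  have hd : C B * derivative (∑ n ∈ Finset.range N, f n * w ^ n) = 0 := by
    have e1 : ∀ n, C B * derivative (f n * w ^ n)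
        = (C (((n + 1 : ℕ) : ℂ) * b) * X * f (n + 1) * w ^ (n + 1 - 1))
          - (C (((n : ℕ) : ℂ) * b) * X * f n * w ^ (n - 1)) := by
      intro n
      rw [derivative_mul, mul_add, ← mul_assoc, ← h n, derivative_pow]
      have : C B * (f n * (C (n : ℂ) * w ^ (n - 1) * derivative w))
          = f n * (C (n : ℂ) * w ^ (n - 1) * (C B * derivative w)) := by ring
      rw [this, hw]
      simp only [C_mul, Nat.cast_add, Nat.cast_one, Nat.add_sub_cancel]
      ring
    rw [derivative_sum, Finset.mul_sum, Finset.sum_congr rfl (fun n _ => e1 n),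
      Finset.sum_range_sub (fun n => C (((n : ℕ) : ℂ) * b) * X * f n * w ^ (n - 1)) N]
    rw [hN N le_rfl]
    simp
  have hd' : derivative (∑ n ∈ Finset.range N, f n * w ^ n) = 0 := by
    rcases mul_eq_zero.mp hd with h0 | h0
    · exact absurd (C_eq_zero.mp h0) hB
    · exact h0
  exact ⟨_, eq_C_of_natDegree_eq_zero (Polynomial.derivative_eq_zero.mp hd')⟩

theorem edge_uni (b g : ℝ) (hb : 0 < b) (hg : 0 < g) (B A h c : ℂ) (hB : B ≠ 0) (hA : A ≠ 0)
    (e d Q : ℕ → ℂ[X]) (M : ℕ) (heM : ∀ n, M < n → e n = 0) (hdM : ∀ n, M < n → d n = 0)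
    (hQM : ∀ n, M < n → Q n = 0)
    (h1 : ∀ n : ℕ, C (((n : ℂ) + 1) * b) * X * e (n + 1) = C B * derivative (e n))
    (h2 : ∀ n : ℕ, C (((n : ℂ) + 1) * b) * X * d (n + 1) = C B * derivative (d n))
    (h30 : (C ((b : ℂ) * g) * X + C c) * Q 0 = C A * (C (g : ℂ) * derivative (e 0) + C h * d 0))
    (h3 : ∀ n : ℕ, (C ((b : ℂ) * (g + (n + 1))) * X + C c) * Q (n + 1)
      = C B * derivative (Q n) + C A * (C (g : ℂ) * derivative (e (n + 1)) + C h * d (n + 1)))
    (X0 : ℂ) :
    c * eval X0 (derivative (e 0)) = h * b * X0 * eval X0 (d 0) := by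
  have hbC : (b : ℂ) ≠ 0 := by exact_mod_cast hb.ne'
  have hgC : (g : ℂ) ≠ 0 := by exact_mod_cast hg.ne'
  set κ : ℂ := b * X0 ^ 2 / 2 with hκ
  set w : ℂ[X] := C (κ / B) - C ((b : ℂ) / 2 / B) * X ^ 2 with hw
  have hwd : C B * derivative w = -(C (b : ℂ) * X) := by
    have h2' : C ((b : ℂ) / 2 / B) * C B * C 2 = C (b : ℂ) := by
      rw [← C_mul, ← C_mul]
      congr 1
      field_simp
    rw [hw, ← h2']
    simp only [derivative_sub, derivative_C, zero_sub, derivative_C_mul, derivative_X_pow,
      Nat.cast_ofNat, Nat.add_one_sub_one, pow_one]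
    rw [show (C (2 : ℂ)) = (2 : ℂ[X]) from rfl]
    ring
  have hBw : C B * w = C κ - C ((b : ℂ) / 2) * X ^ 2 := by
    rw [hw, mul_sub, ← mul_assoc, ← C_mul, ← C_mul]
    rw [mul_div_cancel₀ κ hB, mul_div_cancel₀ ((b : ℂ) / 2) hB]
  have hw0 : eval X0 w = 0 := by
    simp only [hw, hκ, eval_sub, eval_C, eval_mul, eval_pow, eval_X]
    field_simp
    ring
  set N := M + 2 with hN
  obtain ⟨t, ht⟩ := eu_const (b : ℂ) B hB d w N (fun n hn => hdM n (by omega)) h2 hwd
  obtain ⟨s', hs'⟩ := eu_const (b : ℂ) B hB (fun n => C ((n : ℂ) + 1) * e (n + 1)) w N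
    (fun n hn => by simp only [heM (n + 1) (by omega), mul_zero])
    (fun n => by
      simp only [derivative_C_mul]
      have := h1 (n + 1)
      push_cast at this ⊢
      calc C (((n : ℂ) + 1) * b) * X * (C ((n : ℂ) + 1 + 1) * e (n + 1 + 1))
          = C ((n : ℂ) + 1) * (C (((n : ℂ) + 1 + 1) * b) * X * e (n + 1 + 1)) := by
            simp only [C_mul]; ring
        _ = C ((n : ℂ) + 1) * (C B * derivative (e (n + 1))) := by rw [this]
        _ = _ := by ring) hwd
  have hE : ∑ n ∈ Finset.range N, derivative (e n) * w ^ n = C ((b : ℂ) * s' / B) * X := by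
    have : C B * ∑ n ∈ Finset.range N, derivative (e n) * w ^ n
        = C (b : ℂ) * X * ∑ n ∈ Finset.range N, C ((n : ℂ) + 1) * e (n + 1) * w ^ n := by
      rw [Finset.mul_sum, Finset.mul_sum]
      refine Finset.sum_congr rfl fun n _ => ?_
      rw [← mul_assoc, ← h1 n]
      simp only [C_mul]
      ring
    rw [hs'] at this
    have h4 : C B * ∑ n ∈ Finset.range N, derivative (e n) * w ^ n
        = C B * (C ((b : ℂ) * s' / B) * X) := by
      rw [this, ← mul_assoc (C B), ← C_mul, mul_right_comm, ← C_mul]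
      congr 2
      field_simp
    exact mul_left_cancel₀ (by simpa using hB) h4
  set s : ℂ := s' / B with hs
  have hE' : ∑ n ∈ Finset.range N, derivative (e n) * w ^ n = C ((b : ℂ) * s) * X := by
    rw [hE, hs, mul_div_assoc]
  set q : ℂ[X] := ∑ n ∈ Finset.range N, Q n * w ^ n with hq
  -- the main equation
  have hmain : (C ((b : ℂ) * g) * X + C c) * q - C B * w * derivative q
      = C A * (C (g : ℂ) * (C ((b : ℂ) * s) * X) + C h * C t) := by
    have e1 : C B * w * derivative q = C B * w * (∑ n ∈ Finset.range N, derivative (Q n) * w ^ n)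
        - C (b : ℂ) * X * ∑ n ∈ Finset.range N, C (n : ℂ) * Q n * w ^ n := by
      rw [hq, derivative_sum, Finset.mul_sum, Finset.mul_sum, Finset.mul_sum,
        ← Finset.sum_sub_distrib]
      refine Finset.sum_congr rfl fun n _ => ?_
      rw [derivative_mul, derivative_pow]
      have : C B * w * (derivative (Q n) * w ^ n + Q n * (C (n : ℂ) * w ^ (n - 1) * derivative w))
          = C B * w * (derivative (Q n) * w ^ n)
            + Q n * (C (n : ℂ) * (w * w ^ (n - 1)) * (C B * derivative w)) := by ring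
      rw [this, hwd]
      rcases Nat.eq_zero_or_pos n with h0 | h0
      · subst h0; simp
      · have : w * w ^ (n - 1) = w ^ n := by
          rw [← pow_succ']
          congr 1
          omega
        rw [this]
        ring
    have e2 : ∑ n ∈ Finset.range N, (C ((b : ℂ) * (g + n)) * X + C c) * Q n * w ^ n
        = C B * w * (∑ n ∈ Finset.range N, derivative (Q n) * w ^ n)
          + C A * (C (g : ℂ) * (∑ n ∈ Finset.range N, derivative (e n) * w ^ n)
            + C h * ∑ n ∈ Finset.range N, d n * w ^ n) := by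
      have hQlast : ∑ n ∈ Finset.range N, derivative (Q n) * w ^ n
          = ∑ n ∈ Finset.range (M + 1), derivative (Q n) * w ^ n := by
        rw [hN, Finset.sum_range_succ, hQM (M + 1) (by omega)]
        simp
      rw [hQlast, hN, Finset.sum_range_succ' _ (M + 1), Finset.sum_range_succ' _ (M + 1),
        Finset.sum_range_succ' _ (M + 1)]
      have e3 : ∀ n : ℕ, (C ((b : ℂ) * (g + ((n + 1 : ℕ) : ℂ))) * X + C c) * Q (n + 1) * w ^ (n + 1)
          = C B * w * (derivative (Q n) * w ^ n)
            + C A * (C (g : ℂ) * (derivative (e (n + 1)) * w ^ (n + 1))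
              + C h * (d (n + 1) * w ^ (n + 1))) := by
        intro n
        have := h3 n
        push_cast
        rw [this]
        ring
      rw [Finset.sum_congr rfl (fun n _ => e3 n)]
      have e4 : (C ((b : ℂ) * (g + ((0 : ℕ) : ℂ))) * X + C c) * Q 0 * w ^ 0
          = C A * (C (g : ℂ) * (derivative (e 0) * w ^ 0) + C h * (d 0 * w ^ 0)) := by
        simp only [Nat.cast_zero, add_zero, pow_zero, mul_one]
        exact h30
      rw [e4]
      simp only [Finset.sum_add_distrib, mul_add, ← Finset.mul_sum]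
      ring
    have e5 : ∑ n ∈ Finset.range N, (C ((b : ℂ) * (g + n)) * X + C c) * Q n * w ^ n
        = (C ((b : ℂ) * g) * X + C c) * q
          + C (b : ℂ) * X * ∑ n ∈ Finset.range N, C (n : ℂ) * Q n * w ^ n := by
      rw [hq, Finset.mul_sum, Finset.mul_sum, ← Finset.sum_add_distrib]
      refine Finset.sum_congr rfl fun n _ => ?_
      simp only [C_mul, C_add]
      ring
    rw [e5, hE', ht] at e2
    rw [e1]
    linear_combination e2
  have hq0 : q.natDegree = 0 := by
    by_contra hne
    have hpos : 0 < q.natDegree := Nat.pos_of_ne_zero hne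
    have hc := congrArg (fun p => coeff p (q.natDegree + 1)) hmain
    rw [hBw] at hc
    obtain ⟨k, hk⟩ : ∃ k, q.natDegree = k + 1 := ⟨q.natDegree - 1, by omega⟩
    have hlead : coeff q (q.natDegree + 1) = 0 := coeff_eq_zero_of_natDegree_lt (by omega)
    have hd2 : coeff (derivative q) (q.natDegree + 1) = 0 := by
      rw [coeff_derivative, coeff_eq_zero_of_natDegree_lt (by omega)]
      simp
    have c1 : coeff ((C ((b : ℂ) * g) * X + C c) * q) (q.natDegree + 1)
        = (b : ℂ) * g * q.leadingCoeff := by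
      rw [add_mul, coeff_add, coeff_C_mul, hlead, mul_assoc, coeff_C_mul, coeff_X_mul]
      simp
    have c2 : coeff ((C κ - C ((b : ℂ) / 2) * X ^ 2) * derivative q) (q.natDegree + 1)
        = - ((b : ℂ) / 2 * (q.leadingCoeff * (q.natDegree : ℂ))) := by
      rw [sub_mul, coeff_sub, coeff_C_mul, hd2, mul_assoc, coeff_C_mul]
      have : q.natDegree + 1 = k + 2 := by omega
      rw [this, coeff_X_pow_mul, coeff_derivative, leadingCoeff, hk]
      push_cast
      ring
    have c3 : coeff (C A * (C (g : ℂ) * (C ((b : ℂ) * s) * X) + C h * C t)) (q.natDegree + 1)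
        = 0 := by
      rw [coeff_C_mul, coeff_add, coeff_C_mul, coeff_C_mul, coeff_C_mul, coeff_C]
      rw [coeff_X]
      simp [hne]
    rw [coeff_sub, c1, c2, c3] at hc
    have h5 : (b : ℂ) * (g + q.natDegree / 2) * q.leadingCoeff = 0 := by
      linear_combination hc
    have h6 : (b : ℂ) * (g + q.natDegree / 2) ≠ 0 := by
      have : ((b : ℂ) * (g + q.natDegree / 2)) = ((b * (g + q.natDegree / 2) : ℝ) : ℂ) := by
        push_cast; ring
      rw [this]
      have h7 : 0 < b * (g + q.natDegree / 2) := by positivity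
      exact_mod_cast h7.ne'
    rcases mul_eq_zero.mp h5 with h7 | h7
    · exact h6 h7
    · rw [leadingCoeff_eq_zero] at h7
      rw [h7] at hne
      simp at hne
  obtain ⟨q0, hq0'⟩ : ∃ q0, q = C q0 := ⟨_, eq_C_of_natDegree_eq_zero hq0⟩
  rw [hq0'] at hmain
  have m0 := congrArg (fun p => coeff p 0) hmain
  have m1 := congrArg (fun p => coeff p 1) hmain
  simp only [derivative_C, mul_zero, sub_zero, coeff_C_mul, coeff_add, coeff_mul_C, coeff_C_zero,
    coeff_X_zero, zero_add] at m0
  simp only [derivative_C, mul_zero, sub_zero, coeff_C_mul, coeff_add, coeff_mul_C,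
    coeff_X_one, mul_one, coeff_C, one_ne_zero, if_false, add_zero] at m1
  have hq1 : q0 = A * s := by
    have : ((b : ℂ) * g) * (q0 - A * s) = 0 := by linear_combination m1
    rcases mul_eq_zero.mp this with h7 | h7
    · exact absurd h7 (mul_ne_zero hbC hgC)
    · linear_combination h7
  have hcs : c * s = h * t := by
    have : A * (c * s - h * t) = 0 := by
      rw [hq1] at m0
      linear_combination m0
    rcases mul_eq_zero.mp this with h7 | h7
    · exact absurd h7 hA
    · linear_combination h7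
  have v1 := congrArg (eval X0) hE'
  have v2 := congrArg (eval X0) ht
  simp only [eval_finsetSum, eval_mul, eval_pow, hw0, eval_C, eval_X] at v1 v2
  rw [hN, Finset.sum_range_succ'] at v1 v2
  simp only [pow_succ, mul_zero, Finset.sum_const_zero, zero_add, pow_zero, mul_one] at v1 v2
  rw [v1, v2]
  linear_combination (b : ℂ) * X0 * hcs

end Pool.Agent.W_MP_4b1b5d_an
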