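import Pool.Agent.W_MP_4b1b5d_an.FourierA

set_option autoImplicit false

/-!
# F1: elementary properties of Fourier coefficients of smooth periodic functions

`fc f k = ∫_0^1 ∫_0^1 exp(-2πi k·(s,t)) f(s,t) dt ds`.
`fc_Dv`: integrate by parts in `s` or `t` (Fubini for continuous functions on the square;
`Dv e f = e₀ ∂₀ f + e₁ ∂₁ f`).
`fc_wavg`: Fubini and translation invariance of the integral over a period, together with
`k · v = 0` (`exp (-2πi k·(x - τ v)) = exp (-2πi k·x)`).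
-/

namespace Pool.Agent.W_MP_4b1b5d_an

open Complex

/-- integration by parts over a period -/
theorem ibp_FD (k : ℤ) (c : ℂ) (v v' : ℝ → ℝ) (hv : ∀ x, HasDerivAt v (v' x) x)
    (hv' : Continuous v') (h01 : v 1 = v 0) :
    ∫ t in (0:ℝ)..1, Complex.exp (-(2 * Real.pi * Complex.I * (c + k * t))) * (v' t : ℂ)
      = 2 * Real.pi * I * k *
        ∫ t in (0:ℝ)..1, Complex.exp (-(2 * Real.pi * Complex.I * (c + k * t))) * (v t : ℂ) := by
  have hu : ∀ x : ℝ, HasDerivAt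
      (fun t : ℝ => Complex.exp (-(2 * Real.pi * Complex.I * (c + k * t))))
      (Complex.exp (-(2 * Real.pi * Complex.I * (c + k * x))) * (-(2 * Real.pi * I * k))) x := by
    intro x
    have h1 : HasDerivAt (fun t : ℝ => (t : ℂ)) 1 x := Complex.ofRealCLM.hasDerivAt
    have h2 : HasDerivAt (fun t : ℝ => -(2 * Real.pi * Complex.I * (c + k * t)))
        (-(2 * Real.pi * I * (k * 1))) x :=
      (((h1.const_mul (k : ℂ)).const_add c).const_mul (2 * Real.pi * Complex.I)).neg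
    rw [mul_one] at h2
    exact h2.cexp
  have hvc : ∀ x : ℝ, HasDerivAt (fun t : ℝ => ((v t : ℝ) : ℂ)) ((v' x : ℝ) : ℂ) x := fun x =>
    (hv x).ofReal_comp
  have hcu : Continuous (fun x : ℝ =>
      Complex.exp (-(2 * Real.pi * Complex.I * (c + k * x))) * (-(2 * Real.pi * I * k))) := by
    fun_prop
  have hcv : Continuous (fun x : ℝ => ((v' x : ℝ) : ℂ)) := Complex.continuous_ofReal.comp hv'
  rw [intervalIntegral.integral_mul_deriv_eq_deriv_mul (fun x _ => hu x) (fun x _ => hvc x)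
    (hcu.intervalIntegrable _ _) (hcv.intervalIntegrable _ _)]
  have he : Complex.exp (-(2 * Real.pi * Complex.I * (c + k * ((1 : ℝ) : ℂ))))
      = Complex.exp (-(2 * Real.pi * Complex.I * (c + k * ((0 : ℝ) : ℂ)))) := by
    rw [Complex.exp_eq_exp_iff_exists_int]
    refine ⟨-k, ?_⟩
    push_cast
    ring
  rw [he, h01, sub_self, zero_sub, ← intervalIntegral.integral_neg,
    ← intervalIntegral.integral_const_mul]
  congr 1
  funext x
  ring

theorem hasDerivAt_fst_FD (s t : ℝ) :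
    HasDerivAt (fun s : ℝ => (![s, t] : V2)) (Pi.single 0 1) s := by
  rw [hasDerivAt_pi]
  intro i
  fin_cases i
  · simpa using hasDerivAt_id' s
  · simpa using hasDerivAt_const s t

theorem hasDerivAt_snd_FD (s t : ℝ) :
    HasDerivAt (fun t : ℝ => (![s, t] : V2)) (Pi.single 1 1) t := by
  rw [hasDerivAt_pi]
  intro i
  fin_cases i
  · simpa using hasDerivAt_const t s
  · simpa using hasDerivAt_id' t

theorem D0_FD (f : SP) (s t : ℝ) :
    HasDerivAt (fun s : ℝ => (f : V2 → ℝ) ![s, t]) ((D 0 f : V2 → ℝ) ![s, t]) s := by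
  have h1 : HasFDerivAt (f : V2 → ℝ) (fderiv ℝ (f : V2 → ℝ) ![s, t]) ![s, t] :=
    (sp_diff f _).hasFDerivAt
  exact h1.comp_hasDerivAt s (hasDerivAt_fst_FD s t)

theorem D1_FD (f : SP) (s t : ℝ) :
    HasDerivAt (fun t : ℝ => (f : V2 → ℝ) ![s, t]) ((D 1 f : V2 → ℝ) ![s, t]) t := by
  have h1 : HasFDerivAt (f : V2 → ℝ) (fderiv ℝ (f : V2 → ℝ) ![s, t]) ![s, t] :=
    (sp_diff f _).hasFDerivAt
  exact h1.comp_hasDerivAt t (hasDerivAt_snd_FD s t)

theorem cont_pair_FD : Continuous (fun z : ℝ × ℝ => (![z.1, z.2] : V2)) := by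
  refine continuous_pi fun i => ?_
  fin_cases i
  · simpa using continuous_fst
  · simpa using continuous_snd

theorem sp_cont_FD (f : SP) : Continuous (f : V2 → ℝ) := (sp_diff f).continuous

theorem per0_FD (f : SP) (t : ℝ) : (f : V2 → ℝ) ![1, t] = (f : V2 → ℝ) ![0, t] := by
  have h : (![1, t] : V2) = ![0, t] + toR ![1, 0] := by
    ext i
    fin_cases i <;> simp [toR]
  rw [h, sp_per]

theorem per1_FD (f : SP) (s : ℝ) : (f : V2 → ℝ) ![s, 1] = (f : V2 → ℝ) ![s, 0] := by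
  have h : (![s, 1] : V2) = ![s, 0] + toR ![0, 1] := by
    ext i
    fin_cases i <;> simp [toR]
  rw [h, sp_per]

theorem fc_swap_FD (f : SP) (k : Z2) : fc (f : V2 → ℝ) k = ∫ t in (0:ℝ)..1, ∫ s in (0:ℝ)..1,
    Complex.exp (-(2 * Real.pi * Complex.I * (k 1 * t + k 0 * s))) * ((f : V2 → ℝ) ![s, t] : ℂ) := by
  rw [fc, MeasureTheory.intervalIntegral_intervalIntegral_swap]
  · simp only [add_comm]
  · have hc : Continuous (Function.uncurry fun s t : ℝ =>
        Complex.exp (-(2 * Real.pi * Complex.I * (k 0 * s + k 1 * t)))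
          * ((f : V2 → ℝ) ![s, t] : ℂ)) := by
      have h2 : Continuous (fun z : ℝ × ℝ => (((f : V2 → ℝ) ![z.1, z.2] : ℝ) : ℂ)) :=
        Complex.continuous_ofReal.comp ((sp_cont_FD f).comp cont_pair_FD)
      have h3 : Continuous (fun z : ℝ × ℝ =>
        Complex.exp (-(2 * Real.pi * Complex.I * (k 0 * z.1 + k 1 * z.2)))) := by fun_prop
      exact h3.mul h2
    refine (hc.continuousOn.integrableOn_compact
      (K := Set.Icc (0:ℝ) 1 ×ˢ Set.Icc (0:ℝ) 1) (isCompact_Icc.prod isCompact_Icc)).mono_set ?_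
    rw [Set.uIoc_of_le zero_le_one]
    exact Set.prod_mono Set.Ioc_subset_Icc_self Set.Ioc_subset_Icc_self

theorem fc_D0_FD (f : SP) (k : Z2) :
    fc (D 0 f : V2 → ℝ) k = 2 * Real.pi * I * (k 0 : ℂ) * fc (f : V2 → ℝ) k := by
  rw [fc_swap_FD, fc_swap_FD, ← intervalIntegral.integral_const_mul]
  congr 1
  funext t
  exact ibp_FD (k 0) ((k 1 : ℂ) * t) (fun s => (f : V2 → ℝ) ![s, t])
    (fun s => (D 0 f : V2 → ℝ) ![s, t]) (fun s => D0_FD f s t)
    ((sp_cont_FD (D 0 f)).comp (cont_pair_FD.comp (Continuous.prodMk_left t)))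
    (per0_FD f t)

theorem fc_D1_FD (f : SP) (k : Z2) :
    fc (D 1 f : V2 → ℝ) k = 2 * Real.pi * I * (k 1 : ℂ) * fc (f : V2 → ℝ) k := by
  rw [fc, fc, ← intervalIntegral.integral_const_mul]
  congr 1
  funext s
  exact ibp_FD (k 1) ((k 0 : ℂ) * s) (fun t => (f : V2 → ℝ) ![s, t])
    (fun t => (D 1 f : V2 → ℝ) ![s, t]) (fun t => D1_FD f s t)
    ((sp_cont_FD (D 1 f)).comp (cont_pair_FD.comp (Continuous.prodMk_right s)))
    (per1_FD f s)

theorem Dv_eq_FD (e : V2) (f : SP) : Dv e f = e 0 • D 0 f + e 1 • D 1 f := by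
  ext x
  have he : e = e 0 • (Pi.single 0 1 : V2) + e 1 • (Pi.single 1 1 : V2) := by
    ext i
    fin_cases i <;> simp
  have h1 : (Dv e f : V2 → ℝ) x = fderiv ℝ (f : V2 → ℝ) x e := rfl
  have h2 : ((e 0 • D 0 f + e 1 • D 1 f : SP) : V2 → ℝ) x
      = e 0 * fderiv ℝ (f : V2 → ℝ) x (Pi.single 0 1)
        + e 1 * fderiv ℝ (f : V2 → ℝ) x (Pi.single 1 1) := rfl
  rw [h1, h2]
  conv_lhs => rw [he]
  rw [map_add, map_smul, map_smul, smul_eq_mul, smul_eq_mul]

theorem fc_Dv (e : V2) (f : SP) (k : Z2) :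
    fc (Dv e f : V2 → ℝ) k
      = 2 * Real.pi * I * ((k 0 * e 0 + k 1 * e 1 : ℝ) : ℂ) * fc (f : V2 → ℝ) k := by
  rw [Dv_eq_FD, fc_add, fc_smul, fc_smul, fc_D0_FD, fc_D1_FD]
  push_cast
  ring

end Pool.Agent.W_MP_4b1b5d_an
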