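import Pool.Agent.W_MP_4b1b5d_an.FourierB
import Pool.Agent.W_MP_4b1b5d_an.FourierD

set_option autoImplicit false

/-!
# F3: the Fourier form of the equation of an integral

`fr_top`: `L_k · ff 0 k = 0` (the equation `pde a b` with `a + b = m + 1`, whose right side vanishes by
`supp`), hence `ff 0 k = 0` for `k ≠ 0` (integral domain, `G k ≠ 0`), and the top coefficients
are constant by `fc_inj_const`.
`fr`: take the Fourier coefficient at `k` of `pde a b` with `a + b = m - 2j - 1`, using `fc_Dv`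
(`D i f` has coefficient `2πi k_i fc f k`), `fc_mul`; divide by `2πi`; multiply by `p₀^a p₁^b` and sum:
`∑_{k'} fc U k' · (D_{k'} ff j (k - k'))(p) = L_k(p) · ff (j+1) k (p)`.
(`(a+1) fc (K (a+1) b) p₀^a p₁^b` are the terms of `∂_{p₀}`.)  If `2j > m` both sides vanish; if
`m = 2j` then `ff j` has degree `0`, `Dp` of it vanishes and `ff (j+1) = 0`.
`fr0` is the case `j = 0`, where only `k' = k` contributes, as an identity of polynomials.
-/

namespace Pool.Agent.W_MP_4b1b5d_an

theorem FRTop_mulVec_ne (G : M2) (hG : G.PosDef) (k : Z2) (hk : k ≠ 0) :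
    G.mulVec (toR k) ≠ 0 := by
  intro h
  have hx : (toR k) ≠ 0 := by
    intro h0
    apply hk
    funext i
    have := congrFun h0 i
    simpa [toR] using this
  have := hG.dotProduct_mulVec_pos hx
  rw [h] at this
  simp at this

theorem FRTop_pde (G : M2) (hG : G.PosDef) (U : SP) (m : ℕ) (K : ℕ → ℕ → SP) (hK : IsK G U m K)
    (k : Z2) (a b : ℕ) (hab : a + b = m + 1) :
    ((G.mulVec (toR k) 0 : ℝ) : ℂ) * fc ((sh0 K a b : SP) : V2 → ℝ) k
      + ((G.mulVec (toR k) 1 : ℝ) : ℂ) * fc ((sh1 K a b : SP) : V2 → ℝ) k = 0 := by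
  have h1 : K (a + 1) b = 0 := hK.supp _ _ (by omega)
  have h2 : K a (b + 1) = 0 := hK.supp _ _ (by omega)
  have h := hK.pde a b
  rw [h1, h2] at h
  simp only [mul_zero, smul_zero, add_zero] at h
  have h3 := congrArg (fun f : SP => fc (f : V2 → ℝ) k) h
  simp only [fc_add, fc_smul, fc_Dv] at h3
  have h4 : fc ((0 : SP) : V2 → ℝ) k = 0 := by
    simp [fc]
  rw [h4] at h3
  have hs : G 1 0 = G 0 1 := by
    have := hG.isHermitian.apply 0 1
    simpa using this
  have hpi : (2 * (Real.pi : ℂ) * Complex.I) ≠ 0 := Complex.two_pi_I_ne_zero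
  apply mul_left_cancel₀ hpi
  rw [mul_zero]
  rw [← h3, hs]
  simp only [Matrix.mulVec, dotProduct, Fin.sum_univ_two, toR, Pi.single_eq_same]
  simp only [hs]
  have e1 : (Pi.single (0 : Fin 2) (1 : ℝ) : Fin 2 → ℝ) 1 = 0 := by simp
  have e2 : (Pi.single (1 : Fin 2) (1 : ℝ) : Fin 2 → ℝ) 0 = 0 := by simp
  rw [e1, e2]
  push_cast
  ring

theorem FRTop_coeff (G : M2) (hG : G.PosDef) (U : SP) (m : ℕ) (K : ℕ → ℕ → SP) (hK : IsK G U m K)
    (k : Z2) (hk : k ≠ 0) (a : ℕ) (ha : a ≤ m) : fc (K a (m - a) : V2 → ℝ) k = 0 := by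
  have hne := FRTop_mulVec_ne G hG k hk
  have h0 : fc ((0 : SP) : V2 → ℝ) k = 0 := by simp [fc]
  by_cases hv : G.mulVec (toR k) 1 = 0
  · have hu : G.mulVec (toR k) 0 ≠ 0 := by
      intro hu
      apply hne
      funext i
      fin_cases i
      · exact hu
      · exact hv
    have h := FRTop_pde G hG U m K hK k (a + 1) (m - a) (by omega)
    rw [hv] at h
    simp only [sh0, Complex.ofReal_zero, zero_mul, add_zero] at h
    rcases mul_eq_zero.1 h with h | h
    · exact absurd (by exact_mod_cast h) hu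
    · exact h
  · have hv' : ((G.mulVec (toR k) 1 : ℝ) : ℂ) ≠ 0 := by exact_mod_cast hv
    induction a with
    | zero =>
      have h := FRTop_pde G hG U m K hK k 0 (m + 1) (by omega)
      simp only [sh0, sh1] at h
      rw [h0, mul_zero, zero_add] at h
      rcases mul_eq_zero.1 h with h | h
      · exact absurd h hv'
      · exact h
    | succ a ih =>
      have ih' := ih (by omega)
      have h := FRTop_pde G hG U m K hK k (a + 1) (m - (a + 1) + 1) (by omega)
      simp only [sh0, sh1] at h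
      have e : m - (a + 1) + 1 = m - a := by omega
      rw [e, ih', mul_zero, zero_add] at h
      rcases mul_eq_zero.1 h with h | h
      · exact absurd h hv'
      · exact h

theorem fr_top (G : M2) (hG : G.PosDef) (U : SP) (m : ℕ) (K : ℕ → ℕ → SP) (hK : IsK G U m K)
    (k : Z2) (hk : k ≠ 0) : ff m K 0 k = 0 := by
  unfold ff
  rw [if_pos (by omega)]
  apply Finset.sum_eq_zero
  intro a ha
  rw [Finset.mem_range] at ha
  have h := FRTop_coeff G hG U m K hK k hk a (by omega)
  simp only [mul_zero, Nat.sub_zero]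
  rw [h]
  simp

theorem top_const (G : M2) (hG : G.PosDef) (U : SP) (m : ℕ) (K : ℕ → ℕ → SP) (hK : IsK G U m K)
    (a : ℕ) (ha : a ≤ m) : K a (m - a) = algebraMap ℝ SP ((K a (m - a) : V2 → ℝ) 0) :=
  fc_inj_const _ fun k hk => FRTop_coeff G hG U m K hK k hk a ha

theorem FRTop_fc_const_zero (c : ℝ) : fc ((algebraMap ℝ SP c : SP) : V2 → ℝ) 0 = (c : ℂ) := by
  have h : ∀ x : V2, ((algebraMap ℝ SP c : SP) : V2 → ℝ) x = c := fun x => rfl
  unfold fc
  simp [h]

theorem ff_zero_zero (G : M2) (hG : G.PosDef) (U : SP) (m : ℕ) (K : ℕ → ℕ → SP)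
    (hK : IsK G U m K) : ff m K 0 0 = MvPolynomial.map (algebraMap ℝ ℂ) (PR m K) := by
  unfold ff PR
  rw [if_pos (by omega)]
  rw [map_sum]
  simp only [mul_zero, Nat.sub_zero]
  apply Finset.sum_congr rfl
  intro a ha
  rw [Finset.mem_range] at ha
  have h : fc (K a (m - a) : V2 → ℝ) 0 = (((K a (m - a) : V2 → ℝ) 0 : ℝ) : ℂ) := by
    have h1 := top_const G hG U m K hK a (by omega)
    obtain ⟨c, hc⟩ : ∃ c : ℝ, c = (K a (m - a) : V2 → ℝ) 0 := ⟨_, rfl⟩
    rw [← hc] at h1 ⊢
    rw [h1]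
    exact FRTop_fc_const_zero c
  rw [h]
  simp

theorem FRTop_term {R : Type*} [CommSemiring R] (c : R) (a b n : ℕ) (h : a + b = n) :
    (MvPolynomial.C c * MvPolynomial.X 0 ^ a * MvPolynomial.X 1 ^ b :
      MvPolynomial (Fin 2) R).IsHomogeneous n := by
  have h1 := ((MvPolynomial.isHomogeneous_C (Fin 2) c).mul
    ((MvPolynomial.isHomogeneous_X R (0 : Fin 2)).pow a)).mul
    ((MvPolynomial.isHomogeneous_X R (1 : Fin 2)).pow b)
  have e : 0 + 1 * a + 1 * b = n := by omega
  rw [e] at h1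
  exact h1

theorem PR_homogeneous (m : ℕ) (K : ℕ → ℕ → SP) : (PR m K).IsHomogeneous m := by
  unfold PR
  apply MvPolynomial.IsHomogeneous.sum
  intro a ha
  rw [Finset.mem_range] at ha
  exact FRTop_term _ _ _ _ (by omega)

theorem ff_homogeneous (m : ℕ) (K : ℕ → ℕ → SP) (j : ℕ) (k : Z2) :
    (ff m K j k).IsHomogeneous (m - 2 * j) := by
  unfold ff
  split_ifs with h
  · apply MvPolynomial.IsHomogeneous.sum
    intro a ha
    rw [Finset.mem_range] at ha
    exact FRTop_term _ _ _ _ (by omega)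
  · exact MvPolynomial.isHomogeneous_zero _ _ _

theorem ff_big (m : ℕ) (K : ℕ → ℕ → SP) (j : ℕ) (k : Z2) (hj : m < 2 * j) :
    ff m K j k = 0 := by
  unfold ff
  rw [if_neg (by omega)]

end Pool.Agent.W_MP_4b1b5d_an
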