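import Pool.Agent.W_MP_4b1b5d_an.Angles

set_option autoImplicit false

/-!
# G2: radial polynomials and critical directions

* `Rad` means that the derivative of `P` along every `G`-circle vanishes, so `P` (homogeneous of
  degree `m`) is `c (ip p p)^{m/2}` as a function.  (Along the curve
  `θ ↦ tau⁻¹(e^{iθ} z)`, or with `complex_form`: `∑ (2a - m) c_a z^a z̄^{m-a} = 0` for all `z`, so
  `c_a = 0` for `2a ≠ m` by `complex_unique`.)
* For odd `m` this gives `P = 0`.
* `crit G P` is a homogeneous polynomial function of degree `m` of `k`; on the line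
  `t ↦ m1 + t m2` it is a polynomial in `t`, which is not zero if `P` is not radial.
-/

namespace Pool.Agent.W_MP_4b1b5d_an

/-- derivative of a polynomial along a line -/
theorem Radial_hasDerivAt (P : RP) (q k : V2) :
    HasDerivAt (fun t : ℝ => MvPolynomial.eval (q + t • k) P)
      (k 0 * MvPolynomial.eval q (MvPolynomial.pderiv 0 P)
        + k 1 * MvPolynomial.eval q (MvPolynomial.pderiv 1 P)) 0 := by
  induction P using MvPolynomial.induction_on with
  | C a =>
    simp only [MvPolynomial.eval_C, MvPolynomial.pderiv_C, map_zero, mul_zero, add_zero]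
    exact hasDerivAt_const _ _
  | add P Q hP hQ =>
    have h := hP.fun_add hQ
    simp only [map_add]
    refine h.congr_deriv ?_
    ring
  | mul_X P i hP =>
    have hX : HasDerivAt (fun t : ℝ => (q + t • k) i) (k i) 0 := by
      simp only [Pi.add_apply, Pi.smul_apply, smul_eq_mul]
      have h1 := ((hasDerivAt_id (0 : ℝ)).mul_const (k i)).const_add (q i)
      simpa using h1
    have h2 := hP.fun_mul hX
    simp only [map_mul, MvPolynomial.eval_X, Derivation.leibniz, smul_eq_mul, map_add,
      MvPolynomial.pderiv_X]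
    refine h2.congr_deriv ?_
    rw [zero_smul, add_zero]
    fin_cases i <;> simp <;> ring

/-- the rotation `k ↦ J (G k)` is multiplication by `i √det G` -/
theorem Radial_tau_J (G : M2) (hG : G.PosDef) (k : V2) :
    tau G (J (G.mulVec k)) = Complex.I * (√G.det : ℂ) * tau G k := by
  by_cases hk : k = 0
  · subst hk
    have h0 : tau G 0 = 0 := by
      have := tau_smul G 0 0
      simpa using this
    have h1 : J (G.mulVec 0) = 0 := by
      rw [Matrix.mulVec_zero]
      ext i
      fin_cases i <;> simp [J]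
    rw [h1, h0, mul_zero]
  · have h1 := tau_mul G hG k (J (G.mulVec k))
    have h2 := tau_mul G hG k k
    have hs := g_symm G hG
    have e1 : ip G k (J (G.mulVec k)) = 0 := by
      simp only [ip, J, Matrix.mulVec, dotProduct, Fin.sum_univ_two, Matrix.cons_val_zero,
        Matrix.cons_val_one, hs]
      ring
    have e2 : det2 k (J (G.mulVec k)) = ip G k k := by
      simp only [ip, det2, J, Matrix.mulVec, dotProduct, Fin.sum_univ_two, Matrix.cons_val_zero,
        Matrix.cons_val_one]
      ring
    have e3 : det2 k k = 0 := by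
      unfold det2
      ring
    rw [e1, e2] at h1
    rw [e3] at h2
    have hne : (starRingEnd ℂ) (tau G k) ≠ 0 := by
      rw [Ne, map_eq_zero]
      exact tau_ne G hG k hk
    apply mul_left_cancel₀ hne
    rw [h1]
    have h3 : (starRingEnd ℂ) (tau G k) * (Complex.I * (√G.det : ℂ) * tau G k) =
        Complex.I * (√G.det : ℂ) * ((starRingEnd ℂ) (tau G k) * tau G k) := by ring
    rw [h3, h2]
    push_cast
    ring

/-- the coefficients of a radial polynomial -/
theorem Radial_coeff (G : M2) (hG : G.PosDef) (P : RP) (m : ℕ) (hr : Rad G P) (c : ℕ → ℂ)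
    (hc : ∀ p : V2, (MvPolynomial.eval p P : ℂ)
      = ∑ a ∈ Finset.range (m + 1), c a * tau G p ^ a * (starRingEnd ℂ) (tau G p) ^ (m - a)) :
    ∀ a ≤ m, 2 * a ≠ m → c a = 0 := by
  have hdet := det_pos G hG
  have hs0 : (√G.det : ℂ) ≠ 0 := by
    have : √G.det ≠ 0 := (Real.sqrt_pos.2 hdet).ne'
    exact_mod_cast this
  have key : ∀ z : ℂ, ∑ a ∈ Finset.range (m + 1), (((m : ℂ) - 2 * a) * c a) * z ^ a *
      (starRingEnd ℂ) z ^ (m - a) = 0 := by
    intro z
    set s : ℂ := (√G.det : ℂ) with hs
    obtain ⟨k, hk⟩ := tau_surj G hG (-Complex.I * z / s)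
    set q : V2 := J (G.mulVec k) with hq
    have hz : tau G q = z := by
      rw [hq, Radial_tau_J G hG, hk]
      rw [← hs]
      field_simp
      rw [Complex.I_sq]
      ring
    set w : ℂ := -Complex.I * z / s with hw
    have hconjs : (starRingEnd ℂ) s = s := by rw [hs]; exact Complex.conj_ofReal _
    have hwc : (starRingEnd ℂ) w = Complex.I * (starRingEnd ℂ) z / s := by
      rw [hw]
      simp only [map_div₀, map_mul, map_neg, Complex.conj_I, hconjs, neg_neg]
    -- derivative of the left side
    have hL : HasDerivAt (fun t : ℝ => ((MvPolynomial.eval (q + t • k) P : ℝ) : ℂ))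
        ((0 : ℝ) : ℂ) 0 := by
      have h1 := (Radial_hasDerivAt P q k)
      have h2 : k 0 * MvPolynomial.eval q (MvPolynomial.pderiv 0 P)
          + k 1 * MvPolynomial.eval q (MvPolynomial.pderiv 1 P) = 0 := hr k
      rw [h2] at h1
      exact h1.ofReal_comp
    have hf : (fun t : ℝ => ((MvPolynomial.eval (q + t • k) P : ℝ) : ℂ)) =
        fun t : ℝ => ∑ a ∈ Finset.range (m + 1), c a * (z + t * w) ^ a *
          ((starRingEnd ℂ) z + t * (starRingEnd ℂ) w) ^ (m - a) := by
      funext t
      rw [hc, tau_add, tau_smul, hz, hk]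
      simp only [map_add, map_mul, Complex.conj_ofReal]
    rw [hf] at hL
    have hlin : ∀ u v : ℂ, HasDerivAt (fun t : ℝ => u + (t : ℂ) * v) v 0 := by
      intro u v
      have h1 : HasDerivAt (fun t : ℝ => (t : ℂ)) 1 0 := Complex.ofRealCLM.hasDerivAt
      have h2 := (h1.mul_const v).const_add u
      simpa using h2
    have hR : HasDerivAt (fun t : ℝ => ∑ a ∈ Finset.range (m + 1), c a * (z + t * w) ^ a *
          ((starRingEnd ℂ) z + t * (starRingEnd ℂ) w) ^ (m - a))
        (∑ a ∈ Finset.range (m + 1),
          (c a * ((a : ℂ) * z ^ (a - 1) * w) * (starRingEnd ℂ) z ^ (m - a) +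
          c a * z ^ a * (((m - a : ℕ) : ℂ) * (starRingEnd ℂ) z ^ (m - a - 1) *
            (starRingEnd ℂ) w))) 0 := by
      apply HasDerivAt.fun_sum
      intro a _
      have h1 := (hlin z w).fun_pow a
      have h2 := (hlin ((starRingEnd ℂ) z) ((starRingEnd ℂ) w)).fun_pow (m - a)
      have h3 := (h1.const_mul (c a)).fun_mul h2
      refine h3.congr_deriv ?_
      simp only [Complex.ofReal_zero, zero_mul, add_zero]
    have hu := hR.unique hL
    have hterm : ∀ a ∈ Finset.range (m + 1),
        (c a * ((a : ℂ) * z ^ (a - 1) * w) * (starRingEnd ℂ) z ^ (m - a) +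
          c a * z ^ a * (((m - a : ℕ) : ℂ) * (starRingEnd ℂ) z ^ (m - a - 1) *
            (starRingEnd ℂ) w)) =
        Complex.I / s * ((((m : ℂ) - 2 * a) * c a) * z ^ a * (starRingEnd ℂ) z ^ (m - a)) := by
      intro a ha
      have ha' : a ≤ m := by
        have := Finset.mem_range.1 ha
        omega
      have e1 : ∀ (n : ℕ) (x : ℂ), (n : ℂ) * x ^ (n - 1) * x = n * x ^ n := by
        intro n x
        cases n with
        | zero => simp
        | succ n => rw [Nat.add_sub_cancel, pow_succ]; ring
      have e2 : (a : ℂ) * z ^ (a - 1) * w = -Complex.I / s * (a * z ^ a) := by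
        rw [← e1 a z, hw]
        ring
      have e3 : ((m - a : ℕ) : ℂ) * (starRingEnd ℂ) z ^ (m - a - 1) * (starRingEnd ℂ) w =
          Complex.I / s * ((m - a : ℕ) * (starRingEnd ℂ) z ^ (m - a)) := by
        rw [← e1 (m - a) ((starRingEnd ℂ) z), hwc]
        ring
      rw [e2, e3, Nat.cast_sub ha']
      ring
    rw [Finset.sum_congr rfl hterm, ← Finset.mul_sum, Complex.ofReal_zero] at hu
    have hI : Complex.I / s ≠ 0 := div_ne_zero Complex.I_ne_zero hs0
    exact (mul_eq_zero.1 hu).resolve_left hI
  intro a ha h2a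
  have h1 := complex_unique m (fun a => ((m : ℂ) - 2 * a) * c a) key a ha
  have h2 : ((m : ℂ) - 2 * a) ≠ 0 := by
    intro h3
    apply h2a
    have h4 : ((2 * a : ℕ) : ℂ) = (m : ℂ) := by
      push_cast
      exact (sub_eq_zero.1 h3).symm
    exact_mod_cast h4
  exact (mul_eq_zero.1 h1).resolve_left h2

theorem rad_form (G : M2) (hG : G.PosDef) (P : RP) (m : ℕ) (hP : P.IsHomogeneous m)
    (hm : Even m) (hr : Rad G P) : ∃ c : ℝ, ∀ p : V2, MvPolynomial.eval p P = c * ip G p p ^ (m / 2) := by
  obtain ⟨c, hc⟩ := complex_form G hG P m hP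
  have h0 := Radial_coeff G hG P m hr c hc
  obtain ⟨n, hn⟩ := hm
  have hn2 : m / 2 = n := by omega
  refine ⟨(c n).re, fun p => ?_⟩
  have h1 := hc p
  rw [Finset.sum_eq_single n] at h1
  · have h2 : (starRingEnd ℂ) (tau G p) * tau G p = (ip G p p : ℂ) := by
      have h3 := tau_mul G hG p p
      have e3 : det2 p p = 0 := by
        unfold det2
        ring
      rw [e3] at h3
      simpa using h3
    have h4 : m - n = n := by omega
    rw [h4, mul_assoc, ← mul_pow, mul_comm (tau G p), h2, ← Complex.ofReal_pow] at h1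
    have h5 := congrArg Complex.re h1
    rw [Complex.ofReal_re, Complex.re_mul_ofReal] at h5
    rw [h5, hn2]
  · intro a ha hne
    have ha' : a ≤ m := by
      have := Finset.mem_range.1 ha
      omega
    rw [h0 a ha' (by omega)]
    simp
  · intro h
    exact absurd (Finset.mem_range.2 (by omega)) h

theorem not_rad_of_odd (G : M2) (hG : G.PosDef) (P : RP) (m : ℕ) (hP : P.IsHomogeneous m)
    (hm : Odd m) (hP0 : P ≠ 0) : ¬ Rad G P := by
  intro hr
  obtain ⟨c, hc⟩ := complex_form G hG P m hP
  have h0 := Radial_coeff G hG P m hr c hc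
  apply hP0
  apply MvPolynomial.funext
  intro p
  have h1 := hc p
  rw [Finset.sum_eq_zero] at h1
  · rw [map_zero]
    exact_mod_cast h1
  · intro a ha
    have ha' : a ≤ m := by
      have := Finset.mem_range.1 ha
      omega
    obtain ⟨j, hj⟩ := hm
    rw [h0 a ha' (by omega)]
    simp

end Pool.Agent.W_MP_4b1b5d_an
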