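import Pool.Agent.W_MP_4b1b5d_an.Convert
import Pool.Agent.W_MP_4b1b5d_an.Radial
import Pool.Agent.W_MP_4b1b5d_an.FRTop

set_option autoImplicit false

/-!
# I2: subtracting powers of `H`

Strong induction on a bound `N` for the degree.  Let `n` be the maximal value of `(F x).totalDegree`.
By `toK` and `top_const` the part of degree `n` of `F x` is `PR n K`, the same for all `x`.
If `n` is odd or `PR n K` is not radial we are done.  Otherwise `n = 2 s` and
`PR n K = c (ip p p)^s` as a function (`rad_form`), and
`F' x = F x - C c * (2 H_x)^s`, `H_x` the polynomial of the Hamiltonian at `x`, is an integral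
(`IsInt` is closed under subtraction; `(2 H)^s` is an integral by the chain rule), is not a polynomial
in `H`, and has degree `< n` for all `x` (if `n = 0` then `F x = C c` for all `x`, so `F` is a
polynomial in `H`: contradiction).
-/

namespace Pool.Agent.W_MP_4b1b5d_an

namespace ER

open MvPolynomial

/-- the quadratic form as a polynomial -/
noncomputable def Q (G : M2) : RP := ∑ i, ∑ j, C (G i j) * X i * X j

/-- the polynomial of `2 H` at `x` -/
noncomputable def HP (G : M2) (U : V2 → ℝ) (x : V2) : RP := Q G + C (2 * U x)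

theorem Q_eval (G : M2) (p : V2) : eval p (Q G) = ip G p p := by
  simp only [Q, ip, map_sum, map_mul, eval_C, eval_X]

theorem HP_eval (G : M2) (U : V2 → ℝ) (x p : V2) : eval p (HP G U x) = 2 * Ham G U x p := by
  rw [HP, map_add, Q_eval, eval_C, Ham, ip]
  ring

theorem Q_hom (G : M2) : (Q G).IsHomogeneous 2 := by
  unfold Q
  apply IsHomogeneous.sum
  intro i _
  apply IsHomogeneous.sum
  intro j _
  exact ((isHomogeneous_C (Fin 2) (G i j)).mul (isHomogeneous_X ℝ i)).mul (isHomogeneous_X ℝ j)

theorem Q_deg (G : M2) : (Q G).totalDegree ≤ 2 := (Q_hom G).totalDegree_le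

theorem HP_deg (G : M2) (U : V2 → ℝ) (x : V2) : (HP G U x).totalDegree ≤ 2 := by
  unfold HP
  refine (totalDegree_add _ _).trans (max_le (Q_deg G) ?_)
  rw [totalDegree_C]
  omega

theorem pow_deg {P : RP} {d : ℕ} (h : P.totalDegree ≤ d) (s : ℕ) :
    (P ^ s).totalDegree ≤ s * d :=
  (totalDegree_pow P s).trans (Nat.mul_le_mul_left s h)

/-- the lower order terms -/
theorem low_deg (G : M2) (u : ℝ) (s : ℕ) :
    ((Q G + C u) ^ (s + 1) - (Q G) ^ (s + 1)).totalDegree ≤ 2 * s + 1 := by
  have hQ := Q_deg G
  have hQu : (Q G + C u).totalDegree ≤ 2 := by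
    refine (totalDegree_add _ _).trans (max_le hQ ?_)
    rw [totalDegree_C]
    omega
  induction s with
  | zero =>
    have : (Q G + C u) ^ (0 + 1) - (Q G) ^ (0 + 1) = C u := by ring
    rw [this, totalDegree_C]
    omega
  | succ s ih =>
    have e : (Q G + C u) ^ (s + 1 + 1) - (Q G) ^ (s + 1 + 1) =
        (Q G + C u) * ((Q G + C u) ^ (s + 1) - (Q G) ^ (s + 1)) + C u * (Q G) ^ (s + 1) := by
      ring
    rw [e]
    refine (totalDegree_add _ _).trans (max_le ?_ ?_)
    · refine (totalDegree_mul _ _).trans ?_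
      omega
    · refine (totalDegree_mul _ _).trans ?_
      rw [totalDegree_C]
      have := pow_deg hQ (s + 1)
      omega

/-- smooth coefficients -/
def Sm (A : V2 → RP) : Prop := ∀ m, ContDiff ℝ (⊤ : ℕ∞) (fun x => (A x).coeff m)

theorem Sm.mul {A B : V2 → RP} (hA : Sm A) (hB : Sm B) : Sm (fun x => A x * B x) := by
  intro m
  simp only [coeff_mul]
  exact ContDiff.sum fun ij _ => (hA ij.1).mul (hB ij.2)

theorem Sm.sub {A B : V2 → RP} (hA : Sm A) (hB : Sm B) : Sm (fun x => A x - B x) := by
  intro m
  simp only [coeff_sub]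
  exact (hA m).sub (hB m)

theorem Sm.add {A B : V2 → RP} (hA : Sm A) (hB : Sm B) : Sm (fun x => A x + B x) := by
  intro m
  simp only [coeff_add]
  exact (hA m).add (hB m)

theorem Sm.const (P : RP) : Sm (fun _ => P) := fun _ => contDiff_const

theorem Sm.pow {A : V2 → RP} (hA : Sm A) (s : ℕ) : Sm (fun x => A x ^ s) := by
  induction s with
  | zero =>
    simp only [pow_zero]
    exact Sm.const 1
  | succ s ih =>
    simp only [pow_succ]
    exact ih.mul hA

theorem Sm.coef {u : V2 → ℝ} (hu : ContDiff ℝ (⊤ : ℕ∞) u) : Sm (fun x => C (u x)) := by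
  intro m
  simp only [coeff_C]
  by_cases h : 0 = m
  · simp only [if_pos h]
    exact hu
  · simp only [if_neg h]
    exact contDiff_const

theorem HP_sm (G : M2) (U : SP) : Sm (HP G U) := by
  unfold HP
  exact (Sm.const _).add (Sm.coef (contDiff_const.mul (sp_contDiff U)))

/-- the monomials of degree at most `N` in each variable -/
noncomputable def TT (N : ℕ) : Finset (Fin 2 →₀ ℕ) :=
  (Finset.range (N + 1) ×ˢ Finset.range (N + 1)).image
    (fun ab => Finsupp.single 0 ab.1 + Finsupp.single 1 ab.2)

theorem fin2_eq (m : Fin 2 →₀ ℕ) : m = Finsupp.single 0 (m 0) + Finsupp.single 1 (m 1) := by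
  ext i
  fin_cases i
  · simp
  · simp

theorem deg_eq (m : Fin 2 →₀ ℕ) : m.degree = m 0 + m 1 := by
  rw [Finsupp.degree_eq_sum, Fin.sum_univ_two]

theorem mem_deg {P : RP} {m : Fin 2 →₀ ℕ} (h : m ∈ P.support) : m.degree ≤ P.totalDegree := by
  exact le_totalDegree h

theorem coeff_zero_of_lt {P : RP} {m : Fin 2 →₀ ℕ} (h : P.totalDegree < m.degree) :
    P.coeff m = 0 := by
  by_contra hcon
  have := mem_deg (mem_support_iff.2 hcon)
  omega

theorem eval_TT {P : RP} {N : ℕ} (h : P.totalDegree ≤ N) (p : V2) :
    eval p P = ∑ m ∈ TT N, P.coeff m * ∏ i, p i ^ m i := by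
  rw [eval_eq']
  apply Finset.sum_subset
  · intro m hm
    have h1 := mem_deg hm
    rw [deg_eq] at h1
    unfold TT
    rw [Finset.mem_image]
    refine ⟨(m 0, m 1), ?_, (fin2_eq m).symm⟩
    rw [Finset.mem_product, Finset.mem_range, Finset.mem_range]
    constructor
    · show m 0 < N + 1
      omega
    · show m 1 < N + 1
      omega
  · intro m _ hm
    rw [notMem_support_iff.1 hm, zero_mul]

theorem eval_cd {A : V2 → RP} (hA : Sm A) {N : ℕ} (h : ∀ x, (A x).totalDegree ≤ N) (p : V2) :
    ContDiff ℝ (⊤ : ℕ∞) (fun x => eval p (A x)) := by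
  have : (fun x => eval p (A x)) = fun x => ∑ m ∈ TT N, (A x).coeff m * ∏ i, p i ^ m i := by
    funext x
    exact eval_TT (h x) p
  rw [this]
  exact ContDiff.sum fun m _ => (hA m).mul contDiff_const

theorem upd_diff (x : V2) (i : Fin 2) : Differentiable ℝ (fun t : ℝ => Function.update x i t) := by
  rw [differentiable_pi]
  intro j
  by_cases h : j = i
  · subst h
    simp only [Function.update_self]
    exact differentiable_id
  · simp only [Function.update_of_ne h]
    exact differentiable_const _

theorem eval_p_diff (P : RP) : Differentiable ℝ (fun p : V2 => eval p P) := by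
  have : (fun p : V2 => eval p P) = fun p : V2 => ∑ m ∈ P.support, P.coeff m * ∏ i, p i ^ m i := by
    funext p
    rw [eval_eq']
  rw [this]
  simp only [Fin.prod_univ_two]
  fun_prop

theorem isInt_sub (G : M2) (U : SP) (F : V2 → RP) (hF : IsInt (Ham G U) F) (c : ℝ) (s : ℕ) :
    IsInt (Ham G U) (fun x => F x - C c * HP G U x ^ s) := by
  obtain ⟨h1, h2, ⟨N, h3⟩, h4⟩ := hF
  refine ⟨?_, ?_, ?_, ?_⟩
  · exact Sm.sub (A := F) h1 ((Sm.const (C c)).mul ((HP_sm G U).pow s))
  · intro x k
    have e : (U : V2 → ℝ) (x + fun i => (k i : ℝ)) = (U : V2 → ℝ) x := sp_per U x k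
    simp only [h2 x k, HP, e]
  · refine ⟨max N (s * 2), fun x => ?_⟩
    refine (totalDegree_sub _ _).trans (max_le_max (h3 x) ?_)
    refine (totalDegree_mul _ _).trans ?_
    rw [totalDegree_C, zero_add]
    exact pow_deg (HP_deg G U x) s
  · intro x p
    have hHx : ∀ i : Fin 2, DifferentiableAt ℝ (fun t => Ham G U (Function.update x i t) p) (x i) := by
      intro i
      have hh : Differentiable ℝ (fun y : V2 => Ham G U y p) := by
        unfold Ham
        exact (differentiable_const _).add (sp_diff U)
      exact (hh.comp (upd_diff x i)) (x i)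
    have hHp : ∀ i : Fin 2, DifferentiableAt ℝ (fun t => Ham G U x (Function.update p i t)) (p i) := by
      intro i
      have hh : Differentiable ℝ (fun q : V2 => Ham G U x q) := by
        unfold Ham
        fun_prop
      exact (hh.comp (upd_diff p i)) (p i)
    have hFx : ∀ i : Fin 2, DifferentiableAt ℝ (fun t => eval p (F (Function.update x i t))) (x i) := by
      intro i
      have hh : Differentiable ℝ (fun y : V2 => eval p (F y)) :=
        (eval_cd h1 h3 p).differentiable (by simp)
      exact (hh.comp (upd_diff x i)) (x i)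
    have hFp : ∀ i : Fin 2, DifferentiableAt ℝ (fun t => eval (Function.update p i t) (F x)) (p i) := by
      intro i
      exact ((eval_p_diff (F x)).comp (upd_diff p i)) (p i)
    have dx : ∀ i : Fin 2, deriv (fun t => eval p (F (Function.update x i t)
        - C c * HP G U (Function.update x i t) ^ s)) (x i)
        = deriv (fun t => eval p (F (Function.update x i t))) (x i)
          - c * (s * (2 * Ham G U x p) ^ (s - 1) *
            (2 * deriv (fun t => Ham G U (Function.update x i t) p) (x i))) := by
      intro i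
      have e : (fun t => eval p (F (Function.update x i t) - C c * HP G U (Function.update x i t) ^ s))
          = fun t => eval p (F (Function.update x i t))
            - c * (2 * Ham G U (Function.update x i t) p) ^ s := by
        funext t
        rw [map_sub, map_mul, map_pow, eval_C, HP_eval]
      rw [e]
      have hd : HasDerivAt (fun t => c * (2 * Ham G U (Function.update x i t) p) ^ s)
          (c * (s * (2 * Ham G U (Function.update x i (x i)) p) ^ (s - 1) *
            (2 * deriv (fun t => Ham G U (Function.update x i t) p) (x i)))) (x i) :=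
        (((hHx i).hasDerivAt.const_mul 2).pow s).const_mul c
      rw [Function.update_eq_self] at hd
      exact ((hFx i).hasDerivAt.sub hd).deriv
    have dp : ∀ i : Fin 2, deriv (fun t => eval (Function.update p i t) (F x
        - C c * HP G U x ^ s)) (p i)
        = deriv (fun t => eval (Function.update p i t) (F x)) (p i)
          - c * (s * (2 * Ham G U x p) ^ (s - 1) *
            (2 * deriv (fun t => Ham G U x (Function.update p i t)) (p i))) := by
      intro i
      have e : (fun t => eval (Function.update p i t) (F x - C c * HP G U x ^ s))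
          = fun t => eval (Function.update p i t) (F x)
            - c * (2 * Ham G U x (Function.update p i t)) ^ s := by
        funext t
        rw [map_sub, map_mul, map_pow, eval_C, HP_eval]
      rw [e]
      have hd : HasDerivAt (fun t => c * (2 * Ham G U x (Function.update p i t)) ^ s)
          (c * (s * (2 * Ham G U x (Function.update p i (p i))) ^ (s - 1) *
            (2 * deriv (fun t => Ham G U x (Function.update p i t)) (p i)))) (p i) :=
        (((hHp i).hasDerivAt.const_mul 2).pow s).const_mul c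
      rw [Function.update_eq_self] at hd
      exact ((hFp i).hasDerivAt.sub hd).deriv
    have h5 := h4 x p
    rw [← h5]
    apply Finset.sum_congr rfl
    intro i _
    rw [dx i, dp i]
    ring

theorem polyH_of_sub (G : M2) (U : SP) (F : V2 → RP) (c : ℝ) (s : ℕ)
    (h : PolyH (Ham G U) (fun x => F x - C c * HP G U x ^ s)) : PolyH (Ham G U) F := by
  obtain ⟨q, hq⟩ := h
  refine ⟨q + Polynomial.C c * (Polynomial.C 2 * Polynomial.X) ^ s, fun x p => ?_⟩
  have h1 := hq x p
  rw [map_sub, map_mul, map_pow, eval_C, HP_eval] at h1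
  simp only [Polynomial.eval_add, Polynomial.eval_mul, Polynomial.eval_pow, Polynomial.eval_C,
    Polynomial.eval_X]
  linarith

theorem coeff_PR (n : ℕ) (K : ℕ → ℕ → SP) (m : Fin 2 →₀ ℕ) (hm : m.degree = n) :
    (PR n K).coeff m = (K (m 0) (n - m 0) : V2 → ℝ) 0 := by
  rw [deg_eq] at hm
  unfold PR
  rw [coeff_sum, Finset.sum_eq_single (m 0)]
  · have e : (C ((K (m 0) (n - m 0) : V2 → ℝ) 0) * X 0 ^ (m 0) * X 1 ^ (n - m 0) : RP)
        = monomial m ((K (m 0) (n - m 0) : V2 → ℝ) 0) := by
      have e1 : n - m 0 = m 1 := by omega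
      rw [e1, C_mul_X_pow_eq_monomial, X_pow_eq_monomial, monomial_mul, mul_one, ← fin2_eq]
    rw [e, coeff_monomial, if_pos rfl]
  · intro a ha hne
    rw [Finset.mem_range] at ha
    have e : (C ((K a (n - a) : V2 → ℝ) 0) * X 0 ^ a * X 1 ^ (n - a) : RP)
        = monomial (Finsupp.single 0 a + Finsupp.single 1 (n - a)) ((K a (n - a) : V2 → ℝ) 0) := by
      rw [C_mul_X_pow_eq_monomial, X_pow_eq_monomial, monomial_mul, mul_one]
    rw [e, coeff_monomial, if_neg]
    intro h
    apply hne
    rw [← h]
    simp
  · intro h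
    exfalso
    apply h
    rw [Finset.mem_range]
    omega

end ER

open MvPolynomial in
theorem even_reduce (G : M2) (hG : G.PosDef) (U : SP) (N : ℕ) (F : V2 → RP)
    (hF : IsInt (Ham G U) F) (hle : ∀ x, (F x).totalDegree ≤ N) (hnp : ¬ PolyH (Ham G U) F) :
    ∃ (n : ℕ) (K : ℕ → ℕ → SP), IsK G U n K ∧ (∃ a, a ≤ n ∧ K a (n - a) ≠ 0) ∧
      (Odd n ∨ (Even n ∧ ¬ Rad G (PR n K))) := by
  induction N using Nat.strong_induction_on generalizing F with
  | _ N ih =>
    -- the maximal degree
    obtain ⟨n, hnN, hn, x0, hx0⟩ : ∃ n, n ≤ N ∧ (∀ x, (F x).totalDegree ≤ n) ∧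
        ∃ x, (F x).totalDegree = n := by
      have hfin : (Set.range fun x => (F x).totalDegree).Finite :=
        (Set.finite_Iic N).subset (by rintro _ ⟨x, rfl⟩; exact hle x)
      obtain ⟨n, ⟨x0, hx0⟩, hmax⟩ := Set.Finite.exists_maximal hfin ⟨_, ⟨0, rfl⟩⟩
      refine ⟨n, ?_, fun x => ?_, x0, hx0⟩
      · rw [← hx0]; exact hle x0
      · by_contra hcon
        have h1 := hmax ⟨x, rfl⟩ (not_le.1 hcon).le
        exact hcon h1
    have hne : ∃ x, F x ≠ 0 := by
      by_contra hcon
      push Not at hcon
      exact hnp ⟨0, fun x p => by rw [hcon x]; simp⟩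
    obtain ⟨K, hK, hKne, hKc⟩ := toK G hG U F hF n hn ⟨x0, hx0⟩ hne
    by_cases hodd : Odd n
    · exact ⟨n, K, hK, hKne, Or.inl hodd⟩
    have heven : Even n := Nat.not_odd_iff_even.1 hodd
    by_cases hrad : Rad G (PR n K)
    swap
    · exact ⟨n, K, hK, hKne, Or.inr ⟨heven, hrad⟩⟩
    obtain ⟨c, hc⟩ := rad_form G hG (PR n K) n (PR_homogeneous n K) heven hrad
    obtain ⟨s, hs⟩ : ∃ s, n = 2 * s := even_iff_exists_two_mul.1 heven
    have hn2 : n / 2 = s := by omega
    have hPR : PR n K = C c * (ER.Q G) ^ s := by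
      apply MvPolynomial.funext
      intro p
      rw [hc p, hn2, map_mul, map_pow, eval_C, ER.Q_eval]
    have hco : ∀ (x : V2) (m : Fin 2 →₀ ℕ), m.degree = n → (F x).coeff m = (PR n K).coeff m := by
      intro x m hm
      rw [ER.coeff_PR n K m hm]
      have hm' := hm
      rw [ER.deg_eq] at hm'
      have h1 := hKc (m 0) (by omega) x
      have e : n - m 0 = m 1 := by omega
      have h2 := top_const G hG U n K hK (m 0) (by omega)
      have h3 : (K (m 0) (n - m 0) : V2 → ℝ) x = (K (m 0) (n - m 0) : V2 → ℝ) 0 := by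
        have h4 := congrArg (fun f : SP => (f : V2 → ℝ) x) h2
        exact h4
      rw [← h3, h1]
      congr 1
      rw [e]
      exact ER.fin2_eq m
    rcases Nat.eq_zero_or_pos s with hs0 | hs0
    · -- degree zero
      exfalso
      apply hnp
      refine ⟨Polynomial.C c, fun x p => ?_⟩
      have h1 : (F x).totalDegree = 0 := by
        have := hn x
        omega
      have h2 : F x = C ((F x).coeff 0) := totalDegree_eq_zero_iff_eq_C.1 h1
      have h3 := hco x 0 (by rw [map_zero]; omega)
      rw [hPR, hs0, pow_zero, mul_one, coeff_zero_C] at h3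
      rw [h2, h3, eval_C, Polynomial.eval_C]
    · obtain ⟨s', rfl⟩ : ∃ s', s = s' + 1 := ⟨s - 1, by omega⟩
      refine ih (n - 1) (by omega) (fun x => F x - C c * ER.HP G U x ^ (s' + 1))
        (ER.isInt_sub G U F hF c (s' + 1)) (fun x => ?_)
        (fun h => hnp (ER.polyH_of_sub G U F c (s' + 1) h))
      rw [totalDegree, Finset.sup_le_iff]
      intro m hm
      by_contra hcon
      have hcon' : n - 1 < m.degree := not_le.1 hcon
      apply mem_support_iff.1 hm
      have hdeg : (ER.HP G U x ^ (s' + 1)).totalDegree ≤ (s' + 1) * 2 :=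
        ER.pow_deg (ER.HP_deg G U x) (s' + 1)
      rw [coeff_sub, coeff_C_mul]
      rcases Nat.lt_or_ge n m.degree with hlt | hge
      · have h1 := hn x
        rw [ER.coeff_zero_of_lt (P := F x) (by omega),
          ER.coeff_zero_of_lt (P := ER.HP G U x ^ (s' + 1)) (by omega)]
        ring
      · have hmn : m.degree = n := by omega
        have hlow := ER.low_deg G (2 * (U : V2 → ℝ) x) s'
        have h4 := ER.coeff_zero_of_lt (m := m) (P := (ER.Q G + C (2 * (U : V2 → ℝ) x)) ^ (s' + 1)
          - (ER.Q G) ^ (s' + 1)) (by omega)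
        rw [coeff_sub] at h4
        rw [hco x m hmn, hPR, coeff_C_mul, ER.HP]
        linear_combination (-c) * h4

end Pool.Agent.W_MP_4b1b5d_an
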