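import Pool.Agent.W_MP_4b1b5d_an.FRTop

set_option autoImplicit false

/-!
# F3: the Fourier form of the equation of an integral

`fr_top`: `L_k · ff 0 k = 0` (the equation `pde a b` with `a + b = m + 1`, whose right side vanishes by
`supp`), hence `ff 0 k = 0` for `k ≠ 0` (integral domain, `G k ≠ 0`), and the top coefficients
are constant by `fc_inj_const`.
`fr`: take the Fourier coefficient at `k` of `pde a b` with `a + b = m - 2j - 1`, using `fc_Dv`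
(`D i f` has coefficient `2πi k_i fc f k`), `fc_mul`; divide by `2πi`; multiply by `p₀^a p₁^b` and sum:
`∑_{k'} fc U k' · (D_{k'} ff j (k - k'))(p) = L_k(p) · ff (j+1) k (p)`.
(`(a+1) fc (K (a+1) b) p₀^a p₁^b` are the terms of `∂_{p₀}`.)  If `2j > m` both sides vanish; if
`m = 2j` then `ff j` has degree `0`, `Dp` of it vanishes and `ff (j+1) = 0`.
`fr0` is the case `j = 0`, where only `k' = k` contributes, as an identity of polynomials.
-/

namespace Pool.Agent.W_MP_4b1b5d_an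

theorem fc_D (i : Fin 2) (f : SP) (k : Z2) :
    fc (D i f : V2 → ℝ) k = 2 * Real.pi * Complex.I * (k i : ℂ) * fc (f : V2 → ℝ) k := by
  have h := fc_Dv (Pi.single i 1) f k
  rw [h]
  fin_cases i <;> simp

theorem fc_zero (k : Z2) : fc ((0 : SP) : V2 → ℝ) k = 0 := by
  have h := fc_smul 0 (0 : SP) k
  simpa using h

theorem G_symm (G : M2) (hG : G.PosDef) : G 1 0 = G 0 1 := by
  have h := hG.1
  have h2 := h.apply 0 1
  simpa using h2

theorem pde_fc (G : M2) (hG : G.PosDef) (U : SP) (m : ℕ) (K : ℕ → ℕ → SP) (hK : IsK G U m K)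
    (a b : ℕ) (k : Z2) :
    HasSum (fun k' : Z2 => fc (U : V2 → ℝ) k' *
        (((a : ℂ) + 1) * (k' 0 : ℂ) * fc (K (a + 1) b : V2 → ℝ) (k - k')
          + ((b : ℂ) + 1) * (k' 1 : ℂ) * fc (K a (b + 1) : V2 → ℝ) (k - k')))
      (((G.mulVec (toR k) 0 : ℝ) : ℂ) * fc ((sh0 K a b : SP) : V2 → ℝ) k
        + ((G.mulVec (toR k) 1 : ℝ) : ℂ) * fc ((sh1 K a b : SP) : V2 → ℝ) k) := by
  have h := congrArg (fun f : SP => fc (f : V2 → ℝ) k) (hK.pde a b)
  simp only [fc_add, fc_smul] at h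
  simp only [fc_D] at h
  have h0 := (fc_mul (D 0 U) (K (a + 1) b) k).mul_left ((a : ℂ) + 1)
  have h1 := (fc_mul (D 1 U) (K a (b + 1)) k).mul_left ((b : ℂ) + 1)
  have h2 := h0.add h1
  have hc : (((a : ℝ) + 1 : ℝ) : ℂ) = (a : ℂ) + 1 := by push_cast; rfl
  have hd : (((b : ℝ) + 1 : ℝ) : ℂ) = (b : ℂ) + 1 := by push_cast; rfl
  rw [hc, hd] at h
  rw [← h] at h2
  have h3 := h2.mul_left (2 * Real.pi * Complex.I)⁻¹
  have hpi : (2 * Real.pi * Complex.I : ℂ) ≠ 0 := by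
    simp [Real.pi_ne_zero]
  have hs := G_symm G hG
  have e1 : ∀ k' : Z2, (2 * Real.pi * Complex.I)⁻¹ *
      (((a : ℂ) + 1) * (fc (D 0 U : V2 → ℝ) k' * fc (K (a + 1) b : V2 → ℝ) (k - k'))
        + ((b : ℂ) + 1) * (fc (D 1 U : V2 → ℝ) k' * fc (K a (b + 1) : V2 → ℝ) (k - k')))
      = fc (U : V2 → ℝ) k' *
        (((a : ℂ) + 1) * (k' 0 : ℂ) * fc (K (a + 1) b : V2 → ℝ) (k - k')
          + ((b : ℂ) + 1) * (k' 1 : ℂ) * fc (K a (b + 1) : V2 → ℝ) (k - k')) := by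
    intro k'
    rw [fc_D, fc_D]
    rw [inv_mul_eq_iff_eq_mul₀ hpi]
    ring
  have e2 : (2 * Real.pi * Complex.I)⁻¹ *
      ((G 0 0 : ℂ) * (2 * Real.pi * Complex.I * (k 0 : ℂ) * fc ((sh0 K a b : SP) : V2 → ℝ) k) +
          (G 1 0 : ℂ) * (2 * Real.pi * Complex.I * (k 1 : ℂ) * fc ((sh0 K a b : SP) : V2 → ℝ) k) +
        ((G 0 1 : ℂ) * (2 * Real.pi * Complex.I * (k 0 : ℂ) * fc ((sh1 K a b : SP) : V2 → ℝ) k) +
          (G 1 1 : ℂ) * (2 * Real.pi * Complex.I * (k 1 : ℂ) * fc ((sh1 K a b : SP) : V2 → ℝ) k)))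
      = ((G.mulVec (toR k) 0 : ℝ) : ℂ) * fc ((sh0 K a b : SP) : V2 → ℝ) k
        + ((G.mulVec (toR k) 1 : ℝ) : ℂ) * fc ((sh1 K a b : SP) : V2 → ℝ) k := by
    rw [inv_mul_eq_iff_eq_mul₀ hpi]
    simp only [Matrix.mulVec, dotProduct, Fin.sum_univ_two, toR, hs]
    push_cast
    ring
  rw [e2] at h3
  simp only [e1] at h3
  exact h3

theorem ev_Dp_term (k' : V2) (c : ℂ) (a b : ℕ) (p : V2) :
    ev p (Dp k' (MvPolynomial.C c * MvPolynomial.X 0 ^ a * MvPolynomial.X 1 ^ b))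
      = (k' 0 : ℂ) * (c * a * (p 0 : ℂ) ^ (a - 1) * (p 1 : ℂ) ^ b)
        + (k' 1 : ℂ) * (c * b * (p 0 : ℂ) ^ a * (p 1 : ℂ) ^ (b - 1)) := by
  unfold Dp ev
  simp
  ring

theorem ev_Dp_sum {ι : Type*} (s : Finset ι) (f : ι → CP) (k' p : V2) :
    ev p (Dp k' (∑ i ∈ s, f i)) = ∑ i ∈ s, ev p (Dp k' (f i)) := by
  unfold Dp ev
  simp only [map_sum, map_add, map_mul, Finset.mul_sum, Finset.sum_add_distrib]

theorem ev_Dp_ff (m : ℕ) (K : ℕ → ℕ → SP) (j n : ℕ) (hn : m = 2 * j + (n + 1)) (l : Z2) (k' : V2)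
    (p : V2) :
    ev p (Dp k' (ff m K j l)) = ∑ a ∈ Finset.range (n + 1), (p 0 : ℂ) ^ a * (p 1 : ℂ) ^ (n - a) *
      (((a : ℂ) + 1) * (k' 0 : ℂ) * fc (K (a + 1) (n - a) : V2 → ℝ) l
        + (((n - a : ℕ) : ℂ) + 1) * (k' 1 : ℂ) * fc (K a (n - a + 1) : V2 → ℝ) l) := by
  have h1 : 2 * j ≤ m := by omega
  have h2 : m - 2 * j = n + 1 := by omega
  unfold ff
  rw [if_pos h1, h2, ev_Dp_sum]
  simp only [ev_Dp_term]
  rw [Finset.sum_add_distrib]
  rw [Finset.sum_range_succ' (fun a => (k' 0 : ℂ) * (fc (K a (n + 1 - a) : V2 → ℝ) l * (a : ℂ)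
    * (p 0 : ℂ) ^ (a - 1) * (p 1 : ℂ) ^ (n + 1 - a))) (n + 1)]
  rw [Finset.sum_range_succ (fun a => (k' 1 : ℂ) * (fc (K a (n + 1 - a) : V2 → ℝ) l
    * ((n + 1 - a : ℕ) : ℂ) * (p 0 : ℂ) ^ a * (p 1 : ℂ) ^ (n + 1 - a - 1))) (n + 1)]
  have e1 : (k' 0 : ℂ) * (fc (K 0 (n + 1 - 0) : V2 → ℝ) l * ((0 : ℕ) : ℂ)
    * (p 0 : ℂ) ^ (0 - 1) * (p 1 : ℂ) ^ (n + 1 - 0)) = 0 := by simp
  have e2 : (k' 1 : ℂ) * (fc (K (n + 1) (n + 1 - (n + 1)) : V2 → ℝ) l
    * ((n + 1 - (n + 1) : ℕ) : ℂ) * (p 0 : ℂ) ^ (n + 1) * (p 1 : ℂ) ^ (n + 1 - (n + 1) - 1)) = 0 := by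
    simp
  rw [e1, e2, add_zero, add_zero, ← Finset.sum_add_distrib]
  apply Finset.sum_congr rfl
  intro a ha
  rw [Finset.mem_range] at ha
  have f1 : n + 1 - (a + 1) = n - a := by omega
  have f2 : n + 1 - a = n - a + 1 := by omega
  have f3 : n + 1 - a - 1 = n - a := by omega
  rw [f1, f3, f2, Nat.add_sub_cancel]
  push_cast
  ring

theorem ev_ff_sh (m : ℕ) (K : ℕ → ℕ → SP) (j n : ℕ) (hn : m = 2 * j + (n + 1)) (k : Z2)
    (c0 c1 : ℂ) (p : V2) :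
    (c0 * (p 0 : ℂ) + c1 * (p 1 : ℂ)) * ev p (ff m K (j + 1) k)
      = ∑ a ∈ Finset.range (n + 1), (p 0 : ℂ) ^ a * (p 1 : ℂ) ^ (n - a) *
      (c0 * fc ((sh0 K a (n - a) : SP) : V2 → ℝ) k + c1 * fc ((sh1 K a (n - a) : SP) : V2 → ℝ) k) := by
  simp only [mul_add]
  rw [Finset.sum_add_distrib]
  rw [Finset.sum_range_succ' (fun a => (p 0 : ℂ) ^ a * (p 1 : ℂ) ^ (n - a) *
      (c0 * fc ((sh0 K a (n - a) : SP) : V2 → ℝ) k)) n]
  rw [Finset.sum_range_succ (fun a => (p 0 : ℂ) ^ a * (p 1 : ℂ) ^ (n - a) *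
      (c1 * fc ((sh1 K a (n - a) : SP) : V2 → ℝ) k)) n]
  have e1 : (sh0 K 0 (n - 0) : SP) = 0 := rfl
  have e2 : (sh1 K n (n - n) : SP) = 0 := by
    rw [Nat.sub_self]
    unfold sh1
    cases n <;> rfl
  rw [e1, e2, fc_zero]
  simp only [mul_zero, add_zero]
  unfold ff
  rcases Nat.eq_zero_or_pos n with h0 | h0
  · subst h0
    have h : ¬ (2 * (j + 1) ≤ m) := by omega
    rw [if_neg h]
    simp [ev]
  · obtain ⟨q, rfl⟩ : ∃ q, n = q + 1 := ⟨n - 1, by omega⟩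
    have h : 2 * (j + 1) ≤ m := by omega
    have h2 : m - 2 * (j + 1) = q := by omega
    rw [if_pos h, h2]
    unfold ev
    simp only [map_sum, map_mul, map_pow, MvPolynomial.eval_C, MvPolynomial.eval_X]
    rw [add_mul, Finset.mul_sum, Finset.mul_sum]
    congr 1
    · apply Finset.sum_congr rfl
      intro a ha
      rw [Finset.mem_range] at ha
      have f1 : q + 1 - (a + 1) = q - a := by omega
      rw [f1]
      have f2 : (sh0 K (a + 1) (q - a) : SP) = K a (q - a) := rfl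
      rw [f2]
      ring
    · apply Finset.sum_congr rfl
      intro a ha
      rw [Finset.mem_range] at ha
      have f1 : q + 1 - a = (q - a) + 1 := by omega
      rw [f1]
      have f2 : (sh1 K a (q - a + 1) : SP) = K a (q - a) := by
        cases a <;> rfl
      rw [f2]
      ring

theorem fr (G : M2) (hG : G.PosDef) (U : SP) (m : ℕ) (K : ℕ → ℕ → SP) (hK : IsK G U m K) (j : ℕ)
    (k : Z2) (p : V2) :
    HasSum (fun k' : Z2 => fc (U : V2 → ℝ) k' * ev p (Dp (toR k') (ff m K j (k - k'))))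
      (ev p (Lp G (toR k)) * ev p (ff m K (j + 1) k)) := by
  rcases lt_trichotomy m (2 * j) with h | h | h
  · rw [ff_big m K (j + 1) k (by omega)]
    have e : ∀ k' : Z2, fc (U : V2 → ℝ) k' * ev p (Dp (toR k') (ff m K j (k - k'))) = 0 := by
      intro k'
      rw [ff_big m K j _ h]
      simp [Dp, ev]
    simp only [e]
    simp [ev]
  · rw [ff_big m K (j + 1) k (by omega)]
    have e : ∀ k' : Z2, fc (U : V2 → ℝ) k' * ev p (Dp (toR k') (ff m K j (k - k'))) = 0 := by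
      intro k'
      unfold ff
      rw [if_pos (by omega), h, Nat.sub_self]
      simp [Dp, ev]
    simp only [e]
    simp [ev]
  · obtain ⟨n, hn⟩ : ∃ n, m = 2 * j + (n + 1) := ⟨m - 2 * j - 1, by omega⟩
    have hL : ev p (Lp G (toR k)) = ((G.mulVec (toR k) 0 : ℝ) : ℂ) * (p 0 : ℂ)
        + ((G.mulVec (toR k) 1 : ℝ) : ℂ) * (p 1 : ℂ) := by
      simp [Lp, ev]
    rw [hL, ev_ff_sh m K j n hn]
    have hS := hasSum_sum (s := Finset.range (n + 1)) (fun a (_ : a ∈ Finset.range (n + 1)) =>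
      (pde_fc G hG U m K hK a (n - a) k).mul_left ((p 0 : ℂ) ^ a * (p 1 : ℂ) ^ (n - a)))
    have e : ∀ k' : Z2, fc (U : V2 → ℝ) k' * ev p (Dp (toR k') (ff m K j (k - k')))
        = ∑ a ∈ Finset.range (n + 1), (p 0 : ℂ) ^ a * (p 1 : ℂ) ^ (n - a) *
          (fc (U : V2 → ℝ) k' *
            (((a : ℂ) + 1) * (k' 0 : ℂ) * fc (K (a + 1) (n - a) : V2 → ℝ) (k - k')
              + (((n - a : ℕ) : ℂ) + 1) * (k' 1 : ℂ)
                * fc (K a (n - a + 1) : V2 → ℝ) (k - k'))) := by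
      intro k'
      rw [ev_Dp_ff m K j n hn, Finset.mul_sum]
      apply Finset.sum_congr rfl
      intro a _
      simp only [toR]
      push_cast
      ring
    simp only [e]
    exact hS

theorem fr0 (G : M2) (hG : G.PosDef) (U : SP) (m : ℕ) (K : ℕ → ℕ → SP) (hK : IsK G U m K)
    (k : Z2) :
    MvPolynomial.C (fc (U : V2 → ℝ) k) * Dp (toR k) (ff m K 0 0)
      = Lp G (toR k) * ff m K 1 k := by
  have hreal : ∀ p : V2, ev p (MvPolynomial.C (fc (U : V2 → ℝ) k) * Dp (toR k) (ff m K 0 0))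
      = ev p (Lp G (toR k) * ff m K 1 k) := by
    intro p
    have h := fr G hG U m K hK 0 k p
    have h1 : HasSum (fun k' : Z2 => fc (U : V2 → ℝ) k' * ev p (Dp (toR k') (ff m K 0 (k - k'))))
        (fc (U : V2 → ℝ) k * ev p (Dp (toR k) (ff m K 0 (k - k)))) := by
      apply hasSum_single k
      intro k' hk'
      rw [fr_top G hG U m K hK (k - k') (sub_ne_zero.mpr (Ne.symm hk'))]
      simp [Dp, ev]
    have h2 := h1.unique h
    rw [sub_self] at h2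
    unfold ev at h2 ⊢
    rw [map_mul, map_mul, MvPolynomial.eval_C]
    exact h2
  apply MvPolynomial.funext_set (fun _ => Set.range (fun r : ℝ => (r : ℂ)))
  · intro i
    exact Set.infinite_range_of_injective Complex.ofReal_injective
  · intro x hx
    have hx2 : ∀ i, ∃ r : ℝ, (r : ℂ) = x i := fun i => hx i (Set.mem_univ i)
    choose r hr using hx2
    have h := hreal r
    unfold ev at h
    have e : (fun i => (r i : ℂ)) = x := funext hr
    rw [e] at h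
    exact h

end Pool.Agent.W_MP_4b1b5d_an
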