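import Pool.Agent.W_MP_4b1b5d_an.FourierA

set_option autoImplicit false

/-!
# F2: Fourier series of smooth periodic functions: products, uniqueness

Identify a continuous periodic function with a function on `UnitAddTorus (Fin 2)` and `fc` with
`UnitAddTorus.mFourierCoeff` (`mFourierCoeff_eq_integral` with `a = 0`).
* `fc_mul`: Parseval `UnitAddTorus.hasSum_prod_mFourierCoeff` for `f` (real) and
  `g exp(-2πi k·x)`: `fc (f g) k = ∑_{k'} conj (fc f k') fc g (k + k')`, then `k' ↦ -k'`.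
* `fc_inj`: Parseval for norms, `∫ f² = 0` and `f` continuous.
-/

namespace Pool.Agent.W_MP_4b1b5d_an

open MeasureTheory Set
open scoped ComplexConjugate

attribute [local instance] instMeasureSpaceUnitAddCircle

local instance fbHaar : Measure.IsAddHaarMeasure (volume : Measure UnitAddCircle) :=
  inferInstanceAs (Measure.IsAddHaarMeasure AddCircle.haarAddCircle)

local instance fbProb : IsProbabilityMeasure (volume : Measure UnitAddCircle) :=
  inferInstanceAs (IsProbabilityMeasure AddCircle.haarAddCircle)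

/-- projection to the torus -/
def fbQ (x : V2) : UnitAddTorus (Fin 2) := fun i => (x i : UnitAddCircle)

theorem fbQ_quot : IsOpenQuotientMap fbQ :=
  IsOpenQuotientMap.piMap (f := fun (_ : Fin 2) (t : ℝ) => (t : UnitAddCircle))
    (fun _ => QuotientAddGroup.isOpenQuotientMap_mk)

/-- representative in the unit box -/
noncomputable def fbR (y : UnitAddTorus (Fin 2)) : V2 :=
  fun i => ((AddCircle.equivIoc 1 0 (y i)).1 : ℝ)

theorem fbR_fbQ (x : V2) : ∃ k : Z2, fbR (fbQ x) = x + toR k := by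
  have h : ∀ i, ∃ m : ℤ, fbR (fbQ x) i = x i + m := by
    intro i
    have h1 : ((fbR (fbQ x) i : ℝ) : UnitAddCircle) = (x i : UnitAddCircle) := by
      show (((AddCircle.equivIoc 1 0 ((x i : ℝ) : UnitAddCircle)).1 : ℝ) : UnitAddCircle) = _
      exact AddCircle.coe_equivIoc
    rw [QuotientAddGroup.eq_iff_sub_mem, AddSubgroup.mem_zmultiples_iff] at h1
    obtain ⟨m, hm⟩ := h1
    refine ⟨m, ?_⟩
    simp only [zsmul_eq_mul, mul_one] at hm
    linarith
  choose k hk using h
  exact ⟨k, funext fun i => hk i⟩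

/-- the function on the torus -/
noncomputable def fbF (f : SP) : C(UnitAddTorus (Fin 2), ℂ) where
  toFun y := ((f : V2 → ℝ) (fbR y) : ℂ)
  continuous_toFun := by
    rw [← fbQ_quot.continuous_comp_iff]
    have : (fun y => ((f : V2 → ℝ) (fbR y) : ℂ)) ∘ fbQ = fun x => ((f : V2 → ℝ) x : ℂ) := by
      funext x
      obtain ⟨k, hk⟩ := fbR_fbQ x
      simp only [Function.comp]
      rw [hk, sp_per]
    rw [this]
    exact Complex.continuous_ofReal.comp (sp_contDiff f).continuous

theorem fbF_apply (f : SP) (y : UnitAddTorus (Fin 2)) : fbF f y = ((f : V2 → ℝ) (fbR y) : ℂ) := rfl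

theorem fbF_fbQ (f : SP) (x : V2) : fbF f (fbQ x) = ((f : V2 → ℝ) x : ℂ) := by
  obtain ⟨k, hk⟩ := fbR_fbQ x
  show ((f : V2 → ℝ) (fbR (fbQ x)) : ℂ) = _
  rw [hk, sp_per]

theorem fb_mF (k : Z2) (x : V2) : UnitAddTorus.mFourier (-k) (fbQ x)
    = Complex.exp (-(2 * Real.pi * Complex.I * (k 0 * x 0 + k 1 * x 1))) := by
  show (∏ i : Fin 2, fourier ((-k) i) ((x i : ℝ) : UnitAddCircle)) = _
  rw [Fin.prod_univ_two, fourier_coe_apply, fourier_coe_apply, ← Complex.exp_add]
  congr 1
  simp only [Pi.neg_apply]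
  push_cast
  ring

theorem fc_eq (f : SP) (k : Z2) :
    fc (f : V2 → ℝ) k = UnitAddTorus.mFourierCoeff (fbF f) k := by
  rw [UnitAddTorus.mFourierCoeff_eq_integral _ _ 0]
  set H : ℝ × ℝ → ℂ := fun z =>
    Complex.exp (-(2 * Real.pi * Complex.I * (k 0 * z.1 + k 1 * z.2)))
      * ((f : V2 → ℝ) ![z.1, z.2] : ℂ) with hH
  have hc : Continuous H := by
    have h1 : Continuous fun z : ℝ × ℝ => ((f : V2 → ℝ) ![z.1, z.2] : ℂ) := by
      refine Complex.continuous_ofReal.comp ((sp_contDiff f).continuous.comp ?_)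
      refine continuous_pi fun i => ?_
      fin_cases i
      · exact continuous_fst
      · exact continuous_snd
    refine Continuous.mul ?_ h1
    fun_prop
  have e1 : ∀ x : V2, UnitAddTorus.mFourier (-k) (fun i => (x i : UnitAddCircle))
      • fbF f (fun i => (x i : UnitAddCircle)) = H (MeasurableEquiv.finTwoArrow x) := by
    intro x
    have h1 := fb_mF k x
    have h2 := fbF_fbQ f x
    have h3 : (![x 0, x 1] : V2) = x := by
      funext i; fin_cases i <;> rfl
    have h4 : H (MeasurableEquiv.finTwoArrow x) =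
      Complex.exp (-(2 * Real.pi * Complex.I * (k 0 * x 0 + k 1 * x 1)))
      * ((f : V2 → ℝ) ![x 0, x 1] : ℂ) := rfl
    rw [h4, h3, ← h1, ← h2]
    rfl
  have e2 : {x : V2 | ∀ i, x i ∈ Ioc ((0 : V2) i) ((0 : V2) i + 1)}
      = MeasurableEquiv.finTwoArrow ⁻¹' (Ioc (0:ℝ) 1 ×ˢ Ioc (0:ℝ) 1) := by
    ext x
    simp only [mem_ofPred_eq, Pi.zero_apply, zero_add, mem_preimage, mem_prod]
    constructor
    · intro h
      exact ⟨h 0, h 1⟩
    · rintro ⟨h0, h1⟩ i
      fin_cases i
      · exact h0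
      · exact h1
  simp only [e1]
  rw [e2, (volume_preserving_finTwoArrow ℝ).setIntegral_preimage_emb
    (MeasurableEquiv.measurableEmbedding _) H, Measure.volume_eq_prod, setIntegral_prod]
  · unfold fc
    rw [intervalIntegral.integral_of_le zero_le_one]
    refine setIntegral_congr_fun measurableSet_Ioc fun s _ => ?_
    exact intervalIntegral.integral_of_le zero_le_one
  · have h3 : IntegrableOn H (Icc (0:ℝ) 1 ×ˢ Icc (0:ℝ) 1) (volume.prod volume) :=
      hc.continuousOn.integrableOn_compact (isCompact_Icc.prod isCompact_Icc)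
    exact h3.mono_set (prod_mono Ioc_subset_Icc_self Ioc_subset_Icc_self)

theorem fb_toLp_inj : Function.Injective
    (ContinuousMap.toLp (E := ℂ) 2 (volume : Measure (UnitAddTorus (Fin 2))) ℂ) :=
  ContinuousMap.toLp_injective (E := ℂ) (p := 2) (𝕜 := ℂ) (volume : Measure (UnitAddTorus (Fin 2)))

theorem fc_inj (f : SP) (hf : ∀ k : Z2, fc (f : V2 → ℝ) k = 0) : f = 0 := by
  have h2 : ContinuousMap.toLp (E := ℂ) 2 (volume : Measure (UnitAddTorus (Fin 2))) ℂ (fbF f)
      = 0 := by
    apply UnitAddTorus.mFourierBasis.repr.injective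
    rw [map_zero]
    ext k
    rw [UnitAddTorus.mFourierBasis_repr, UnitAddTorus.mFourierCoeff_toLp, ← fc_eq, hf]
    rfl
  have h3 : fbF f = 0 := fb_toLp_inj (by rw [h2, map_zero])
  ext x
  have h4 := fbF_fbQ f x
  rw [h3] at h4
  have h5 : ((f : V2 → ℝ) x : ℂ) = 0 := h4.symm
  exact_mod_cast h5

theorem fc_mul (f g : SP) (k : Z2) :
    HasSum (fun k' : Z2 => fc (f : V2 → ℝ) k' * fc (g : V2 → ℝ) (k - k'))
      (fc ((f * g : SP) : V2 → ℝ) k) := by
  set G : C(UnitAddTorus (Fin 2), ℂ) := UnitAddTorus.mFourier (-k) * fbF g with hG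
  have h1 := UnitAddTorus.hasSum_prod_mFourierCoeff
    (ContinuousMap.toLp (E := ℂ) 2 (volume : Measure (UnitAddTorus (Fin 2))) ℂ (fbF f))
    (ContinuousMap.toLp (E := ℂ) 2 (volume : Measure (UnitAddTorus (Fin 2))) ℂ G)
  simp only [UnitAddTorus.mFourierCoeff_toLp] at h1
  have h2 : ∀ i : Z2, UnitAddTorus.mFourierCoeff G i = fc (g : V2 → ℝ) (k + i) := by
    intro i
    rw [fc_eq]
    unfold UnitAddTorus.mFourierCoeff
    refine integral_congr_ae (Filter.Eventually.of_forall fun t => ?_)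
    simp only [hG, ContinuousMap.mul_apply, smul_eq_mul]
    rw [neg_add, UnitAddTorus.mFourier_add]
    ring
  have h3 : (∫ t, conj ((ContinuousMap.toLp (E := ℂ) 2
      (volume : Measure (UnitAddTorus (Fin 2))) ℂ (fbF f)) t) *
      (ContinuousMap.toLp (E := ℂ) 2 (volume : Measure (UnitAddTorus (Fin 2))) ℂ G) t)
      = fc ((f * g : SP) : V2 → ℝ) k := by
    rw [fc_eq]
    unfold UnitAddTorus.mFourierCoeff
    refine integral_congr_ae ?_
    filter_upwards [ContinuousMap.coeFn_toLp (p := 2) (𝕜 := ℂ)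
      (volume : Measure (UnitAddTorus (Fin 2))) (fbF f),
      ContinuousMap.coeFn_toLp (p := 2) (𝕜 := ℂ)
      (volume : Measure (UnitAddTorus (Fin 2))) G] with t ht1 ht2
    rw [ht1, ht2]
    simp only [hG, ContinuousMap.mul_apply, smul_eq_mul, fbF_apply, Complex.conj_ofReal,
      MulMemClass.coe_mul, Pi.mul_apply, Complex.ofReal_mul]
    ring
  rw [h3] at h1
  have h4 := (Equiv.neg Z2).hasSum_iff.mpr h1
  refine HasSum.congr_fun h4 (fun i => ?_)
  show _ = (starRingEnd ℂ) (UnitAddTorus.mFourierCoeff (fbF f) (-i))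
    * UnitAddTorus.mFourierCoeff G (-i)
  rw [h2, ← fc_eq, fc_neg, Complex.conj_conj, sub_eq_add_neg]

theorem fc_zero_const (c : ℝ) : fc (fun _ => c) 0 = (c : ℂ) := by
  unfold fc
  simp

theorem fc_inj_const (f : SP) (hf : ∀ k : Z2, k ≠ 0 → fc (f : V2 → ℝ) k = 0) :
    f = algebraMap ℝ SP ((f : V2 → ℝ) 0) := by
  have hr : (starRingEnd ℂ) (fc (f : V2 → ℝ) 0) = fc (f : V2 → ℝ) 0 := by
    have := fc_neg f 0
    rw [neg_zero] at this
    exact this.symm
  obtain ⟨c, hc⟩ := Complex.conj_eq_iff_real.mp hr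
  have hconst : ((algebraMap ℝ SP c : SP) : V2 → ℝ) = fun _ => c := rfl
  have h0 : f + (-1 : ℝ) • algebraMap ℝ SP c = 0 := by
    apply fc_inj
    intro k
    rw [fc_add, fc_smul, hconst]
    by_cases hk : k = 0
    · subst hk
      rw [hc, fc_zero_const]
      push_cast
      ring
    · rw [hf k hk, fc_const c k hk]
      simp
  have h1 : f = algebraMap ℝ SP c := by
    rw [neg_one_smul] at h0
    exact (sub_eq_zero.mp (by rw [sub_eq_add_neg]; exact h0))
  have h2 : (f : V2 → ℝ) 0 = c := by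
    rw [h1]; rfl
  rw [h2]
  exact h1

end Pool.Agent.W_MP_4b1b5d_an
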