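import Pool.Agent.W_MP_4b1b5d_an.GeomG
import Pool.Agent.W_MP_4b1b5d_an.FourierB
import Pool.Agent.W_MP_4b1b5d_an.FourierD

set_option autoImplicit false

/-!
# I3: construction of the linear and quadratic integrals

`linear_int`: `F x = C w₀ X₀ + C w₁ X₁`, `w = J (toR β)`.  `w₀ ∂₀U + w₁ ∂₁U = Dv w U` has Fourier
coefficients `2πi (k·w) fc U k = 0` (`k · w = ± det2 k β`), so it vanishes by `fc_inj`.
`quad_int`: `U₁ = wavgSP 1 (J β) U` (average along `J β`); `fc U₁ k = fc U k` if `k ∥ β` (`fc_wavg`) and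
`Dv (J β) U₁ = 0`; `F x p = (ip p β)²/(2 ip β β) + U₁ x`.  Bracket:
`(G p)·∇U₁ - (∇U·Gβ) ip(p,β)/ip(β,β)`; `∇U₁ = φ β`, and `Dv (Gβ) (U - U₁) = 0` by Fourier
coefficients: `(k·Gβ) (fc U k - fc U₁ k) = 0` since `fc U k = fc U₁ k` for `k ∥ β`, and for other `k`:
`fc U₁ k = 0` (`Dv (J β) U₁ = 0`) and `fc U k = 0` or `ip k β = 0`.
Not a polynomial in `H`: at fixed `x`, along `p = t J(Gβ)` (`ip p β = 0`) `F` is constant but `H` takes
infinitely many values, so `q` would be constant, but `F` is not constant along `p = t β`.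
-/

namespace Pool.Agent.W_MP_4b1b5d_an

theorem finlin_deriv (U : SP) (x : V2) (i : Fin 2) :
    deriv (fun t => (U : V2 → ℝ) (Function.update x i t)) (x i)
      = fderiv ℝ (U : V2 → ℝ) x (Pi.single i 1) := by
  have h1 : HasFDerivAt (U : V2 → ℝ) (fderiv ℝ (U : V2 → ℝ) x) (Function.update x i (x i)) := by
    rw [Function.update_eq_self]
    exact (sp_diff U x).hasFDerivAt
  exact (h1.comp_hasDerivAt (x i) (hasDerivAt_update x i (x i))).deriv

theorem finlin_ham (G : M2) (U : SP) (x p : V2) (i : Fin 2) :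
    deriv (fun t => Ham G U (Function.update x i t) p) (x i)
      = fderiv ℝ (U : V2 → ℝ) x (Pi.single i 1) := by
  have h : (fun t => Ham G U (Function.update x i t) p) = fun t =>
      (1 / 2 : ℝ) * ∑ i, ∑ j, G i j * p i * p j + (U : V2 → ℝ) (Function.update x i t) := rfl
  rw [h, deriv_const_add]
  exact finlin_deriv U x i

theorem finlin_sum (U : SP) (x w : V2) :
    fderiv ℝ (U : V2 → ℝ) x w = fderiv ℝ (U : V2 → ℝ) x (Pi.single 0 1) * w 0
      + fderiv ℝ (U : V2 → ℝ) x (Pi.single 1 1) * w 1 := by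
  have hw : w = w 0 • (Pi.single 0 1 : V2) + w 1 • (Pi.single 1 1 : V2) := by
    ext i
    fin_cases i <;> simp
  conv_lhs => rw [hw]
  rw [map_add, map_smul, map_smul, smul_eq_mul, smul_eq_mul]
  ring

theorem linear_int (G : M2) (hG : G.PosDef) (U : SP) (β : Z2) (hβ : β ≠ 0)
    (hall : ∀ k : Z2, fc (U : V2 → ℝ) k ≠ 0 → det2 (toR k) (toR β) = 0) :
    ∃ F : V2 → RP, IsInt (Ham G U) F ∧ (∀ x, (F x).totalDegree ≤ 1) ∧
      ∃ x, (F x).totalDegree = 1 := by
  obtain ⟨w, hw⟩ : ∃ w, w = J (toR β) := ⟨_, rfl⟩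
  have hw0 : w 0 = -(β 1 : ℝ) := by rw [hw]; simp [J, toR]
  have hw1 : w 1 = (β 0 : ℝ) := by rw [hw]; simp [J, toR]
  have hDv : Dv w U = 0 := by
    apply fc_inj
    intro k
    rw [fc_Dv]
    by_cases hk : fc (U : V2 → ℝ) k = 0
    · rw [hk, mul_zero]
    · have h1 := hall k hk
      have h2 : (k 0 : ℝ) * w 0 + (k 1 : ℝ) * w 1 = 0 := by
        simp only [det2, toR] at h1
        rw [hw0, hw1]
        linarith
      rw [h2]
      simp
  obtain ⟨Q, hQ⟩ : ∃ Q : RP, Q = MvPolynomial.C (w 0) * MvPolynomial.X 0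
      + MvPolynomial.C (w 1) * MvPolynomial.X 1 := ⟨_, rfl⟩
  have hev : ∀ p : V2, MvPolynomial.eval p Q = w 0 * p 0 + w 1 * p 1 := by
    intro p; rw [hQ]; simp
  have hhom : Q.IsHomogeneous 1 := by
    rw [hQ]
    exact (MvPolynomial.isHomogeneous_C_mul_X _ _).add (MvPolynomial.isHomogeneous_C_mul_X _ _)
  have hQ0 : Q ≠ 0 := by
    intro hcon
    apply hβ
    have h0 := hev (Pi.single 0 1)
    have h1 := hev (Pi.single 1 1)
    rw [hcon] at h0 h1
    simp only [map_zero, Pi.single_eq_same, mul_one] at h0 h1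
    rw [Pi.single_eq_of_ne (by decide)] at h0 h1
    ext i
    fin_cases i
    · simp only [Fin.zero_eta, Pi.zero_apply]
      have : (β 0 : ℝ) = 0 := by linarith
      exact_mod_cast this
    · simp only [Fin.mk_one, Pi.zero_apply]
      have : (β 1 : ℝ) = 0 := by linarith
      exact_mod_cast this
  refine ⟨fun _ => Q, ⟨fun m => contDiff_const, fun x k => rfl, ⟨1, fun x => hhom.totalDegree_le⟩,
    fun x p => ?_⟩, fun x => hhom.totalDegree_le, 0, hhom.totalDegree hQ0⟩
  have hd : ∀ i, deriv (fun t => MvPolynomial.eval (Function.update p i t) Q) (p i) = w i := by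
    intro i
    fin_cases i
    · have h : (fun t => MvPolynomial.eval (Function.update p 0 t) Q)
          = fun t => w 0 * t + w 1 * p 1 := by
        funext t
        rw [hev, Function.update_self, Function.update_of_ne (by decide)]
      simp only [Fin.zero_eta]
      rw [h, deriv_add_const, deriv_const_mul_field, deriv_id'', mul_one]
    · have h : (fun t => MvPolynomial.eval (Function.update p 1 t) Q)
          = fun t => w 0 * p 0 + w 1 * t := by
        funext t
        rw [hev, Function.update_self, Function.update_of_ne (by decide)]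
      simp only [Fin.mk_one]
      rw [h, deriv_const_add, deriv_const_mul_field, deriv_id'', mul_one]
  have hD0 : fderiv ℝ (U : V2 → ℝ) x w = 0 := by
    have := congrArg (fun f : SP => (f : V2 → ℝ) x) hDv
    exact this
  rw [finlin_sum] at hD0
  rw [Fin.sum_univ_two]
  simp only [hd, finlin_ham, deriv_const, mul_zero, zero_sub]
  linarith

end Pool.Agent.W_MP_4b1b5d_an
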