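import Pool.Agent.W_MP_4b1b5d_an.FourierA

set_option autoImplicit false

/-!
# F1: elementary properties of Fourier coefficients of smooth periodic functions

`fc f k = ∫_0^1 ∫_0^1 exp(-2πi k·(s,t)) f(s,t) dt ds`.
`fc_Dv`: integrate by parts in `s` or `t` (Fubini for continuous functions on the square;
`Dv e f = e₀ ∂₀ f + e₁ ∂₁ f`).
`fc_wavg`: Fubini and translation invariance of the integral over a period, together with
`k · v = 0` (`exp (-2πi k·(x - τ v)) = exp (-2πi k·x)`).
-/

namespace Pool.Agent.W_MP_4b1b5d_an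

open Complex

/-- Fubini on the unit square for continuous functions -/
theorem swap_square (F : ℝ → ℝ → ℂ) (hF : Continuous F.uncurry) :
    ∫ x in (0:ℝ)..1, ∫ y in (0:ℝ)..1, F x y = ∫ y in (0:ℝ)..1, ∫ x in (0:ℝ)..1, F x y := by
  apply MeasureTheory.intervalIntegral_intervalIntegral_swap
  have h : IsCompact (Set.uIcc (0:ℝ) 1 ×ˢ Set.uIcc (0:ℝ) 1) := isCompact_uIcc.prod isCompact_uIcc
  exact (hF.continuousOn.integrableOn_compact h).mono_set
    (Set.prod_mono Set.uIoc_subset_uIcc Set.uIoc_subset_uIcc)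

/-- translation invariance of the integral over the unit square -/
theorem shift_square (G : ℝ → ℝ → ℂ) (h0 : ∀ s t, G (s + 1) t = G s t)
    (h1 : ∀ s t, G s (t + 1) = G s t) (a b : ℝ) :
    ∫ s in (0:ℝ)..1, ∫ t in (0:ℝ)..1, G (s + a) (t + b) =
      ∫ s in (0:ℝ)..1, ∫ t in (0:ℝ)..1, G s t := by
  have hin : ∀ s, ∫ t in (0:ℝ)..1, G s (t + b) = ∫ t in (0:ℝ)..1, G s t := by
    intro s
    have hp : Function.Periodic (G s) 1 := fun t => h1 s t
    rw [intervalIntegral.integral_comp_add_right (fun t => G s t) b]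
    have h2 := hp.intervalIntegral_add_eq b 0
    rw [zero_add] at h2
    rw [zero_add, add_comm 1 b]
    exact h2
  simp only [hin]
  have hp : Function.Periodic (fun s => ∫ t in (0:ℝ)..1, G s t) 1 := fun s => by
    simp only [h0]
  rw [intervalIntegral.integral_comp_add_right (fun s => ∫ t in (0:ℝ)..1, G s t) a]
  have h2 := hp.intervalIntegral_add_eq a 0
  rw [zero_add] at h2
  rw [zero_add, add_comm 1 a]
  exact h2

/-- the exponential factor -/
noncomputable def eK (k : Z2) (s t : ℝ) : ℂ :=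
  Complex.exp (-(2 * Real.pi * Complex.I * (k 0 * s + k 1 * t)))

theorem eK_add0 (k : Z2) (s t : ℝ) : eK k (s + 1) t = eK k s t := by
  unfold eK
  have h : -(2 * (Real.pi : ℂ) * Complex.I * (k 0 * ((s + 1 : ℝ) : ℂ) + k 1 * t)) =
      -(2 * Real.pi * Complex.I * (k 0 * s + k 1 * t)) + ((-k 0 : ℤ) : ℂ) *
        (2 * Real.pi * Complex.I) := by push_cast; ring
  rw [h, Complex.exp_add, Complex.exp_int_mul_two_pi_mul_I, mul_one]

theorem eK_add1 (k : Z2) (s t : ℝ) : eK k s (t + 1) = eK k s t := by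
  unfold eK
  have h : -(2 * (Real.pi : ℂ) * Complex.I * (k 0 * (s : ℂ) + k 1 * ((t + 1 : ℝ) : ℂ))) =
      -(2 * Real.pi * Complex.I * (k 0 * s + k 1 * t)) + ((-k 1 : ℤ) : ℂ) *
        (2 * Real.pi * Complex.I) := by push_cast; ring
  rw [h, Complex.exp_add, Complex.exp_int_mul_two_pi_mul_I, mul_one]

theorem eK_cont' (k : Z2) {X : Type} [TopologicalSpace X] {a b : X → ℝ} (ha : Continuous a)
    (hb : Continuous b) : Continuous fun x => eK k (a x) (b x) := by
  unfold eK; fun_prop

/-- the integrand -/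
noncomputable def HH (f : V2 → ℝ) (v k : Z2) (s t τ : ℝ) : ℂ :=
  eK k s t * (f (![s, t] + τ • toR v) : ℂ)

theorem HH_cont {f : V2 → ℝ} (hf : Continuous f) (v k : Z2) {X : Type} [TopologicalSpace X]
    {a b c : X → ℝ} (ha : Continuous a) (hb : Continuous b) (hc : Continuous c) :
    Continuous fun x => HH f v k (a x) (b x) (c x) := by
  have hvec : Continuous fun x => (![a x, b x] + c x • toR v : V2) := by
    refine Continuous.add ?_ (hc.smul continuous_const)
    refine continuous_pi fun i => ?_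
    fin_cases i
    · simpa using ha
    · simpa using hb
  have h1 : Continuous fun x => ((f (![a x, b x] + c x • toR v) : ℝ) : ℂ) :=
    Complex.continuous_ofReal.comp (hf.comp hvec)
  unfold HH
  exact (eK_cont' k ha hb).mul h1

theorem fc_wavg (f : SP) (v k : Z2) (hv : k 0 * v 0 + k 1 * v 1 = 0) :
    fc (wavg (fun _ => 1) (toR v) f) k = fc (f : V2 → ℝ) k := by
  have hfc : Continuous (f : V2 → ℝ) := (sp_contDiff f).continuous
  have h1 : ∀ s t : ℝ, Complex.exp (-(2 * Real.pi * Complex.I * (k 0 * s + k 1 * t))) *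
      ((wavg (fun _ => 1) (toR v) f ![s, t] : ℝ) : ℂ) = ∫ τ in (0:ℝ)..1, HH f v k s t τ := by
    intro s t
    unfold HH
    rw [intervalIntegral.integral_const_mul, intervalIntegral.integral_ofReal]
    unfold wavg eK
    simp only [one_mul]
  have h2 : ∀ s : ℝ, ∫ t in (0:ℝ)..1, ∫ τ in (0:ℝ)..1, HH f v k s t τ =
      ∫ τ in (0:ℝ)..1, ∫ t in (0:ℝ)..1, HH f v k s t τ := by
    intro s
    refine swap_square (fun t τ => HH f v k s t τ) ?_
    exact HH_cont hfc v k (X := ℝ × ℝ) (a := fun _ => s) (b := fun q => q.1) (c := fun q => q.2)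
      continuous_const continuous_fst continuous_snd
  have h3 : ∫ s in (0:ℝ)..1, ∫ τ in (0:ℝ)..1, ∫ t in (0:ℝ)..1, HH f v k s t τ =
      ∫ τ in (0:ℝ)..1, ∫ s in (0:ℝ)..1, ∫ t in (0:ℝ)..1, HH f v k s t τ := by
    refine swap_square (fun s τ => ∫ t in (0:ℝ)..1, HH f v k s t τ) ?_
    have h6 := HH_cont hfc v k (X := (ℝ × ℝ) × ℝ) (a := fun q => q.1.1) (b := fun q => q.2)
      (c := fun q => q.1.2) (by fun_prop) (by fun_prop) (by fun_prop)
    have h5 := intervalIntegral.continuous_parametric_intervalIntegral_of_continuous'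
      (μ := MeasureTheory.volume) (f := fun (p : ℝ × ℝ) (t : ℝ) => HH f v k p.1 t p.2) h6 0 1
    exact h5
  have h4 : ∀ τ : ℝ, ∫ s in (0:ℝ)..1, ∫ t in (0:ℝ)..1, HH f v k s t τ =
      fc (f : V2 → ℝ) k := by
    intro τ
    have hHG : ∀ s t : ℝ, HH f v k s t τ =
        (fun s t : ℝ => eK k s t * ((f : V2 → ℝ) ![s, t] : ℂ))
        (s + τ * v 0) (t + τ * v 1) := by
      intro s t
      unfold HH
      have e1 : (![s, t] + τ • toR v : V2) = ![s + τ * v 0, t + τ * v 1] := by
        funext i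
        fin_cases i <;> simp [toR]
      rw [e1]
      congr 1
      unfold eK
      congr 1
      have hv' : (k 0 : ℂ) * (v 0 : ℂ) + (k 1 : ℂ) * (v 1 : ℂ) = 0 := by exact_mod_cast hv
      push_cast
      linear_combination (2 * (Real.pi : ℂ) * Complex.I * (τ : ℂ)) * hv'
    simp only [hHG]
    rw [shift_square (fun s t : ℝ => eK k s t * ((f : V2 → ℝ) ![s, t] : ℂ))]
    · rfl
    · intro s t
      have e1 : (![s + 1, t] : V2) = ![s, t] + toR ![1, 0] := by
        funext i
        fin_cases i <;> simp [toR]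
      rw [eK_add0, e1, sp_per]
    · intro s t
      have e1 : (![s, t + 1] : V2) = ![s, t] + toR ![0, 1] := by
        funext i
        fin_cases i <;> simp [toR]
      rw [eK_add1, e1, sp_per]
  have h7 : fc (wavg (fun _ => 1) (toR v) f) k =
      ∫ s in (0:ℝ)..1, ∫ t in (0:ℝ)..1, ∫ τ in (0:ℝ)..1, HH f v k s t τ := by
    unfold fc
    simp only [h1]
  rw [h7]
  simp only [h2]
  rw [h3]
  simp only [h4]
  rw [intervalIntegral.integral_const]
  simp

end Pool.Agent.W_MP_4b1b5d_an
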