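import Pool.Agent.W_MP_4b1b5d_an.GeomG
import Pool.Agent.W_MP_4b1b5d_an.FourierB
import Pool.Agent.W_MP_4b1b5d_an.FourierD
import Pool.Agent.W_MP_4b1b5d_an.FourierW

set_option autoImplicit false

/-!
# I3: construction of the linear and quadratic integrals

`linear_int`: `F x = C w₀ X₀ + C w₁ X₁`, `w = J (toR β)`.  `w₀ ∂₀U + w₁ ∂₁U = Dv w U` has Fourier
coefficients `2πi (k·w) fc U k = 0` (`k · w = ± det2 k β`), so it vanishes by `fc_inj`.
`quad_int`: `U₁ = wavgSP 1 (J β) U` (average along `J β`); `fc U₁ k = fc U k` if `k ∥ β` (`fc_wavg`) and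
`Dv (J β) U₁ = 0`; `F x p = (ip p β)²/(2 ip β β) + U₁ x`.  Bracket:
`(G p)·∇U₁ - (∇U·Gβ) ip(p,β)/ip(β,β)`; `∇U₁ = φ β`, and `Dv (Gβ) (U - U₁) = 0` by Fourier
coefficients: `(k·Gβ) (fc U k - fc U₁ k) = 0` since `fc U k = fc U₁ k` for `k ∥ β`, and for other `k`:
`fc U₁ k = 0` (`Dv (J β) U₁ = 0`) and `fc U k = 0` or `ip k β = 0`.
Not a polynomial in `H`: at fixed `x`, along `p = t J(Gβ)` (`ip p β = 0`) `F` is constant but `H` takes
infinitely many values, so `q` would be constant, but `F` is not constant along `p = t β`.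
-/

namespace Pool.Agent.W_MP_4b1b5d_an

open MvPolynomial in
private noncomputable def Fq (e : V2) (c : ℝ) (U1 : SP) (x : V2) : RP :=
  C c * (C (e 0) * X 0 + C (e 1) * X 1) ^ 2 + C ((U1 : V2 → ℝ) x)

private theorem Fq_eval (e : V2) (c : ℝ) (U1 : SP) (x p : V2) :
    MvPolynomial.eval p (Fq e c U1 x) = c * (e 0 * p 0 + e 1 * p 1) ^ 2 + (U1 : V2 → ℝ) x := by
  simp [Fq]

private theorem Fq_deg (e : V2) (c : ℝ) (U1 : SP) (x : V2) :
    (Fq e c U1 x).totalDegree ≤ 2 := by
  unfold Fq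
  refine (MvPolynomial.totalDegree_add _ _).trans (max_le ?_ (by simp))
  refine (MvPolynomial.totalDegree_mul _ _).trans ?_
  rw [MvPolynomial.totalDegree_C, zero_add]
  refine (MvPolynomial.totalDegree_pow _ _).trans ?_
  have h1 : (MvPolynomial.C (e 0) * MvPolynomial.X 0 + MvPolynomial.C (e 1) * MvPolynomial.X 1 :
      RP).totalDegree ≤ 1 := by
    refine (MvPolynomial.totalDegree_add _ _).trans (max_le ?_ ?_)
    · refine (MvPolynomial.totalDegree_mul _ _).trans ?_
      simp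
    · refine (MvPolynomial.totalDegree_mul _ _).trans ?_
      simp
  omega

private theorem deriv_update (f : SP) (x : V2) (i : Fin 2) :
    deriv (fun t => (f : V2 → ℝ) (Function.update x i t)) (x i)
      = fderiv ℝ (f : V2 → ℝ) x (Pi.single i 1) := by
  have h1 : HasDerivAt (fun t => Function.update x i t) (Pi.single i 1) (x i) :=
    hasDerivAt_update x i (x i)
  have h2 : HasFDerivAt (f : V2 → ℝ) (fderiv ℝ (f : V2 → ℝ) x) (Function.update x i (x i)) := by
    rw [Function.update_eq_self]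
    exact (sp_diff f x).hasFDerivAt
  exact (h2.comp_hasDerivAt (x i) h1).deriv

private theorem fderiv_coord (f : SP) (x e : V2) :
    fderiv ℝ (f : V2 → ℝ) x e
      = e 0 * fderiv ℝ (f : V2 → ℝ) x (Pi.single 0 1)
        + e 1 * fderiv ℝ (f : V2 → ℝ) x (Pi.single 1 1) := by
  have h : e = e 0 • (Pi.single 0 1 : V2) + e 1 • (Pi.single 1 1 : V2) := by
    funext i
    fin_cases i <;> simp
  conv_lhs => rw [h]
  rw [map_add, map_smul, map_smul]
  simp

theorem quad_int (G : M2) (hG : G.PosDef) (U : SP) (β : Z2) (hβ : β ≠ 0)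
    (hall : ∀ k : Z2, fc (U : V2 → ℝ) k ≠ 0 →
      det2 (toR k) (toR β) = 0 ∨ ip G (toR k) (toR β) = 0) :
    ∃ F : V2 → RP, IsInt (Ham G U) F ∧ (∀ x, (F x).totalDegree ≤ 2) ∧ ¬ PolyH (Ham G U) F := by
  set b : V2 := toR β with hb
  have hb0 : b ≠ 0 := by
    intro h
    apply hβ
    funext i
    have := congrFun h i
    simpa [hb, toR] using this
  set v : Z2 := ![-β 1, β 0] with hv
  have hv0 : toR v 0 = - b 1 := by simp [hb, hv, toR]
  have hv1 : toR v 1 = b 0 := by simp [hb, hv, toR]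
  set e : V2 := G.mulVec b with he
  have he0 : e 0 = G 0 0 * b 0 + G 0 1 * b 1 := by
    simp [he, Matrix.mulVec, dotProduct, Fin.sum_univ_two]
  have he1 : e 1 = G 1 0 * b 0 + G 1 1 * b 1 := by
    simp [he, Matrix.mulVec, dotProduct, Fin.sum_univ_two]
  have hsym := g_symm G hG
  have hbb : 0 < ip G b b := ip_pos G hG b hb0
  have hbb' : ip G b b = e 0 * b 0 + e 1 * b 1 := by
    simp only [ip, Fin.sum_univ_two, he0, he1]
    ring
  have hipe : ∀ p : V2, ip G p b = e 0 * p 0 + e 1 * p 1 := by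
    intro p
    simp only [ip, Fin.sum_univ_two, he0, he1]
    ring
  set U1 : SP := wavgSP (fun _ => 1) continuous_const (toR v) U with hU1
  -- (a)
  have ha : Dv (toR v) U1 = 0 := by
    ext x
    rw [Dv_apply]
    show fderiv ℝ (wavg (fun _ => 1) (toR v) (U : V2 → ℝ)) x (toR v) = 0
    rw [wavg_fderiv _ continuous_const _ _ (sp_contDiff U)]
    unfold wavg
    have hder : ∀ τ ∈ Set.uIcc (0:ℝ) 1, HasDerivAt (fun τ : ℝ => (U : V2 → ℝ) (x + τ • toR v))
        (1 * fderiv ℝ (U : V2 → ℝ) (x + τ • toR v) (toR v)) τ := by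
      intro τ _
      have h1 : HasDerivAt (fun τ : ℝ => x + τ • toR v) (toR v) τ := by
        have := ((hasDerivAt_id τ).smul_const (toR v)).const_add x
        simpa using this
      have := ((sp_diff U (x + τ • toR v)).hasFDerivAt).comp_hasDerivAt τ h1
      rw [one_mul]
      exact this
    have hcont : Continuous (fun τ : ℝ => 1 * fderiv ℝ (U : V2 → ℝ) (x + τ • toR v) (toR v)) := by
      have h1 : Continuous (fun y => fderiv ℝ (U : V2 → ℝ) y (toR v)) :=
        ((sp_contDiff U).continuous_fderiv (by simp)).clm_apply continuous_const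
      exact continuous_const.mul (h1.comp (by fun_prop))
    rw [intervalIntegral.integral_eq_sub_of_hasDerivAt hder (hcont.intervalIntegrable _ _)]
    have := sp_per U x v
    simp [this]
  have hfz : ∀ k : Z2, fc ((0 : SP) : V2 → ℝ) k = 0 := by
    intro k
    simp [fc]
  have hdetv : ∀ k : Z2, ((k 0 : ℝ) * toR v 0 + (k 1 : ℝ) * toR v 1)
      = - det2 (toR k) b := by
    intro k
    rw [hv0, hv1]
    simp only [det2, toR]
    ring
  have hbpar : ∀ k : Z2, det2 (toR k) b = 0 → fc (U1 : V2 → ℝ) k = fc (U : V2 → ℝ) k := by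
    intro k hk
    apply fc_wavg
    have h1 := hdetv k
    rw [hk, neg_zero] at h1
    have h2 : ((k 0 * v 0 + k 1 * v 1 : ℤ) : ℝ) = 0 := by
      push_cast
      exact h1
    exact_mod_cast h2
  have hbnon : ∀ k : Z2, det2 (toR k) b ≠ 0 → fc (U1 : V2 → ℝ) k = 0 := by
    intro k hk
    have h1 := fc_Dv (toR v) U1 k
    rw [ha, hfz] at h1
    have h2 : (2 * (Real.pi : ℂ) * Complex.I * ((k 0 * toR v 0 + k 1 * toR v 1 : ℝ) : ℂ)) ≠ 0 := by
      rw [hdetv k]
      have h3 : ((-det2 (toR k) b : ℝ) : ℂ) ≠ 0 := by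
        exact_mod_cast neg_ne_zero.mpr hk
      have h4 : (Real.pi : ℂ) ≠ 0 := by exact_mod_cast Real.pi_ne_zero
      exact mul_ne_zero (mul_ne_zero (mul_ne_zero two_ne_zero h4) Complex.I_ne_zero) h3
    exact (mul_eq_zero.mp h1.symm).resolve_left h2
  have hd : Dv e (U + (-1 : ℝ) • U1) = 0 := by
    apply fc_inj
    intro k
    rw [fc_Dv, fc_add, fc_smul]
    by_cases hk : det2 (toR k) b = 0
    · rw [hbpar k hk]
      push_cast
      ring
    · rw [hbnon k hk]
      by_cases hf : fc (U : V2 → ℝ) k = 0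
      · rw [hf]
        simp
      · rcases hall k hf with h | h
        · exact absurd h hk
        · rw [hipe] at h
          have h5 : ((k 0 : ℝ) * e 0 + (k 1 : ℝ) * e 1) = 0 := by
            simp only [toR] at h
            linarith
          rw [h5]
          simp
  -- gradients
  have hgrad1 : ∀ x : V2, - b 1 * fderiv ℝ (U1 : V2 → ℝ) x (Pi.single 0 1)
      + b 0 * fderiv ℝ (U1 : V2 → ℝ) x (Pi.single 1 1) = 0 := by
    intro x
    have h1 : (Dv (toR v) U1 : V2 → ℝ) x = 0 := by rw [ha]; rfl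
    rw [Dv_apply, fderiv_coord, hv0, hv1] at h1
    exact h1
  have hgrad2 : ∀ x : V2, fderiv ℝ (U : V2 → ℝ) x (Pi.single 0 1) * e 0
      + fderiv ℝ (U : V2 → ℝ) x (Pi.single 1 1) * e 1
      = fderiv ℝ (U1 : V2 → ℝ) x (Pi.single 0 1) * e 0
      + fderiv ℝ (U1 : V2 → ℝ) x (Pi.single 1 1) * e 1 := by
    intro x
    have h1 : (Dv e (U + (-1 : ℝ) • U1) : V2 → ℝ) x = 0 := by rw [hd]; rfl
    rw [map_add, Derivation.map_smul] at h1
    have h2 : (Dv e U : V2 → ℝ) x + (-1 : ℝ) * (Dv e U1 : V2 → ℝ) x = 0 := by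
      simpa using h1
    rw [Dv_apply, Dv_apply, fderiv_coord U, fderiv_coord U1] at h2
    linarith
  set c : ℝ := 1 / (2 * ip G b b) with hc
  refine ⟨Fq e c U1, ⟨?_, ?_, ⟨2, Fq_deg e c U1⟩, ?_⟩, Fq_deg e c U1, ?_⟩
  · intro m
    have h1 : (fun x => (Fq e c U1 x).coeff m) = fun x =>
        (MvPolynomial.C c * (MvPolynomial.C (e 0) * MvPolynomial.X 0
          + MvPolynomial.C (e 1) * MvPolynomial.X 1) ^ 2 : RP).coeff m
          + (if 0 = m then (U1 : V2 → ℝ) x else 0) := by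
      funext x
      simp only [Fq, MvPolynomial.coeff_add, MvPolynomial.coeff_C]
    rw [h1]
    refine contDiff_const.add ?_
    by_cases h : 0 = m
    · simp only [h, if_true]
      exact sp_contDiff U1
    · simp only [h, if_false]
      exact contDiff_const
  · intro x k
    have := sp_per U1 x k
    unfold Fq
    have h2 : (x + fun i => (k i : ℝ)) = x + toR k := rfl
    rw [h2, this]
  · intro x p
    simp only [Fq_eval]
    rw [Fin.sum_univ_two]
    have hF : ∀ i, deriv (fun t => c * (e 0 * p 0 + e 1 * p 1) ^ 2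
        + (U1 : V2 → ℝ) (Function.update x i t)) (x i)
        = fderiv ℝ (U1 : V2 → ℝ) x (Pi.single i 1) := by
      intro i
      rw [deriv_const_add]
      exact deriv_update U1 x i
    have hH : ∀ i, deriv (fun t => Ham G U (Function.update x i t) p) (x i)
        = fderiv ℝ (U : V2 → ℝ) x (Pi.single i 1) := by
      intro i
      unfold Ham
      rw [deriv_const_add]
      exact deriv_update U x i
    have hHp0 : deriv (fun t => Ham G U x (Function.update p 0 t)) (p 0)
        = G 0 0 * p 0 + G 0 1 * p 1 := by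
      have h1 : (fun t => Ham G U x (Function.update p 0 t)) = fun t =>
          (1/2) * (G 0 0 * t * t + G 0 1 * t * p 1 + (G 0 1 * p 1 * t + G 1 1 * p 1 * p 1))
            + (U : V2 → ℝ) x := by
        funext t
        simp [Ham, Fin.sum_univ_two, hsym]
      rw [h1]
      have h2 : HasDerivAt (fun t : ℝ =>
          (1/2) * (G 0 0 * t * t + G 0 1 * t * p 1 + (G 0 1 * p 1 * t + G 1 1 * p 1 * p 1))
            + (U : V2 → ℝ) x) ((1/2) * ((G 0 0 * 1 * p 0 + G 0 0 * p 0 * 1) + G 0 1 * 1 * p 1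
              + (G 0 1 * p 1 * 1 + 0)) ) (p 0) := by
        have hid := hasDerivAt_id (p 0)
        have a1 : HasDerivAt (fun t : ℝ => G 0 0 * t * t) (G 0 0 * 1 * p 0 + G 0 0 * p 0 * 1)
            (p 0) := (hid.const_mul (G 0 0)).mul hid
        have a2 : HasDerivAt (fun t : ℝ => G 0 1 * t * p 1) (G 0 1 * 1 * p 1) (p 0) :=
          (hid.const_mul (G 0 1)).mul_const (p 1)
        have a3 : HasDerivAt (fun t : ℝ => G 0 1 * p 1 * t) (G 0 1 * p 1 * 1) (p 0) :=
          hid.const_mul (G 0 1 * p 1)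
        have a4 : HasDerivAt (fun _ : ℝ => G 1 1 * p 1 * p 1) 0 (p 0) := hasDerivAt_const _ _
        exact (((a1.add a2).add (a3.add a4)).const_mul (1/2 : ℝ)).add_const _
      rw [h2.deriv]
      ring
    have hHp1 : deriv (fun t => Ham G U x (Function.update p 1 t)) (p 1)
        = G 1 0 * p 0 + G 1 1 * p 1 := by
      have h1 : (fun t => Ham G U x (Function.update p 1 t)) = fun t =>
          (1/2) * (G 0 0 * p 0 * p 0 + G 1 0 * p 0 * t + (G 1 0 * t * p 0 + G 1 1 * t * t))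
            + (U : V2 → ℝ) x := by
        funext t
        simp [Ham, Fin.sum_univ_two, hsym]
      rw [h1]
      have h2 : HasDerivAt (fun t : ℝ =>
          (1/2) * (G 0 0 * p 0 * p 0 + G 1 0 * p 0 * t + (G 1 0 * t * p 0 + G 1 1 * t * t))
            + (U : V2 → ℝ) x) ((1/2) * (0 + G 1 0 * p 0 * 1
              + (G 1 0 * 1 * p 0 + (G 1 1 * 1 * p 1 + G 1 1 * p 1 * 1))) ) (p 1) := by
        have hid := hasDerivAt_id (p 1)
        have a1 : HasDerivAt (fun t : ℝ => G 1 1 * t * t) (G 1 1 * 1 * p 1 + G 1 1 * p 1 * 1)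
            (p 1) := (hid.const_mul (G 1 1)).mul hid
        have a2 : HasDerivAt (fun t : ℝ => G 1 0 * t * p 0) (G 1 0 * 1 * p 0) (p 1) :=
          (hid.const_mul (G 1 0)).mul_const (p 0)
        have a3 : HasDerivAt (fun t : ℝ => G 1 0 * p 0 * t) (G 1 0 * p 0 * 1) (p 1) :=
          hid.const_mul (G 1 0 * p 0)
        have a4 : HasDerivAt (fun _ : ℝ => G 0 0 * p 0 * p 0) 0 (p 1) := hasDerivAt_const _ _
        exact (((a4.add a3).add (a2.add a1)).const_mul (1/2 : ℝ)).add_const _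
      rw [h2.deriv]
      ring
    have hFp0 : deriv (fun t => c * (e 0 * (Function.update p 0 t) 0
        + e 1 * (Function.update p 0 t) 1) ^ 2 + (U1 : V2 → ℝ) x) (p 0)
        = c * (2 * (e 0 * p 0 + e 1 * p 1) * e 0) := by
      have h1 : (fun t => c * (e 0 * (Function.update p 0 t) 0
        + e 1 * (Function.update p 0 t) 1) ^ 2 + (U1 : V2 → ℝ) x) = fun t =>
          c * (e 0 * t + e 1 * p 1) ^ 2 + (U1 : V2 → ℝ) x := by
        funext t
        simp
      rw [h1]
      have hid := hasDerivAt_id (p 0)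
      have a1 : HasDerivAt (fun t : ℝ => e 0 * t + e 1 * p 1) (e 0 * 1) (p 0) :=
        (hid.const_mul (e 0)).add_const _
      have a2 := ((a1.pow 2).const_mul c).add_const ((U1 : V2 → ℝ) x)
      have a3 : HasDerivAt (fun t => c * (e 0 * t + e 1 * p 1) ^ 2 + (U1 : V2 → ℝ) x)
          (c * (((2 : ℕ) : ℝ) * (e 0 * p 0 + e 1 * p 1) ^ (2 - 1) * (e 0 * 1))) (p 0) := a2
      rw [a3.deriv]
      norm_num
    have hFp1 : deriv (fun t => c * (e 0 * (Function.update p 1 t) 0
        + e 1 * (Function.update p 1 t) 1) ^ 2 + (U1 : V2 → ℝ) x) (p 1)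
        = c * (2 * (e 0 * p 0 + e 1 * p 1) * e 1) := by
      have h1 : (fun t => c * (e 0 * (Function.update p 1 t) 0
        + e 1 * (Function.update p 1 t) 1) ^ 2 + (U1 : V2 → ℝ) x) = fun t =>
          c * (e 0 * p 0 + e 1 * t) ^ 2 + (U1 : V2 → ℝ) x := by
        funext t
        simp
      rw [h1]
      have hid := hasDerivAt_id (p 1)
      have a1 : HasDerivAt (fun t : ℝ => e 0 * p 0 + e 1 * t) (e 1 * 1) (p 1) :=
        (hid.const_mul (e 1)).const_add _
      have a3 : HasDerivAt (fun t => c * (e 0 * p 0 + e 1 * t) ^ 2 + (U1 : V2 → ℝ) x)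
          (c * (((2 : ℕ) : ℝ) * (e 0 * p 0 + e 1 * p 1) ^ (2 - 1) * (e 1 * 1))) (p 1) :=
        ((a1.pow 2).const_mul c).add_const ((U1 : V2 → ℝ) x)
      rw [a3.deriv]
      norm_num
    rw [hF, hF, hH, hH, hHp0, hHp1, hFp0, hFp1]
    have g1 := hgrad1 x
    have g2 := hgrad2 x
    set u0 := fderiv ℝ (U1 : V2 → ℝ) x (Pi.single 0 1)
    set u1 := fderiv ℝ (U1 : V2 → ℝ) x (Pi.single 1 1)
    set w0 := fderiv ℝ (U : V2 → ℝ) x (Pi.single 0 1)
    set w1 := fderiv ℝ (U : V2 → ℝ) x (Pi.single 1 1)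
    have hcc : c * 2 * (e 0 * b 0 + e 1 * b 1) = 1 := by
      rw [hc, ← hbb']
      field_simp
    have key : ((G 0 0 * p 0 + G 0 1 * p 1) * u0 + (G 1 0 * p 0 + G 1 1 * p 1) * u1)
        * (e 0 * b 0 + e 1 * b 1)
        - (e 0 * p 0 + e 1 * p 1) * (u0 * e 0 + u1 * e 1) = 0 := by
      rw [he0, he1, hsym]
      linear_combination (-(G 0 0 * G 1 1 - G 0 1 * G 0 1) * (p 0 * b 1 - p 1 * b 0)) * g1
    have hne : (e 0 * b 0 + e 1 * b 1) ≠ 0 := by rw [← hbb']; exact hbb.ne'
    have goal' : ((G 0 0 * p 0 + G 0 1 * p 1) * u0 + (G 1 0 * p 0 + G 1 1 * p 1) * u1)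
        - 2 * c * (e 0 * p 0 + e 1 * p 1) * (w0 * e 0 + w1 * e 1) = 0 := by
      rw [g2]
      linear_combination (2 * c) * key
        - ((G 0 0 * p 0 + G 0 1 * p 1) * u0 + (G 1 0 * p 0 + G 1 1 * p 1) * u1) * hcc
    linear_combination goal'
  · rintro ⟨q, hq⟩
    -- q is constant
    set d : V2 := ![-e 1, e 0] with hdd
    have hdne : d ≠ 0 := by
      intro h
      have h0 := congrFun h 0
      have h1 := congrFun h 1
      simp [hdd] at h0 h1
      rw [hbb', h0, h1] at hbb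
      simp at hbb
    have hdd0 : 0 < ip G d d := ip_pos G hG d hdne
    have hH0 : ∀ t : ℝ, Ham G U 0 (t • d) = t ^ 2 * (ip G d d / 2) + (U : V2 → ℝ) 0 := by
      intro t
      simp only [Ham, ip, Fin.sum_univ_two, Pi.smul_apply, smul_eq_mul]
      ring
    have h1 : ∀ t : ℝ, (q - Polynomial.C ((U1 : V2 → ℝ) 0)).eval
        (t ^ 2 * (ip G d d / 2) + (U : V2 → ℝ) 0) = 0 := by
      intro t
      have h2 := hq 0 (t • d)
      rw [hH0, Fq_eval] at h2
      rw [Polynomial.eval_sub, Polynomial.eval_C, ← h2]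
      simp only [hdd, Pi.smul_apply, smul_eq_mul, Matrix.cons_val_zero, Matrix.cons_val_one]
      ring
    have h3 : q - Polynomial.C ((U1 : V2 → ℝ) 0) = 0 := by
      apply Polynomial.eq_zero_of_infinite_isRoot
      have h4 : Set.Ici ((U : V2 → ℝ) 0) ⊆
          {x | (q - Polynomial.C ((U1 : V2 → ℝ) 0)).IsRoot x} := by
        intro y hy
        have hy' : (U : V2 → ℝ) 0 ≤ y := hy
        have h5 := h1 (√((y - (U : V2 → ℝ) 0) / (ip G d d / 2)))
        rw [Real.sq_sqrt (div_nonneg (by linarith) (by linarith))] at h5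
        rw [div_mul_cancel₀ _ (by linarith : (ip G d d / 2) ≠ 0)] at h5
        rw [sub_add_cancel] at h5
        exact h5
      exact (Set.Ici_infinite _).mono h4
    have h6 : q = Polynomial.C ((U1 : V2 → ℝ) 0) := sub_eq_zero.mp h3
    have h7 := hq 0 b
    rw [h6, Fq_eval, Polynomial.eval_C] at h7
    have h8 : c * (e 0 * b 0 + e 1 * b 1) ^ 2 = 0 := by linarith
    rw [← hbb'] at h8
    have h9 : 0 < c := by rw [hc]; positivity
    have : 0 < c * (ip G b b) ^ 2 := by positivity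
    linarith

end Pool.Agent.W_MP_4b1b5d_an
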