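import Pool.Agent.W_MP_4b1b5d_an.Avg

set_option autoImplicit false

/-!
# F1: elementary properties of Fourier coefficients of smooth periodic functions

`fc f k = ∫_0^1 ∫_0^1 exp(-2πi k·(s,t)) f(s,t) dt ds`.
`fc_Dv`: integrate by parts in `s` or `t` (Fubini for continuous functions on the square;
`Dv e f = e₀ ∂₀ f + e₁ ∂₁ f`).
`fc_wavg`: Fubini and translation invariance of the integral over a period, together with
`k · v = 0` (`exp (-2πi k·(x - τ v)) = exp (-2πi k·x)`).
-/

namespace Pool.Agent.W_MP_4b1b5d_an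

open Complex

/-- the integrand of the Fourier coefficient -/
private noncomputable def fi (f : V2 → ℝ) (k : Z2) (s t : ℝ) : ℂ :=
  Complex.exp (-(2 * Real.pi * Complex.I * (k 0 * s + k 1 * t))) * (f ![s, t] : ℂ)

private theorem fc_eq (f : V2 → ℝ) (k : Z2) :
    fc f k = ∫ s in (0:ℝ)..1, ∫ t in (0:ℝ)..1, fi f k s t := rfl

private theorem fi_cont (f : V2 → ℝ) (hf : Continuous f) (k : Z2) :
    Continuous (Function.uncurry (fi f k)) := by
  unfold fi Function.uncurry
  apply Continuous.mul
  · fun_prop
  · apply Complex.continuous_ofReal.comp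
    apply hf.comp
    refine continuous_pi fun i => ?_
    fin_cases i
    · exact continuous_fst
    · exact continuous_snd

private theorem sp_cont (f : SP) : Continuous (f : V2 → ℝ) := (sp_contDiff f).continuous

private theorem fi_cont_t (f : V2 → ℝ) (hf : Continuous f) (k : Z2) (s : ℝ) :
    Continuous (fi f k s) := by
  have h := fi_cont f hf k
  exact h.comp (by fun_prop : Continuous fun t : ℝ => (s, t))

private theorem fi_cont_int (f : V2 → ℝ) (hf : Continuous f) (k : Z2) :
    Continuous (fun s : ℝ => ∫ t in (0:ℝ)..1, fi f k s t) :=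
  intervalIntegral.continuous_parametric_intervalIntegral_of_continuous' (fi_cont f hf k) 0 1

theorem fc_add (f g : SP) (k : Z2) : fc ((f + g : SP) : V2 → ℝ) k = fc f k + fc g k := by
  rw [fc_eq, fc_eq, fc_eq]
  rw [← intervalIntegral.integral_add ((fi_cont_int _ (sp_cont f) k).intervalIntegrable 0 1)
    ((fi_cont_int _ (sp_cont g) k).intervalIntegrable 0 1)]
  refine intervalIntegral.integral_congr fun s _ => ?_
  rw [← intervalIntegral.integral_add ((fi_cont_t _ (sp_cont f) k s).intervalIntegrable 0 1)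
    ((fi_cont_t _ (sp_cont g) k s).intervalIntegrable 0 1)]
  refine intervalIntegral.integral_congr fun t _ => ?_
  simp only [fi, AddMemClass.coe_add, Pi.add_apply, Complex.ofReal_add]
  ring

theorem fc_smul (c : ℝ) (f : SP) (k : Z2) : fc ((c • f : SP) : V2 → ℝ) k = (c : ℂ) * fc f k := by
  rw [fc_eq, fc_eq]
  rw [← intervalIntegral.integral_const_mul]
  refine intervalIntegral.integral_congr fun s _ => ?_
  rw [← intervalIntegral.integral_const_mul]
  refine intervalIntegral.integral_congr fun t _ => ?_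
  simp only [fi, SetLike.val_smul, Pi.smul_apply, smul_eq_mul, Complex.ofReal_mul]
  ring

private theorem conj_integral (g : ℝ → ℂ) :
    (starRingEnd ℂ) (∫ t in (0:ℝ)..1, g t) = ∫ t in (0:ℝ)..1, (starRingEnd ℂ) (g t) := by
  rw [intervalIntegral.integral_of_le zero_le_one, intervalIntegral.integral_of_le zero_le_one]
  exact (integral_conj (f := g)).symm

theorem fc_neg (f : SP) (k : Z2) : fc (f : V2 → ℝ) (-k) = (starRingEnd ℂ) (fc (f : V2 → ℝ) k) := by
  rw [fc_eq, fc_eq, conj_integral]
  refine intervalIntegral.integral_congr fun s _ => ?_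
  rw [conj_integral]
  refine intervalIntegral.integral_congr fun t _ => ?_
  simp only [fi, map_mul, Complex.conj_ofReal]
  congr 1
  rw [← Complex.exp_conj]
  congr 1
  simp only [map_neg, map_mul, map_add, Complex.conj_I, Complex.conj_ofReal, map_ofNat,
    Pi.neg_apply, Int.cast_neg, map_intCast]

  ring

private theorem exp_int_zero (n : ℤ) (hn : n ≠ 0) :
    (∫ t in (0:ℝ)..1, Complex.exp (-(2 * Real.pi * Complex.I * n) * t)) = 0 := by
  have hc : -(2 * (Real.pi : ℂ) * Complex.I * n) ≠ 0 := by
    have h1 : (Real.pi : ℂ) ≠ 0 := by exact_mod_cast Real.pi_ne_zero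
    have h2 : (n : ℂ) ≠ 0 := by exact_mod_cast hn
    simp [h1, h2]
  rw [integral_exp_mul_complex hc]
  have : Complex.exp (-(2 * (Real.pi : ℂ) * Complex.I * n) * ((1 : ℝ) : ℂ)) = 1 := by
    rw [Complex.exp_eq_one_iff]
    exact ⟨-n, by push_cast; ring⟩
  rw [this]
  simp

theorem fc_const (c : ℝ) (k : Z2) (hk : k ≠ 0) : fc (fun _ => c) k = 0 := by
  have hfac : ∀ s t : ℝ, fi (fun _ => c) k s t =
      (Complex.exp (-(2 * Real.pi * Complex.I * (k 0)) * s) * (c : ℂ)) *
        Complex.exp (-(2 * Real.pi * Complex.I * (k 1)) * t) := by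
    intro s t
    simp only [fi]
    have he : Complex.exp (-(2 * Real.pi * Complex.I * (k 0 * s + k 1 * t))) =
        Complex.exp (-(2 * Real.pi * Complex.I * (k 0)) * s) *
          Complex.exp (-(2 * Real.pi * Complex.I * (k 1)) * t) := by
      rw [← Complex.exp_add]
      congr 1
      ring
    rw [he]
    ring
  rw [fc_eq]
  simp only [hfac]
  simp only [intervalIntegral.integral_const_mul, intervalIntegral.integral_mul_const]
  by_cases h0 : k 0 = 0
  · have h1 : k 1 ≠ 0 := by
      intro h1
      apply hk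
      funext i
      fin_cases i
      · exact h0
      · exact h1
    rw [exp_int_zero (k 1) h1]
    simp
  · rw [exp_int_zero (k 0) h0]
    simp

theorem fc_bound (f : SP) : ∃ C : ℝ, ∀ k : Z2, ‖fc (f : V2 → ℝ) k‖ ≤ C := by
  have hcomp : IsCompact (Set.pi Set.univ (fun _ : Fin 2 => Set.Icc (0:ℝ) 1)) :=
    isCompact_univ_pi fun _ => isCompact_Icc
  obtain ⟨C, hC⟩ := hcomp.exists_bound_of_continuousOn (sp_cont f).continuousOn
  refine ⟨C, fun k => ?_⟩
  rw [fc_eq]
  have hin : ∀ s ∈ Set.Icc (0:ℝ) 1, ‖∫ t in (0:ℝ)..1, fi (f : V2 → ℝ) k s t‖ ≤ C := by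
    intro s hs
    have h := intervalIntegral.norm_integral_le_of_norm_le_const (a := (0:ℝ)) (b := 1)
      (f := fi (f : V2 → ℝ) k s) (C := C) (by
        intro t ht
        rw [Set.uIoc_of_le zero_le_one] at ht
        have hmem : (![s, t] : V2) ∈ Set.pi Set.univ (fun _ : Fin 2 => Set.Icc (0:ℝ) 1) := by
          intro i _
          fin_cases i
          · exact hs
          · exact ⟨ht.1.le, ht.2⟩
        have h1 := hC _ hmem
        simp only [fi]
        rw [norm_mul, Complex.norm_exp]
        have hre : (-(2 * (Real.pi : ℂ) * Complex.I * ((k 0 : ℂ) * s + (k 1 : ℂ) * t))).re = 0 := by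
          simp
        rw [hre, Real.exp_zero, one_mul, Complex.norm_real]
        exact h1)
    simpa using h
  have h := intervalIntegral.norm_integral_le_of_norm_le_const (a := (0:ℝ)) (b := 1)
      (f := fun s => ∫ t in (0:ℝ)..1, fi (f : V2 → ℝ) k s t) (C := C) (by
        intro s hs
        rw [Set.uIoc_of_le zero_le_one] at hs
        exact hin s ⟨hs.1.le, hs.2⟩)
  simpa using h

end Pool.Agent.W_MP_4b1b5d_an
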