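import Pool.Agent.W_MP_4b1b5d_an.Defs

set_option autoImplicit false

/-!
# G0: elementary facts on `ip`, `tau`, `uu`

`|tau p|² = ip p p`, `conj (tau k) * tau l = ip k l + i √det G det2 k l`.
-/

namespace Pool.Agent.W_MP_4b1b5d_an

theorem gg_ip_expand (G : M2) (k l : V2) :
    ip G k l = G 0 0 * k 0 * l 0 + G 0 1 * k 0 * l 1 + G 1 0 * k 1 * l 0 + G 1 1 * k 1 * l 1 := by
  simp only [ip, Fin.sum_univ_two]
  ring

theorem g_symm (G : M2) (hG : G.PosDef) : G 1 0 = G 0 1 := by
  have h := hG.isHermitian.apply 0 1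
  simpa using h

theorem ip_comm (G : M2) (hG : G.PosDef) (k l : V2) : ip G k l = ip G l k := by
  rw [gg_ip_expand, gg_ip_expand, g_symm G hG]
  ring

theorem ip_pos (G : M2) (hG : G.PosDef) (k : V2) (hk : k ≠ 0) : 0 < ip G k k := by
  have h := hG.dotProduct_mulVec_pos hk
  simp only [dotProduct, Matrix.mulVec, Fin.sum_univ_two, Pi.star_apply, star_trivial] at h
  rw [gg_ip_expand]
  linarith

theorem ip_smul_left (G : M2) (c : ℝ) (k l : V2) : ip G (c • k) l = c * ip G k l := by
  rw [gg_ip_expand, gg_ip_expand]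
  simp only [Pi.smul_apply, smul_eq_mul]
  ring

theorem ip_smul_right (G : M2) (c : ℝ) (k l : V2) : ip G k (c • l) = c * ip G k l := by
  rw [gg_ip_expand, gg_ip_expand]
  simp only [Pi.smul_apply, smul_eq_mul]
  ring

theorem ip_add_left (G : M2) (k k' l : V2) : ip G (k + k') l = ip G k l + ip G k' l := by
  rw [gg_ip_expand, gg_ip_expand, gg_ip_expand]
  simp only [Pi.add_apply]
  ring

theorem ip_add_right (G : M2) (k l l' : V2) : ip G k (l + l') = ip G k l + ip G k l' := by
  rw [gg_ip_expand, gg_ip_expand, gg_ip_expand]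
  simp only [Pi.add_apply]
  ring

theorem det_pos (G : M2) (hG : G.PosDef) : 0 < G.det := hG.det_pos

theorem g00_pos (G : M2) (hG : G.PosDef) : 0 < G 0 0 := hG.diag_pos

/-- Lagrange identity -/
theorem ip_lagrange (G : M2) (hG : G.PosDef) (k l : V2) :
    ip G k k * ip G l l = ip G k l ^ 2 + G.det * det2 k l ^ 2 := by
  rw [gg_ip_expand, gg_ip_expand, gg_ip_expand, Matrix.det_fin_two, det2, g_symm G hG]
  ring

theorem tau_add (G : M2) (k l : V2) : tau G (k + l) = tau G k + tau G l := by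
  apply Complex.ext
  · simp only [tau, Pi.add_apply, Complex.add_re]
    ring
  · simp only [tau, Pi.add_apply, Complex.add_im]
    ring

theorem tau_smul (G : M2) (c : ℝ) (k : V2) : tau G (c • k) = (c : ℂ) * tau G k := by
  apply Complex.ext
  · simp only [tau, Pi.smul_apply, smul_eq_mul, Complex.mul_re, Complex.ofReal_re,
      Complex.ofReal_im]
    ring
  · simp only [tau, Pi.smul_apply, smul_eq_mul, Complex.mul_im, Complex.ofReal_re,
      Complex.ofReal_im]
    ring

theorem tau_mul (G : M2) (hG : G.PosDef) (k l : V2) :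
    (starRingEnd ℂ) (tau G k) * tau G l = (ip G k l : ℂ) + Complex.I * ((√G.det * det2 k l : ℝ) : ℂ) := by
  have h0 := g00_pos G hG
  have hs0 : √(G 0 0) ≠ 0 := (Real.sqrt_pos.2 h0).ne'
  have hs : √(G 0 0) ^ 2 = G 0 0 := Real.sq_sqrt h0.le
  have hD : √G.det ^ 2 = G 0 0 * G 1 1 - G 0 1 * G 0 1 := by
    rw [Real.sq_sqrt (det_pos G hG).le, Matrix.det_fin_two, g_symm G hG]
  have hd : √(G.det / G 0 0) = √G.det / √(G 0 0) := Real.sqrt_div (det_pos G hG).le _
  apply Complex.ext
  · simp only [tau, Complex.mul_re, Complex.conj_re, Complex.conj_im, Complex.add_re,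
      Complex.ofReal_re, Complex.I_re, Complex.I_im, Complex.ofReal_im, Complex.mul_re]
    rw [gg_ip_expand, hd, g_symm G hG]
    field_simp
    rw [hs]
    linear_combination (k 1 * l 1) * hD
  · simp only [tau, Complex.mul_im, Complex.conj_re, Complex.conj_im, Complex.add_im,
      Complex.ofReal_re, Complex.I_re, Complex.I_im, Complex.ofReal_im]
    rw [det2, hd]
    field_simp
    rw [hs]
    ring

theorem tau_ne (G : M2) (hG : G.PosDef) (k : V2) (hk : k ≠ 0) : tau G k ≠ 0 := by
  intro h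
  have h1 := tau_mul G hG k k
  rw [h, mul_zero] at h1
  have h2 := congrArg Complex.re h1
  simp only [Complex.zero_re, Complex.add_re, Complex.ofReal_re, Complex.mul_re, Complex.I_re,
    Complex.I_im, Complex.ofReal_im, zero_mul, mul_zero, sub_zero, add_zero] at h2
  exact (ip_pos G hG k hk).ne h2

theorem tau_surj (G : M2) (hG : G.PosDef) (z : ℂ) : ∃ p : V2, tau G p = z := by
  have h0 := g00_pos G hG
  have hs0 : √(G 0 0) ≠ 0 := (Real.sqrt_pos.2 h0).ne'
  have hd0 : √(G.det / G 0 0) ≠ 0 := (Real.sqrt_pos.2 (div_pos (det_pos G hG) h0)).ne'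
  refine ⟨![(z.re * √(G 0 0) - G 0 1 * (z.im / √(G.det / G 0 0))) / G 0 0,
    z.im / √(G.det / G 0 0)], ?_⟩
  have h0' := h0.ne'
  apply Complex.ext
  · simp only [tau, Matrix.cons_val_zero, Matrix.cons_val_one]
    field_simp
    ring
  · simp only [tau, Matrix.cons_val_one, Matrix.cons_val_zero]
    field_simp

theorem gg_two_ip (G : M2) (hG : G.PosDef) (k p : V2) :
    ((2 * ip G p k : ℝ) : ℂ) = (starRingEnd ℂ) (tau G k) * tau G p
      + tau G k * (starRingEnd ℂ) (tau G p) := by
  have h1 := tau_mul G hG k p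
  have h2 := congrArg (starRingEnd ℂ) h1
  rw [map_mul, Complex.conj_conj, map_add, map_mul, Complex.conj_ofReal, Complex.conj_ofReal,
    Complex.conj_I] at h2
  rw [h1, h2, ip_comm G hG p k]
  push_cast
  ring

theorem gg_ip_self_eq (G : M2) (hG : G.PosDef) (k : V2) :
    ((ip G k k : ℝ) : ℂ) = (starRingEnd ℂ) (tau G k) * tau G k := by
  rw [tau_mul G hG k k, det2]
  have : k 0 * k 1 - k 1 * k 0 = 0 := by ring
  rw [this]
  simp

/-- the reflection in the complex coordinate -/
theorem tau_refl (G : M2) (hG : G.PosDef) (k p : V2) (hk : k ≠ 0) :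
    tau G (refl G k p) = - uu G k * (starRingEnd ℂ) (tau G p) := by
  have hk0 := tau_ne G hG k hk
  have hk1 : (starRingEnd ℂ) (tau G k) ≠ 0 := (map_ne_zero _).2 hk0
  have e : refl G k p = p + (-(2 * ip G p k / ip G k k)) • k := by
    rw [refl, neg_smul, sub_eq_add_neg]
  rw [e, tau_add, tau_smul, uu]
  have h2 : ((-(2 * ip G p k / ip G k k) : ℝ) : ℂ) =
      -(((2 * ip G p k : ℝ) : ℂ) / ((ip G k k : ℝ) : ℂ)) := by
    push_cast
    ring
  rw [h2, gg_two_ip G hG, gg_ip_self_eq G hG]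
  field_simp
  ring

theorem uu_norm (G : M2) (hG : G.PosDef) (k : V2) (hk : k ≠ 0) : ‖uu G k‖ = 1 := by
  have h := tau_ne G hG k hk
  rw [uu, norm_div, Complex.norm_conj, div_self (norm_ne_zero_iff.2 h)]

/-- parallel vectors have the same `uu` and conversely -/
theorem uu_eq_iff (G : M2) (hG : G.PosDef) (k l : V2) (hk : k ≠ 0) (hl : l ≠ 0) :
    uu G k = uu G l ↔ det2 k l = 0 := by
  have hk0 := tau_ne G hG k hk
  have hl0 := tau_ne G hG l hl
  have hk1 : (starRingEnd ℂ) (tau G k) ≠ 0 := (map_ne_zero _).2 hk0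
  have hl1 : (starRingEnd ℂ) (tau G l) ≠ 0 := (map_ne_zero _).2 hl0
  have hd0 : √G.det ≠ 0 := (Real.sqrt_pos.2 (det_pos G hG)).ne'
  have h1 := tau_mul G hG k l
  have h2 := congrArg (starRingEnd ℂ) h1
  rw [map_mul, Complex.conj_conj, map_add, map_mul, Complex.conj_ofReal, Complex.conj_ofReal,
    Complex.conj_I] at h2
  rw [uu, uu, div_eq_div_iff hk1 hl1, h2, mul_comm (tau G l), h1]
  constructor
  · intro h
    have h3 : (2 * Complex.I) * ((√G.det * det2 k l : ℝ) : ℂ) = 0 := by linear_combination -h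
    rcases mul_eq_zero.1 h3 with h4 | h4
    · exact absurd h4 (mul_ne_zero two_ne_zero Complex.I_ne_zero)
    · have h5 : √G.det * det2 k l = 0 := by exact_mod_cast h4
      exact (mul_eq_zero.1 h5).resolve_left hd0
  · intro h
    rw [h]
    simp

end Pool.Agent.W_MP_4b1b5d_an
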