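import Pool.Agent.W_MP_4b1b5d_an.Avg
import Pool.Agent.W_MP_4b1b5d_an.AbsDefs
import Pool.Agent.W_MP_4b1b5d_an.GeomG

set_option autoImplicit false

/-!
# B2: the Hamilton-Jacobi data on smooth periodic functions

For an integer covector `k ≠ 0` put `|k| = √(ip G k k)`, `e_s = G k / |k|`,
`e_t = √(det G) J k / |k|` (orthonormal vectors for `g = G⁻¹`), `v = J k` (an integer vector).
`ds, dt` are the derivatives along `e_s, e_t`, `av f = ∫_0^1 f (x + τ v) dτ`,
`pr f = c ∫_0^1 (τ - ½) f (x + τ v) dτ` with `c = |k| / √(det G)` (so that `v = c e_t`).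
* `dt (av f) = 0` and `av (dt f) = 0`: `d/dτ f (x + τ v) = fderiv f (x + τ v) v`, `f (x + v) = f x`.
* `dt f = 0 → av f = f`: `f` is constant on lines in direction `v`.
* `av ds = ds av` by `wavg_fderiv`.
* `dt c = 0 → av (c a) = c av a`: `c (x + τ v) = c x`.
* `dt (pr a) = a - av a`: integrate `d/dτ` by parts, `(τ - ½) f` at `0, 1`, using `f (x + v) = f x`.
* `av (pr a) = 0`: `pr a = pr (av a) + pr (dt (pr a)) = 0 + (pr a - av (pr a))`.
* `ds dt = dt ds`: symmetry of the second derivative.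
-/

namespace Pool.Agent.W_MP_4b1b5d_an

/-- `g`-unit vector normal to the lines `k · x = const` -/
noncomputable def eS2 (G : M2) (k : V2) : V2 := (1 / √(ip G k k)) • G.mulVec k

/-- `g`-unit vector along the lines `k · x = const` -/
noncomputable def eT2 (G : M2) (k : V2) : V2 := (√G.det / √(ip G k k)) • J k

theorem hj_line (f : SP) (x v : V2) (τ : ℝ) :
    HasDerivAt (fun τ : ℝ => (f : V2 → ℝ) (x + τ • v))
      (fderiv ℝ (f : V2 → ℝ) (x + τ • v) v) τ := by
  have h1 : HasDerivAt (fun τ : ℝ => x + τ • v) v τ := by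
    simpa using ((hasDerivAt_id τ).smul_const v).const_add x
  exact (sp_diff f (x + τ • v)).hasFDerivAt.comp_hasDerivAt τ h1

theorem hj_cont (f : SP) (x v : V2) : Continuous (fun τ : ℝ => (f : V2 → ℝ) (x + τ • v)) := by
  have h : Continuous (fun τ : ℝ => x + τ • v) := by fun_prop
  exact (sp_contDiff f).continuous.comp h

theorem hj_cont' (f : SP) (x v : V2) :
    Continuous (fun τ : ℝ => fderiv ℝ (f : V2 → ℝ) (x + τ • v) v) :=
  hj_cont (Dv v f) x v

theorem hj_J (k : Z2) : J (toR k) = toR ![-k 1, k 0] := by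
  funext i
  fin_cases i <;> simp [J, toR]

theorem hj_per (f : SP) (k : Z2) (x : V2) : (f : V2 → ℝ) (x + J (toR k)) = (f : V2 → ℝ) x := by
  rw [hj_J]
  exact sp_per f x _

theorem hj_int0 (f : SP) (k : Z2) (x : V2) :
    ∫ τ in (0:ℝ)..1, fderiv ℝ (f : V2 → ℝ) (x + τ • J (toR k)) (J (toR k)) = 0 := by
  rw [intervalIntegral.integral_eq_sub_of_hasDerivAt (fun τ _ => hj_line f x _ τ)
    ((hj_cont' f x _).intervalIntegrable 0 1)]
  simp [hj_per]

theorem hj_const (f : SP) (v : V2) (h : ∀ x, fderiv ℝ (f : V2 → ℝ) x v = 0) (x : V2) (τ : ℝ) :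
    (f : V2 → ℝ) (x + τ • v) = (f : V2 → ℝ) x := by
  have h1 := is_const_of_deriv_eq_zero (f := fun τ : ℝ => (f : V2 → ℝ) (x + τ • v))
    (fun τ => (hj_line f x v τ).differentiableAt)
    (fun τ => by rw [(hj_line f x v τ).deriv, h]) τ 0
  simpa using h1

theorem hj_parts (f : SP) (k : Z2) (x : V2) :
    ∫ τ in (0:ℝ)..1, (τ - 1 / 2) * fderiv ℝ (f : V2 → ℝ) (x + τ • J (toR k)) (J (toR k))
      = (f : V2 → ℝ) x - ∫ τ in (0:ℝ)..1, (f : V2 → ℝ) (x + τ • J (toR k)) := by
  rw [intervalIntegral.integral_mul_deriv_eq_deriv_mul (u := fun τ : ℝ => τ - 1 / 2)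
    (u' := fun _ => 1) (v := fun τ : ℝ => (f : V2 → ℝ) (x + τ • J (toR k)))
    (fun τ _ => by simpa using (hasDerivAt_id τ).sub_const (1 / 2 : ℝ))
    (fun τ _ => hj_line f x _ τ) (continuous_const.intervalIntegrable 0 1)
    ((hj_cont' f x _).intervalIntegrable 0 1)]
  simp only [one_smul, zero_smul, add_zero, hj_per, one_mul]
  ring

theorem hj_s_ne (G : M2) (hG : G.PosDef) (k : Z2) (hk : k ≠ 0) :
    √G.det / √(ip G (toR k) (toR k)) ≠ 0 := by
  have hk' : toR k ≠ 0 := by
    intro h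
    apply hk
    funext i
    have := congrFun h i
    simpa [toR] using this
  have h1 := Real.sqrt_pos.mpr (det_pos G hG)
  have h2 := Real.sqrt_pos.mpr (ip_pos G hG _ hk')
  positivity

theorem hj_exists (G : M2) (hG : G.PosDef) (k : Z2) (hk : k ≠ 0) :
    ∃ h : HJ SP, h.ds = Dv (eS2 G (toR k)) ∧ h.dt = Dv (eT2 G (toR k)) ∧
      h.av = wavgSP (fun _ => 1) continuous_const (J (toR k)) := by
  have hs := hj_s_ne G hG k hk
  set s : ℝ := √G.det / √(ip G (toR k) (toR k)) with hsdef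
  have hT : eT2 G (toR k) = s • J (toR k) := rfl
  have hdt : ∀ (f : SP) (x : V2), (Dv (eT2 G (toR k)) f : V2 → ℝ) x
      = s * fderiv ℝ (f : V2 → ℝ) x (J (toR k)) := by
    intro f x
    rw [Dv_apply, hT, map_smul, smul_eq_mul]
  have hw : Continuous (fun τ : ℝ => τ - 1 / 2) := by fun_prop
  have hcst : ∀ f : SP, Dv (eT2 G (toR k)) f = 0 → ∀ (x : V2) (τ : ℝ),
      (f : V2 → ℝ) (x + τ • J (toR k)) = (f : V2 → ℝ) x := by
    intro f hf x τ
    refine hj_const f _ (fun y => ?_) x τ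
    have h1 := hdt f y
    rw [hf] at h1
    have h2 : (0 : ℝ) = s * fderiv ℝ (f : V2 → ℝ) y (J (toR k)) := h1
    exact (mul_eq_zero.mp h2.symm).resolve_left hs
  have hav : ∀ (f : SP) (x : V2),
      (wavgSP (fun _ => 1) continuous_const (J (toR k)) f : V2 → ℝ) x
        = ∫ τ in (0:ℝ)..1, (f : V2 → ℝ) (x + τ • J (toR k)) := by
    intro f x
    rw [wavgSP_apply]
    simp only [one_mul]
  have hpr : ∀ (f : SP) (x : V2),
      ((s⁻¹ • wavgSP (fun τ => τ - 1 / 2) hw (J (toR k))) f : V2 → ℝ) x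
        = s⁻¹ * ∫ τ in (0:ℝ)..1, (τ - 1 / 2) * (f : V2 → ℝ) (x + τ • J (toR k)) := by
    intro f x
    rw [LinearMap.smul_apply, SetLike.val_smul, Pi.smul_apply, wavgSP_apply, smul_eq_mul]
  -- derivatives commute with averages
  have hcomm : ∀ (w : ℝ → ℝ) (hw : Continuous w) (e : V2) (f : SP),
      Dv e (wavgSP w hw (J (toR k)) f) = wavgSP w hw (J (toR k)) (Dv e f) := by
    intro w hw e f
    apply Subtype.ext
    funext x
    exact wavg_fderiv w hw (J (toR k)) f (sp_contDiff f) x e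
  have hav_dt : ∀ f : SP,
      wavgSP (fun _ => 1) continuous_const (J (toR k)) (Dv (eT2 G (toR k)) f) = 0 := by
    intro f
    apply Subtype.ext
    funext x
    rw [hav]
    simp only [hdt]
    rw [intervalIntegral.integral_const_mul, hj_int0, mul_zero]
    rfl
  have hpr_dt : ∀ f : SP,
      (s⁻¹ • wavgSP (fun τ => τ - 1 / 2) hw (J (toR k))) (Dv (eT2 G (toR k)) f)
        = f - wavgSP (fun _ => 1) continuous_const (J (toR k)) f := by
    intro f
    apply Subtype.ext
    funext x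
    rw [hpr]
    have h1 : (fun τ : ℝ => (τ - 1 / 2) * (Dv (eT2 G (toR k)) f : V2 → ℝ) (x + τ • J (toR k)))
        = fun τ : ℝ => s * ((τ - 1 / 2)
          * fderiv ℝ (f : V2 → ℝ) (x + τ • J (toR k)) (J (toR k))) := by
      funext τ
      rw [hdt]
      ring
    rw [h1, intervalIntegral.integral_const_mul, hj_parts, ← mul_assoc, inv_mul_cancel₀ hs,
      one_mul, ← hav]
    rfl
  have hdt_pr : ∀ f : SP,
      Dv (eT2 G (toR k)) ((s⁻¹ • wavgSP (fun τ => τ - 1 / 2) hw (J (toR k))) f)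
        = f - wavgSP (fun _ => 1) continuous_const (J (toR k)) f := by
    intro f
    rw [← hpr_dt, LinearMap.smul_apply, LinearMap.smul_apply, Derivation.map_smul, hcomm]
  have hav_id : ∀ f : SP, Dv (eT2 G (toR k)) f = 0 →
      wavgSP (fun _ => 1) continuous_const (J (toR k)) f = f := by
    intro f hf
    apply Subtype.ext
    funext x
    rw [hav]
    simp only [hcst f hf]
    simp
  have hdt_av : ∀ f : SP,
      Dv (eT2 G (toR k)) (wavgSP (fun _ => 1) continuous_const (J (toR k)) f) = 0 := by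
    intro f
    rw [hcomm, hav_dt]
  have hpr_zero : ∀ f : SP, Dv (eT2 G (toR k)) f = 0 →
      (s⁻¹ • wavgSP (fun τ => τ - 1 / 2) hw (J (toR k))) f = 0 := by
    intro f hf
    apply Subtype.ext
    funext x
    rw [hpr]
    simp only [hcst f hf]
    rw [intervalIntegral.integral_mul_const]
    have h1 : ∫ τ in (0:ℝ)..1, (τ - 1 / 2) = 0 := by
      rw [intervalIntegral.integral_sub (by simp) (by simp)]
      simp
    rw [h1]
    simp
  refine ⟨
    { ds := Dv (eS2 G (toR k))
      dt := Dv (eT2 G (toR k))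
      av := wavgSP (fun _ => 1) continuous_const (J (toR k))
      pr := s⁻¹ • wavgSP (fun τ => τ - 1 / 2) hw (J (toR k))
      comm := ?_
      dt_av := hdt_av
      av_of_dt := hav_id
      av_ds := fun a => (hcomm _ _ _ a).symm
      av_mul := ?_
      dt_pr := hdt_pr
      av_pr := ?_
      av_dt := hav_dt }, rfl, rfl, rfl⟩
  · intro f
    apply Subtype.ext
    funext x
    have hsym : IsSymmSndFDerivAt ℝ (f : V2 → ℝ) x :=
      (sp_contDiff f).contDiffAt.isSymmSndFDerivAt (by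
        rw [minSmoothness_of_isRCLikeNormedField]
        exact WithTop.coe_le_coe.mpr (le_top : (2 : ℕ∞) ≤ ⊤))
    have hd : ∀ e e' : V2, (Dv e (Dv e' f) : V2 → ℝ) x
        = fderiv ℝ (fderiv ℝ (f : V2 → ℝ)) x e e' := by
      intro e e'
      rw [Dv_apply]
      have h1 : ((Dv e' f : SP) : V2 → ℝ) = fun y => fderiv ℝ (f : V2 → ℝ) y e' := rfl
      have h2 : DifferentiableAt ℝ (fderiv ℝ (f : V2 → ℝ)) x :=
        (((sp_contDiff f).fderiv_right (m := (⊤ : ℕ∞)) (by simp)).differentiable (by simp)) x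
      rw [h1, fderiv_clm_apply h2 (differentiableAt_const e')]
      simp
    rw [hd, hd]
    exact hsym _ _
  · intro c a hc
    apply Subtype.ext
    funext x
    have h1 : ∀ τ : ℝ, ((c * a : SP) : V2 → ℝ) (x + τ • J (toR k))
        = (c : V2 → ℝ) x * (a : V2 → ℝ) (x + τ • J (toR k)) := by
      intro τ
      rw [← hcst c hc x τ]
      rfl
    have h2 : ((c * wavgSP (fun _ => 1) continuous_const (J (toR k)) a : SP) : V2 → ℝ) x
        = (c : V2 → ℝ) x
          * (wavgSP (fun _ => 1) continuous_const (J (toR k)) a : V2 → ℝ) x := rfl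
    rw [hav, h2, hav]
    simp only [h1]
    rw [intervalIntegral.integral_const_mul]
  · intro f
    have h1 := hpr_dt ((s⁻¹ • wavgSP (fun τ => τ - 1 / 2) hw (J (toR k))) f)
    rw [hdt_pr, map_sub, hpr_zero _ (hdt_av f), sub_zero] at h1
    exact (sub_eq_self.mp h1.symm)

end Pool.Agent.W_MP_4b1b5d_an
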