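import Pool.Agent.W_MP_4b1b5d_an.Dichotomy
import Pool.Agent.W_MP_4b1b5d_an.Convert
import Pool.Agent.W_MP_4b1b5d_an.EvenReduce
import Pool.Agent.W_MP_4b1b5d_an.FinalLin
import Pool.Agent.W_MP_4b1b5d_an.FinalQuad
import Pool.Agent.W_MP_4b1b5d_an.C4Rat
import Pool.Agent.W_MP_4b1b5d_an.C4Count

set_option autoImplicit false

/-!
# J2: main theorems
-/

namespace Pool.Agent.W_MP_4b1b5d_an

theorem PR_ne (G : M2) (hG : G.PosDef) (U : SP) (m : ℕ) (K : ℕ → ℕ → SP) (hK : IsK G U m K)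
    (a : ℕ) (ha : a ≤ m) (hKa : K a (m - a) ≠ 0) : PR m K ≠ 0 := by
  intro h0
  apply hKa
  rw [top_const G hG U m K hK a ha]
  have hc : MvPolynomial.coeff (Finsupp.single 0 a + Finsupp.single 1 (m - a)) (PR m K)
      = (K a (m - a) : V2 → ℝ) 0 := by
    rw [PR, MvPolynomial.coeff_sum]
    rw [Finset.sum_eq_single a]
    · have : (MvPolynomial.C ((K a (m - a) : V2 → ℝ) 0) * MvPolynomial.X 0 ^ a
          * MvPolynomial.X 1 ^ (m - a) : RP)
          = MvPolynomial.monomial (Finsupp.single 0 a + Finsupp.single 1 (m - a))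
            ((K a (m - a) : V2 → ℝ) 0) := by
        rw [MvPolynomial.X_pow_eq_monomial, MvPolynomial.X_pow_eq_monomial,
          MvPolynomial.C_mul_monomial, MvPolynomial.monomial_mul]
        simp
      rw [this, MvPolynomial.coeff_monomial, if_pos rfl]
    · intro b _ hb
      have : (MvPolynomial.C ((K b (m - b) : V2 → ℝ) 0) * MvPolynomial.X 0 ^ b
          * MvPolynomial.X 1 ^ (m - b) : RP)
          = MvPolynomial.monomial (Finsupp.single 0 b + Finsupp.single 1 (m - b))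
            ((K b (m - b) : V2 → ℝ) 0) := by
        rw [MvPolynomial.X_pow_eq_monomial, MvPolynomial.X_pow_eq_monomial,
          MvPolynomial.C_mul_monomial, MvPolynomial.monomial_mul]
        simp
      rw [this, MvPolynomial.coeff_monomial, if_neg]
      intro h
      apply hb
      have := DFunLike.congr_fun h 0
      simpa using this
    · intro h
      exact absurd (Finset.mem_range.mpr (by omega)) h
  rw [h0, MvPolynomial.coeff_zero] at hc
  rw [← hc, map_zero]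

theorem exists_active (U : SP) (hU : ∃ x y, (U : V2 → ℝ) x ≠ (U : V2 → ℝ) y) :
    ∃ β : Z2, β ≠ 0 ∧ fc (U : V2 → ℝ) β ≠ 0 := by
  by_contra hcon
  have h : ∀ k : Z2, k ≠ 0 → fc (U : V2 → ℝ) k = 0 := by
    intro k hk
    by_contra hk2
    exact hcon ⟨k, hk, hk2⟩
  have h2 := fc_inj_const U h
  obtain ⟨x, y, hxy⟩ := hU
  apply hxy
  rw [h2]
  rfl

theorem main_odd (G : M2) (hG : G.PosDef) (U : SP)
    (hU : ∃ x y, (U : V2 → ℝ) x ≠ (U : V2 → ℝ) y) (F : V2 → RP) (n : ℕ)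
    (hF : IsInt (Ham G U) F) (hn : Odd n) (hle : ∀ x, (F x).totalDegree ≤ n)
    (hex : ∃ x, (F x).totalDegree = n) :
    ∃ F : V2 → RP, IsInt (Ham G U) F ∧ (∀ x, (F x).totalDegree ≤ 1) ∧
      ∃ x, (F x).totalDegree = 1 := by
  have hne : ∃ x, F x ≠ 0 := by
    obtain ⟨x, hx⟩ := hex
    refine ⟨x, fun h => ?_⟩
    rw [h, MvPolynomial.totalDegree_zero] at hx
    obtain ⟨j, hj⟩ := hn
    omega
  obtain ⟨K, hK, ⟨a, ha, hKa⟩, _⟩ := toK G hG U F hF n hle hex hne
  have hnr := not_rad_of_odd G hG (PR n K) n (PR_homogeneous n K) hn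
    (PR_ne G hG U n K hK a ha hKa)
  obtain ⟨β, hβ, hβa⟩ := exists_active U hU
  exact linear_int G hG U β hβ (fun k hk => odd_par G hG U n K hK hnr hn k β hk hβa)

theorem main_even (G : M2) (hG : G.PosDef) (U : SP)
    (hU : ∃ x y, (U : V2 → ℝ) x ≠ (U : V2 → ℝ) y)
    (hC : C4on G {k : Z2 | fc (U : V2 → ℝ) k ≠ 0}) (F : V2 → RP)
    (hF : IsInt (Ham G U) F) (hnp : ¬ PolyH (Ham G U) F) :
    ∃ F : V2 → RP, IsInt (Ham G U) F ∧ (∀ x, (F x).totalDegree ≤ 2) ∧ ¬ PolyH (Ham G U) F := by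
  obtain ⟨N, hN⟩ := hF.2.2.1
  obtain ⟨n, K, hK, ⟨a, ha, hKa⟩, hcase⟩ := even_reduce G hG U N F hF hN hnp
  have hnr : ¬ Rad G (PR n K) := by
    rcases hcase with h | h
    · exact not_rad_of_odd G hG (PR n K) n (PR_homogeneous n K) h (PR_ne G hG U n K hK a ha hKa)
    · exact h.2
  obtain ⟨β, hβ, hβa⟩ := exists_active U hU
  exact quad_int G hG U β hβ (fun k hk => orth_or_par G hG U n K hK hnr (Or.inr hC) k β hk hβa)

end Pool.Agent.W_MP_4b1b5d_an
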