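import Pool.Agent.W_MP_4b1b5d_an.HJInst
import Pool.Agent.W_MP_4b1b5d_an.FourierD
import Pool.Agent.W_MP_4b1b5d_an.FourierW
import Pool.Agent.W_MP_4b1b5d_an.GeomG

set_option autoImplicit false

/-!
# B6: if `k` is active then the averaged potential is not constant

`u = av U` (average along `v = J k`) has `fc u k = fc U k ≠ 0` by `fc_wavg` (`J (toR k) = toR _`),
and `fc (Dv (eS2 G k) u) k = 2πi (k · e_s) fc u k` with `k · e_s = |k| ≠ 0`.
-/

namespace Pool.Agent.W_MP_4b1b5d_an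

theorem nonConst_fc_zero (k : Z2) : fc ((0 : SP) : V2 → ℝ) k = 0 := by
  simp [fc]

theorem nonConst_toR_ne {k : Z2} (hk : k ≠ 0) : toR k ≠ 0 := by
  intro h
  apply hk
  funext i
  have := congrFun h i
  simpa [toR] using this

theorem nonConst_J (k : Z2) : J (toR k) = toR ![-k 1, k 0] := by
  funext i
  fin_cases i <;> simp [J, toR]

theorem nonConst_dot (G : M2) (k : V2) :
    k 0 * eS2 G k 0 + k 1 * eS2 G k 1 = ip G k k / √(ip G k k) := by
  simp only [eS2, Pi.smul_apply, smul_eq_mul, Matrix.mulVec, dotProduct, Fin.sum_univ_two, ip]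
  ring

theorem ds_av_ne (G : M2) (hG : G.PosDef) (k : Z2) (hk : k ≠ 0) (U : SP)
    (hU : fc (U : V2 → ℝ) k ≠ 0) :
    Dv (eS2 G (toR k)) (wavgSP (fun _ => 1) continuous_const (J (toR k)) U) ≠ 0 := by
  intro h0
  have h1 := fc_Dv (eS2 G (toR k)) (wavgSP (fun _ => 1) continuous_const (J (toR k)) U) k
  rw [h0, nonConst_fc_zero] at h1
  have h2 : fc ((wavgSP (fun _ => 1) continuous_const (J (toR k)) U : SP) : V2 → ℝ) k
      = fc (U : V2 → ℝ) k := by
    have h3 := fc_wavg U ![-k 1, k 0] k (by simp; ring)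
    rw [← nonConst_J] at h3
    exact h3
  rw [h2] at h1
  have hpos : 0 < ip G (toR k) (toR k) := ip_pos G hG (toR k) (nonConst_toR_ne hk)
  have hdot := nonConst_dot G (toR k)
  have h4 : ((k 0 : ℝ) * eS2 G (toR k) 0 + (k 1 : ℝ) * eS2 G (toR k) 1) ≠ 0 := by
    have h5 : (k 0 : ℝ) * eS2 G (toR k) 0 + (k 1 : ℝ) * eS2 G (toR k) 1
        = ip G (toR k) (toR k) / √(ip G (toR k) (toR k)) := hdot
    rw [h5]
    exact (div_pos hpos (Real.sqrt_pos.2 hpos)).ne'
  have h6 : (2 * (Real.pi : ℂ) * Complex.I *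
      (((k 0 : ℝ) * eS2 G (toR k) 0 + (k 1 : ℝ) * eS2 G (toR k) 1 : ℝ) : ℂ)) ≠ 0 := by
    have := Real.pi_ne_zero
    refine mul_ne_zero (mul_ne_zero (mul_ne_zero two_ne_zero ?_) Complex.I_ne_zero) ?_
    · exact_mod_cast this
    · exact_mod_cast h4
  exact mul_ne_zero h6 hU h1.symm

end Pool.Agent.W_MP_4b1b5d_an
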