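import Pool.Agent.W_MP_4b1b5d_an.Defs

set_option autoImplicit false

/-!
# B5: the ideal of functions vanishing on `Ω = {w ≠ 0}`

`Ω` is open and nonempty.  If `a = 0` on `Ω` then `Dv e a = 0` on `Ω` (`a` vanishes near every point
of `Ω`); `w a = 0` on `Ω` implies `a = 0` on `Ω`; a constant vanishing on `Ω` is `0`.
-/

namespace Pool.Agent.W_MP_4b1b5d_an

theorem omega_ideal (w : SP) (hw : w ≠ 0) (e : V2) :
    ∃ I : Ideal SP, (∀ a ∈ I, Dv e a ∈ I) ∧ (∀ a, w * a ∈ I → a ∈ I) ∧
      (∀ c : ℝ, algebraMap ℝ SP c ∈ I → c = 0) := by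
  let I : Ideal SP :=
    { carrier := {a | ∀ x, (w : V2 → ℝ) x ≠ 0 → (a : V2 → ℝ) x = 0}
      add_mem' := by
        intro a b ha hb x hx
        have h1 := ha x hx
        have h2 := hb x hx
        simp only [AddMemClass.coe_add, Pi.add_apply, h1, h2, add_zero]
      zero_mem' := by
        intro x _
        rfl
      smul_mem' := by
        intro c a ha x hx
        have h1 := ha x hx
        simp only [smul_eq_mul, MulMemClass.coe_mul, Pi.mul_apply, h1, mul_zero] }
  have hI : ∀ a : SP, a ∈ I ↔ ∀ x, (w : V2 → ℝ) x ≠ 0 → (a : V2 → ℝ) x = 0 := fun a => Iff.rfl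
  refine ⟨I, ?_, ?_, ?_⟩
  · intro a ha
    rw [hI] at ha ⊢
    intro x hx
    rw [Dv_apply]
    have hev : (a : V2 → ℝ) =ᶠ[nhds x] fun _ => (0 : ℝ) := by
      have hopen : IsOpen {y : V2 | (w : V2 → ℝ) y ≠ 0} :=
        isOpen_ne_fun (sp_contDiff w).continuous continuous_const
      filter_upwards [hopen.mem_nhds hx] with y hy
      exact ha y hy
    rw [hev.fderiv_eq]
    simp
  · intro a ha
    rw [hI] at ha ⊢
    intro x hx
    have h1 := ha x hx
    simp only [MulMemClass.coe_mul, Pi.mul_apply, mul_eq_zero] at h1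
    exact h1.resolve_left hx
  · intro c hc
    rw [hI] at hc
    have hex : ∃ x, (w : V2 → ℝ) x ≠ 0 := by
      by_contra hcon
      push Not at hcon
      apply hw
      apply Subtype.ext
      funext x
      exact hcon x
    obtain ⟨x, hx⟩ := hex
    exact hc x hx

end Pool.Agent.W_MP_4b1b5d_an
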