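import Pool.Agent.W_MP_4b1b5d_an.HJInst
import Pool.Agent.W_MP_4b1b5d_an.GeomG

set_option autoImplicit false

/-!
# B3: orthonormal momentum coordinates

Dual basis of `e_s = G k/|k|`, `e_t = √det J k/|k|`: `ε_s = k/|k|`, `ε_t = J (G k)/(√det |k|)`.
We have `G = e_s e_sᵀ + e_t e_tᵀ`, so for the covector `p = q₀ ε_s + q₁ ε_t` and any function `f`,
`(G p)·∇f = q₀ ∂_s f + q₁ ∂_t f`, and `∂_{p_i}`-derivatives transform by the chain rule:
`∑_i ∂_iU ∂F/∂p_i = ∂_sU ∂F/∂q₀ + ∂_tU ∂F/∂q₁`.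
`K' c d` is the coefficient of `q₀^c q₁^d` in `∑ K a b p₀^a p₁^b` (a finite real-linear combination of
the `K a b`; here via `MvPolynomial (Fin 2) SP`).  The equation `pde` is equivalent to a polynomial
identity, and this form is invariant.
-/

namespace Pool.Agent.W_MP_4b1b5d_an

open MvPolynomial

/-- dual basis, first vector -/
noncomputable def epS (G : M2) (k : V2) : V2 := (1 / √(ip G k k)) • k

/-- dual basis, second vector -/
noncomputable def epT (G : M2) (k : V2) : V2 := (1 / (√G.det * √(ip G k k))) • J (G.mulVec k)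

namespace OrthCoord

/-- the exponent `(a, b)` -/
noncomputable def sg (a b : ℕ) : Fin 2 →₀ ℕ := Finsupp.single 0 a + Finsupp.single 1 b

@[simp] theorem sg_zero (a b : ℕ) : sg a b 0 = a := by simp [sg]

@[simp] theorem sg_one (a b : ℕ) : sg a b 1 = b := by simp [sg]

theorem eq_sg (s : Fin 2 →₀ ℕ) : s = sg (s 0) (s 1) := by
  ext i
  fin_cases i <;> simp

theorem sg_inj {a b c d : ℕ} : sg a b = sg c d ↔ a = c ∧ b = d := by
  constructor
  · intro h
    have h0 := congrArg (fun s : Fin 2 →₀ ℕ => s 0) h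
    have h1 := congrArg (fun s : Fin 2 →₀ ℕ => s 1) h
    simp at h0 h1
    exact ⟨h0, h1⟩
  · rintro ⟨rfl, rfl⟩
    rfl

section general

variable {A : Type} [CommRing A] [Algebra ℝ A]

/-- a linear map applied to all coefficients -/
noncomputable def dM (L : A →ₗ[ℝ] A) (f : MvPolynomial (Fin 2) A) : MvPolynomial (Fin 2) A :=
  ∑ s ∈ f.support, monomial s (L (coeff s f))

theorem dM_coeff (L : A →ₗ[ℝ] A) (f : MvPolynomial (Fin 2) A) (s : Fin 2 →₀ ℕ) :
    coeff s (dM L f) = L (coeff s f) := by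
  classical
  simp only [dM, coeff_sum, coeff_monomial, Finset.sum_ite_eq', mem_support_iff]
  by_cases h : coeff s f = 0
  · simp [h]
  · simp [h]

theorem dM_add (L : A →ₗ[ℝ] A) (f g : MvPolynomial (Fin 2) A) :
    dM L (f + g) = dM L f + dM L g := by
  ext s; simp [dM_coeff]

theorem dM_map (L : A →ₗ[ℝ] A) (g : RP) (f : MvPolynomial (Fin 2) A) :
    dM L (map (algebraMap ℝ A) g * f) = map (algebraMap ℝ A) g * dM L f := by
  classical
  ext s
  rw [dM_coeff, coeff_mul, coeff_mul, map_sum]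
  refine Finset.sum_congr rfl fun p _ => ?_
  rw [coeff_map, dM_coeff, ← Algebra.smul_def, ← Algebra.smul_def, map_smul]

theorem dM_lin (L L' : A →ₗ[ℝ] A) (a b : ℝ) (f : MvPolynomial (Fin 2) A) :
    dM (a • L + b • L') f = a • dM L f + b • dM L' f := by
  ext s; simp [dM_coeff]

/-- the polynomial of a coefficient array -/
noncomputable def arr (m : ℕ) (K : ℕ → ℕ → A) : MvPolynomial (Fin 2) A :=
  ∑ a ∈ Finset.range (m + 1), ∑ b ∈ Finset.range (m + 1), monomial (sg a b) (K a b)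

theorem arr_coeff (m : ℕ) (K : ℕ → ℕ → A) (hs : ∀ a b, ¬ (a + b ≤ m) → K a b = 0)
    (s : Fin 2 →₀ ℕ) : coeff s (arr m K) = K (s 0) (s 1) := by
  classical
  rw [arr]
  simp only [coeff_sum, coeff_monomial]
  by_cases h : s 0 + s 1 ≤ m
  · rw [Finset.sum_eq_single (s 0), Finset.sum_eq_single (s 1)]
    · rw [if_pos (eq_sg s).symm]
    · intro b _ hb
      rw [if_neg]
      intro h'
      rw [eq_sg s, sg_inj] at h'
      exact hb (by simpa using h'.2)
    · intro h'
      exfalso; apply h'; rw [Finset.mem_range]; omega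
    · intro a _ ha
      apply Finset.sum_eq_zero
      intro b _
      rw [if_neg]
      intro h'
      rw [eq_sg s, sg_inj] at h'
      exact ha (by simpa using h'.1)
    · intro h'
      exfalso; apply h'; rw [Finset.mem_range]; omega
  · rw [hs _ _ h]
    apply Finset.sum_eq_zero
    intro a _
    apply Finset.sum_eq_zero
    intro b _
    split_ifs with h'
    · apply hs
      rw [eq_sg s, sg_inj] at h'
      rw [h'.1, h'.2]
      exact h
    · rfl

theorem coeff_X0_mul (K : ℕ → ℕ → A) (f : MvPolynomial (Fin 2) A)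
    (hf : ∀ s, coeff s f = K (s 0) (s 1)) (s : Fin 2 →₀ ℕ) :
    coeff s (X 0 * f) = sh0 K (s 0) (s 1) := by
  classical
  rw [coeff_X_mul']
  obtain ⟨a, b, rfl⟩ : ∃ a b, s = sg a b := ⟨_, _, eq_sg s⟩
  cases a with
  | zero => simp [sh0]
  | succ a => simp [sh0, hf]

theorem coeff_X1_mul (K : ℕ → ℕ → A) (f : MvPolynomial (Fin 2) A)
    (hf : ∀ s, coeff s f = K (s 0) (s 1)) (s : Fin 2 →₀ ℕ) :
    coeff s (X 1 * f) = sh1 K (s 0) (s 1) := by
  classical
  rw [coeff_X_mul']
  obtain ⟨a, b, rfl⟩ : ∃ a b, s = sg a b := ⟨_, _, eq_sg s⟩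
  cases b with
  | zero => simp [sh1]
  | succ b => simp [sh1, hf]

/-- the linear forms `α_i X₀ + β_i X₁`, real -/
noncomputable def lf (α β : V2) (i : Fin 2) : RP := C (α i) * X 0 + C (β i) * X 1

/-- the substitution -/
noncomputable def sub (A : Type) [CommRing A] [Algebra ℝ A] (α β : V2) :
    MvPolynomial (Fin 2) A →ₐ[A] MvPolynomial (Fin 2) A :=
  aeval fun i => map (algebraMap ℝ A) (lf α β i)

theorem sub_monomial (α β : V2) (s : Fin 2 →₀ ℕ) (a : A) :
    sub A α β (monomial s a)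
      = map (algebraMap ℝ A) (lf α β 0 ^ s 0 * lf α β 1 ^ s 1) * C a := by
  rw [sub, aeval_monomial, Finsupp.prod_fintype _ _ (by simp), Fin.prod_univ_two, mul_comm]
  simp [algebraMap_eq]

theorem sub_dM (α β : V2) (L : A →ₗ[ℝ] A) (f : MvPolynomial (Fin 2) A) :
    sub A α β (dM L f) = dM L (sub A α β f) := by
  classical
  induction f using MvPolynomial.induction_on' with
  | add p q hp hq => rw [dM_add, map_add, map_add, dM_add, hp, hq]
  | monomial s a =>
    have h1 : ∀ t : Fin 2 →₀ ℕ, dM L (monomial t a) = monomial t (L a) := by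
      intro t
      ext t'
      rw [dM_coeff, coeff_monomial, coeff_monomial]
      split_ifs <;> simp
    rw [h1, sub_monomial, sub_monomial, dM_map]
    congr 1
    exact (h1 0).symm

theorem sub_X (α β : V2) (i : Fin 2) : sub A α β (X i)
    = C (algebraMap ℝ A (α i)) * X 0 + C (algebraMap ℝ A (β i)) * X 1 := by
  simp [sub, lf]

theorem pderiv_sub0 (α β : V2) (f : MvPolynomial (Fin 2) A) :
    pderiv 0 (sub A α β f)
      = C (algebraMap ℝ A (α 0)) * sub A α β (pderiv 0 f)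
        + C (algebraMap ℝ A (α 1)) * sub A α β (pderiv 1 f) := by
  classical
  induction f using MvPolynomial.induction_on with
  | C a => simp [sub, algebraMap_eq]
  | add p q hp hq => simp only [map_add, hp, hq]; ring
  | mul_X p i hp =>
    have h2 : pderiv 0 (C (algebraMap ℝ A (α i)) * X 0 + C (algebraMap ℝ A (β i)) * X 1
        : MvPolynomial (Fin 2) A) = C (algebraMap ℝ A (α i)) := by
      simp [pderiv_X]
    rw [map_mul, sub_X, pderiv_mul, pderiv_mul, pderiv_mul, hp, h2]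
    fin_cases i
    · simp [pderiv_X, sub_X α β 0]
      ring
    · simp [pderiv_X, sub_X α β 1]
      ring

theorem pderiv_sub1 (α β : V2) (f : MvPolynomial (Fin 2) A) :
    pderiv 1 (sub A α β f)
      = C (algebraMap ℝ A (β 0)) * sub A α β (pderiv 0 f)
        + C (algebraMap ℝ A (β 1)) * sub A α β (pderiv 1 f) := by
  classical
  induction f using MvPolynomial.induction_on with
  | C a => simp [sub, algebraMap_eq]
  | add p q hp hq => simp only [map_add, hp, hq]; ring
  | mul_X p i hp =>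
    have h2 : pderiv 1 (C (algebraMap ℝ A (α i)) * X 0 + C (algebraMap ℝ A (β i)) * X 1
        : MvPolynomial (Fin 2) A) = C (algebraMap ℝ A (β i)) := by
      simp [pderiv_X]
    rw [map_mul, sub_X, pderiv_mul, pderiv_mul, pderiv_mul, hp, h2]
    fin_cases i
    · simp [pderiv_X, sub_X α β 0]
      ring
    · simp [pderiv_X, sub_X α β 1]
      ring

/-- the transformed equation -/
theorem key (G : M2) (D0 D1 : Derivation ℝ A A) (U : A) (m : ℕ) (K : ℕ → ℕ → A)
    (supp : ∀ a b, ¬ (a + b ≤ m) → K a b = 0)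
    (pde : ∀ a b, (G 0 0 • D0 (sh0 K a b) + G 1 0 • D1 (sh0 K a b))
      + (G 0 1 • D0 (sh1 K a b) + G 1 1 • D1 (sh1 K a b))
      = ((a : ℝ) + 1) • (D0 U * K (a + 1) b) + ((b : ℝ) + 1) • (D1 U * K a (b + 1)))
    (α β : V2) (es et : V2)
    (h0 : ∀ i, es i = G i 0 * α 0 + G i 1 * α 1)
    (h1 : ∀ i, et i = G i 0 * β 0 + G i 1 * β 1)
    (d00 : α 0 * es 0 + β 0 * et 0 = 1) (d01 : α 0 * es 1 + β 0 * et 1 = 0)
    (d10 : α 1 * es 0 + β 1 * et 0 = 0) (d11 : α 1 * es 1 + β 1 * et 1 = 1) :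
    X 0 * dM (es 0 • (D0 : A →ₗ[ℝ] A) + es 1 • (D1 : A →ₗ[ℝ] A)) (sub A α β (arr m K))
      + X 1 * dM (et 0 • (D0 : A →ₗ[ℝ] A) + et 1 • (D1 : A →ₗ[ℝ] A)) (sub A α β (arr m K))
    = C (es 0 • D0 U + es 1 • D1 U) * pderiv 0 (sub A α β (arr m K))
      + C (et 0 • D0 U + et 1 • D1 U) * pderiv 1 (sub A α β (arr m K)) := by
  classical
  set F := arr m K with hF
  have hc : ∀ s, coeff s F = K (s 0) (s 1) := arr_coeff m K supp
  have e1 : (G 0 0 • dM (D0 : A →ₗ[ℝ] A) (X 0 * F) + G 1 0 • dM (D1 : A →ₗ[ℝ] A) (X 0 * F))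
      + (G 0 1 • dM (D0 : A →ₗ[ℝ] A) (X 1 * F) + G 1 1 • dM (D1 : A →ₗ[ℝ] A) (X 1 * F))
      = C (D0 U) * pderiv 0 F + C (D1 U) * pderiv 1 F := by
    ext s
    have h2 := pde (s 0) (s 1)
    simp only [coeff_add, coeff_smul, dM_coeff, coeff_X0_mul K F hc, coeff_X1_mul K F hc,
      Derivation.coeFn_coe, coeff_C_mul, coeff_pderiv, hc] at h2 ⊢
    rw [h2]
    have h3 : (Finsupp.single (0 : Fin 2) 1 : Fin 2 →₀ ℕ) 1 = 0 := by simp
    have h4 : (Finsupp.single (1 : Fin 2) 1 : Fin 2 →₀ ℕ) 0 = 0 := by simp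
    simp only [Finsupp.add_apply, Finsupp.single_eq_same, Algebra.smul_def, map_add, map_natCast,
      map_one, h3, h4, add_zero]
    ring
  have hX : ∀ (L : A →ₗ[ℝ] A) (i : Fin 2) (f : MvPolynomial (Fin 2) A),
      sub A α β (dM L (X i * f)) = sub A α β (X i) * dM L (sub A α β f) := by
    intro L i f
    have h5 : dM L (X i * f) = X i * dM L f := by
      have := dM_map L (X i) f
      simpa using this
    rw [h5, map_mul, sub_dM]
  have e2 := congrArg (sub A α β) e1
  have hsm2 : ∀ (r : ℝ) (f : MvPolynomial (Fin 2) A), r • f = C (algebraMap ℝ A r) * f := by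
    intro r f
    ext s; simp [Algebra.smul_def]
  have hC : ∀ a : A, sub A α β (C a) = C a := by
    intro a; simp [sub, algebraMap_eq]
  simp only [hsm2, map_add, hX, map_mul, hC, sub_X] at e2
  rw [pderiv_sub0, pderiv_sub1, dM_lin, dM_lin]
  simp only [hsm2, Algebra.smul_def, map_add, map_mul]
  have dd : ∀ x y z w : ℝ, ∀ v : ℝ, x * y + z * w = v →
      (C (algebraMap ℝ A x) * C (algebraMap ℝ A y) + C (algebraMap ℝ A z) * C (algebraMap ℝ A w)
        : MvPolynomial (Fin 2) A) = C (algebraMap ℝ A v) := by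
    intro x y z w v h
    rw [← h]; simp
  have D00 := dd _ _ _ _ _ d00
  have D01 := dd _ _ _ _ _ d01
  have D10 := dd _ _ _ _ _ d10
  have D11 := dd _ _ _ _ _ d11
  have A0 := dd _ _ _ _ _ (h0 0).symm
  have A1 := dd _ _ _ _ _ (h0 1).symm
  have B0 := dd _ _ _ _ _ (h1 0).symm
  have B1 := dd _ _ _ _ _ (h1 1).symm
  simp only [map_zero, map_one] at D00 D01 D10 D11
  generalize dM (D0 : A →ₗ[ℝ] A) (sub A α β F) = d0 at *
  generalize dM (D1 : A →ₗ[ℝ] A) (sub A α β F) = d1 at *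
  generalize sub A α β (pderiv 0 F) = p0 at *
  generalize sub A α β (pderiv 1 F) = p1 at *
  generalize (C (D0 U) : MvPolynomial (Fin 2) A) = u0 at *
  generalize (C (D1 U) : MvPolynomial (Fin 2) A) = u1 at *
  linear_combination e2 - X 0 * d0 * A0 - X 0 * d1 * A1 - X 1 * d0 * B0 - X 1 * d1 * B1
    - p0 * u0 * D00 - p0 * u1 * D01 - p1 * u0 * D10 - p1 * u1 * D11

/-- real weights of the substitution -/
noncomputable def wt (α β : V2) (a b : ℕ) (t : Fin 2 →₀ ℕ) : ℝ :=
  coeff t (lf α β 0 ^ a * lf α β 1 ^ b)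

theorem lf_hom (α β : V2) (i : Fin 2) : (lf α β i).IsHomogeneous 1 := by
  unfold lf
  apply IsHomogeneous.add
  · simpa using (isHomogeneous_C (Fin 2) (α i)).mul (isHomogeneous_X ℝ (0 : Fin 2))
  · simpa using (isHomogeneous_C (Fin 2) (β i)).mul (isHomogeneous_X ℝ (1 : Fin 2))

theorem lf_hom' (α β : V2) (a b : ℕ) : (lf α β 0 ^ a * lf α β 1 ^ b).IsHomogeneous (a + b) := by
  have h := ((lf_hom α β 0).pow a).mul ((lf_hom α β 1).pow b)
  simpa using h

theorem deg_eq (t : Fin 2 →₀ ℕ) : t.degree = t 0 + t 1 := by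
  rw [Finsupp.degree_eq_sum, Fin.sum_univ_two]

theorem wt_zero (α β : V2) (a b : ℕ) (t : Fin 2 →₀ ℕ) (h : t 0 + t 1 ≠ a + b) :
    wt α β a b t = 0 := by
  unfold wt
  apply (lf_hom' α β a b).coeff_eq_zero
  rw [deg_eq]
  exact h

theorem sub_arr_coeff (α β : V2) (m : ℕ) (K : ℕ → ℕ → A) (t : Fin 2 →₀ ℕ) :
    coeff t (sub A α β (arr m K)) = ∑ a ∈ Finset.range (m + 1), ∑ b ∈ Finset.range (m + 1),
      wt α β a b t • K a b := by
  simp only [arr, map_sum, coeff_sum, sub_monomial, sg_zero, sg_one]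
  refine Finset.sum_congr rfl fun a _ => Finset.sum_congr rfl fun b _ => ?_
  rw [mul_comm, coeff_C_mul, coeff_map, wt, Algebra.smul_def, mul_comm]

end general

theorem hom_expand (P : RP) (m : ℕ) (hP : P.IsHomogeneous m) :
    P = ∑ a ∈ Finset.range (m + 1), monomial (sg a (m - a)) (coeff (sg a (m - a)) P) := by
  classical
  ext s
  rw [coeff_sum]
  simp only [coeff_monomial]
  by_cases h : s 0 + s 1 = m
  · rw [Finset.sum_eq_single (s 0)]
    · have h2 : sg (s 0) (m - s 0) = s := by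
        rw [← h, Nat.add_sub_cancel_left]; exact (eq_sg s).symm
      rw [h2, if_pos rfl]
    · intro b _ hb
      rw [if_neg]
      intro h'
      rw [eq_sg s, sg_inj] at h'
      exact hb (by simpa using h'.1)
    · intro h'
      exfalso; apply h'; rw [Finset.mem_range]; omega
  · rw [hP.coeff_eq_zero (by rw [deg_eq]; exact h)]
    symm
    apply Finset.sum_eq_zero
    intro a ha
    rw [if_neg]
    intro h'
    apply h
    rw [← h', sg_zero, sg_one]
    rw [Finset.mem_range] at ha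
    omega

theorem Dv_eq (e : V2) (f : SP) : Dv e f = e 0 • D 0 f + e 1 • D 1 f := by
  apply Subtype.ext
  funext x
  have h1 : e = e 0 • (Pi.single 0 1 : V2) + e 1 • (Pi.single 1 1 : V2) := by
    ext i
    fin_cases i <;> simp
  have h2 : (Dv e f : V2 → ℝ) x = fderiv ℝ (f : V2 → ℝ) x e := rfl
  rw [h2]
  conv_lhs => rw [h1]
  rw [map_add, map_smul, map_smul]
  rfl

end OrthCoord

open OrthCoord

theorem orth_coord (G : M2) (hG : G.PosDef) (U : SP) (m : ℕ) (K : ℕ → ℕ → SP)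
    (hK : IsK G U m K) (hc : ∀ a, a ≤ m →
      K a (m - a) = algebraMap ℝ SP ((K a (m - a) : V2 → ℝ) 0)) (k : V2) (hk : k ≠ 0) :
    ∃ (K' : ℕ → ℕ → SP) (r : ℕ → ℝ), IsKabs (Dv (eS2 G k)) (Dv (eT2 G k)) U m K' ∧
      (∀ a, a ≤ m → K' a (m - a) = algebraMap ℝ SP (r a)) ∧
      (∀ q0 q1 : ℝ, ∑ a ∈ Finset.range (m + 1), r a * q0 ^ a * q1 ^ (m - a)
        = MvPolynomial.eval (q0 • epS G k + q1 • epT G k) (PR m K)) := by
  classical
  set α : V2 := epS G k with hα
  set β : V2 := epT G k with hβ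
  have hn : 0 < ip G k k := ip_pos G hG k hk
  have hsn : √(ip G k k) ≠ 0 := (Real.sqrt_pos.2 hn).ne'
  have hsn2 : √(ip G k k) ^ 2 = ip G k k := Real.sq_sqrt hn.le
  have hd : 0 < G.det := det_pos G hG
  have hsd : √G.det ≠ 0 := (Real.sqrt_pos.2 hd).ne'
  have hsd2 : √G.det ^ 2 = G.det := Real.sq_sqrt hd.le
  have hsym := g_symm G hG
  have hdet : G.det = G 0 0 * G 1 1 - G 0 1 * G 1 0 := Matrix.det_fin_two G
  have hmv : ∀ i, G.mulVec k i = G i 0 * k 0 + G i 1 * k 1 := by
    intro i; simp [Matrix.mulVec, dotProduct, Fin.sum_univ_two]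
  have hip : ip G k k = G 0 0 * k 0 ^ 2 + 2 * G 0 1 * k 0 * k 1 + G 1 1 * k 1 ^ 2 := by
    rw [gg_ip_expand, hsym]; ring
  have a0 : α 0 = k 0 / √(ip G k k) := by simp [hα, epS]; ring
  have a1 : α 1 = k 1 / √(ip G k k) := by simp [hα, epS]; ring
  have b0 : β 0 = -(G 1 0 * k 0 + G 1 1 * k 1) / (√G.det * √(ip G k k)) := by
    simp [hβ, epT, J, hmv]; ring
  have b1 : β 1 = (G 0 0 * k 0 + G 0 1 * k 1) / (√G.det * √(ip G k k)) := by
    simp [hβ, epT, J, hmv]; ring
  have s0 : eS2 G k 0 = (G 0 0 * k 0 + G 0 1 * k 1) / √(ip G k k) := by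
    simp [eS2, hmv]; ring
  have s1 : eS2 G k 1 = (G 1 0 * k 0 + G 1 1 * k 1) / √(ip G k k) := by
    simp [eS2, hmv]; ring
  have t0 : eT2 G k 0 = √G.det * (-k 1) / √(ip G k k) := by
    simp [eT2, J]; ring
  have t1 : eT2 G k 1 = √G.det * k 0 / √(ip G k k) := by
    simp [eT2, J]; ring
  have h0 : ∀ i, eS2 G k i = G i 0 * α 0 + G i 1 * α 1 := by
    intro i
    fin_cases i
    · simp only [Fin.zero_eta, s0, a0, a1]; ring
    · simp only [Fin.mk_one, s1, a0, a1]; ring
  have h1 : ∀ i, eT2 G k i = G i 0 * β 0 + G i 1 * β 1 := by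
    intro i
    fin_cases i
    · simp only [Fin.zero_eta, t0, b0, b1]
      field_simp
      rw [hsd2, hdet, hsym]; ring
    · simp only [Fin.mk_one, t1, b0, b1]
      field_simp
      rw [hsd2, hdet, hsym]; ring
  have key1 := key G (D 0) (D 1) U m K
    (fun a b h => hK.supp a b (fun h' => h h'.1)) hK.pde α β (eS2 G k) (eT2 G k) h0 h1
    (by rw [a0, b0, s0, t0]; field_simp; rw [hsn2, hip, hsym]; ring)
    (by rw [a0, b0, s1, t1]; field_simp; ring)
    (by rw [a1, b1, s0, t0]; field_simp; ring)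
    (by rw [a1, b1, s1, t1]; field_simp; rw [hsn2, hip, hsym]; ring)
  set F' := sub SP α β (arr m K) with hF'
  let K' : ℕ → ℕ → SP := fun c d => coeff (sg c d) F'
  have hcoef : ∀ s, coeff s F' = K' (s 0) (s 1) := by
    intro s
    show coeff s F' = coeff (sg (s 0) (s 1)) F'
    rw [← eq_sg s]
  have hK'sum : ∀ c d, K' c d = ∑ a ∈ Finset.range (m + 1), ∑ b ∈ Finset.range (m + 1),
      wt α β a b (sg c d) • K a b := fun c d => sub_arr_coeff α β m K (sg c d)
  let P' : RP := ∑ a ∈ Finset.range (m + 1),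
    C ((K a (m - a) : V2 → ℝ) 0) * (lf α β 0 ^ a * lf α β 1 ^ (m - a))
  have hP'h : P'.IsHomogeneous m := by
    apply IsHomogeneous.sum
    intro a ha
    have h3 := (isHomogeneous_C (Fin 2) ((K a (m - a) : V2 → ℝ) 0)).mul (lf_hom' α β a (m - a))
    have h4 : 0 + (a + (m - a)) = m := by
      rw [Finset.mem_range] at ha; omega
    rw [h4] at h3
    exact h3
  refine ⟨K', fun a => coeff (sg a (m - a)) P', ⟨?_, ?_⟩, ?_, ?_⟩
  · intro c d hcd
    rw [hK'sum]
    apply Finset.sum_eq_zero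
    intro a _
    apply Finset.sum_eq_zero
    intro b _
    by_cases h2 : c + d = a + b
    · rw [hK.supp a b (by rw [← h2]; exact hcd), smul_zero]
    · rw [wt_zero α β a b _ (by simpa using h2), zero_smul]
  · intro a b
    have h2 := congrArg (coeff (sg a b)) key1
    rw [coeff_add, coeff_add] at h2
    have hL : ∀ e : V2, ∀ f : SP,
        (e 0 • (D 0 : SP →ₗ[ℝ] SP) + e 1 • (D 1 : SP →ₗ[ℝ] SP)) f = Dv e f := by
      intro e f
      rw [Dv_eq]; rfl
    have e1 : coeff (sg a b) (X 0 * dM (eS2 G k 0 • (D 0 : SP →ₗ[ℝ] SP)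
        + eS2 G k 1 • (D 1 : SP →ₗ[ℝ] SP)) F') = Dv (eS2 G k) (sh0 K' a b) := by
      have h5 := coeff_X0_mul K' F' hcoef (sg a b)
      rw [sg_zero, sg_one] at h5
      rw [← h5, ← hL, ← dM_coeff]
      have := dM_map (eS2 G k 0 • (D 0 : SP →ₗ[ℝ] SP) + eS2 G k 1 • (D 1 : SP →ₗ[ℝ] SP)) (X 0) F'
      rw [map_X] at this
      rw [this]
    have e2 : coeff (sg a b) (X 1 * dM (eT2 G k 0 • (D 0 : SP →ₗ[ℝ] SP)
        + eT2 G k 1 • (D 1 : SP →ₗ[ℝ] SP)) F') = Dv (eT2 G k) (sh1 K' a b) := by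
      have h5 := coeff_X1_mul K' F' hcoef (sg a b)
      rw [sg_zero, sg_one] at h5
      rw [← h5, ← hL, ← dM_coeff]
      have := dM_map (eT2 G k 0 • (D 0 : SP →ₗ[ℝ] SP) + eT2 G k 1 • (D 1 : SP →ₗ[ℝ] SP)) (X 1) F'
      rw [map_X] at this
      rw [this]
    rw [e1, e2, coeff_C_mul, coeff_C_mul, coeff_pderiv, coeff_pderiv, ← Dv_eq,
      ← Dv_eq, hcoef, hcoef] at h2
    rw [h2]
    have h3 : (Finsupp.single (0 : Fin 2) 1 : Fin 2 →₀ ℕ) 1 = 0 := by simp
    have h4 : (Finsupp.single (1 : Fin 2) 1 : Fin 2 →₀ ℕ) 0 = 0 := by simp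
    simp only [Finsupp.add_apply, sg_zero, sg_one, Finsupp.single_eq_same, h3, h4, add_zero,
      Algebra.smul_def, map_add, map_natCast, map_one]
    ring
  · intro c hcm
    rw [hK'sum]
    have e1 : ∀ a ∈ Finset.range (m + 1), ∑ b ∈ Finset.range (m + 1),
        wt α β a b (sg c (m - c)) • K a b = wt α β a (m - a) (sg c (m - c)) • K a (m - a) := by
      intro a ha
      rw [Finset.mem_range] at ha
      apply Finset.sum_eq_single (m - a)
      · intro b _ hb
        rw [wt_zero, zero_smul]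
        rw [sg_zero, sg_one]
        omega
      · intro h'
        exfalso; apply h'; rw [Finset.mem_range]; omega
    rw [Finset.sum_congr rfl e1]
    show _ = algebraMap ℝ SP (coeff (sg c (m - c)) P')
    simp only [P', coeff_sum, map_sum, coeff_C_mul]
    refine Finset.sum_congr rfl fun a ha => ?_
    rw [Finset.mem_range] at ha
    conv_lhs => rw [hc a (by omega)]
    rw [map_mul, Algebra.smul_def, wt, mul_comm]
  · intro q0 q1
    have e1 : eval ![q0, q1] P' = eval (q0 • α + q1 • β) (PR m K) := by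
      simp only [P', PR, map_sum, map_mul, map_pow, eval_C, eval_X, lf, map_add]
      refine Finset.sum_congr rfl fun a _ => ?_
      simp only [Matrix.cons_val_zero, Matrix.cons_val_one, Pi.add_apply, Pi.smul_apply,
        smul_eq_mul]
      rw [mul_assoc]
      congr 2 <;> ring
    rw [← e1]
    conv_rhs => rw [hom_expand P' m hP'h]
    rw [map_sum]
    refine Finset.sum_congr rfl fun a _ => ?_
    rw [eval_monomial, Finsupp.prod_fintype _ _ (by simp), Fin.prod_univ_two, sg_zero, sg_one,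
      mul_assoc]
    rfl

end Pool.Agent.W_MP_4b1b5d_an
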