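import Pool.Agent.W_MP_4b1b5d_an.GeomG

set_option autoImplicit false

/-!
# H2a: the relation (N2) when the spectrum lies on finitely many lines

If `q` is not an integer vector, then for `i ≠ j`, `q = α e_i + β e_j`
(`α = det2 q e_j / det2 e_i e_j`, `β = det2 e_i q / det2 e_i e_j`), one of `α e_i`, `β e_j` is not
an integer vector, so every term vanishes.  If `q = toR k`, the terms of `hn2 k` with
`fc U k' fc U (k-k') ≠ 0` have `k' ∥ e_i`, `k - k' ∥ e_j`; `i ≠ j` because `q` is not parallel to `e_i`
(except `k' = 0` or `k' = k`, where the weight vanishes), so `k' = α e_i`, `k - k' = β e_j`; different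
pairs `(i,j)` with nonzero terms give different `k'`.  The weight is
`ip (α e_i) (β e_j) / det2 (α e_i) q ^ 2 = ip e_i e_j / (det2 q e_j * det2 e_i q)`.
-/

namespace Pool.Agent.W_MP_4b1b5d_an

open Classical in
/-- Fourier coefficient extended by zero to real vectors -/
noncomputable def fcR (f : V2 → ℝ) (q : V2) : ℂ :=
  if h : ∃ k : Z2, toR k = q then fc f h.choose else 0

theorem PairSum_toR_inj {k l : Z2} (h : toR k = toR l) : k = l := by
  funext i
  have := congrFun h i
  simpa [toR] using this

theorem fcR_toR (f : V2 → ℝ) (k : Z2) : fcR f (toR k) = fc f k := by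
  have h : ∃ l : Z2, toR l = toR k := ⟨k, rfl⟩
  unfold fcR
  rw [dif_pos h, PairSum_toR_inj h.choose_spec]

theorem fcR_of_not (f : V2 → ℝ) (q : V2) (h : ∀ k : Z2, toR k ≠ q) : fcR f q = 0 := by
  unfold fcR
  rw [dif_neg]
  rintro ⟨k, hk⟩
  exact h k hk

theorem PairSum_decomp (a b q : V2) (h : det2 a b ≠ 0) :
    q = (det2 q b / det2 a b) • a + (det2 a q / det2 a b) • b := by
  funext i
  simp only [Pi.add_apply, Pi.smul_apply, smul_eq_mul]
  field_simp
  unfold det2
  fin_cases i <;> simp <;> ring

theorem PairSum_toR_sub (k l : Z2) : toR (k - l) = toR k - toR l := by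
  funext i
  simp [toR]

theorem PairSum_toR_add (k l : Z2) : toR (k + l) = toR k + toR l := by
  funext i
  simp [toR]

theorem PairSum_det2_smul_left (c : ℝ) (a b : V2) : det2 (c • a) b = c * det2 a b := by
  simp only [det2, Pi.smul_apply, smul_eq_mul]
  ring

theorem PairSum_det2_smul_right (c : ℝ) (a b : V2) : det2 a (c • b) = c * det2 a b := by
  simp only [det2, Pi.smul_apply, smul_eq_mul]
  ring

theorem PairSum_det2_add_left (a a' b : V2) : det2 (a + a') b = det2 a b + det2 a' b := by
  simp only [det2, Pi.add_apply]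
  ring

theorem PairSum_det2_self (a : V2) : det2 a a = 0 := by
  unfold det2
  ring

/-- parallel transitivity -/
theorem PairSum_par (a b c : V2) (ha : a ≠ 0) (h1 : det2 a b = 0) (h2 : det2 a c = 0) : det2 b c = 0 := by
  unfold det2 at *
  by_cases h0 : a 0 = 0
  · have h3 : a 1 ≠ 0 := by
      intro h3
      apply ha
      funext i
      fin_cases i
      · exact h0
      · exact h3
    rw [h0, zero_mul, zero_sub, neg_eq_zero] at h1 h2
    have hb : b 0 = 0 := (mul_eq_zero.1 h1).resolve_left h3
    have hc : c 0 = 0 := (mul_eq_zero.1 h2).resolve_left h3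
    rw [hb, hc]
    ring
  · have e : a 0 * (b 0 * c 1 - b 1 * c 0) = 0 := by
      linear_combination b 0 * h2 - c 0 * h1
    exact (mul_eq_zero.1 e).resolve_left h0

theorem pair_sum (G : M2) (hG : G.PosDef) (U : SP) (P : RP)
    (hn2 : ∀ k : Z2, crit G P (toR k) ≠ 0 →
      HasSum (fun k' : Z2 => fc (U : V2 → ℝ) k' * fc (U : V2 → ℝ) (k - k')
        * ((ip G (toR k') (toR (k - k')) / det2 (toR k') (toR k) ^ 2 : ℝ) : ℂ)) 0)
    (n : ℕ) (e : Fin n → V2) (hpar : ∀ i j, i ≠ j → det2 (e i) (e j) ≠ 0)
    (hlines : ∀ k : Z2, fc (U : V2 → ℝ) k ≠ 0 → ∃ i, det2 (toR k) (e i) = 0)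
    (q : V2) (hq : ∀ i, det2 q (e i) ≠ 0) (hcrit : crit G P q ≠ 0) :
    ∑ i, ∑ j, (if i = j then 0 else
      fcR (U : V2 → ℝ) ((det2 q (e j) / det2 (e i) (e j)) • e i)
        * fcR (U : V2 → ℝ) ((det2 (e i) q / det2 (e i) (e j)) • e j)
        * ((ip G (e i) (e j) / (det2 q (e j) * det2 (e i) q) : ℝ) : ℂ)) = 0 := by
  classical
  obtain ⟨T, hT⟩ : ∃ T : Fin n → Fin n → ℂ, ∀ i j, T i j =
      fcR (U : V2 → ℝ) ((det2 q (e j) / det2 (e i) (e j)) • e i)
        * fcR (U : V2 → ℝ) ((det2 (e i) q / det2 (e i) (e j)) • e j)
        * ((ip G (e i) (e j) / (det2 q (e j) * det2 (e i) q) : ℝ) : ℂ) := ⟨_, fun _ _ => rfl⟩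
  simp only [← hT]
  by_cases hint : ∃ k : Z2, toR k = q
  swap
  · refine Finset.sum_eq_zero fun i _ => Finset.sum_eq_zero fun j _ => ?_
    split_ifs with hij
    · rfl
    · rw [hT]
      by_cases h1 : ∃ a : Z2, toR a = (det2 q (e j) / det2 (e i) (e j)) • e i
      · by_cases h2 : ∃ b : Z2, toR b = (det2 (e i) q / det2 (e i) (e j)) • e j
        · exfalso
          obtain ⟨a, ha⟩ := h1
          obtain ⟨b, hb⟩ := h2
          apply hint
          refine ⟨a + b, ?_⟩
          rw [PairSum_toR_add, ha, hb]
          exact (PairSum_decomp (e i) (e j) q (hpar i j hij)).symm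
        · rw [fcR_of_not _ _ (fun k hk => h2 ⟨k, hk⟩)]
          simp
      · rw [fcR_of_not _ _ (fun k hk => h1 ⟨k, hk⟩)]
        simp
  · obtain ⟨k, rfl⟩ := hint
    obtain ⟨F, hF⟩ : ∃ F : Z2 → ℂ, ∀ k', F k' = fc (U : V2 → ℝ) k' * fc (U : V2 → ℝ) (k - k')
        * ((ip G (toR k') (toR (k - k')) / det2 (toR k') (toR k) ^ 2 : ℝ) : ℂ) := ⟨_, fun _ => rfl⟩
    have hsum := hn2 k hcrit
    simp only [← hF] at hsum
    -- matching pairs
    have hmatch : ∀ (i j : Fin n) (k' : Z2), i ≠ j →
        toR k' = (det2 (toR k) (e j) / det2 (e i) (e j)) • e i → T i j = F k' := by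
      intro i j k' hij hk'
      have hd := hpar i j hij
      have h1 := PairSum_decomp (e i) (e j) (toR k) hd
      have h2 : toR (k - k') = (det2 (e i) (toR k) / det2 (e i) (e j)) • e j := by
        rw [PairSum_toR_sub, hk', sub_eq_iff_eq_add, add_comm]
        exact h1
      rw [hT, hF, ← hk', ← h2, fcR_toR, fcR_toR]
      congr 2
      rw [h2, hk', ip_smul_left, ip_smul_right, PairSum_det2_smul_left]
      have h3 : det2 (toR k) (e j) ≠ 0 := hq j
      have h4 : det2 (e i) (toR k) ≠ 0 := by
        have := hq i
        unfold det2 at this ⊢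
        intro h
        apply this
        linarith
      field_simp
    have hone : ∀ k' : Z2, F k' = ∑ i, ∑ j, (if (i ≠ j ∧
        toR k' = (det2 (toR k) (e j) / det2 (e i) (e j)) • e i) then T i j else 0) := by
      intro k'
      by_cases h0 : F k' = 0
      · rw [h0]
        symm
        refine Finset.sum_eq_zero fun i _ => Finset.sum_eq_zero fun j _ => ?_
        split_ifs with h
        · rw [hmatch i j k' h.1 h.2, h0]
        · rfl
      · have h0' := h0
        rw [hF] at h0
        have f1 : fc (U : V2 → ℝ) k' ≠ 0 := fun h => h0 (by rw [h]; simp)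
        have f2 : fc (U : V2 → ℝ) (k - k') ≠ 0 := fun h => h0 (by rw [h]; simp)
        have f3 : det2 (toR k') (toR k) ≠ 0 := fun h => h0 (by rw [h]; simp)
        obtain ⟨i, hi⟩ := hlines k' f1
        obtain ⟨j, hj⟩ := hlines (k - k') f2
        have hk'0 : toR k' ≠ 0 := by
          intro h
          apply f3
          rw [h]
          simp [det2]
        have hkk0 : toR (k - k') ≠ 0 := by
          intro h
          rw [PairSum_toR_sub, sub_eq_zero] at h
          apply f3
          rw [h]
          exact PairSum_det2_self _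
        have hsplit : toR k = toR k' + toR (k - k') := by
          rw [PairSum_toR_sub]
          abel
        have hij : i ≠ j := by
          rintro rfl
          apply hq i
          rw [hsplit, PairSum_det2_add_left, hi, hj, add_zero]
        have hα : toR k' = (det2 (toR k) (e j) / det2 (e i) (e j)) • e i := by
          have e1 : det2 (toR k) (e j) = det2 (toR k') (e j) := by
            rw [hsplit, PairSum_det2_add_left, hj, add_zero]
          have e2 := PairSum_decomp (e i) (e j) (toR k') (hpar i j hij)
          have e3 : det2 (e i) (toR k') = 0 := by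
            unfold det2 at hi ⊢
            linarith
          rw [e3, zero_div, zero_smul, add_zero] at e2
          rw [e1]
          exact e2
        rw [Finset.sum_eq_single i, Finset.sum_eq_single j, if_pos ⟨hij, hα⟩, hmatch i j k' hij hα]
        · intro j' _ hj'
          rw [if_neg]
          rintro ⟨hij', hα'⟩
          have h2 : toR (k - k') = (det2 (e i) (toR k) / det2 (e i) (e j')) • e j' := by
            rw [PairSum_toR_sub, hα', sub_eq_iff_eq_add, add_comm]
            exact PairSum_decomp (e i) (e j') (toR k) (hpar i j' hij')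
          have h3 : det2 (toR (k - k')) (e j') = 0 := by
            rw [h2, PairSum_det2_smul_left, PairSum_det2_self, mul_zero]
          exact hpar j' j hj' (PairSum_par _ _ _ hkk0 h3 hj)
        · intro h
          exact absurd (Finset.mem_univ _) h
        · intro i' _ hi'
          refine Finset.sum_eq_zero fun j' _ => ?_
          rw [if_neg]
          rintro ⟨hij', hα'⟩
          have h3 : det2 (toR k') (e i') = 0 := by
            rw [hα', PairSum_det2_smul_left, PairSum_det2_self, mul_zero]
          exact hpar i' i hi' (PairSum_par _ _ _ hk'0 h3 hi)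
        · intro h
          exact absurd (Finset.mem_univ _) h
    have hTs : ∀ i j : Fin n, HasSum (fun k' : Z2 => if (i ≠ j ∧
        toR k' = (det2 (toR k) (e j) / det2 (e i) (e j)) • e i) then T i j else 0)
        (if i = j then 0 else T i j) := by
      intro i j
      by_cases hij : i = j
      · rw [if_pos hij]
        simp only [ne_eq, hij, not_true_eq_false, false_and, if_false]
        exact hasSum_zero
      · rw [if_neg hij]
        by_cases hex : ∃ k₀ : Z2, toR k₀ = (det2 (toR k) (e j) / det2 (e i) (e j)) • e i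
        · obtain ⟨k₀, hk₀⟩ := hex
          have h := hasSum_ite_eq k₀ (T i j)
          have hfe : (fun k' : Z2 => if (i ≠ j ∧
              toR k' = (det2 (toR k) (e j) / det2 (e i) (e j)) • e i) then T i j else 0) =
              fun k' => if k' = k₀ then T i j else 0 := by
            funext k'
            have : (i ≠ j ∧ toR k' = (det2 (toR k) (e j) / det2 (e i) (e j)) • e i) ↔ k' = k₀ := by
              constructor
              · rintro ⟨_, h⟩
                exact PairSum_toR_inj (h.trans hk₀.symm)
              · rintro rfl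
                exact ⟨hij, hk₀⟩
            simp only [this]
          rw [hfe]
          exact h
        · have hz : T i j = 0 := by
            rw [hT, fcR_of_not _ _ (fun k hk => hex ⟨k, hk⟩)]
            simp
          rw [hz]
          simp only [ite_self]
          exact hasSum_zero
    have htot := hasSum_sum (s := Finset.univ) fun i (_ : i ∈ (Finset.univ : Finset (Fin n))) =>
      hasSum_sum (s := Finset.univ) fun j (_ : j ∈ (Finset.univ : Finset (Fin n))) => hTs i j
    have hfun : (fun k' : Z2 => ∑ i, ∑ j, (if (i ≠ j ∧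
        toR k' = (det2 (toR k) (e j) / det2 (e i) (e j)) • e i) then T i j else 0)) = F := by
      funext k'
      exact (hone k').symm
    rw [hfun] at htot
    exact (htot.unique hsum)

end Pool.Agent.W_MP_4b1b5d_an
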