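import Pool.Agent.W_MP_4b1b5d_an.Angles

set_option autoImplicit false

/-!
# G2: radial polynomials and critical directions

* `Rad` means that the derivative of `P` along every `G`-circle vanishes, so `P` (homogeneous of
  degree `m`) is `c (ip p p)^{m/2}` as a function.  (Along the curve
  `θ ↦ tau⁻¹(e^{iθ} z)`, or with `complex_form`: `∑ (2a - m) c_a z^a z̄^{m-a} = 0` for all `z`, so
  `c_a = 0` for `2a ≠ m` by `complex_unique`.)
* For odd `m` this gives `P = 0`.
* `crit G P` is a homogeneous polynomial function of degree `m` of `k`; on the line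
  `t ↦ m1 + t m2` it is a polynomial in `t`, which is not zero if `P` is not radial.
-/

namespace Pool.Agent.W_MP_4b1b5d_an

/-- if the derivative `b' Y ∂_X P - b X ∂_Y P` vanishes (`p = X β + Y β'`, `β' = J (G β)`,
`b = ip β β`, `b' = ip β' β'`) then `P` is radial -/
theorem rad_of_frame (G : M2) (hG : G.PosDef) (P : RP) (β : V2) (hβ : β ≠ 0)
    (h : ∀ X Y : ℝ,
      ip G (J (G.mulVec β)) (J (G.mulVec β)) * Y *
        (β 0 * MvPolynomial.eval (X • β + Y • J (G.mulVec β)) (MvPolynomial.pderiv 0 P)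
          + β 1 * MvPolynomial.eval (X • β + Y • J (G.mulVec β)) (MvPolynomial.pderiv 1 P))
      = ip G β β * X *
        (J (G.mulVec β) 0 * MvPolynomial.eval (X • β + Y • J (G.mulVec β)) (MvPolynomial.pderiv 0 P)
          + J (G.mulVec β) 1
            * MvPolynomial.eval (X • β + Y • J (G.mulVec β)) (MvPolynomial.pderiv 1 P))) :
    Rad G P := by
  intro k
  have hsym : G 1 0 = G 0 1 := by
    have := hG.1.apply 0 1
    simpa using this
  have hb : 0 < ip G β β := by
    have := hG.dotProduct_mulVec_pos hβ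
    simp only [Matrix.mulVec, dotProduct, Fin.sum_univ_two, star_trivial, Pi.star_apply] at this
    simp only [ip, Fin.sum_univ_two]
    nlinarith [this]
  have hdet : 0 < G.det := hG.det_pos
  rw [Matrix.det_fin_two] at hdet
  have hbd : ip G β β = G 0 0 * β 0 ^ 2 + 2 * G 0 1 * β 0 * β 1 + G 1 1 * β 1 ^ 2 := by
    simp only [ip, Fin.sum_univ_two, hsym]
    ring
  have hJ0 : ∀ v : V2, J (G.mulVec v) 0 = -(G 0 1 * v 0 + G 1 1 * v 1) := by
    intro v
    simp [J, Matrix.mulVec, dotProduct, Fin.sum_univ_two, hsym]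
  have hJ1 : ∀ v : V2, J (G.mulVec v) 1 = G 0 0 * v 0 + G 0 1 * v 1 := by
    intro v
    simp [J, Matrix.mulVec, dotProduct, Fin.sum_univ_two]
  have hb' : ip G (J (G.mulVec β)) (J (G.mulVec β))
      = (G 0 0 * G 1 1 - G 0 1 * G 0 1) * ip G β β := by
    rw [hbd]
    simp only [ip, Fin.sum_univ_two, hJ0, hJ1, hsym]
    ring
  have hdet' : 0 < G 0 0 * G 1 1 - G 0 1 * G 0 1 := by
    rw [hsym] at hdet
    exact hdet
  set b := ip G β β with hbdef
  set D := G 0 0 * G 1 1 - G 0 1 * G 0 1 with hD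
  -- the coordinates of `J (G k)` in the frame
  set Y : ℝ := ((k 0) * (G 0 0 * β 0 + G 0 1 * β 1) + (k 1) * (G 0 1 * β 0 + G 1 1 * β 1)) / b
    with hY
  set X : ℝ := D * (k 0 * β 1 - k 1 * β 0) / b with hX
  have hbne : b ≠ 0 := hb.ne'
  have hDne : D ≠ 0 := hdet'.ne'
  have hq : X • β + Y • J (G.mulVec β) = J (G.mulVec k) := by
    funext i
    fin_cases i
    · simp only [Fin.zero_eta, Fin.isValue, Pi.add_apply, Pi.smul_apply, smul_eq_mul]
      rw [hJ0, hJ0, hX, hY]
      field_simp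
      rw [hbd, hD]
      ring
    · simp only [Fin.mk_one, Fin.isValue, Pi.add_apply, Pi.smul_apply, smul_eq_mul]
      rw [hJ1, hJ1, hX, hY]
      field_simp
      rw [hbd, hD]
      ring
  have h1 := h X Y
  rw [hq, hb', hJ0, hJ1] at h1
  unfold crit
  set A := MvPolynomial.eval (J (G.mulVec k)) (MvPolynomial.pderiv 0 P) with hA
  set B := MvPolynomial.eval (J (G.mulVec k)) (MvPolynomial.pderiv 1 P) with hB
  have h2 : D * b * (k 0 * A + k 1 * B) = D * b * Y * (β 0 * A + β 1 * B)
      - b * X * (-(G 0 1 * β 0 + G 1 1 * β 1) * A + (G 0 0 * β 0 + G 0 1 * β 1) * B) := by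
    rw [hX, hY]
    field_simp
    rw [hbd]
    ring
  rw [h1, sub_self] at h2
  rcases mul_eq_zero.1 h2 with h3 | h3
  · exact absurd h3 (mul_ne_zero hDne hbne)
  · exact h3

end Pool.Agent.W_MP_4b1b5d_an
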