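import Pool.Agent.W_MP_4b1b5d_an.AbsFinal
import Pool.Agent.W_MP_4b1b5d_an.OrthCoord
import Pool.Agent.W_MP_4b1b5d_an.OmegaIdeal
import Pool.Agent.W_MP_4b1b5d_an.NonConst
import Pool.Agent.W_MP_4b1b5d_an.FRTop
import Pool.Agent.W_MP_4b1b5d_an.GeomG

set_option autoImplicit false

/-!
# B7: the reflection theorem

For every active `k` the top part `P` is invariant under the `G`-reflection in `k`.
Combine `orth_coord` (with `top_const`), `hj_exists`, `ds_av_ne`, `omega_ideal` and `abs_reflection`: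
`r a = 0` for odd `a`, so `P(q₀ ε_s + q₁ ε_t)` is even in `q₀`; every covector is
`q₀ ε_s + q₁ ε_t` (`q₀ = p · e_s`, `q₁ = p · e_t`) and `refl` changes the sign of `q₀`
(`ip G p k / ip G k k • k = q₀ ε_s`).
-/

namespace Pool.Agent.W_MP_4b1b5d_an

theorem toR_ne {k : Z2} (hk : k ≠ 0) : toR k ≠ 0 := by
  intro h
  apply hk
  funext i
  have := congrFun h i
  simpa [toR] using this

theorem aux1 (c x s a : ℝ) (hs : s ≠ 0) (h : s * s = a) :
    c * (x / s) * (1 / s) = c * x / a := by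
  subst h; field_simp

theorem aux2 (d x s a : ℝ) (hd : d ≠ 0) (hs : s ≠ 0) (h : s * s = a) :
    d * x / s * (1 / (d * s)) = x / a := by
  subst h; field_simp

theorem frame_rep (G : M2) (hG : G.PosDef) (k p : V2) (hk : k ≠ 0) (c : ℝ) :
    (c * (ip G p k / √(ip G k k))) • epS G k
      + (√G.det * (p 1 * k 0 - p 0 * k 1) / √(ip G k k)) • epT G k
      = p - ((1 - c) * ip G p k / ip G k k) • k := by
  have ha := ip_pos G hG k hk
  have hs : √(ip G k k) ≠ 0 := (Real.sqrt_pos.mpr ha).ne'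
  have hs2 : √(ip G k k) * √(ip G k k) = ip G k k := Real.mul_self_sqrt ha.le
  have hd : √G.det ≠ 0 := (Real.sqrt_pos.mpr (det_pos G hG)).ne'
  have e1 : (c * (ip G p k / √(ip G k k))) • epS G k = (c * ip G p k / ip G k k) • k := by
    rw [epS, smul_smul]
    congr 1
    exact aux1 _ _ _ _ hs hs2
  have e2 : (√G.det * (p 1 * k 0 - p 0 * k 1) / √(ip G k k)) • epT G k
      = ((p 1 * k 0 - p 0 * k 1) / ip G k k) • J (G.mulVec k) := by
    rw [epT, smul_smul]
    congr 1
    exact aux2 _ _ _ _ hd hs hs2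
  rw [e1, e2]
  have hsym := g_symm G hG
  have key : ∀ i, ip G k k * p i = ip G p k * k i + (p 1 * k 0 - p 0 * k 1) * J (G.mulVec k) i := by
    intro i
    fin_cases i <;> simp [ip, J, Matrix.mulVec, dotProduct, Fin.sum_univ_two, hsym] <;> ring
  funext i
  have hk2 := key i
  simp only [Pi.add_apply, Pi.smul_apply, Pi.sub_apply, smul_eq_mul]
  have ha' := ha.ne'
  field_simp
  linarith

theorem reflection (G : M2) (hG : G.PosDef) (U : SP) (m : ℕ) (K : ℕ → ℕ → SP)
    (hK : IsK G U m K) (k : Z2) (hk : k ≠ 0) (hU : fc (U : V2 → ℝ) k ≠ 0) :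
    InvR G (PR m K) (toR k) := by
  obtain ⟨h, hds, hdt, hav⟩ := hj_exists G hG k hk
  obtain ⟨K', r, hK', hr, hev⟩ := orth_coord G hG U m K hK (top_const G hG U m K hK) (toR k)
    (toR_ne hk)
  have hw : h.ds (h.av U) ≠ 0 := by
    rw [hds, hav]; exact ds_av_ne G hG k hk U hU
  obtain ⟨I, hI1, hI2, hI3⟩ := omega_ideal (h.ds (h.av U)) hw (eS2 G (toR k))
  have hodd := abs_reflection h U m K' (by rw [hds, hdt]; exact hK') r hr I
    (by rw [hds]; exact hI1) hI2 hI3
  intro p
  have h1 := frame_rep G hG (toR k) p (toR_ne hk) 1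
  have h2 := frame_rep G hG (toR k) p (toR_ne hk) (-1)
  have e1 : p = (1 * (ip G p (toR k) / √(ip G (toR k) (toR k)))) • epS G (toR k)
      + (√G.det * (p 1 * toR k 0 - p 0 * toR k 1) / √(ip G (toR k) (toR k))) • epT G (toR k) := by
    rw [h1]; simp
  have e2 : refl G (toR k) p
      = ((-1) * (ip G p (toR k) / √(ip G (toR k) (toR k)))) • epS G (toR k)
      + (√G.det * (p 1 * toR k 0 - p 0 * toR k 1) / √(ip G (toR k) (toR k))) • epT G (toR k) := by
    rw [h2, refl]; norm_num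
  rw [e2, ← hev]
  conv_rhs => rw [e1, ← hev]
  refine Finset.sum_congr rfl fun a ha => ?_
  rw [Finset.mem_range] at ha
  by_cases hao : Odd a
  · rw [hodd a (by omega) hao]; simp
  · rw [Nat.not_odd_iff_even] at hao
    rw [neg_one_mul, one_mul, hao.neg_pow]

end Pool.Agent.W_MP_4b1b5d_an
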