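import Pool.Agent.W_MP_4b1b5d_an.Main

set_option autoImplicit false

/-!
# MP_4b1b5d_an: the two parts of the parity statement on flat 2-tori

`Data G U H IsInt` are the hypotheses of the frozen statement S04593 for the constant inverse metric
`G` (flat torus), `OddPart` and `EvenPart` its two conclusions (i) and (ii).
-/

namespace Pool.Agent.W_MP_4b1b5d_an

/-- `U` is smooth, `ℤ²`-periodic and not constant, `H = ½ pᵀ G p + U`, and `IsInt` is the notion of an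
integral of `H` which is polynomial in the momenta (verbatim from the frozen statement, for the constant
inverse metric `G`). -/
def Data (G : Matrix (Fin 2) (Fin 2) ℝ) (U : (Fin 2 → ℝ) → ℝ)
    (H : (Fin 2 → ℝ) → (Fin 2 → ℝ) → ℝ)
    (IsInt : ((Fin 2 → ℝ) → MvPolynomial (Fin 2) ℝ) → Prop) : Prop :=
  ContDiff ℝ (⊤ : ℕ∞) U ∧
  (∀ (x : Fin 2 → ℝ) (k : Fin 2 → ℤ), U (x + fun i => (k i : ℝ)) = U x) ∧
  (∃ x y, U x ≠ U y) ∧
  (∀ x p, H x p = (1 / 2 : ℝ) * ∑ i, ∑ j, G i j * p i * p j + U x) ∧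
  (∀ F : (Fin 2 → ℝ) → MvPolynomial (Fin 2) ℝ, IsInt F ↔
    ((∀ m, ContDiff ℝ (⊤ : ℕ∞) (fun x => (F x).coeff m)) ∧
     (∀ (x : Fin 2 → ℝ) (k : Fin 2 → ℤ), F (x + fun i => (k i : ℝ)) = F x) ∧
     (∃ N : ℕ, ∀ x, (F x).totalDegree ≤ N) ∧
     (∀ x p : Fin 2 → ℝ, ∑ i : Fin 2,
        (deriv (fun t => H x (Function.update p i t)) (p i) *
            deriv (fun t => MvPolynomial.eval p (F (Function.update x i t))) (x i) -
          deriv (fun t => H (Function.update x i t) p) (x i) *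
            deriv (fun t => MvPolynomial.eval (Function.update p i t) (F x)) (p i)) = 0)))

/-- conclusion (i) of the frozen statement: an integral of odd degree forces one of degree 1 -/
def OddPart (IsInt : ((Fin 2 → ℝ) → MvPolynomial (Fin 2) ℝ) → Prop) : Prop :=
  (∃ (F : (Fin 2 → ℝ) → MvPolynomial (Fin 2) ℝ) (n : ℕ), IsInt F ∧ Odd n ∧
      (∀ x, (F x).totalDegree ≤ n) ∧ (∃ x, (F x).totalDegree = n)) →
    ∃ F : (Fin 2 → ℝ) → MvPolynomial (Fin 2) ℝ, IsInt F ∧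
      (∀ x, (F x).totalDegree ≤ 1) ∧ ∃ x, (F x).totalDegree = 1

/-- conclusion (ii) of the frozen statement: a nontrivial integral of even degree forces a nontrivial
one of degree at most 2 -/
def EvenPart (H : (Fin 2 → ℝ) → (Fin 2 → ℝ) → ℝ)
    (IsInt : ((Fin 2 → ℝ) → MvPolynomial (Fin 2) ℝ) → Prop) : Prop :=
  (∃ (F : (Fin 2 → ℝ) → MvPolynomial (Fin 2) ℝ) (n : ℕ), IsInt F ∧ Even n ∧
      (∀ x, (F x).totalDegree ≤ n) ∧ (∃ x, (F x).totalDegree = n) ∧
      ¬ ∃ q : Polynomial ℝ, ∀ x p, MvPolynomial.eval p (F x) = q.eval (H x p)) →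
    ∃ F : (Fin 2 → ℝ) → MvPolynomial (Fin 2) ℝ, IsInt F ∧
      (∀ x, (F x).totalDegree ≤ 2) ∧
      ¬ ∃ q : Polynomial ℝ, ∀ x p, MvPolynomial.eval p (F x) = q.eval (H x p)

/-- all frequencies of `U` lie on at most three lines through the origin (with directions given by
nonzero integer vectors `a 0, a 1, a 2`) -/
def ThreeLines (U : (Fin 2 → ℝ) → ℝ) : Prop :=
  ∃ a : Fin 3 → Fin 2 → ℤ, (∀ i, a i ≠ 0) ∧
    ∀ k : Fin 2 → ℤ, fc U k ≠ 0 → ∃ i, k 0 * a i 1 = k 1 * a i 0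

theorem oddPart (G : M2) (U : V2 → ℝ) (H : V2 → V2 → ℝ) (I : (V2 → RP) → Prop)
    (hG : G.PosDef) (hD : Data G U H I) : OddPart I := by
  obtain ⟨h1, h2, h3, h4, h5⟩ := hD
  have hH : H = Ham G U := by funext x p; exact h4 x p
  subst hH
  have hI : ∀ F, I F ↔ IsInt (Ham G U) F := h5
  rintro ⟨F, n, hF, hn, hle, hex⟩
  obtain ⟨F', h, h'⟩ := main_odd G hG ⟨U, h1, h2⟩ h3 F n ((hI F).mp hF) hn hle hex
  exact ⟨F', (hI F').mpr h, h'⟩

theorem evenPart (G : M2) (U : V2 → ℝ) (H : V2 → V2 → ℝ) (I : (V2 → RP) → Prop)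
    (hG : G.PosDef) (hD : Data G U H I) (hC : C4on G {k : Z2 | fc U k ≠ 0}) : EvenPart H I := by
  obtain ⟨h1, h2, h3, h4, h5⟩ := hD
  have hH : H = Ham G U := by funext x p; exact h4 x p
  subst hH
  have hI : ∀ F, I F ↔ IsInt (Ham G U) F := h5
  rintro ⟨F, n, hF, -, -, -, hnp⟩
  obtain ⟨F', h, h'⟩ := main_even G hG ⟨U, h1, h2⟩ h3 hC F ((hI F).mp hF) hnp
  exact ⟨F', (hI F').mpr h, h'⟩

/-- two nonzero vectors on the line of `a ≠ 0` are parallel -/
theorem par_trans (a k l : Z2) (ha : a ≠ 0) (hk : k 0 * a 1 = k 1 * a 0)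
    (hl : l 0 * a 1 = l 1 * a 0) : det2 (toR k) (toR l) = 0 := by
  have h : k 0 * l 1 - k 1 * l 0 = 0 := by
    have h0 : a 0 * (k 0 * l 1 - k 1 * l 0) = 0 := by linear_combination k 0 * hl * (-1) + l 0 * hk
    have h1 : a 1 * (k 0 * l 1 - k 1 * l 0) = 0 := by linear_combination (-1) * k 1 * hl + l 1 * hk
    rcases mul_eq_zero.mp h0 with h | h
    · rcases mul_eq_zero.mp h1 with h' | h'
      · exfalso; apply ha; funext i; fin_cases i <;> simp [h, h']
      · exact h'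
    · exact h
  have h' : ((k 0 * l 1 - k 1 * l 0 : ℤ) : ℝ) = 0 := by rw [h]; simp
  simpa [det2, toR] using h'

theorem c4on_of_threeLines (G : M2) (U : V2 → ℝ) (h : ThreeLines U) :
    C4on G {k : Z2 | fc U k ≠ 0} := by
  obtain ⟨a, ha, h⟩ := h
  intro k hk hpar _ i j hij
  exfalso
  choose f hf using fun i => h (k i) (hk i)
  obtain ⟨i', j', hne, he⟩ := Fintype.exists_ne_map_eq_of_card_lt f (by simp)
  have hj := hf j'
  rw [← he] at hj
  exact hpar i' j' hne (par_trans (a (f i')) (k i') (k j') (ha _) (hf i') hj)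

end Pool.Agent.W_MP_4b1b5d_an
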