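import Mathlib

set_option autoImplicit false

/-!
# H1a: the common tail lemma

Let `M_i n = sup_{n' ≥ n} f_i n'` (finite, tends to `0`).  Summing
`f1 (n + i b1) ≤ f1 (n + (i+1) b1) + |C|/(n + i b1)² · M2 n` over `i` and using `f1 → 0`:
`f1 n ≤ |C| (∑_i 1/(n + i b1)²) M2 n ≤ (2|C|/n) M2 n` (say, `n ≥ 2`), so `M1 n ≤ (2|C|/n) M2 n`, and
symmetrically `M2 n ≤ (2|C|/n) M1 n`; for `n > 2|C|` both vanish.
-/

namespace Pool.Agent.W_MP_4b1b5d_an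

theorem tailPair_iter (f1 f2 : ℕ → ℝ) (hf2 : ∀ n, 0 ≤ f2 n)
    (b1 N0 : ℕ) (hb1 : 0 < b1) (C : ℝ)
    (hr1 : ∀ n, N0 ≤ n → ∀ M, (∀ n', n ≤ n' → f2 n' ≤ M) → f1 n ≤ f1 (n + b1) + C / (n : ℝ) ^ 2 * M)
    (n : ℕ) (hn : N0 ≤ n) (hn2 : 2 ≤ n) (M : ℝ) (hM : ∀ n', n ≤ n' → f2 n' ≤ M) (i : ℕ) :
    f1 n ≤ f1 (n + i * b1) + |C| * M * (1 / ((n : ℝ) - 1) - 1 / (((n + i * b1 : ℕ) : ℝ) - 1)) := by
  have hM0 : 0 ≤ M := (hf2 n).trans (hM n le_rfl)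
  induction i with
  | zero => simp
  | succ i ih =>
    have h1 := hr1 (n + i * b1) (by omega) M (fun n' hn' => hM n' (by omega))
    have e : n + (i + 1) * b1 = n + i * b1 + b1 := by ring
    rw [e]
    set m : ℕ := n + i * b1 with hm
    have hm2 : (2 : ℝ) ≤ (m : ℝ) := by
      have : 2 ≤ m := by omega
      exact_mod_cast this
    have hb : (1 : ℝ) ≤ (b1 : ℝ) := by exact_mod_cast hb1
    have h2 : C / (m : ℝ) ^ 2 * M ≤ |C| * M * (1 / ((m : ℝ) - 1) - 1 / (((m + b1 : ℕ) : ℝ) - 1)) := by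
      have h3 : C / (m : ℝ) ^ 2 * M ≤ |C| * M * (1 / (m : ℝ) ^ 2) := by
        have : C / (m : ℝ) ^ 2 * M = C * (M * (1 / (m : ℝ) ^ 2)) := by ring
        rw [this, mul_assoc]
        exact mul_le_mul_of_nonneg_right (le_abs_self C) (by positivity)
      refine h3.trans (mul_le_mul_of_nonneg_left ?_ (by positivity))
      have h4 : 1 / ((m : ℝ) - 1) - 1 / (((m + b1 : ℕ) : ℝ) - 1)
          = (b1 : ℝ) / (((m : ℝ) - 1) * ((m : ℝ) + b1 - 1)) := by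
        push_cast
        have h5 : (m : ℝ) - 1 ≠ 0 := by linarith
        have h6 : (m : ℝ) + b1 - 1 ≠ 0 := by linarith
        field_simp
        ring
      rw [h4, div_le_div_iff₀ (by positivity) (mul_pos (by linarith) (by linarith))]
      nlinarith [mul_nonneg (sub_nonneg.2 hb) (sub_nonneg.2 hm2), mul_nonneg (mul_nonneg (sub_nonneg.2 hb) (sub_nonneg.2 hm2)) (sub_nonneg.2 hm2)]
    linarith [mul_sub (|C| * M) (1 / ((n : ℝ) - 1)) (1 / ((m : ℝ) - 1)),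
      mul_sub (|C| * M) (1 / ((m : ℝ) - 1)) (1 / (((m + b1 : ℕ) : ℝ) - 1)),
      mul_sub (|C| * M) (1 / ((n : ℝ) - 1)) (1 / (((m + b1 : ℕ) : ℝ) - 1))]

theorem tailPair_bound (f1 f2 : ℕ → ℝ) (hf2 : ∀ n, 0 ≤ f2 n)
    (h1 : Filter.Tendsto f1 Filter.atTop (nhds 0))
    (b1 N0 : ℕ) (hb1 : 0 < b1) (C : ℝ)
    (hr1 : ∀ n, N0 ≤ n → ∀ M, (∀ n', n ≤ n' → f2 n' ≤ M) → f1 n ≤ f1 (n + b1) + C / (n : ℝ) ^ 2 * M)
    (n : ℕ) (hn : N0 ≤ n) (hn2 : 2 ≤ n) (M : ℝ) (hM : ∀ n', n ≤ n' → f2 n' ≤ M) :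
    f1 n ≤ |C| * M * (1 / ((n : ℝ) - 1)) := by
  have hM0 : 0 ≤ M := (hf2 n).trans (hM n le_rfl)
  have hsub : Filter.Tendsto (fun i : ℕ => n + i * b1) Filter.atTop Filter.atTop := by
    refine Filter.tendsto_atTop_mono (fun i => ?_) Filter.tendsto_id
    have : i ≤ i * b1 := Nat.le_mul_of_pos_right i hb1
    simp only [id_eq]
    omega
  have hlim : Filter.Tendsto (fun i : ℕ => f1 (n + i * b1) + |C| * M * (1 / ((n : ℝ) - 1)))
      Filter.atTop (nhds (0 + |C| * M * (1 / ((n : ℝ) - 1)))) :=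
    (h1.comp hsub).add tendsto_const_nhds
  rw [zero_add] at hlim
  refine ge_of_tendsto' hlim fun i => ?_
  have h3 := tailPair_iter f1 f2 hf2 b1 N0 hb1 C hr1 n hn hn2 M hM i
  have h4 : 0 ≤ |C| * M * (1 / (((n + i * b1 : ℕ) : ℝ) - 1)) := by
    have : (1 : ℝ) ≤ ((n + i * b1 : ℕ) : ℝ) := by
      have : 1 ≤ n + i * b1 := by omega
      exact_mod_cast this
    have h5 : 0 ≤ ((n + i * b1 : ℕ) : ℝ) - 1 := by linarith
    positivity
  linarith [mul_sub (|C| * M) (1 / ((n : ℝ) - 1)) (1 / (((n + i * b1 : ℕ) : ℝ) - 1))]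

theorem tail_pair (f1 f2 : ℕ → ℝ) (hf1 : ∀ n, 0 ≤ f1 n) (hf2 : ∀ n, 0 ≤ f2 n)
    (h1 : Filter.Tendsto f1 Filter.atTop (nhds 0)) (h2 : Filter.Tendsto f2 Filter.atTop (nhds 0))
    (b1 b2 N0 : ℕ) (hb1 : 0 < b1) (hb2 : 0 < b2) (C : ℝ)
    (hr1 : ∀ n, N0 ≤ n → ∀ M, (∀ n', n ≤ n' → f2 n' ≤ M) → f1 n ≤ f1 (n + b1) + C / (n : ℝ) ^ 2 * M)
    (hr2 : ∀ n, N0 ≤ n → ∀ M, (∀ n', n ≤ n' → f1 n' ≤ M) → f2 n ≤ f2 (n + b2) + C / (n : ℝ) ^ 2 * M) :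
    ∃ N1, ∀ n, N1 ≤ n → f1 n = 0 ∧ f2 n = 0 := by
  obtain ⟨B1, hB1⟩ := h1.bddAbove_range
  obtain ⟨B2, hB2⟩ := h2.bddAbove_range
  set B : ℝ := max B1 B2 with hB
  have hb1' : ∀ n, f1 n ≤ B := fun n => (hB1 ⟨n, rfl⟩).trans (le_max_left _ _)
  have hb2' : ∀ n, f2 n ≤ B := fun n => (hB2 ⟨n, rfl⟩).trans (le_max_right _ _)
  have hB0 : 0 ≤ B := (hf1 0).trans (hb1' 0)
  obtain ⟨L, hL⟩ := exists_nat_ge (2 * |C| + 1)
  refine ⟨max (max N0 2) L, ?_⟩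
  have key : ∀ j : ℕ, ∀ n, max (max N0 2) L ≤ n → f1 n ≤ B * (1 / 2) ^ j ∧ f2 n ≤ B * (1 / 2) ^ j := by
    intro j
    induction j with
    | zero => intro n _; simpa using ⟨hb1' n, hb2' n⟩
    | succ j ih =>
      intro n hn
      have hnN : N0 ≤ n := ((le_max_left _ _).trans (le_max_left _ _)).trans hn
      have hn2 : 2 ≤ n := ((le_max_right _ _).trans (le_max_left _ _)).trans hn
      have hnL : (L : ℝ) ≤ n := by exact_mod_cast (le_max_right _ _).trans hn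
      have hC : |C| * (1 / ((n : ℝ) - 1)) ≤ 1 / 2 := by
        have h3 : 2 * |C| ≤ (n : ℝ) - 1 := by linarith
        have h4 : (0 : ℝ) < (n : ℝ) - 1 := by
          have : (2 : ℝ) ≤ n := by exact_mod_cast hn2
          linarith
        rw [mul_one_div, div_le_iff₀ h4]
        linarith
      have hp : 0 ≤ B * (1 / 2) ^ j := by positivity
      have e : B * (1 / 2) ^ (j + 1) = B * (1 / 2) ^ j * (1 / 2) := by ring
      rw [e]
      constructor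
      · have h3 := tailPair_bound f1 f2 hf2 h1 b1 N0 hb1 C hr1 n hnN hn2 (B * (1 / 2) ^ j)
          (fun n' hn' => (ih n' (hn.trans hn')).2)
        calc f1 n ≤ |C| * (B * (1 / 2) ^ j) * (1 / ((n : ℝ) - 1)) := h3
          _ = (B * (1 / 2) ^ j) * (|C| * (1 / ((n : ℝ) - 1))) := by ring
          _ ≤ _ := mul_le_mul_of_nonneg_left hC hp
      · have h3 := tailPair_bound f2 f1 hf1 h2 b2 N0 hb2 C hr2 n hnN hn2 (B * (1 / 2) ^ j)
          (fun n' hn' => (ih n' (hn.trans hn')).1)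
        calc f2 n ≤ |C| * (B * (1 / 2) ^ j) * (1 / ((n : ℝ) - 1)) := h3
          _ = (B * (1 / 2) ^ j) * (|C| * (1 / ((n : ℝ) - 1))) := by ring
          _ ≤ _ := mul_le_mul_of_nonneg_left hC hp
  have hlim : Filter.Tendsto (fun j : ℕ => B * (1 / 2 : ℝ) ^ j) Filter.atTop (nhds 0) := by
    have := (tendsto_pow_atTop_nhds_zero_of_lt_one (r := (1 / 2 : ℝ)) (by norm_num)
      (by norm_num)).const_mul B
    simpa using this
  intro n hn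
  constructor
  · exact le_antisymm (ge_of_tendsto' hlim fun j => (key j n hn).1) (hf1 n)
  · exact le_antisymm (ge_of_tendsto' hlim fun j => (key j n hn).2) (hf2 n)

end Pool.Agent.W_MP_4b1b5d_an
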