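import Pool.Agent.W_MP_4b1b5d_an.FR

set_option autoImplicit false

/-!
# E2: trigonometric polynomials, the equations and the supports

`fr_fin`: `fr` is a finite sum; a complex polynomial vanishing at all real points is zero
(`MvPolynomial.funext_set` or similar).
`supp_ff`: induction on `j`: for `k ≠ 0` the factor `Lp G (toR k)` is not zero, so some term on the left
is not zero.
-/

namespace Pool.Agent.W_MP_4b1b5d_an

/-- sums of at most `j` vectors of `A` -/
def TT (A : Set Z2) : ℕ → Set Z2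
  | 0 => {0}
  | j + 1 => {k | ∃ k' k'' : Z2, (k' ∈ A ∨ k' = 0) ∧ k'' ∈ TT A j ∧ k = k' + k''}

theorem TT_zero_mem (A : Set Z2) (j : ℕ) : (0 : Z2) ∈ TT A j := by
  induction j with
  | zero => simp [TT]
  | succ j ih => exact ⟨0, 0, Or.inr rfl, ih, by simp⟩

/-- a complex polynomial is determined by its values at real points -/
theorem ev_ext (P Q : CP) (h : ∀ p : V2, ev p P = ev p Q) : P = Q := by
  refine MvPolynomial.funext_set (p := P) (q := Q)
    (fun _ : Fin 2 => Set.range (fun r : ℝ => (r : ℂ)))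
    (fun _ => Set.infinite_range_of_injective Complex.ofReal_injective) ?_
  intro x hx
  have h1 : ∀ i, ∃ r : ℝ, (r : ℂ) = x i := fun i => hx i (Set.mem_univ i)
  choose p hp using h1
  have h2 : (fun i => (p i : ℂ)) = x := funext hp
  have := h p
  unfold ev at this
  rw [h2] at this
  exact this

theorem Lp_ne (G : M2) (hG : G.PosDef) (k : Z2) (hk : k ≠ 0) : Lp G (toR k) ≠ 0 := by
  intro h
  have c0 := congrArg (fun P : CP => ev ![1, 0] P) h
  have c1 := congrArg (fun P : CP => ev ![0, 1] P) h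
  simp only [ev, Lp, map_add, map_mul, MvPolynomial.eval_C, MvPolynomial.eval_X,
    Matrix.cons_val_zero, Matrix.cons_val_one, Complex.ofReal_one, Complex.ofReal_zero, mul_one,
    mul_zero, add_zero, zero_add, map_zero] at c0 c1
  have d0 : G.mulVec (toR k) 0 = 0 := by exact_mod_cast c0
  have d1 : G.mulVec (toR k) 1 = 0 := by exact_mod_cast c1
  have h0 : G.mulVec (toR k) = 0 := by
    funext i
    fin_cases i
    · exact d0
    · exact d1
  have h1 : toR k = 0 := Matrix.eq_zero_of_mulVec_eq_zero hG.det_pos.ne' h0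
  apply hk
  funext i
  have := congrFun h1 i
  simpa [toR] using this

theorem fr_fin (G : M2) (hG : G.PosDef) (U : SP) (m : ℕ) (K : ℕ → ℕ → SP) (hK : IsK G U m K)
    (hfin : {k : Z2 | fc (U : V2 → ℝ) k ≠ 0}.Finite) (j : ℕ) (k : Z2) :
    ∑ k' ∈ hfin.toFinset, MvPolynomial.C (fc (U : V2 → ℝ) k') * Dp (toR k') (ff m K j (k - k'))
      = Lp G (toR k) * ff m K (j + 1) k := by
  apply ev_ext
  intro p
  have h1 := fr G hG U m K hK j k p
  have h2 : HasSum (fun k' : Z2 => fc (U : V2 → ℝ) k' * ev p (Dp (toR k') (ff m K j (k - k'))))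
      (∑ k' ∈ hfin.toFinset, fc (U : V2 → ℝ) k' * ev p (Dp (toR k') (ff m K j (k - k')))) := by
    apply hasSum_sum_of_ne_finset_zero
    intro b hb
    have : fc (U : V2 → ℝ) b = 0 := by
      by_contra h
      exact hb (by simpa using h)
    rw [this, zero_mul]
  have h3 := h1.unique h2
  have e1 : ev p (Lp G (toR k) * ff m K (j + 1) k) = ev p (Lp G (toR k)) * ev p (ff m K (j + 1) k) := by
    simp [ev]
  rw [e1, h3]
  simp [ev, map_sum]

theorem supp_ff (G : M2) (hG : G.PosDef) (U : SP) (m : ℕ) (K : ℕ → ℕ → SP) (hK : IsK G U m K)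
    (hfin : {k : Z2 | fc (U : V2 → ℝ) k ≠ 0}.Finite) (j : ℕ) (k : Z2) (h : ff m K j k ≠ 0) :
    k ∈ TT {k : Z2 | fc (U : V2 → ℝ) k ≠ 0} j := by
  induction j generalizing k with
  | zero =>
    by_contra hk
    exact h (fr_top G hG U m K hK k (by simpa [TT] using hk))
  | succ j ih =>
    by_cases hk : k = 0
    · rw [hk]; exact TT_zero_mem _ _
    have h1 : Lp G (toR k) * ff m K (j + 1) k ≠ 0 := mul_ne_zero (Lp_ne G hG k hk) h
    rw [← fr_fin G hG U m K hK hfin j k] at h1
    obtain ⟨k', hk', hne⟩ := Finset.exists_ne_zero_of_sum_ne_zero h1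
    have h2 : ff m K j (k - k') ≠ 0 := by
      intro h0
      rw [h0] at hne
      simp [Dp] at hne
    refine ⟨k', k - k', Or.inl ?_, ih _ h2, by abel⟩
    simpa using hk'

end Pool.Agent.W_MP_4b1b5d_an
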