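import Pool.Agent.W_MP_4b1b5d_an.TrigA
import Pool.Agent.W_MP_4b1b5d_an.GeomG

set_option autoImplicit false

/-!
# E3: trigonometric polynomials, weights

`y k = ip k β / ip β β`.  `hmax`: `β` has maximal length in `A`, so `y k ≤ 1` on `A` with equality only
for `k = β` (Cauchy-Schwarz); `hγ`: `y k ≤ y γ =: g` for `k ∈ A` not parallel to `β`, `g > 0`.
* (W1) `k ∈ TT A j → y k ≤ j`.
* (W2) `k ∈ TT A j`, `y k = j → k = j β`.
* (W3) `k ∈ TT A j`, `k` not parallel to `β` `→ y k ≤ g + (j - 1)`.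
  (Induction on `j`; `k = k' + k''`: if `k''` is not parallel to `β` use `y k' ≤ 1`, otherwise `k'` is not
  parallel to `β`, `y k' ≤ g` and `y k'' ≤ j`.)
Conclusions:
* `c1`: if `(n+1) β - k' ∈ TT A n`, `k' ∈ A` then `k' = β`.
* `c2`: if `γ + n β - k' ∈ TT A n`, `k' ∈ A` then `k' = β` or `k' = γ`.
* `c3`: `γ - β ∉ TT A 0`.
-/

namespace Pool.Agent.W_MP_4b1b5d_an

theorem trigB_toR_add (k l : Z2) : toR (k + l) = toR k + toR l := by
  funext i; simp [toR]

theorem trigB_toR_sub (k l : Z2) : toR (k - l) = toR k - toR l := by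
  funext i; simp [toR]

theorem trigB_toR_zero : toR (0 : Z2) = 0 := by
  funext i; simp [toR]

theorem trigB_toR_smul (n : ℤ) (k : Z2) : toR (n • k) = (n : ℝ) • toR k := by
  funext i; simp [toR]

theorem trigB_toR_inj {k l : Z2} (h : toR k = toR l) : k = l := by
  funext i
  have := congrFun h i
  simpa [toR] using this

theorem trigB_ip_zero (G : M2) (l : V2) : ip G 0 l = 0 := by
  simp [ip]

theorem trigB_ip_sub (G : M2) (k k' l : V2) : ip G (k - k') l = ip G k l - ip G k' l := by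
  have h := ip_add_left G (k - k') k' l
  rw [sub_add_cancel] at h
  linarith

theorem trigB_pos (G : M2) (hG : G.PosDef) (β : Z2) (hβ0 : β ≠ 0) :
    0 < ip G (toR β) (toR β) := by
  apply ip_pos G hG
  intro h
  exact hβ0 (trigB_toR_inj (by rw [h, trigB_toR_zero]))

/-- a vector of length at most `|β|` with inner product at least `|β|²` is `β` -/
theorem trigB_eq (G : M2) (hG : G.PosDef) (β k : Z2)
    (hk : ip G (toR k) (toR k) ≤ ip G (toR β) (toR β))
    (h : ip G (toR β) (toR β) ≤ ip G (toR k) (toR β)) : k = β := by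
  by_contra hne
  have h0 : toR (k - β) ≠ 0 := by
    intro h0
    apply hne
    have := trigB_toR_inj (k := k - β) (l := 0) (by rw [h0, trigB_toR_zero])
    exact sub_eq_zero.mp this
  have h1 := ip_pos G hG _ h0
  rw [trigB_toR_sub, trigB_ip_sub, ip_comm G hG (toR k), ip_comm G hG (toR β) (toR k - toR β),
    trigB_ip_sub, trigB_ip_sub] at h1
  have h2 := ip_comm G hG (toR β) (toR k)
  linarith

theorem trigB_le (G : M2) (hG : G.PosDef) (β k : Z2)
    (hk : ip G (toR k) (toR k) ≤ ip G (toR β) (toR β)) :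
    ip G (toR k) (toR β) ≤ ip G (toR β) (toR β) := by
  by_contra hne
  push Not at hne
  have := trigB_eq G hG β k hk hne.le
  rw [this] at hne
  exact lt_irrefl _ hne

theorem trigB_w1 (G : M2) (hG : G.PosDef) (A : Set Z2) (β : Z2) (hβ0 : β ≠ 0)
    (hmax : ∀ k ∈ A, ip G (toR k) (toR k) ≤ ip G (toR β) (toR β))
    (j : ℕ) : ∀ k ∈ TT A j, ip G (toR k) (toR β) ≤ j * ip G (toR β) (toR β) := by
  have hB := trigB_pos G hG β hβ0
  induction j with
  | zero =>
    intro k hk
    have hk' : k = 0 := hk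
    rw [hk', trigB_toR_zero, trigB_ip_zero]
    simp
  | succ j ih =>
    rintro k ⟨k', k'', hk', hk'', rfl⟩
    rw [trigB_toR_add, ip_add_left]
    have h1 := ih k'' hk''
    have h2 : ip G (toR k') (toR β) ≤ ip G (toR β) (toR β) := by
      rcases hk' with hk' | hk'
      · exact trigB_le G hG β k' (hmax k' hk')
      · rw [hk', trigB_toR_zero, trigB_ip_zero]
        exact hB.le
    push_cast
    linarith

theorem trigB_w2 (G : M2) (hG : G.PosDef) (A : Set Z2) (β : Z2) (hβ0 : β ≠ 0)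
    (hmax : ∀ k ∈ A, ip G (toR k) (toR k) ≤ ip G (toR β) (toR β))
    (j : ℕ) : ∀ k ∈ TT A j, j * ip G (toR β) (toR β) ≤ ip G (toR k) (toR β) → k = (j : ℤ) • β := by
  have hB := trigB_pos G hG β hβ0
  induction j with
  | zero =>
    intro k hk _
    have hk' : k = 0 := hk
    rw [hk']
    simp
  | succ j ih =>
    rintro k ⟨k', k'', hk', hk'', rfl⟩ h
    rw [trigB_toR_add, ip_add_left] at h
    have h1 := trigB_w1 G hG A β hβ0 hmax j k'' hk''
    push_cast at h
    rcases hk' with hk' | hk'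
    · have h2 := trigB_le G hG β k' (hmax k' hk')
      have h3 := ih k'' hk'' (by linarith)
      have h4 := trigB_eq G hG β k' (hmax k' hk') (by linarith)
      rw [h3, h4]
      push_cast
      rw [add_smul, one_smul, add_comm]
    · rw [hk', trigB_toR_zero, trigB_ip_zero] at h
      exfalso
      linarith

theorem trigB_det_add (a b c : V2) : det2 (a + b) c = det2 a c + det2 b c := by
  simp only [det2, Pi.add_apply]; ring

theorem trigB_det_zero (c : V2) : det2 0 c = 0 := by
  simp [det2]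

theorem trigB_w3 (G : M2) (hG : G.PosDef) (A : Set Z2) (β : Z2) (hβ0 : β ≠ 0)
    (hmax : ∀ k ∈ A, ip G (toR k) (toR k) ≤ ip G (toR β) (toR β)) (g : ℝ)
    (hγmax : ∀ k ∈ A, det2 (toR k) (toR β) ≠ 0 → ip G (toR k) (toR β) ≤ g)
    (j : ℕ) : ∀ k ∈ TT A j, det2 (toR k) (toR β) ≠ 0 →
      ip G (toR k) (toR β) ≤ g + (j - 1) * ip G (toR β) (toR β) := by
  have hB := trigB_pos G hG β hβ0
  induction j with
  | zero =>
    intro k hk hd
    have hk' : k = 0 := hk
    rw [hk', trigB_toR_zero, trigB_det_zero] at hd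
    exact absurd rfl hd
  | succ j ih =>
    rintro k ⟨k', k'', hk', hk'', rfl⟩ hd
    rw [trigB_toR_add, trigB_det_add] at hd
    rw [trigB_toR_add, ip_add_left]
    push_cast
    by_cases hd'' : det2 (toR k'') (toR β) = 0
    · have hd' : det2 (toR k') (toR β) ≠ 0 := by
        intro h0
        rw [h0, hd''] at hd
        exact hd (by ring)
      have h1 := trigB_w1 G hG A β hβ0 hmax j k'' hk''
      rcases hk' with hk' | hk'
      · have h2 := hγmax k' hk' hd'
        linarith
      · rw [hk', trigB_toR_zero, trigB_det_zero] at hd'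
        exact absurd rfl hd'
    · have h1 := ih k'' hk'' hd''
      have h2 : ip G (toR k') (toR β) ≤ ip G (toR β) (toR β) := by
        rcases hk' with hk' | hk'
        · exact trigB_le G hG β k' (hmax k' hk')
        · rw [hk', trigB_toR_zero, trigB_ip_zero]
          exact hB.le
      linarith

theorem weight_c1 (G : M2) (hG : G.PosDef) (A : Set Z2) (β : Z2) (hβ : β ∈ A) (hβ0 : β ≠ 0)
    (hmax : ∀ k ∈ A, ip G (toR k) (toR k) ≤ ip G (toR β) (toR β))
    (n : ℕ) (k' : Z2) (hk' : k' ∈ A) (h : ((n + 1 : ℕ) : ℤ) • β - k' ∈ TT A n) : k' = β := by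
  have h1 := trigB_w1 G hG A β hβ0 hmax n _ h
  rw [trigB_toR_sub, trigB_toR_smul, trigB_ip_sub, ip_smul_left] at h1
  push_cast at h1
  exact trigB_eq G hG β k' (hmax k' hk') (by linarith)

theorem weight_c2 (G : M2) (hG : G.PosDef) (A : Set Z2) (β γ : Z2) (hβ : β ∈ A) (hβ0 : β ≠ 0)
    (hmax : ∀ k ∈ A, ip G (toR k) (toR k) ≤ ip G (toR β) (toR β))
    (hγ : γ ∈ A) (hγβ : det2 (toR γ) (toR β) ≠ 0) (hg : 0 < ip G (toR γ) (toR β))
    (hγmax : ∀ k ∈ A, det2 (toR k) (toR β) ≠ 0 →
      ip G (toR k) (toR β) ≤ ip G (toR γ) (toR β))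
    (n : ℕ) (k' : Z2) (hk' : k' ∈ A) (h : γ + (n : ℤ) • β - k' ∈ TT A n) : k' = β ∨ k' = γ := by
  by_cases hd : det2 (toR k') (toR β) = 0
  · left
    have hd2 : det2 (toR (γ + (n : ℤ) • β - k')) (toR β) ≠ 0 := by
      rw [trigB_toR_sub, trigB_toR_add, trigB_toR_smul]
      have e : det2 (toR γ + ((n : ℤ) : ℝ) • toR β - toR k') (toR β)
          = det2 (toR γ) (toR β) - det2 (toR k') (toR β) := by
        simp only [det2, Pi.add_apply, Pi.sub_apply, Pi.smul_apply, smul_eq_mul]; ring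
      rw [e, hd, sub_zero]
      exact hγβ
    have h1 := trigB_w3 G hG A β hβ0 hmax _ hγmax n _ h hd2
    rw [trigB_toR_sub, trigB_toR_add, trigB_toR_smul, trigB_ip_sub, ip_add_left,
      ip_smul_left] at h1
    push_cast at h1
    exact trigB_eq G hG β k' (hmax k' hk') (by linarith)
  · right
    have h2 := hγmax k' hk' hd
    have h1 := trigB_w2 G hG A β hβ0 hmax n _ h (by
      rw [trigB_toR_sub, trigB_toR_add, trigB_toR_smul, trigB_ip_sub, ip_add_left,
        ip_smul_left]
      push_cast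
      linarith)
    have h3 : γ - k' = 0 := by
      have : γ + (n : ℤ) • β - k' - (n : ℤ) • β = 0 := by rw [h1, sub_self]
      rw [← this]; abel
    exact (sub_eq_zero.mp h3).symm

end Pool.Agent.W_MP_4b1b5d_an
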