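import Pool.Agent.W_MP_4b1b5d_an.TrigB
import Pool.Agent.W_MP_4b1b5d_an.EdgeUni
import Pool.Agent.W_MP_4b1b5d_an.RadFrame

set_option autoImplicit false

/-!
# E4: trigonometric polynomials, conclusion

Let `A` be the (finite) set of `k` with `fc U k ≠ 0`, `β ∈ A`, `β ≠ 0` of maximal length; suppose some
`k ∈ A` is neither parallel nor orthogonal to `β`; since `A = -A` we may take `ip k β > 0`; let `γ`
maximize `ip · β` among the elements of `A` not parallel to `β`.  Let `β' = J (G β)`,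
`γ = g β + h β'` (`g > 0`, `h ≠ 0`), `b = ip β β`, `b' = ip β' β'`, `B = fc U β`, `A = fc U γ`.
`E_n = ff m K n (n β)`, `Q_n = ff m K (n+1) (γ + n β)`; by `fr_fin`, `supp_ff`, `weight_c1`, `weight_c2`:
`L_{(n+1)β} E_{n+1} = B D_β E_n`, `L_γ Q_0 = A D_γ E_0` and
`L_{γ+(n+1)β} Q_{n+1} = B D_β Q_n + A D_γ E_{n+1}`; all vanish for large `n` (`ff_big`).
For fixed `Y0` apply the ring hom `X_i ↦ C β_i X + C (Y0 β'_i)` to `ℂ[X]`: it sends `D_β P` to the
derivative, `L_β` to `b X`, `L_{β'}` to `b' Y0`.  With `e_n, Q_n` the images of `E_n, Q_n` and `d_n` the image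
of `D_{β'} E_n`, `edge_uni` with `c = h b' Y0` gives
`b' Y0 ∂_X P = b X0 ∂_Y P`, so `P` is radial by `rad_of_frame` (`ff_zero_zero`), contradiction.
So every element of `A` is parallel or orthogonal to `β`, hence any two are parallel or orthogonal.
-/

namespace Pool.Agent.W_MP_4b1b5d_an

namespace TrigCAux

open MvPolynomial

theorem Dp_add_vec (k l : V2) (P : CP) : Dp (k + l) P = Dp k P + Dp l P := by
  simp only [Dp, Pi.add_apply, Complex.ofReal_add, C_add]
  ring

theorem Dp_smul_vec (c : ℝ) (k : V2) (P : CP) : Dp (c • k) P = C (c : ℂ) * Dp k P := by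
  simp only [Dp, Pi.smul_apply, smul_eq_mul, Complex.ofReal_mul, C_mul]
  ring

theorem Dp_add (k : V2) (P Q : CP) : Dp k (P + Q) = Dp k P + Dp k Q := by
  simp only [Dp, map_add]
  ring

theorem Dp_mul (k : V2) (P Q : CP) : Dp k (P * Q) = Dp k P * Q + P * Dp k Q := by
  simp only [Dp, pderiv_mul]
  ring

theorem Dp_C (k : V2) (a : ℂ) : Dp k (C a) = 0 := by
  simp [Dp]

theorem Dp_C_mul (k : V2) (a : ℂ) (P : CP) : Dp k (C a * P) = C a * Dp k P := by
  rw [Dp_mul, Dp_C]
  ring

theorem Dp_X (k : V2) (i : Fin 2) : Dp k (X i) = C (k i : ℂ) := by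
  fin_cases i
  · simp [Dp]
  · simp [Dp]

theorem Dp_comm (k l : V2) (P : CP) : Dp k (Dp l P) = Dp l (Dp k P) := by
  induction P using MvPolynomial.induction_on with
  | C a => rw [Dp_C, Dp_C, show (0 : CP) = C 0 by simp, Dp_C, Dp_C]
  | add P Q hP hQ => rw [Dp_add, Dp_add, Dp_add, Dp_add, hP, hQ]
  | mul_X P i hP =>
    simp only [Dp_mul, Dp_X, Dp_add, Dp_C]
    rw [hP]
    ring

theorem mulVec_dot (G : M2) (k l : V2) (hG : G 1 0 = G 0 1) :
    G.mulVec k 0 * l 0 + G.mulVec k 1 * l 1 = ip G k l := by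
  simp only [ip, Fin.sum_univ_two, Matrix.mulVec, dotProduct]
  rw [hG]
  ring

theorem Lp_add (G : M2) (k l : V2) : Lp G (k + l) = Lp G k + Lp G l := by
  simp only [Lp, Matrix.mulVec_add, Pi.add_apply, Complex.ofReal_add, C_add]
  ring

theorem Lp_smul (G : M2) (c : ℝ) (k : V2) : Lp G (c • k) = C (c : ℂ) * Lp G k := by
  simp only [Lp, Matrix.mulVec_smul, Pi.smul_apply, smul_eq_mul, Complex.ofReal_mul, C_mul]
  ring

theorem Dp_Lp (G : M2) (hG : G 1 0 = G 0 1) (k l : V2) : Dp l (Lp G k) = C (ip G k l : ℂ) := by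
  rw [Lp, Dp_add, Dp_C_mul, Dp_C_mul, Dp_X, Dp_X, ← C_mul, ← C_mul, ← C_add,
    ← mulVec_dot G k l hG]
  push_cast
  rfl

/-- restriction to the line `X ↦ X β + Y0 β'` -/
noncomputable def phi (β β' : V2) (Y0 : ℂ) : CP →+* Polynomial ℂ :=
  eval₂Hom Polynomial.C
    (fun i => Polynomial.C (β i : ℂ) * Polynomial.X + Polynomial.C (Y0 * (β' i : ℂ)))

theorem phi_C (β β' : V2) (Y0 : ℂ) (a : ℂ) : phi β β' Y0 (C a) = Polynomial.C a := by
  simp [phi]

theorem phi_X (β β' : V2) (Y0 : ℂ) (i : Fin 2) : phi β β' Y0 (X i) =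
    Polynomial.C (β i : ℂ) * Polynomial.X + Polynomial.C (Y0 * (β' i : ℂ)) := by
  simp [phi]

theorem derivative_phi (β β' : V2) (Y0 : ℂ) (P : CP) :
    Polynomial.derivative (phi β β' Y0 P) = phi β β' Y0 (Dp β P) := by
  induction P using MvPolynomial.induction_on with
  | C a => rw [phi_C, Dp_C, Polynomial.derivative_C, map_zero]
  | add P Q hP hQ => rw [map_add, Polynomial.derivative_add, hP, hQ, Dp_add, map_add]
  | mul_X P i hP =>
    rw [map_mul, Polynomial.derivative_mul, hP, Dp_mul, map_add, map_mul, map_mul, Dp_X, phi_C,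
      phi_X]
    congr 2
    simp

theorem phi_Lp (G : M2) (hG : G 1 0 = G 0 1) (β β' : V2) (Y0 : ℂ) (k : V2) :
    phi β β' Y0 (Lp G k) = Polynomial.C (ip G k β : ℂ) * Polynomial.X
      + Polynomial.C (Y0 * (ip G k β' : ℂ)) := by
  rw [Lp, map_add, map_mul, map_mul, phi_C, phi_C, phi_X, phi_X, ← mulVec_dot G k β hG,
    ← mulVec_dot G k β' hG]
  simp only [Complex.ofReal_add, Complex.ofReal_mul, Polynomial.C_add, Polynomial.C_mul]
  ring

theorem eval_phi (β β' : V2) (Y0 : ℂ) (X0 : ℂ) (P : CP) :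
    Polynomial.eval X0 (phi β β' Y0 P)
      = eval (fun i => (β i : ℂ) * X0 + Y0 * (β' i : ℂ)) P := by
  induction P using MvPolynomial.induction_on with
  | C a => rw [phi_C, Polynomial.eval_C, eval_C]
  | add P Q hP hQ => rw [map_add, Polynomial.eval_add, hP, hQ, map_add]
  | mul_X P i hP =>
    rw [map_mul, Polynomial.eval_mul, hP, map_mul, phi_X, eval_X]
    simp

theorem eval_real (X0 Y0 : ℝ) (β β' : V2) (P : RP) :
    eval (fun i => (β i : ℂ) * (X0 : ℂ) + (Y0 : ℂ) * (β' i : ℂ)) (MvPolynomial.map (algebraMap ℝ ℂ) P)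
      = ((eval (X0 • β + Y0 • β') P : ℝ) : ℂ) := by
  rw [eval_map]
  have h : (fun i => (β i : ℂ) * (X0 : ℂ) + (Y0 : ℂ) * (β' i : ℂ))
      = fun i => algebraMap ℝ ℂ ((X0 • β + Y0 • β') i) := by
    funext i
    simp only [Pi.add_apply, Pi.smul_apply, smul_eq_mul, Complex.coe_algebraMap]
    push_cast
    ring
  rw [h]
  exact (MvPolynomial.eval₂_comp (algebraMap ℝ ℂ) (X0 • β + Y0 • β') P).symm

theorem Dp_map (k : V2) (P : RP) : Dp k (MvPolynomial.map (algebraMap ℝ ℂ) P)
    = MvPolynomial.map (algebraMap ℝ ℂ) (C (k 0) * pderiv 0 P + C (k 1) * pderiv 1 P) := by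
  simp only [Dp, pderiv_map, map_add, map_mul, map_C]
  rfl

theorem toR_add (k l : Z2) : toR (k + l) = toR k + toR l := by
  funext i
  simp [toR]

theorem toR_zsmul (n : ℤ) (k : Z2) : toR (n • k) = (n : ℝ) • toR k := by
  funext i
  simp [toR]

end TrigCAux

open TrigCAux

/-- key step, with given `β, γ` -/
theorem trig_key (G : M2) (hG : G.PosDef) (U : SP) (m : ℕ) (K : ℕ → ℕ → SP) (hK : IsK G U m K)
    (hfin : {k : Z2 | fc (U : V2 → ℝ) k ≠ 0}.Finite) (β γ : Z2)
    (hβ : fc (U : V2 → ℝ) β ≠ 0) (hβ0 : β ≠ 0)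
    (hmax : ∀ k : Z2, fc (U : V2 → ℝ) k ≠ 0 → ip G (toR k) (toR k) ≤ ip G (toR β) (toR β))
    (hγ : fc (U : V2 → ℝ) γ ≠ 0) (hγβ : det2 (toR γ) (toR β) ≠ 0)
    (hg : 0 < ip G (toR γ) (toR β))
    (hγmax : ∀ k : Z2, fc (U : V2 → ℝ) k ≠ 0 → det2 (toR k) (toR β) ≠ 0 →
      ip G (toR k) (toR β) ≤ ip G (toR γ) (toR β)) :
    Rad G (PR m K) := by
  have hs := g_symm G hG
  have hβR : toR β ≠ 0 := by
    intro h
    apply hβ0
    funext i
    have := congrFun h i
    simpa [toR] using this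
  -- the equations
  have hE : ∀ n : ℕ, MvPolynomial.C (fc (U : V2 → ℝ) β) * Dp (toR β) (ff m K n ((n : ℤ) • β))
      = Lp G (toR (((n + 1 : ℕ) : ℤ) • β)) * ff m K (n + 1) (((n + 1 : ℕ) : ℤ) • β) := by
    intro n
    rw [← fr_fin G hG U m K hK hfin n (((n + 1 : ℕ) : ℤ) • β), Finset.sum_eq_single β]
    · congr 3
      push_cast
      rw [add_smul, one_smul]
      abel
    · intro k' hk' hne
      by_cases h0 : ff m K n (((n + 1 : ℕ) : ℤ) • β - k') = 0
      · rw [h0]; simp [Dp]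
      · exact absurd (weight_c1 G hG {k : Z2 | fc (U : V2 → ℝ) k ≠ 0} β hβ hβ0 hmax n k'
          (hfin.mem_toFinset.1 hk') (supp_ff G hG U m K hK hfin n _ h0)) hne
    · intro h
      exact absurd (hfin.mem_toFinset.2 hβ) h
  have hQ0 : MvPolynomial.C (fc (U : V2 → ℝ) γ) * Dp (toR γ) (ff m K 0 0)
      = Lp G (toR γ) * ff m K 1 γ := by
    rw [← fr_fin G hG U m K hK hfin 0 γ, Finset.sum_eq_single γ]
    · congr 3
      abel
    · intro k' hk' hne
      by_cases h0 : ff m K 0 (γ - k') = 0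
      · rw [h0]; simp [Dp]
      · have h1 := supp_ff G hG U m K hK hfin 0 _ h0
        have h2 : γ - k' = 0 := h1
        exact absurd (sub_eq_zero.1 h2).symm hne
    · intro h
      exact absurd (hfin.mem_toFinset.2 hγ) h
  have hne : β ≠ γ := by
    rintro rfl
    apply hγβ
    simp [det2]
    ring
  have hQ : ∀ n : ℕ, MvPolynomial.C (fc (U : V2 → ℝ) β) *
        Dp (toR β) (ff m K (n + 1) (γ + (n : ℤ) • β))
      + MvPolynomial.C (fc (U : V2 → ℝ) γ) * Dp (toR γ) (ff m K (n + 1) (((n + 1 : ℕ) : ℤ) • β))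
      = Lp G (toR (γ + ((n + 1 : ℕ) : ℤ) • β)) * ff m K (n + 2) (γ + ((n + 1 : ℕ) : ℤ) • β) := by
    intro n
    rw [← fr_fin G hG U m K hK hfin (n + 1) (γ + ((n + 1 : ℕ) : ℤ) • β),
      Finset.sum_eq_add β γ hne]
    · congr 4
      · push_cast
        rw [add_smul, one_smul]
        abel
      · abel
    · intro k' hk' hne'
      by_cases h0 : ff m K (n + 1) (γ + ((n + 1 : ℕ) : ℤ) • β - k') = 0
      · rw [h0]; simp [Dp]
      · rcases weight_c2 G hG {k : Z2 | fc (U : V2 → ℝ) k ≠ 0} β γ hβ hβ0 hmax hγ hγβ hg hγmax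
          (n + 1) k' (hfin.mem_toFinset.1 hk') (supp_ff G hG U m K hK hfin (n + 1) _ h0) with h | h
        · exact absurd h hne'.1
        · exact absurd h hne'.2
    · intro h
      exact absurd (hfin.mem_toFinset.2 hβ) h
    · intro h
      exact absurd (hfin.mem_toFinset.2 hγ) h
  -- the frame
  set bR : V2 := toR β with hbR
  set b1 : V2 := J (G.mulVec bR) with hb1
  have hb1_0 : b1 0 = -(G.mulVec bR 1) := by simp [hb1, J]
  have hb1_1 : b1 1 = G.mulVec bR 0 := by simp [hb1, J]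
  have horth : ip G bR b1 = 0 := by
    rw [← mulVec_dot G bR b1 hs, hb1_0, hb1_1]
    ring
  have horth' : ip G b1 bR = 0 := by rw [ip_comm G hG, horth]
  have hb : 0 < ip G bR bR := ip_pos G hG _ hβR
  have hb1ne : b1 ≠ 0 := by
    intro h
    have h0 : G.mulVec bR 1 = 0 := by
      have := hb1_0
      rw [h, Pi.zero_apply] at this
      linarith
    have h1 : G.mulVec bR 0 = 0 := by
      have := hb1_1
      rw [h, Pi.zero_apply] at this
      exact this.symm
    have := mulVec_dot G bR bR hs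
    rw [h0, h1] at this
    linarith
  have hb' : 0 < ip G b1 b1 := ip_pos G hG _ hb1ne
  set b : ℝ := ip G bR bR with hbdef
  set b' : ℝ := ip G b1 b1 with hb'def
  set g : ℝ := ip G (toR γ) bR / b with hgdef
  set h : ℝ := ip G (toR γ) b1 / b' with hhdef
  have hgpos : 0 < g := div_pos hg hb
  have hgb : ip G (toR γ) bR = b * g := by rw [hgdef]; field_simp
  have hhb : ip G (toR γ) b1 = h * b' := by rw [hhdef]; field_simp
  -- `γ = g β + h β'`
  have hdecomp : toR γ = g • bR + h • b1 := by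
    have hz : toR γ - (g • bR + h • b1) = 0 := by
      by_contra hne0
      have hpos := ip_pos G hG _ hne0
      set v := toR γ - (g • bR + h • b1) with hv
      have hv1 : ip G v bR = 0 := by
        have h1 : toR γ = v + (g • bR + h • b1) := by rw [hv]; abel
        have h2 : ip G (toR γ) bR = ip G v bR + (g * b + h * 0) := by
          conv_lhs => rw [h1]
          rw [ip_add_left, ip_add_left, ip_smul_left, ip_smul_left, horth']
        rw [hgb] at h2
        linarith
      have hv2 : ip G v b1 = 0 := by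
        have h1 : toR γ = v + (g • bR + h • b1) := by rw [hv]; abel
        have h2 : ip G (toR γ) b1 = ip G v b1 + (g * 0 + h * b') := by
          conv_lhs => rw [h1]
          rw [ip_add_left, ip_add_left, ip_smul_left, ip_smul_left, horth]
        rw [hhb] at h2
        linarith
      -- `v` is orthogonal to `β` and `β'`
      have hL := ip_lagrange G hG v bR
      rw [hv1] at hL
      have e1 : G.mulVec v 0 * bR 0 + G.mulVec v 1 * bR 1 = 0 := by rw [mulVec_dot G v bR hs, hv1]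
      have e2 : G.mulVec v 0 * b1 0 + G.mulVec v 1 * b1 1 = 0 := by rw [mulVec_dot G v b1 hs, hv2]
      rw [hb1_0, hb1_1] at e2
      have e3 : G.mulVec bR 0 * bR 0 + G.mulVec bR 1 * bR 1 = b := by rw [mulVec_dot G bR bR hs]
      have f0 : G.mulVec v 0 * b = 0 := by
        rw [← e3]
        linear_combination (G.mulVec bR 0) * e1 - bR 1 * e2
      have f1 : G.mulVec v 1 * b = 0 := by
        rw [← e3]
        linear_combination (G.mulVec bR 1) * e1 + bR 0 * e2
      have f0' : G.mulVec v 0 = 0 := by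
        rcases mul_eq_zero.1 f0 with h | h
        · exact h
        · exact absurd h hb.ne'
      have f1' : G.mulVec v 1 = 0 := by
        rcases mul_eq_zero.1 f1 with h | h
        · exact h
        · exact absurd h hb.ne'
      have := mulVec_dot G v v hs
      rw [f0', f1'] at this
      linarith
    exact sub_eq_zero.1 hz
  have hhne : h ≠ 0 := by
    intro h0
    apply hγβ
    rw [hdecomp, h0]
    simp [det2]
    ring
  apply rad_of_frame G hG (PR m K) bR hβR
  intro X0 Y0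
  have key := edge_uni b g hb hgpos (fc (U : V2 → ℝ) β) (fc (U : V2 → ℝ) γ) (h : ℂ)
    ((h : ℂ) * (b' : ℂ) * (Y0 : ℂ)) hβ hγ
    (fun n => phi bR b1 (Y0 : ℂ) (ff m K n ((n : ℤ) • β)))
    (fun n => phi bR b1 (Y0 : ℂ) (Dp b1 (ff m K n ((n : ℤ) • β))))
    (fun n => phi bR b1 (Y0 : ℂ) (ff m K (n + 1) (γ + (n : ℤ) • β))) m
    (by
      intro n hn
      rw [ff_big m K n _ (by omega), map_zero])
    (by
      intro n hn
      rw [ff_big m K n _ (by omega)]
      simp [Dp])
    (by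
      intro n hn
      rw [ff_big m K (n + 1) _ (by omega), map_zero])
    (by
      intro n
      rw [derivative_phi, ← phi_C bR b1 (Y0 : ℂ) (fc (U : V2 → ℝ) β), ← map_mul, hE n,
        map_mul (phi bR b1 (Y0 : ℂ)), phi_Lp G hs, toR_zsmul, ip_smul_left, ip_smul_left, ← hbR,
        horth, ← hbdef]
      push_cast
      simp only [mul_zero, Polynomial.C_0, add_zero])
    (by
      intro n
      have h2 : Lp G (toR (((n + 1 : ℕ) : ℤ) • β)) * Dp b1 (ff m K (n + 1) (((n + 1 : ℕ) : ℤ) • β))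
          = MvPolynomial.C (fc (U : V2 → ℝ) β) * Dp bR (Dp b1 (ff m K n ((n : ℤ) • β))) := by
        have h3 := congrArg (Dp b1) (hE n)
        rw [Dp_C_mul, Dp_mul, Dp_Lp G hs, toR_zsmul, ip_smul_left, ← hbR, horth, mul_zero] at h3
        rw [Dp_comm bR b1, h3, toR_zsmul, ← hbR, Complex.ofReal_zero, map_zero, zero_mul, zero_add]
      rw [derivative_phi, ← phi_C bR b1 (Y0 : ℂ) (fc (U : V2 → ℝ) β), ← map_mul, ← h2,
        map_mul (phi bR b1 (Y0 : ℂ)), phi_Lp G hs, toR_zsmul, ip_smul_left, ip_smul_left, ← hbR,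
        horth, ← hbdef]
      push_cast
      simp only [mul_zero, Polynomial.C_0, add_zero])
    (by
      have h2 := congrArg (phi bR b1 (Y0 : ℂ)) hQ0
      rw [map_mul, map_mul, phi_Lp G hs, phi_C, hgb, hhb] at h2
      have e0 : ((0 : ℕ) : ℤ) • β = 0 := by simp
      rw [e0, add_zero, derivative_phi]
      have h3 : Dp (toR γ) (ff m K 0 0) = MvPolynomial.C (g : ℂ) * Dp bR (ff m K 0 0)
          + MvPolynomial.C (h : ℂ) * Dp b1 (ff m K 0 0) := by
        rw [hdecomp, Dp_add_vec, Dp_smul_vec, Dp_smul_vec]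
      rw [h3, map_add, map_mul, map_mul, phi_C, phi_C] at h2
      rw [h2]
      congr 1
      have c1 : ((b * g : ℝ) : ℂ) = (b : ℂ) * (g : ℂ) := by push_cast; ring
      have c2 : (Y0 : ℂ) * ((h * b' : ℝ) : ℂ) = (h : ℂ) * (b' : ℂ) * (Y0 : ℂ) := by
        push_cast
        ring
      rw [c1, c2])
    (by
      intro n
      have h2 := congrArg (phi bR b1 (Y0 : ℂ)) (hQ n)
      rw [map_add, map_mul, map_mul, map_mul, phi_Lp G hs, phi_C, phi_C, toR_add, toR_zsmul,
        ← hbR, ip_add_left, ip_add_left, ip_smul_left, ip_smul_left, horth, hgb, hhb] at h2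
      have h3 : Dp (toR γ) (ff m K (n + 1) (((n + 1 : ℕ) : ℤ) • β))
          = MvPolynomial.C (g : ℂ) * Dp bR (ff m K (n + 1) (((n + 1 : ℕ) : ℤ) • β))
          + MvPolynomial.C (h : ℂ) * Dp b1 (ff m K (n + 1) (((n + 1 : ℕ) : ℤ) • β)) := by
        rw [hdecomp, Dp_add_vec, Dp_smul_vec, Dp_smul_vec]
      rw [h3, map_add, map_mul, map_mul, phi_C, phi_C] at h2
      rw [derivative_phi, derivative_phi]
      rw [h2]
      congr 1
      have c1 : ((b * g + (((n + 1 : ℕ) : ℤ) : ℝ) * ip G bR bR : ℝ) : ℂ)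
          = (b : ℂ) * ((g : ℂ) + ((n : ℂ) + 1)) := by
        rw [← hbdef]
        push_cast
        ring
      have c2 : (Y0 : ℂ) * ((h * b' + (((n + 1 : ℕ) : ℤ) : ℝ) * 0 : ℝ) : ℂ)
          = (h : ℂ) * (b' : ℂ) * (Y0 : ℂ) := by
        push_cast
        ring
      rw [c1, c2])
    (X0 : ℂ)
  have e0 : ((0 : ℕ) : ℤ) • β = 0 := by simp
  rw [e0, derivative_phi, eval_phi, eval_phi, ff_zero_zero G hG U m K hK, Dp_map, Dp_map, eval_real,
    eval_real] at key
  have key2 : h * (b' * Y0 * MvPolynomial.eval (X0 • bR + Y0 • b1)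
        (MvPolynomial.C (bR 0) * MvPolynomial.pderiv 0 (PR m K)
          + MvPolynomial.C (bR 1) * MvPolynomial.pderiv 1 (PR m K)))
      = h * (b * X0 * MvPolynomial.eval (X0 • bR + Y0 • b1)
        (MvPolynomial.C (b1 0) * MvPolynomial.pderiv 0 (PR m K)
          + MvPolynomial.C (b1 1) * MvPolynomial.pderiv 1 (PR m K))) := by
    have : (((h * (b' * Y0 * MvPolynomial.eval (X0 • bR + Y0 • b1)
        (MvPolynomial.C (bR 0) * MvPolynomial.pderiv 0 (PR m K)
          + MvPolynomial.C (bR 1) * MvPolynomial.pderiv 1 (PR m K))) : ℝ)) : ℂ)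
      = ((h * (b * X0 * MvPolynomial.eval (X0 • bR + Y0 • b1)
        (MvPolynomial.C (b1 0) * MvPolynomial.pderiv 0 (PR m K)
          + MvPolynomial.C (b1 1) * MvPolynomial.pderiv 1 (PR m K))) : ℝ) : ℂ) := by
      push_cast
      linear_combination key
    exact_mod_cast this
  have key3 := mul_left_cancel₀ hhne key2
  simp only [map_add, map_mul, MvPolynomial.eval_C] at key3
  exact key3

end Pool.Agent.W_MP_4b1b5d_an
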